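import Pool.Agent.K1H63.EB.Calculus

/-!
# The Bochner formula for the curvature tensor of an Einstein metric in dimension `n`
-/

set_option autoImplicit false

open scoped BigOperators
open MeasureTheory

namespace Pool.Agent.K1H63.EB

variable {n : ℕ}

/-- The differential calculus on the orthonormal frame bundle `P` of a closed Riemannian manifold of
dimension `n`, with its natural measure `μ`: the same data as in `FrameCalc`, the vector fields being
derivations in the sense of Mathlib (used in the proofs only). -/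
structure FrameBundle (n : ℕ) (P : Type) [MeasurableSpace P] (μ : Measure P) where
  /-- the smooth functions -/
  S : Subalgebra ℝ (P → ℝ)
  /-- smooth functions are integrable (`P` is compact) -/
  integrable : ∀ f : S, Integrable (f : P → ℝ) μ
  /-- the canonical horizontal vector fields -/
  H : Fin n → Derivation ℝ S S
  /-- the fundamental vertical vector fields -/
  V : Fin n → Fin n → Derivation ℝ S S
  /-- the components of the curvature tensor in the frame -/
  R : Fin n → Fin n → Fin n → Fin n → S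
  /-- the algebraic symmetries of the curvature tensor -/
  curv : ∀ p, IsCurv (fun a b c d => (R a b c d : P → ℝ) p)
  /-- the second Bianchi identity -/
  bianchi2 : ∀ m a b c d, H m (R a b c d) + H a (R b m c d) + H b (R m a c d) = 0
  /-- Cartan's structure equation (the Levi-Civita connection has no torsion, its curvature is `R`) -/
  cartan : ∀ (i j : Fin n) (f : S), H i (H j f) - H j (H i f) =
    (1 / 2 : ℝ) • ∑ a, ∑ b, R i j a b * V a b f
  /-- the curvature is a tensor: the rotations of the frame act on its components -/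
  equivariant : ∀ a b i j k l, V a b (R i j k l) =
    (dl a i • R b j k l - dl b i • R a j k l) + (dl a j • R i b k l - dl b j • R i a k l)
    + (dl a k • R i j b l - dl b k • R i j a l) + (dl a l • R i j k b - dl b l • R i j k a)
  /-- the horizontal fields preserve the measure (the divergence theorem on a closed manifold) -/
  stokes : ∀ (i : Fin n) (f : S), ∫ p, (H i f : P → ℝ) p ∂μ = 0

namespace FrameBundle

variable {P : Type} [MeasurableSpace P] {μ : Measure P} (F : FrameBundle n P μ)

/-- the curvature tensor at a frame -/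
def T (p : P) : Ten n := fun a b c d => (F.R a b c d : P → ℝ) p

/-- evaluation at a frame -/
def ev (p : P) : F.S →ₐ[ℝ] ℝ := (Pi.evalAlgHom ℝ (fun _ : P => ℝ) p).comp F.S.val

theorem ev_apply (p : P) (f : F.S) : F.ev p f = (f : P → ℝ) p := rfl

theorem ev_R (p : P) (a b c d : Fin n) : F.ev p (F.R a b c d) = F.T p a b c d := rfl

theorem T_curv (p : P) : IsCurv (F.T p) := F.curv p

theorem ext_ev {f g : F.S} (h : ∀ p, F.ev p f = F.ev p g) : f = g :=
  Subtype.ext (funext h)

theorem R_anti (a b c d : Fin n) : F.R b a c d = - F.R a b c d :=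
  F.ext_ev fun p => by
    rw [map_neg, ev_R, ev_R]
    exact (F.T_curv p).anti a b c d

theorem R_pair (a b c d : Fin n) : F.R c d a b = F.R a b c d :=
  F.ext_ev fun p => (F.T_curv p).pair a b c d

/-- `|∇R|²` -/
def dR2 : F.S := ∑ m, ∑ a, ∑ b, ∑ c, ∑ d, F.H m (F.R a b c d) * F.H m (F.R a b c d)

theorem dR2_nonneg (p : P) : 0 ≤ F.ev p F.dR2 := by
  unfold dR2
  simp only [map_sum, map_mul]
  refine Finset.sum_nonneg fun _ _ => Finset.sum_nonneg fun _ _ => Finset.sum_nonneg fun _ _ =>
    Finset.sum_nonneg fun _ _ => Finset.sum_nonneg fun _ _ => mul_self_nonneg _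

/-- the metric is Einstein with Ricci curvature `c` -/
def Einstein (c : ℝ) : Prop := ∀ p a b, Rc (F.T p) a b = if a = b then c else 0

theorem ric_S {c : ℝ} (hE : F.Einstein c) (a b : Fin n) :
    ∑ e, F.R a e b e = algebraMap ℝ F.S (if a = b then c else 0) :=
  F.ext_ev fun p => by
    rw [map_sum, AlgHom.commutes]
    exact hE p a b

theorem H_ric {c : ℝ} (hE : F.Einstein c) (m a b : Fin n) : ∑ e, F.H m (F.R a e b e) = 0 := by
  rw [← map_sum, F.ric_S hE]
  exact (F.H m).map_algebraMap _

/-- the divergence of the curvature of an Einstein metric vanishes -/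
theorem div_R {c : ℝ} (hE : F.Einstein c) (b d e : Fin n) : ∑ m, F.H m (F.R m b d e) = 0 := by
  have h : ∑ a, (F.H d (F.R a e a b) + F.H a (F.R e d a b) + F.H e (F.R d a a b)) = 0 :=
    Finset.sum_eq_zero fun a _ => F.bianchi2 d a e a b
  rw [Finset.sum_add_distrib, Finset.sum_add_distrib] at h
  have h1 : ∑ a, F.H d (F.R a e a b) = 0 := by
    rw [← F.H_ric hE d e b]
    refine Finset.sum_congr rfl fun a _ => ?_
    rw [F.R_anti e a a b, ← F.R_pair e a a b, F.R_anti b a e a, map_neg, map_neg, neg_neg,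
      F.R_pair e a b a]
  have h2 : ∑ a, F.H e (F.R d a a b) = 0 := by
    have : ∀ a, F.H e (F.R d a a b) = - F.H e (F.R d a b a) := by
      intro a
      rw [← F.R_pair d a a b, F.R_anti b a d a, map_neg, F.R_pair d a b a]
    rw [Finset.sum_congr rfl fun a _ => this a, Finset.sum_neg_distrib, F.H_ric hE e d b, neg_zero]
  rw [h1, h2, zero_add, add_zero] at h
  have h3 : ∀ a, F.H a (F.R e d a b) = F.H a (F.R a b e d) := fun a => by rw [F.R_pair a b e d]
  rw [Finset.sum_congr rfl fun a _ => h3 a] at h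
  have h4 : ∀ m, F.H m (F.R m b d e) = - F.H m (F.R m b e d) := fun m => by
    rw [← F.R_pair m b d e, F.R_anti e d m b, map_neg, F.R_pair m b e d]
  rw [Finset.sum_congr rfl fun m _ => h4 m, Finset.sum_neg_distrib, h, neg_zero]

end FrameBundle
namespace FrameBundle

variable {P : Type} [MeasurableSpace P] {μ : Measure P} (F : FrameBundle n P μ)

/-- the vector field whose divergence is integrated -/
def X (m : Fin n) : F.S := ∑ a, ∑ b, ∑ c, ∑ d, F.R a b c d * F.H a (F.R m b c d)

/-- the commutator term -/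
def C : F.S := ∑ m, ∑ a, ∑ b, ∑ c, ∑ d,
  F.R a b c d * (F.H m (F.H a (F.R m b c d)) - F.H a (F.H m (F.R m b c d)))

theorem dR2_eq : F.dR2 = (2 : ℝ) • ∑ m, ∑ a, ∑ b, ∑ c, ∑ d,
    F.H m (F.R a b c d) * F.H a (F.R m b c d) := by
  have h1 : ∀ m a b c d, F.H m (F.R a b c d) * F.H m (F.R a b c d) =
      F.H m (F.R a b c d) * F.H a (F.R m b c d) + F.H m (F.R b a c d) * F.H b (F.R m a c d) := by
    intro m a b c d
    have h := F.bianchi2 m a b c d
    have e1 : F.H m (F.R b a c d) = - F.H m (F.R a b c d) := by rw [F.R_anti a b c d, map_neg]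
    have e2 : F.H a (F.R b m c d) = - F.H a (F.R m b c d) := by rw [F.R_anti m b c d, map_neg]
    rw [e2] at h
    rw [e1]
    linear_combination F.H m (F.R a b c d) * h
  unfold dR2
  simp only [h1, Finset.sum_add_distrib]
  have h2 : ∑ m, ∑ a, ∑ b, ∑ c, ∑ d, F.H m (F.R b a c d) * F.H b (F.R m a c d) =
      ∑ m, ∑ a, ∑ b, ∑ c, ∑ d, F.H m (F.R a b c d) * F.H a (F.R m b c d) :=
    Finset.sum_congr rfl fun m _ => Finset.sum_comm
  rw [h2, two_smul]

theorem dR2_div {c : ℝ} (hE : F.Einstein c) :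
    F.dR2 = (2 : ℝ) • ∑ m, F.H m (F.X m) - (2 : ℝ) • F.C := by
  rw [dR2_eq]
  have h1 : ∀ m, F.H m (F.X m) = ∑ a, ∑ b, ∑ c, ∑ d, (F.H m (F.R a b c d) * F.H a (F.R m b c d) +
      F.R a b c d * F.H m (F.H a (F.R m b c d))) := by
    intro m
    unfold X
    simp only [map_sum, Derivation.leibniz, smul_eq_mul]
    refine Finset.sum_congr rfl fun a _ => Finset.sum_congr rfl fun b _ =>
      Finset.sum_congr rfl fun c _ => Finset.sum_congr rfl fun d _ => ?_
    ring
  have h2 : ∑ m, ∑ a, ∑ b, ∑ c, ∑ d, F.R a b c d * F.H m (F.H a (F.R m b c d)) = F.C := by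
    unfold C
    simp only [mul_sub, Finset.sum_sub_distrib]
    have h3 : ∑ m, ∑ a, ∑ b, ∑ c, ∑ d, F.R a b c d * F.H a (F.H m (F.R m b c d)) = 0 := by
      rw [Finset.sum_comm]
      refine Finset.sum_eq_zero fun a _ => ?_
      rw [Finset.sum_comm]
      refine Finset.sum_eq_zero fun b _ => ?_
      rw [Finset.sum_comm]
      refine Finset.sum_eq_zero fun c _ => ?_
      rw [Finset.sum_comm]
      refine Finset.sum_eq_zero fun d _ => ?_
      rw [← Finset.mul_sum, ← map_sum, F.div_R hE b c d, map_zero, mul_zero]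
    rw [h3, sub_zero]
  rw [Finset.sum_congr rfl fun m _ => h1 m]
  simp only [Finset.sum_add_distrib]
  rw [h2, smul_add]
  abel

theorem kd_sum1 (f : Fin n → ℝ) (i : Fin n) : ∑ a, dl a i * f a = f i := by simp [dl]

/-- the Ricci identity for the curvature tensor -/
theorem ricci_identity (p : P) (m u i j k l : Fin n) :
    F.ev p (F.H m (F.H u (F.R i j k l)) - F.H u (F.H m (F.R i j k l))) =
      ∑ q, (F.T p m u i q * F.T p q j k l + F.T p m u j q * F.T p i q k l
        + F.T p m u k q * F.T p i j q l + F.T p m u l q * F.T p i j k q) := by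
  rw [F.cartan]
  simp only [F.equivariant, map_smul, map_sum, map_mul, map_add, map_sub, ev_R, smul_eq_mul]
  have hA : ∀ a b, F.T p m u b a = - F.T p m u a b := fun a b => anti' (F.T_curv p) m u a b
  have e1 : ∀ a b, F.T p m u a b * ((dl a i * F.T p b j k l - dl b i * F.T p a j k l)
      + (dl a j * F.T p i b k l - dl b j * F.T p i a k l)
      + (dl a k * F.T p i j b l - dl b k * F.T p i j a l)
      + (dl a l * F.T p i j k b - dl b l * F.T p i j k a)) =
      (dl a i * (F.T p m u a b * F.T p b j k l) + dl a j * (F.T p m u a b * F.T p i b k l)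
      + dl a k * (F.T p m u a b * F.T p i j b l) + dl a l * (F.T p m u a b * F.T p i j k b))
      + (dl b i * (F.T p m u b a * F.T p a j k l) + dl b j * (F.T p m u b a * F.T p i a k l)
      + dl b k * (F.T p m u b a * F.T p i j a l) + dl b l * (F.T p m u b a * F.T p i j k a)) := by
    intro a b
    rw [hA a b]
    ring
  simp only [e1]
  have e2 : ∑ a, ∑ b, ((dl a i * (F.T p m u a b * F.T p b j k l)
      + dl a j * (F.T p m u a b * F.T p i b k l)
      + dl a k * (F.T p m u a b * F.T p i j b l) + dl a l * (F.T p m u a b * F.T p i j k b))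
      + (dl b i * (F.T p m u b a * F.T p a j k l) + dl b j * (F.T p m u b a * F.T p i a k l)
      + dl b k * (F.T p m u b a * F.T p i j a l) + dl b l * (F.T p m u b a * F.T p i j k a))) =
      2 * ∑ a, ∑ b, (dl a i * (F.T p m u a b * F.T p b j k l)
      + dl a j * (F.T p m u a b * F.T p i b k l)
      + dl a k * (F.T p m u a b * F.T p i j b l)
      + dl a l * (F.T p m u a b * F.T p i j k b)) := by
    simp only [Finset.sum_add_distrib]
    have s : ∀ G : Fin n → Fin n → ℝ, ∑ a, ∑ b, G b a = ∑ a, ∑ b, G a b :=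
      fun G => Finset.sum_comm
    rw [s (fun a b => dl a i * (F.T p m u a b * F.T p b j k l)),
      s (fun a b => dl a j * (F.T p m u a b * F.T p i b k l)),
      s (fun a b => dl a k * (F.T p m u a b * F.T p i j b l)),
      s (fun a b => dl a l * (F.T p m u a b * F.T p i j k b))]
    ring
  rw [e2]
  have e3 : ∑ a, ∑ b, (dl a i * (F.T p m u a b * F.T p b j k l)
      + dl a j * (F.T p m u a b * F.T p i b k l)
      + dl a k * (F.T p m u a b * F.T p i j b l)
      + dl a l * (F.T p m u a b * F.T p i j k b)) =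
      ∑ q, (F.T p m u i q * F.T p q j k l + F.T p m u j q * F.T p i q k l
        + F.T p m u k q * F.T p i j q l + F.T p m u l q * F.T p i j k q) := by
    rw [Finset.sum_comm]
    refine Finset.sum_congr rfl fun q _ => ?_
    simp only [Finset.sum_add_distrib, kd_sum1]
  rw [e3]
  ring

end FrameBundle
section
variable {R : Ten n}

theorem c1 (hR : IsCurv R) : ∑ m, ∑ a, ∑ b, ∑ c, ∑ d, ∑ q,
    R a b c d * (R m a m q * R q b c d) = I6 R := by
  have e : ∑ m, ∑ a, ∑ b, ∑ c, ∑ d, ∑ q, R a b c d * (R m a m q * R q b c d) =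
      net R ![1, 2, 3, 4, 0, 1, 0, 5, 5, 2, 3, 4] := by
    rw [net_sum6]
    simp only [T3, Matrix.cons_val, mul_assoc]
  rw [e, net_eval hR (c := 6) (v := 2) (d0 := 0) (d1 := 0) (d2 := 0) (σ := ![0, 1, 5, 2, 3, 4])
    (by decide)]
  simp only [d4s, vals, Matrix.cons_val]
  push_cast
  ring

theorem c2 (hR : IsCurv R) : ∑ m, ∑ a, ∑ b, ∑ c, ∑ d, ∑ q,
    R a b c d * (R m a b q * R m q c d) = - (I7 R / 2) := by
  have e : ∑ m, ∑ a, ∑ b, ∑ c, ∑ d, ∑ q, R a b c d * (R m a b q * R m q c d) =
      net R ![1, 2, 3, 4, 0, 1, 2, 5, 0, 5, 3, 4] := by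
    rw [net_sum6]
    simp only [T3, Matrix.cons_val, mul_assoc]
  rw [e, net_eval hR (c := 9) (v := 1) (d0 := 4) (d1 := 4) (d2 := 1) (σ := ![3, 4, 1, 2, 0, 5])
    (by decide)]
  simp only [d4s, vals, Matrix.cons_val]
  push_cast
  ring

theorem c3 (hR : IsCurv R) : ∑ m, ∑ a, ∑ b, ∑ c, ∑ d, ∑ q,
    R a b c d * (R m a c q * R m b q d) = - I8 R := by
  have e : ∑ m, ∑ a, ∑ b, ∑ c, ∑ d, ∑ q, R a b c d * (R m a c q * R m b q d) =
      net R ![1, 2, 3, 4, 0, 1, 3, 5, 0, 2, 5, 4] := by
    rw [net_sum6]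
    simp only [T3, Matrix.cons_val, mul_assoc]
  rw [e, net_eval hR (c := 11) (v := 0) (d0 := 0) (d1 := 1) (d2 := 3) (σ := ![1, 2, 3, 4, 0, 5])
    (by decide)]
  simp only [d4s, vals, Matrix.cons_val]
  push_cast
  ring

theorem c4 (hR : IsCurv R) : ∑ m, ∑ a, ∑ b, ∑ c, ∑ d, ∑ q,
    R a b c d * (R m a d q * R m b c q) = - I8 R := by
  have e : ∑ m, ∑ a, ∑ b, ∑ c, ∑ d, ∑ q, R a b c d * (R m a d q * R m b c q) =
      net R ![1, 2, 3, 4, 0, 1, 4, 5, 0, 2, 3, 5] := by
    rw [net_sum6]
    simp only [T3, Matrix.cons_val, mul_assoc]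
  rw [e, net_eval hR (c := 11) (v := 0) (d0 := 2) (d1 := 1) (d2 := 1) (σ := ![1, 2, 4, 3, 0, 5])
    (by decide)]
  simp only [d4s, vals, Matrix.cons_val]
  push_cast
  ring

theorem I6_ein {c : ℝ} (hE : ∀ a b, Rc R a b = if a = b then c else 0) : I6 R = c * nS R := by
  unfold I6
  have h1 : ∀ a, ∑ b, Rc R a b * SS R a b = c * SS R a a := by
    intro a
    rw [Finset.sum_eq_single a]
    · rw [hE, if_pos rfl]
    · intro b _ hb
      rw [hE, if_neg (Ne.symm hb), zero_mul]
    · simp
  rw [Finset.sum_congr rfl fun a _ => h1 a, ← Finset.mul_sum]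
  rfl

end

/-- the curvature term of the Bochner formula for an Einstein curvature tensor with Ricci
curvature `c` -/
noncomputable def boch (c : ℝ) (R : Ten n) : ℝ := I7 R + 4 * I8 R - 2 * c * nS R

namespace FrameBundle

variable {P : Type} [MeasurableSpace P] {μ : Measure P} (F : FrameBundle n P μ)

theorem ev_C (p : P) : F.ev p F.C = I6 (F.T p) - I7 (F.T p) / 2 - 2 * I8 (F.T p) := by
  unfold C
  simp only [map_sum, map_mul, ricci_identity, ev_R, Finset.mul_sum, mul_add,
    Finset.sum_add_distrib]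
  rw [c1 (F.T_curv p), c2 (F.T_curv p), c3 (F.T_curv p), c4 (F.T_curv p)]
  ring

theorem dR2_ev {c : ℝ} (hE : F.Einstein c) (p : P) :
    F.ev p F.dR2 = 2 * ∑ m, F.ev p (F.H m (F.X m)) + boch c (F.T p) := by
  rw [F.dR2_div hE, map_sub, map_smul, map_smul, map_sum, ev_C, I6_ein (hE p), smul_eq_mul,
    smul_eq_mul]
  unfold boch
  ring

theorem ev_integrable (f : F.S) : Integrable (fun p => F.ev p f) μ := F.integrable f

theorem integral_H (m : Fin n) (f : F.S) : ∫ p, F.ev p (F.H m f) ∂μ = 0 := F.stokes m f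

/-- The integrated Bochner formula: `∫ (I7 + 4 I8 - 2 c |R|²) = ∫ |∇R|²`. -/
theorem integral_boch {c : ℝ} (hE : F.Einstein c) :
    Integrable (fun p => boch c (F.T p)) μ ∧
      ∫ p, boch c (F.T p) ∂μ = ∫ p, F.ev p F.dR2 ∂μ := by
  have h1 : (fun p => boch c (F.T p)) =
      fun p => F.ev p F.dR2 - 2 * ∑ m, F.ev p (F.H m (F.X m)) := by
    funext p
    rw [F.dR2_ev hE p]
    ring
  have hs : Integrable (fun p => ∑ m, F.ev p (F.H m (F.X m))) μ :=
    integrable_finsetSum _ fun m _ => F.ev_integrable _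
  rw [h1]
  refine ⟨(F.ev_integrable _).sub (hs.const_mul 2), ?_⟩
  rw [integral_sub (F.ev_integrable _) (hs.const_mul 2), integral_const_mul,
    integral_finsetSum _ fun m _ => F.ev_integrable _]
  simp only [integral_H, Finset.sum_const_zero, mul_zero, sub_zero]

theorem integral_boch_nonneg {c : ℝ} (hE : F.Einstein c) : 0 ≤ ∫ p, boch c (F.T p) ∂μ := by
  rw [(F.integral_boch hE).2]
  exact integral_nonneg fun p => F.dR2_nonneg p

end FrameBundle

end Pool.Agent.K1H63.EB
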