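import Pool.Agent.K1H63.EB.NetVal

/-!
# The differential calculus on the orthonormal frame bundle of a closed Riemannian `n`-manifold
-/

set_option autoImplicit false

open scoped BigOperators
open MeasureTheory

namespace Pool.Agent.K1H63.EB

variable {n : ℕ}

/-- `D` is a derivation of the algebra `S` of functions (a smooth vector field). -/
structure IsField {P : Type} (S : Subalgebra ℝ (P → ℝ)) (D : (P → ℝ) → P → ℝ) : Prop where
  mem : ∀ f ∈ S, D f ∈ S
  add : ∀ f ∈ S, ∀ g ∈ S, D (f + g) = D f + D g
  smul : ∀ (c : ℝ), ∀ f ∈ S, D (c • f) = c • D f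
  leibniz : ∀ f ∈ S, ∀ g ∈ S, D (f * g) = f * D g + g * D f

/-- the infinitesimal rotation of the components `T` in the plane of the indices `a`, `b` (the action
of the matrix `E_ba - E_ab`) -/
def rot (T : Ten n) (a b i j k l : Fin n) : ℝ :=
  (dl a i * T b j k l - dl b i * T a j k l) + (dl a j * T i b k l - dl b j * T i a k l)
    + (dl a k * T i j b l - dl b k * T i j a l) + (dl a l * T i j k b - dl b l * T i j k a)

/-- The differential calculus on the orthonormal frame bundle `P` of a closed Riemannian manifold of
dimension `n`, with its natural measure `μ`. -/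
structure FrameCalc (n : ℕ) (P : Type) [TopologicalSpace P] [MeasurableSpace P]
    (μ : Measure P) where
  /-- the smooth functions -/
  S : Subalgebra ℝ (P → ℝ)
  /-- the canonical horizontal vector fields -/
  H : Fin n → (P → ℝ) → P → ℝ
  /-- the fundamental vertical vector fields -/
  V : Fin n → Fin n → (P → ℝ) → P → ℝ
  /-- the components of the curvature tensor in the frame -/
  R : Fin n → Fin n → Fin n → Fin n → P → ℝ
  /-- smooth functions are continuous -/
  continuous : ∀ f ∈ S, Continuous f
  /-- smooth functions are integrable (`P` is compact) -/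
  integrable : ∀ f ∈ S, Integrable f μ
  H_field : ∀ i, IsField S (H i)
  V_field : ∀ a b, IsField S (V a b)
  R_mem : ∀ a b c d, R a b c d ∈ S
  /-- the algebraic symmetries of the curvature tensor -/
  curv : ∀ p, IsCurv (fun a b c d => R a b c d p)
  /-- the second Bianchi identity -/
  bianchi2 : ∀ m a b c d p,
    H m (R a b c d) p + H a (R b m c d) p + H b (R m a c d) p = 0
  /-- Cartan's structure equation (the Levi-Civita connection has no torsion, its curvature is `R`) -/
  cartan : ∀ (i j : Fin n), ∀ f ∈ S, ∀ p, H i (H j f) p - H j (H i f) p =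
    (1 / 2) * ∑ a, ∑ b, R i j a b p * V a b f p
  /-- the curvature is a tensor: the rotations of the frame act on its components -/
  equivariant : ∀ a b i j k l p, V a b (R i j k l) p =
    rot (fun a b c d => R a b c d p) a b i j k l
  /-- the horizontal fields preserve the measure (the divergence theorem on a closed manifold) -/
  stokes : ∀ (i : Fin n), ∀ f ∈ S, ∫ p, H i f p ∂μ = 0

/-- the curvature tensor at a frame -/
def FrameCalc.T {P : Type} [TopologicalSpace P] [MeasurableSpace P] {μ : Measure P}
    (F : FrameCalc n P μ) (p : P) : Ten n := fun a b c d => F.R a b c d p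

/-- the Ricci tensor of the components `R` is `c` times the identity -/
def IsEinstein (R : Ten n) (c : ℝ) : Prop := ∀ a b, Rc R a b = if a = b then c else 0

/-- all sectional curvatures of the components `R` are at most `b` -/
def SecLE (R : Ten n) (b : ℝ) : Prop :=
  ∀ y z : Fin n → ℝ, ∑ a, y a ^ 2 = 1 → ∑ a, z a ^ 2 = 1 → ∑ a, y a * z a = 0 → quad R y z ≤ b

/-- `R` has constant sectional curvature `κ` -/
def IsConst (R : Ten n) (κ : ℝ) : Prop :=
  ∀ a b c d, R a b c d = κ * ((if a = c ∧ b = d then 1 else 0) - if a = d ∧ b = c then 1 else 0)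

end Pool.Agent.K1H63.EB
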