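import Pool.Agent.K1H63.EB.Pinch

/-!
# The finite inequality, dimension 11

Generated: an explicit sum of squares certificate.
-/

set_option autoImplicit false
set_option maxRecDepth 4000

namespace Pool.Agent.K1H63.EB

theorem cert10_core (y1 y2 y3 y4 y5 y6 y7 y8 y9 y10 : ℝ)
    (h1 : 0 ≤ y1)
    (h2 : 0 ≤ y2)
    (h3 : 0 ≤ y3)
    (h4 : 0 ≤ y4)
    (h5 : 0 ≤ y5)
    (h6 : 0 ≤ y6)
    (h7 : 0 ≤ y7)
    (h8 : 0 ≤ y8)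
    (h9 : 0 ≤ y9)
    (h10 : 0 ≤ y10) :
    1538 / 65536 * (y1*y1*y1 + y2*y2*y2 + y3*y3*y3 + y4*y4*y4 + y5*y5*y5 + y6*y6*y6 + y7*y7*y7 + y8*y8*y8 + y9*y9*y9) ≤
      (171/11)*y1*y1*y1 + (503/11)*y1*y1*y2 + (493/11)*y1*y1*y3 + (483/11)*y1*y1*y4 +
      43*y1*y1*y5 + (463/11)*y1*y1*y6 + (453/11)*y1*y1*y7 + (443/11)*y1*y1*y8 +
      (433/11)*y1*y1*y9 + (423/11)*y1*y1*y10 + (483/11)*y1*y2*y2 + (898/11)*y1*y2*y3 +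
      (830/11)*y1*y2*y4 + (762/11)*y1*y2*y5 + (694/11)*y1*y2*y6 + (626/11)*y1*y2*y7 +
      (558/11)*y1*y2*y8 + (490/11)*y1*y2*y9 + (642/11)*y1*y2*y10 + (405/11)*y1*y3*y3 +
      (694/11)*y1*y3*y4 + (578/11)*y1*y3*y5 + 42*y1*y3*y6 + (346/11)*y1*y3*y7 +
      (230/11)*y1*y3*y8 + (224/11)*y1*y3*y9 + (438/11)*y1*y3*y10 + (279/11)*y1*y4*y4 +
      (394/11)*y1*y4*y5 + (230/11)*y1*y4*y6 + 6*y1*y4*y7 + (12/11)*y1*y4*y8 + (-42/11)*y1*y4*y9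
      + (234/11)*y1*y4*y10 + (105/11)*y1*y5*y5 + (-2/11)*y1*y5*y6 + (-104/11)*y1*y5*y7 +
      (-206/11)*y1*y5*y8 + (-28)*y1*y5*y9 + (30/11)*y1*y5*y10 + (-62/11)*y1*y6*y6 +
      (-274/11)*y1*y6*y7 + (-424/11)*y1*y6*y8 + (-574/11)*y1*y6*y9 + (-174/11)*y1*y6*y10 +
      (-222/11)*y1*y7*y7 + (-642/11)*y1*y7*y8 + (-840/11)*y1*y7*y9 + (-378/11)*y1*y7*y10 +
      (-430/11)*y1*y8*y8 + (-1106/11)*y1*y8*y9 + (-582/11)*y1*y8*y10 + (-686/11)*y1*y9*y9 +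
      (-786/11)*y1*y9*y10 + (322/11)*y2*y2*y2 + (898/11)*y2*y2*y3 + (830/11)*y2*y2*y4 +
      (762/11)*y2*y2*y5 + (694/11)*y2*y2*y6 + (626/11)*y2*y2*y7 + (558/11)*y2*y2*y8 +
      (490/11)*y2*y2*y9 + (642/11)*y2*y2*y10 + (810/11)*y2*y3*y3 + (1388/11)*y2*y3*y4 +
      (1156/11)*y2*y3*y5 + 84*y2*y3*y6 + (692/11)*y2*y3*y7 + (460/11)*y2*y3*y8 +
      (558/11)*y2*y3*y9 + (876/11)*y2*y3*y10 + (558/11)*y2*y4*y4 + (788/11)*y2*y4*y5 +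
      (460/11)*y2*y4*y6 + 12*y2*y4*y7 + (24/11)*y2*y4*y8 + (136/11)*y2*y4*y9 +
      (468/11)*y2*y4*y10 + (210/11)*y2*y5*y5 + (-4/11)*y2*y5*y6 + (-208/11)*y2*y5*y7 +
      (-412/11)*y2*y5*y8 + (-26)*y2*y5*y9 + (60/11)*y2*y5*y10 + (-124/11)*y2*y6*y6 +
      (-548/11)*y2*y6*y7 + (-848/11)*y2*y6*y8 + (-708/11)*y2*y6*y9 + (-348/11)*y2*y6*y10 +
      (-444/11)*y2*y7*y7 + (-1284/11)*y2*y7*y8 + (-1130/11)*y2*y7*y9 + (-756/11)*y2*y7*y10 +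
      (-860/11)*y2*y8*y8 + (-1552/11)*y2*y8*y9 + (-1164/11)*y2*y8*y10 + (-602/11)*y2*y9*y9 +
      (-582/11)*y2*y9*y10 + (405/11)*y3*y3*y3 + (1041/11)*y3*y3*y4 + (867/11)*y3*y3*y5 +
      63*y3*y3*y6 + (519/11)*y3*y3*y7 + (345/11)*y3*y3*y8 + (501/11)*y3*y3*y9 +
      (657/11)*y3*y3*y10 + (837/11)*y3*y4*y4 + (1182/11)*y3*y4*y5 + (690/11)*y3*y4*y6 +
      18*y3*y4*y7 + (146/11)*y3*y4*y8 + (424/11)*y3*y4*y9 + (702/11)*y3*y4*y10 +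
      (315/11)*y3*y5*y5 + (-6/11)*y3*y5*y6 + (-312/11)*y3*y5*y7 + (-398/11)*y3*y5*y8 +
      (-14)*y3*y5*y9 + (90/11)*y3*y5*y10 + (-186/11)*y3*y6*y6 + (-822/11)*y3*y6*y7 +
      (-942/11)*y3*y6*y8 + (-732/11)*y3*y6*y9 + (-522/11)*y3*y6*y10 + (-666/11)*y3*y7*y7 +
      (-1486/11)*y3*y7*y8 + (-1310/11)*y3*y7*y9 + (-1134/11)*y3*y7*y10 + (-740/11)*y3*y8*y8 +
      (-1118/11)*y3*y8*y9 + (-756/11)*y3*y8*y10 + (-408/11)*y3*y9*y9 + (-378/11)*y3*y9*y10 +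
      (372/11)*y4*y4*y4 + (788/11)*y4*y4*y5 + (460/11)*y4*y4*y6 + 12*y4*y4*y7 +
      (244/11)*y4*y4*y8 + (356/11)*y4*y4*y9 + (468/11)*y4*y4*y10 + (420/11)*y4*y5*y5 +
      (-8/11)*y4*y5*y6 + (-306/11)*y4*y5*y7 + (-164/11)*y4*y5*y8 + (-2)*y4*y5*y9 +
      (120/11)*y4*y5*y10 + (-248/11)*y4*y6*y6 + (-876/11)*y4*y6*y7 + (-816/11)*y4*y6*y8 +
      (-756/11)*y4*y6*y9 + (-696/11)*y4*y6*y10 + (-558/11)*y4*y7*y7 + (-918/11)*y4*y7*y8 +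
      (-720/11)*y4*y7*y9 + (-522/11)*y4*y7*y10 + (-400/11)*y4*y8*y8 + (-574/11)*y4*y8*y9 +
      (-348/11)*y4*y8*y10 + (-214/11)*y4*y9*y9 + (-174/11)*y4*y9*y10 + (175/11)*y5*y5*y5 +
      (-5/11)*y5*y5*y6 + (15/11)*y5*y5*y7 + (35/11)*y5*y5*y8 + 5*y5*y5*y9 + (75/11)*y5*y5*y10 +
      (-200/11)*y5*y6*y6 + (-270/11)*y5*y6*y7 + (-140/11)*y5*y6*y8 + (-10/11)*y5*y6*y9 +
      (120/11)*y5*y6*y10 + (-120/11)*y5*y7*y7 + (-130/11)*y5*y7*y8 + (-20/11)*y5*y7*y9 +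
      (90/11)*y5*y7*y10 + (-60/11)*y5*y8*y8 + (-30/11)*y5*y8*y9 + (60/11)*y5*y8*y10 +
      (-20/11)*y5*y9*y9 + (30/11)*y5*y9*y10 + (96/11)*y6*y6*y6 + (333/11)*y6*y6*y7 +
      (378/11)*y6*y6*y8 + (423/11)*y6*y6*y9 + (468/11)*y6*y6*y10 + (318/11)*y6*y7*y7 +
      (658/11)*y6*y7*y8 + (680/11)*y6*y7*y9 + (702/11)*y6*y7*y10 + (280/11)*y6*y8*y8 +
      (514/11)*y6*y8*y9 + (468/11)*y6*y8*y10 + (174/11)*y6*y9*y9 + (234/11)*y6*y9*y10 +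
      (252/11)*y7*y7*y7 + (723/11)*y7*y7*y8 + (690/11)*y7*y7*y9 + (657/11)*y7*y7*y10 +
      (620/11)*y7*y8*y8 + (1058/11)*y7*y8*y9 + (876/11)*y7*y8*y10 + (368/11)*y7*y9*y9 +
      (438/11)*y7*y9*y10 + (320/11)*y8*y8*y8 + (801/11)*y8*y8*y9 + (642/11)*y8*y8*y10 +
      (562/11)*y8*y9*y9 + (642/11)*y8*y9*y10 + (252/11)*y9*y9*y9 + (423/11)*y9*y9*y10 := by
  have k1 : 0 ≤ y1*((1005*y1 + 280*y2 + 89*y3 - 18*y4 - 51*y5 - 45*y6 - 60*y7 - 89*y8 - 477*y9)^2 + (1324*y2 + 919*y3 + 641*y4 + 253*y5 - 151*y6 - 401*y7 - 713*y8 - 279*y9)^2 + (1107*y3 + 592*y4 + 202*y5 - 153*y6 - 553*y7 - 318*y8 - 28*y9)^2 + (969*y4 + 261*y5 - 329*y6 - 293*y7 - 67*y8 - 11*y9)^2 + (590*y5 - 251*y6 - 44*y7 - 19*y8 - 9*y9)^2 + (409*y6 - 94*y7 - 32*y8 - 9*y9)^2 + (412*y7 - 160*y8 +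
      y9)^2 + (113*y8 - 26*y9)^2 + (65*y9)^2) +
      y2*((1556*y1 + 332*y2 + 138*y3 + 69*y4 + 29*y5 - 9*y6 - 58*y7 - 160*y8 - 725*y9)^2 + (1342*y2 + 769*y3 + 436*y4 + 111*y5 - 175*y6 - 374*y7 - 605*y8 - 279*y9)^2 + (1351*y3 + 858*y4 + 346*y5 - 188*y6 - 681*y7 - 433*y8 - 32*y9)^2 + (1109*y4 + 312*y5 - 423*y6 - 344*y7 - 68*y8 - 11*y9)^2 + (664*y5 - 233*y6 - 39*y7 - 34*y8 - 11*y9)^2 + (572*y6 - 98*y7 - 60*y8 - 11*y9)^2 + (517*y7 - 207*y8 + 3*y9)^2 + (60*y8)^2 + (67*y9)^2) +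
      y3*((1654*y1 + 730*y2 + 91*y3 + 42*y4 + 3*y5 - 44*y6 - 67*y7 - 239*y8 - 839*y9)^2 + (1630*y2 + 691*y3 + 396*y4 + 157*y5 - 103*y6 - 303*y7 - 697*y8 - 330*y9)^2 + (1387*y3 + 765*y4 + 246*y5 - 226*y6 - 560*y7 - 456*y8 - 41*y9)^2 + (1272*y4 + 434*y5 - 378*y6 - 538*y7 - 49*y8 - 9*y9)^2 + (779*y5 - 355*y6 - 78*y7 - 12*y8 - 10*y9)^2 + (561*y6 - 196*y7 - 18*y8 - 9*y9)^2 + (210*y7 - 78*y8 - y9)^2 + (59*y8 +
      y9)^2 + (79*y9)^2) +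
      y4*((1697*y1 + 885*y2 + 428*y3 - 36*y4 - 27*y5 - 27*y6 - 97*y7 - 382*y8 - 888*y9)^2 + (1714*y2 + 918*y3 + 354*y4 + 124*y5 - 97*y6 - 326*y7 - 786*y8 - 346*y9)^2 + (1579*y3 + 632*y4 + 227*y5 - 167*y6 - 528*y7 - 520*y8 - 34*y9)^2 + (1296*y4 + 416*y5 - 331*y6 - 574*y7 - 45*y8 - 34*y9)^2 + (897*y5 - 503*y6 - 53*y7 - 13*y8 + 2*y9)^2 + (345*y6 - 119*y7 - 11*y8 - 12*y9)^2 + (133*y7 - 43*y8 +
      y9)^2 + (61*y8)^2 + (94*y9)^2) +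
      y5*((1697*y1 + 1107*y2 + 722*y3 + 365*y4 - 87*y6 - 306*y7 - 552*y8 - 939*y9)^2 + (1728*y2 + 1055*y3 + 609*y4 + 162*y5 - 158*y6 - 445*y7 - 843*y8 - 354*y9)^2 + (1619*y3 + 831*y4 + 197*y5 - 175*y6 - 612*y7 - 538*y8 - 34*y9)^2 + (1424*y4 + 319*y5 - 254*y6 - 614*y7 - 57*y8 - 22*y9)^2 + (926*y5 - 542*y6 - 69*y7 - 5*y8 - 48*y9)^2 + (114*y6 - 32*y7 - 2*y8 - y9)^2 + (165*y7 - 58*y8 + 2*y9)^2 + (63*y8 - 2*y9)^2 + (100*y9)^2) +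
      y6*((1677*y1 + 1355*y2 + 1031*y3 + 710*y4 + 233*y5 - 247*y6 - 517*y7 - 733*y8 - 995*y9)^2 + (1663*y2 + 1168*y3 + 782*y4 + 243*y5 - 214*y6 - 541*y7 - 866*y8 - 349*y9)^2 + (1572*y3 + 933*y4 + 304*y5 - 242*y6 - 656*y7 - 528*y8 - 41*y9)^2 + (1370*y4 + 439*y5 - 320*y6 - 606*y7 - 53*y8 - 33*y9)^2 + (919*y5 - 538*y6 - 51*y7 - 11*y8 + 2*y9)^2 + (94*y6 - 22*y7 - y8 - 2*y9)^2 + (145*y7 - 49*y8 + 2*y9)^2 + (62*y8 - y9)^2 + (96*y9)^2) +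
      y7*((1672*y1 + 1489*y2 + 1263*y3 + 718*y4 + 290*y5 - 117*y6 - 624*y7 - 848*y8 - 1028*y9)^2 + (1597*y2 + 1214*y3 + 688*y4 + 290*y5 - 97*y6 - 562*y7 - 863*y8 - 341*y9)^2 + (1416*y3 + 887*y4 + 361*y5 - 193*y6 - 642*y7 - 481*y8 - 43*y9)^2 + (1176*y4 + 480*y5 - 305*y6 - 544*y7 - 45*y8 - 11*y9)^2 + (670*y5 - 241*y6 - 92*y7 - 12*y8 - 9*y9)^2 + (721*y6 - 257*y7 - 22*y8 - 11*y9)^2 + (98*y7 - 25*y8)^2 + (58*y8 +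
      y9)^2 + (81*y9)^2) +
      y8*((1675*y1 + 1715*y2 + 1247*y3 + 824*y4 + 344*y5 - 132*y6 - 552*y7 - 964*y8 - 1075*y9)^2 + (1453*y2 + 1111*y3 + 733*y4 + 354*y5 - 41*y6 - 477*y7 - 845*y8 - 315*y9)^2 + (1239*y3 + 803*y4 + 326*y5 - 160*y6 - 732*y7 - 361*y8 - 33*y9)^2 + (945*y4 + 193*y5 - 628*y6 - 267*y7 - 12*y8 - 2*y9)^2 + (586*y5 + 163*y6 + 102*y7 - 150*y8 - 16*y9)^2 + (865*y6 + 79*y7 - 183*y8 - 16*y9)^2 + (666*y7 - 268*y8 + 4*y9)^2 + (58*y8 + 2*y9)^2 + (65*y9)^2) +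
      y9*((1880*y1 + 1643*y2 + 1266*y3 + 836*y4 + 387*y5 - 64*y6 - 505*y7 - 928*y8 - 1171*y9)^2 + (1201*y2 + 901*y3 + 508*y4 + 186*y5 - 124*y6 - 536*y7 - 916*y8 - 147*y9)^2 + (1125*y3 + 606*y4 + 35*y5 - 530*y6 - 1073*y7 - 50*y8 - 12*y9)^2 + (1022*y4 + 98*y5 - 838*y6 - 38*y7 + 64*y8 - 40*y9)^2 + (540*y5 + 430*y6 + 349*y7 + 163*y8 - 168*y9)^2 + (762*y6 + 312*y7 + 136*y8 - 143*y9)^2 + (651*y7 + 120*y8 - 122*y9)^2 + (601*y8 - 194*y9)^2 + (60*y9)^2) +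
      y10*((1566*y1 + 1159*y2 + 764*y3 + 371*y4 - 17*y5 - 405*y6 - 788*y7 - 1168*y8 - 1518*y9)^2 + (1527*y2 + 998*y3 + 498*y4 - 3*y5 - 504*y6 - 999*y7 - 1436*y8 - 45*y9)^2 + (1453*y3 + 700*y4 + 3*y5 - 694*y6 - 1307*y7 - 79*y8 - 20*y9)^2 + (1275*y4 + 8*y5 - 1054*y6 - 92*y7 - 28*y8 - 27*y9)^2 + (508*y5 + 11*y6 - 47*y7 - 93*y8 - 102*y9)^2 + (699*y6 - 44*y7 - 129*y8 - 141*y9)^2 + (590*y7 - 106*y8 - 144*y9)^2 + (453*y8 - 150*y9)^2 + (268*y9)^2) := by positivity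
  have k2 : 0 ≤
      (79463/11)*y1*y1*y1 + (141312/11)*y1*y1*y2 + (248582/11)*y1*y1*y3 + (373969/11)*y1*y1*y4
      + 40749*y1*y1*y5 + (402499/11)*y1*y1*y6 + (262984/11)*y1*y1*y7 + (138363/11)*y1*y1*y8 +
      (45158/11)*y1*y1*y9 + (745812/11)*y1*y1*y10 + (143728/11)*y1*y2*y2 + (247200/11)*y1*y2*y3
      + (432114/11)*y1*y2*y4 + (561742/11)*y1*y2*y5 + (474230/11)*y1*y2*y6 +
      (289544/11)*y1*y2*y7 + (164962/11)*y1*y2*y8 + (41392/11)*y1*y2*y9 +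
      (2144244/11)*y1*y2*y10 + (373531/11)*y1*y3*y3 + (632674/11)*y1*y3*y4 +
      (880692/11)*y1*y3*y5 + 64380*y1*y3*y6 + (347920/11)*y1*y3*y7 + (152330/11)*y1*y3*y8 +
      (104536/11)*y1*y3*y9 + (2383440/11)*y1*y3*y10 + (921638/11)*y1*y4*y4 +
      (1419444/11)*y1*y4*y5 + (1004434/11)*y1*y4*y6 + 55950*y1*y4*y7 + (273040/11)*y1*y4*y8 +
      (167856/11)*y1*y4*y9 + (2553732/11)*y1*y4*y10 + (1121295/11)*y1*y5*y5 +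
      (1137690/11)*y1*y5*y6 + (816804/11)*y1*y5*y7 + (344778/11)*y1*y5*y8 + 17032*y1*y5*y9 +
      (2551764/11)*y1*y5*y10 + (795248/11)*y1*y6*y6 + (650252/11)*y1*y6*y7 +
      (291226/11)*y1*y6*y8 + (197256/11)*y1*y6*y9 + (2549796/11)*y1*y6*y10 +
      (301899/11)*y1*y7*y7 + (117356/11)*y1*y7*y8 + (111592/11)*y1*y7*y9 +
      (2375568/11)*y1*y7*y10 + (64693/11)*y1*y8*y8 + (48610/11)*y1*y8*y9 +
      (2097984/11)*y1*y8*y10 + (50135/11)*y1*y9*y9 + (786840/11)*y1*y9*y10 +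
      (62606/11)*y2*y2*y2 + (51620/11)*y2*y2*y3 + (87209/11)*y2*y2*y4 + (123689/11)*y2*y2*y5 +
      (96886/11)*y2*y2*y6 + (48314/11)*y2*y2*y7 + (22974/11)*y2*y2*y8 + (84886/11)*y2*y2*y9 +
      (1649002/11)*y2*y2*y10 + (51774/11)*y2*y3*y3 + (52576/11)*y2*y3*y4 + (141194/11)*y2*y3*y5
      + 5876*y2*y3*y6 + (10584/11)*y2*y3*y7 + (6560/11)*y2*y3*y8 + (182496/11)*y2*y3*y9 +
      (4402252/11)*y2*y3*y10 + (151454/11)*y2*y4*y4 + (199306/11)*y2*y4*y5 +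
      (115878/11)*y2*y4*y6 + 5694*y2*y4*y7 + (6706/11)*y2*y4*y8 + (257920/11)*y2*y4*y9 +
      (4481278/11)*y2*y4*y10 + (221670/11)*y2*y5*y5 + (198338/11)*y2*y5*y6 +
      (114288/11)*y2*y5*y7 + (33890/11)*y2*y5*y8 + 27584*y2*y5*y9 + (4466408/11)*y2*y5*y10 +
      (175038/11)*y2*y6*y6 + (95806/11)*y2*y6*y7 + (46774/11)*y2*y6*y8 + (249268/11)*y2*y6*y9 +
      (4451538/11)*y2*y6*y10 + (47055/11)*y2*y7*y7 + (37900/11)*y2*y7*y8 + (165500/11)*y2*y7*y9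
      + (4107614/11)*y2*y7*y10 + (37657/11)*y2*y8*y8 + (67344/11)*y2*y8*y9 +
      (1738744/11)*y2*y8*y10 + (55467/11)*y2*y9*y9 + (2075742/11)*y2*y9*y10 +
      (20321/11)*y3*y3*y3 + (65051/11)*y3*y3*y4 + (110378/11)*y3*y3*y5 + 7677*y3*y3*y6 +
      (27133/11)*y3*y3*y7 + (29615/11)*y3*y3*y8 + (298946/11)*y3*y3*y9 + (2457153/11)*y3*y3*y10
      + (109129/11)*y3*y4*y4 + (141054/11)*y3*y4*y5 + (88490/11)*y3*y4*y6 + 3600*y3*y4*y7 +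
      (32004/11)*y3*y4*y8 + (557314/11)*y3*y4*y9 + (6460216/11)*y3*y4*y10 +
      (182993/11)*y3*y5*y5 + (121364/11)*y3*y5*y6 + (46098/11)*y3*y5*y7 + (1874/11)*y3*y5*y8 +
      53856*y3*y5*y9 + (6153946/11)*y3*y5*y10 + (161269/11)*y3*y6*y6 + (98686/11)*y3*y6*y7 +
      (31738/11)*y3*y6*y8 + (534392/11)*y3*y6*y9 + (5847676/11)*y3*y6*y10 + (33606/11)*y3*y7*y7
      + (30186/11)*y3*y7*y8 + (305956/11)*y3*y7*y9 + (2640486/11)*y3*y7*y10 +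
      (47064/11)*y3*y8*y8 + (160240/11)*y3*y8*y9 + (4140658/11)*y3*y8*y10 + (55761/11)*y3*y9*y9
      + (2369276/11)*y3*y9*y10 + (100302/11)*y4*y4*y4 + (191199/11)*y4*y4*y5 +
      (146909/11)*y4*y4*y6 + 6843*y4*y4*y7 + (27639/11)*y4*y4*y8 + (708832/11)*y4*y4*y9 +
      (3156878/11)*y4*y4*y10 + (261169/11)*y4*y5*y5 + (194562/11)*y4*y5*y6 +
      (123548/11)*y4*y5*y7 + (66922/11)*y4*y5*y8 + 103954*y4*y5*y9 + (7765342/11)*y4*y5*y10 +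
      (183118/11)*y4*y6*y6 + (120420/11)*y4*y6*y7 + (39868/11)*y4*y6*y8 + (782402/11)*y4*y6*y9
      + (3466678/11)*y4*y6*y10 + (51760/11)*y4*y7*y7 + (47904/11)*y4*y7*y8 +
      (542552/11)*y4*y7*y9 + (5875308/11)*y4*y7*y10 + (52313/11)*y4*y8*y8 +
      (237010/11)*y4*y8*y9 + (4461504/11)*y4*y8*y10 + (99417/11)*y4*y9*y9 +
      (2545022/11)*y4*y9*y10 + (184692/11)*y5*y5*y5 + (144682/11)*y5*y5*y6 +
      (180117/11)*y5*y5*y7 + (95487/11)*y5*y5*y8 + 71910*y5*y5*y9 + (2072415/11)*y5*y5*y10 +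
      (110532/11)*y5*y6*y6 + (127832/11)*y5*y6*y7 + (77170/11)*y5*y6*y8 + (1170552/11)*y5*y6*y9
      + (7787958/11)*y5*y6*y10 + (63523/11)*y5*y7*y7 + (48616/11)*y5*y7*y8 +
      (645938/11)*y5*y7*y9 + (6165320/11)*y5*y7*y10 + (48608/11)*y5*y8*y8 +
      (289008/11)*y5*y8*y9 + (4450062/11)*y5*y8*y10 + (121128/11)*y5*y9*y9 +
      (2541402/11)*y5*y9*y10 + (47999/11)*y6*y6*y6 + (105924/11)*y6*y6*y7 + (47325/11)*y6*y6*y8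
      + (799250/11)*y6*y6*y9 + (3178383/11)*y6*y6*y10 + (49370/11)*y6*y7*y7 +
      (43960/11)*y6*y7*y8 + (636486/11)*y6*y7*y9 + (6507714/11)*y6*y7*y10 + (45057/11)*y6*y8*y8
      + (261894/11)*y6*y8*y9 + (4492432/11)*y6*y8*y10 + (100577/11)*y6*y9*y9 +
      (2572630/11)*y6*y9*y10 + (26347/11)*y7*y7*y7 + (49055/11)*y7*y7*y8 + (353502/11)*y7*y7*y9
      + (2490219/11)*y7*y7*y10 + (34796/11)*y7*y8*y8 + (169110/11)*y7*y8*y9 +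
      (4427288/11)*y7*y8*y10 + (76253/11)*y7*y9*y9 + (2397146/11)*y7*y9*y10 + (9/11)*y8*y8*y8 +
      (78566/11)*y8*y8*y9 + (1648232/11)*y8*y8*y10 + (54624/11)*y8*y9*y9 +
      (2144794/11)*y8*y9*y10 + (4897/11)*y9*y9*y9 + (740675/11)*y9*y9*y10 := by positivity
  have k3 : (65536 : ℝ) * ((
      (171/11)*y1*y1*y1 + (503/11)*y1*y1*y2 + (493/11)*y1*y1*y3 + (483/11)*y1*y1*y4 +
      43*y1*y1*y5 + (463/11)*y1*y1*y6 + (453/11)*y1*y1*y7 + (443/11)*y1*y1*y8 +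
      (433/11)*y1*y1*y9 + (423/11)*y1*y1*y10 + (483/11)*y1*y2*y2 + (898/11)*y1*y2*y3 +
      (830/11)*y1*y2*y4 + (762/11)*y1*y2*y5 + (694/11)*y1*y2*y6 + (626/11)*y1*y2*y7 +
      (558/11)*y1*y2*y8 + (490/11)*y1*y2*y9 + (642/11)*y1*y2*y10 + (405/11)*y1*y3*y3 +
      (694/11)*y1*y3*y4 + (578/11)*y1*y3*y5 + 42*y1*y3*y6 + (346/11)*y1*y3*y7 +
      (230/11)*y1*y3*y8 + (224/11)*y1*y3*y9 + (438/11)*y1*y3*y10 + (279/11)*y1*y4*y4 +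
      (394/11)*y1*y4*y5 + (230/11)*y1*y4*y6 + 6*y1*y4*y7 + (12/11)*y1*y4*y8 + (-42/11)*y1*y4*y9
      + (234/11)*y1*y4*y10 + (105/11)*y1*y5*y5 + (-2/11)*y1*y5*y6 + (-104/11)*y1*y5*y7 +
      (-206/11)*y1*y5*y8 + (-28)*y1*y5*y9 + (30/11)*y1*y5*y10 + (-62/11)*y1*y6*y6 +
      (-274/11)*y1*y6*y7 + (-424/11)*y1*y6*y8 + (-574/11)*y1*y6*y9 + (-174/11)*y1*y6*y10 +
      (-222/11)*y1*y7*y7 + (-642/11)*y1*y7*y8 + (-840/11)*y1*y7*y9 + (-378/11)*y1*y7*y10 +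
      (-430/11)*y1*y8*y8 + (-1106/11)*y1*y8*y9 + (-582/11)*y1*y8*y10 + (-686/11)*y1*y9*y9 +
      (-786/11)*y1*y9*y10 + (322/11)*y2*y2*y2 + (898/11)*y2*y2*y3 + (830/11)*y2*y2*y4 +
      (762/11)*y2*y2*y5 + (694/11)*y2*y2*y6 + (626/11)*y2*y2*y7 + (558/11)*y2*y2*y8 +
      (490/11)*y2*y2*y9 + (642/11)*y2*y2*y10 + (810/11)*y2*y3*y3 + (1388/11)*y2*y3*y4 +
      (1156/11)*y2*y3*y5 + 84*y2*y3*y6 + (692/11)*y2*y3*y7 + (460/11)*y2*y3*y8 +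
      (558/11)*y2*y3*y9 + (876/11)*y2*y3*y10 + (558/11)*y2*y4*y4 + (788/11)*y2*y4*y5 +
      (460/11)*y2*y4*y6 + 12*y2*y4*y7 + (24/11)*y2*y4*y8 + (136/11)*y2*y4*y9 +
      (468/11)*y2*y4*y10 + (210/11)*y2*y5*y5 + (-4/11)*y2*y5*y6 + (-208/11)*y2*y5*y7 +
      (-412/11)*y2*y5*y8 + (-26)*y2*y5*y9 + (60/11)*y2*y5*y10 + (-124/11)*y2*y6*y6 +
      (-548/11)*y2*y6*y7 + (-848/11)*y2*y6*y8 + (-708/11)*y2*y6*y9 + (-348/11)*y2*y6*y10 +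
      (-444/11)*y2*y7*y7 + (-1284/11)*y2*y7*y8 + (-1130/11)*y2*y7*y9 + (-756/11)*y2*y7*y10 +
      (-860/11)*y2*y8*y8 + (-1552/11)*y2*y8*y9 + (-1164/11)*y2*y8*y10 + (-602/11)*y2*y9*y9 +
      (-582/11)*y2*y9*y10 + (405/11)*y3*y3*y3 + (1041/11)*y3*y3*y4 + (867/11)*y3*y3*y5 +
      63*y3*y3*y6 + (519/11)*y3*y3*y7 + (345/11)*y3*y3*y8 + (501/11)*y3*y3*y9 +
      (657/11)*y3*y3*y10 + (837/11)*y3*y4*y4 + (1182/11)*y3*y4*y5 + (690/11)*y3*y4*y6 +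
      18*y3*y4*y7 + (146/11)*y3*y4*y8 + (424/11)*y3*y4*y9 + (702/11)*y3*y4*y10 +
      (315/11)*y3*y5*y5 + (-6/11)*y3*y5*y6 + (-312/11)*y3*y5*y7 + (-398/11)*y3*y5*y8 +
      (-14)*y3*y5*y9 + (90/11)*y3*y5*y10 + (-186/11)*y3*y6*y6 + (-822/11)*y3*y6*y7 +
      (-942/11)*y3*y6*y8 + (-732/11)*y3*y6*y9 + (-522/11)*y3*y6*y10 + (-666/11)*y3*y7*y7 +
      (-1486/11)*y3*y7*y8 + (-1310/11)*y3*y7*y9 + (-1134/11)*y3*y7*y10 + (-740/11)*y3*y8*y8 +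
      (-1118/11)*y3*y8*y9 + (-756/11)*y3*y8*y10 + (-408/11)*y3*y9*y9 + (-378/11)*y3*y9*y10 +
      (372/11)*y4*y4*y4 + (788/11)*y4*y4*y5 + (460/11)*y4*y4*y6 + 12*y4*y4*y7 +
      (244/11)*y4*y4*y8 + (356/11)*y4*y4*y9 + (468/11)*y4*y4*y10 + (420/11)*y4*y5*y5 +
      (-8/11)*y4*y5*y6 + (-306/11)*y4*y5*y7 + (-164/11)*y4*y5*y8 + (-2)*y4*y5*y9 +
      (120/11)*y4*y5*y10 + (-248/11)*y4*y6*y6 + (-876/11)*y4*y6*y7 + (-816/11)*y4*y6*y8 +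
      (-756/11)*y4*y6*y9 + (-696/11)*y4*y6*y10 + (-558/11)*y4*y7*y7 + (-918/11)*y4*y7*y8 +
      (-720/11)*y4*y7*y9 + (-522/11)*y4*y7*y10 + (-400/11)*y4*y8*y8 + (-574/11)*y4*y8*y9 +
      (-348/11)*y4*y8*y10 + (-214/11)*y4*y9*y9 + (-174/11)*y4*y9*y10 + (175/11)*y5*y5*y5 +
      (-5/11)*y5*y5*y6 + (15/11)*y5*y5*y7 + (35/11)*y5*y5*y8 + 5*y5*y5*y9 + (75/11)*y5*y5*y10 +
      (-200/11)*y5*y6*y6 + (-270/11)*y5*y6*y7 + (-140/11)*y5*y6*y8 + (-10/11)*y5*y6*y9 +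
      (120/11)*y5*y6*y10 + (-120/11)*y5*y7*y7 + (-130/11)*y5*y7*y8 + (-20/11)*y5*y7*y9 +
      (90/11)*y5*y7*y10 + (-60/11)*y5*y8*y8 + (-30/11)*y5*y8*y9 + (60/11)*y5*y8*y10 +
      (-20/11)*y5*y9*y9 + (30/11)*y5*y9*y10 + (96/11)*y6*y6*y6 + (333/11)*y6*y6*y7 +
      (378/11)*y6*y6*y8 + (423/11)*y6*y6*y9 + (468/11)*y6*y6*y10 + (318/11)*y6*y7*y7 +
      (658/11)*y6*y7*y8 + (680/11)*y6*y7*y9 + (702/11)*y6*y7*y10 + (280/11)*y6*y8*y8 +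
      (514/11)*y6*y8*y9 + (468/11)*y6*y8*y10 + (174/11)*y6*y9*y9 + (234/11)*y6*y9*y10 +
      (252/11)*y7*y7*y7 + (723/11)*y7*y7*y8 + (690/11)*y7*y7*y9 + (657/11)*y7*y7*y10 +
      (620/11)*y7*y8*y8 + (1058/11)*y7*y8*y9 + (876/11)*y7*y8*y10 + (368/11)*y7*y9*y9 +
      (438/11)*y7*y9*y10 + (320/11)*y8*y8*y8 + (801/11)*y8*y8*y9 + (642/11)*y8*y8*y10 +
      (562/11)*y8*y9*y9 + (642/11)*y8*y9*y10 + (252/11)*y9*y9*y9 + (423/11)*y9*y9*y10) -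
      1538 / 65536 * (y1*y1*y1 + y2*y2*y2 + y3*y3*y3 + y4*y4*y4 + y5*y5*y5 + y6*y6*y6 + y7*y7*y7 + y8*y8*y8 + y9*y9*y9)) =

      (y1*((1005*y1 + 280*y2 + 89*y3 - 18*y4 - 51*y5 - 45*y6 - 60*y7 - 89*y8 - 477*y9)^2 + (1324*y2 + 919*y3 + 641*y4 + 253*y5 - 151*y6 - 401*y7 - 713*y8 - 279*y9)^2 + (1107*y3 + 592*y4 + 202*y5 - 153*y6 - 553*y7 - 318*y8 - 28*y9)^2 + (969*y4 + 261*y5 - 329*y6 - 293*y7 - 67*y8 - 11*y9)^2 + (590*y5 - 251*y6 - 44*y7 - 19*y8 - 9*y9)^2 + (409*y6 - 94*y7 - 32*y8 - 9*y9)^2 + (412*y7 - 160*y8 +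
      y9)^2 + (113*y8 - 26*y9)^2 + (65*y9)^2) +
      y2*((1556*y1 + 332*y2 + 138*y3 + 69*y4 + 29*y5 - 9*y6 - 58*y7 - 160*y8 - 725*y9)^2 + (1342*y2 + 769*y3 + 436*y4 + 111*y5 - 175*y6 - 374*y7 - 605*y8 - 279*y9)^2 + (1351*y3 + 858*y4 + 346*y5 - 188*y6 - 681*y7 - 433*y8 - 32*y9)^2 + (1109*y4 + 312*y5 - 423*y6 - 344*y7 - 68*y8 - 11*y9)^2 + (664*y5 - 233*y6 - 39*y7 - 34*y8 - 11*y9)^2 + (572*y6 - 98*y7 - 60*y8 - 11*y9)^2 + (517*y7 - 207*y8 + 3*y9)^2 + (60*y8)^2 + (67*y9)^2) +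
      y3*((1654*y1 + 730*y2 + 91*y3 + 42*y4 + 3*y5 - 44*y6 - 67*y7 - 239*y8 - 839*y9)^2 + (1630*y2 + 691*y3 + 396*y4 + 157*y5 - 103*y6 - 303*y7 - 697*y8 - 330*y9)^2 + (1387*y3 + 765*y4 + 246*y5 - 226*y6 - 560*y7 - 456*y8 - 41*y9)^2 + (1272*y4 + 434*y5 - 378*y6 - 538*y7 - 49*y8 - 9*y9)^2 + (779*y5 - 355*y6 - 78*y7 - 12*y8 - 10*y9)^2 + (561*y6 - 196*y7 - 18*y8 - 9*y9)^2 + (210*y7 - 78*y8 - y9)^2 + (59*y8 +
      y9)^2 + (79*y9)^2) +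
      y4*((1697*y1 + 885*y2 + 428*y3 - 36*y4 - 27*y5 - 27*y6 - 97*y7 - 382*y8 - 888*y9)^2 + (1714*y2 + 918*y3 + 354*y4 + 124*y5 - 97*y6 - 326*y7 - 786*y8 - 346*y9)^2 + (1579*y3 + 632*y4 + 227*y5 - 167*y6 - 528*y7 - 520*y8 - 34*y9)^2 + (1296*y4 + 416*y5 - 331*y6 - 574*y7 - 45*y8 - 34*y9)^2 + (897*y5 - 503*y6 - 53*y7 - 13*y8 + 2*y9)^2 + (345*y6 - 119*y7 - 11*y8 - 12*y9)^2 + (133*y7 - 43*y8 +
      y9)^2 + (61*y8)^2 + (94*y9)^2) +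
      y5*((1697*y1 + 1107*y2 + 722*y3 + 365*y4 - 87*y6 - 306*y7 - 552*y8 - 939*y9)^2 + (1728*y2 + 1055*y3 + 609*y4 + 162*y5 - 158*y6 - 445*y7 - 843*y8 - 354*y9)^2 + (1619*y3 + 831*y4 + 197*y5 - 175*y6 - 612*y7 - 538*y8 - 34*y9)^2 + (1424*y4 + 319*y5 - 254*y6 - 614*y7 - 57*y8 - 22*y9)^2 + (926*y5 - 542*y6 - 69*y7 - 5*y8 - 48*y9)^2 + (114*y6 - 32*y7 - 2*y8 - y9)^2 + (165*y7 - 58*y8 + 2*y9)^2 + (63*y8 - 2*y9)^2 + (100*y9)^2) +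
      y6*((1677*y1 + 1355*y2 + 1031*y3 + 710*y4 + 233*y5 - 247*y6 - 517*y7 - 733*y8 - 995*y9)^2 + (1663*y2 + 1168*y3 + 782*y4 + 243*y5 - 214*y6 - 541*y7 - 866*y8 - 349*y9)^2 + (1572*y3 + 933*y4 + 304*y5 - 242*y6 - 656*y7 - 528*y8 - 41*y9)^2 + (1370*y4 + 439*y5 - 320*y6 - 606*y7 - 53*y8 - 33*y9)^2 + (919*y5 - 538*y6 - 51*y7 - 11*y8 + 2*y9)^2 + (94*y6 - 22*y7 - y8 - 2*y9)^2 + (145*y7 - 49*y8 + 2*y9)^2 + (62*y8 - y9)^2 + (96*y9)^2) +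
      y7*((1672*y1 + 1489*y2 + 1263*y3 + 718*y4 + 290*y5 - 117*y6 - 624*y7 - 848*y8 - 1028*y9)^2 + (1597*y2 + 1214*y3 + 688*y4 + 290*y5 - 97*y6 - 562*y7 - 863*y8 - 341*y9)^2 + (1416*y3 + 887*y4 + 361*y5 - 193*y6 - 642*y7 - 481*y8 - 43*y9)^2 + (1176*y4 + 480*y5 - 305*y6 - 544*y7 - 45*y8 - 11*y9)^2 + (670*y5 - 241*y6 - 92*y7 - 12*y8 - 9*y9)^2 + (721*y6 - 257*y7 - 22*y8 - 11*y9)^2 + (98*y7 - 25*y8)^2 + (58*y8 +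
      y9)^2 + (81*y9)^2) +
      y8*((1675*y1 + 1715*y2 + 1247*y3 + 824*y4 + 344*y5 - 132*y6 - 552*y7 - 964*y8 - 1075*y9)^2 + (1453*y2 + 1111*y3 + 733*y4 + 354*y5 - 41*y6 - 477*y7 - 845*y8 - 315*y9)^2 + (1239*y3 + 803*y4 + 326*y5 - 160*y6 - 732*y7 - 361*y8 - 33*y9)^2 + (945*y4 + 193*y5 - 628*y6 - 267*y7 - 12*y8 - 2*y9)^2 + (586*y5 + 163*y6 + 102*y7 - 150*y8 - 16*y9)^2 + (865*y6 + 79*y7 - 183*y8 - 16*y9)^2 + (666*y7 - 268*y8 + 4*y9)^2 + (58*y8 + 2*y9)^2 + (65*y9)^2) +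
      y9*((1880*y1 + 1643*y2 + 1266*y3 + 836*y4 + 387*y5 - 64*y6 - 505*y7 - 928*y8 - 1171*y9)^2 + (1201*y2 + 901*y3 + 508*y4 + 186*y5 - 124*y6 - 536*y7 - 916*y8 - 147*y9)^2 + (1125*y3 + 606*y4 + 35*y5 - 530*y6 - 1073*y7 - 50*y8 - 12*y9)^2 + (1022*y4 + 98*y5 - 838*y6 - 38*y7 + 64*y8 - 40*y9)^2 + (540*y5 + 430*y6 + 349*y7 + 163*y8 - 168*y9)^2 + (762*y6 + 312*y7 + 136*y8 - 143*y9)^2 + (651*y7 + 120*y8 - 122*y9)^2 + (601*y8 - 194*y9)^2 + (60*y9)^2) +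
      y10*((1566*y1 + 1159*y2 + 764*y3 + 371*y4 - 17*y5 - 405*y6 - 788*y7 - 1168*y8 - 1518*y9)^2 + (1527*y2 + 998*y3 + 498*y4 - 3*y5 - 504*y6 - 999*y7 - 1436*y8 - 45*y9)^2 + (1453*y3 + 700*y4 + 3*y5 - 694*y6 - 1307*y7 - 79*y8 - 20*y9)^2 + (1275*y4 + 8*y5 - 1054*y6 - 92*y7 - 28*y8 - 27*y9)^2 + (508*y5 + 11*y6 - 47*y7 - 93*y8 - 102*y9)^2 + (699*y6 - 44*y7 - 129*y8 - 141*y9)^2 + (590*y7 - 106*y8 - 144*y9)^2 + (453*y8 - 150*y9)^2 + (268*y9)^2)) + (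
      (79463/11)*y1*y1*y1 + (141312/11)*y1*y1*y2 + (248582/11)*y1*y1*y3 + (373969/11)*y1*y1*y4
      + 40749*y1*y1*y5 + (402499/11)*y1*y1*y6 + (262984/11)*y1*y1*y7 + (138363/11)*y1*y1*y8 +
      (45158/11)*y1*y1*y9 + (745812/11)*y1*y1*y10 + (143728/11)*y1*y2*y2 + (247200/11)*y1*y2*y3
      + (432114/11)*y1*y2*y4 + (561742/11)*y1*y2*y5 + (474230/11)*y1*y2*y6 +
      (289544/11)*y1*y2*y7 + (164962/11)*y1*y2*y8 + (41392/11)*y1*y2*y9 +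
      (2144244/11)*y1*y2*y10 + (373531/11)*y1*y3*y3 + (632674/11)*y1*y3*y4 +
      (880692/11)*y1*y3*y5 + 64380*y1*y3*y6 + (347920/11)*y1*y3*y7 + (152330/11)*y1*y3*y8 +
      (104536/11)*y1*y3*y9 + (2383440/11)*y1*y3*y10 + (921638/11)*y1*y4*y4 +
      (1419444/11)*y1*y4*y5 + (1004434/11)*y1*y4*y6 + 55950*y1*y4*y7 + (273040/11)*y1*y4*y8 +
      (167856/11)*y1*y4*y9 + (2553732/11)*y1*y4*y10 + (1121295/11)*y1*y5*y5 +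
      (1137690/11)*y1*y5*y6 + (816804/11)*y1*y5*y7 + (344778/11)*y1*y5*y8 + 17032*y1*y5*y9 +
      (2551764/11)*y1*y5*y10 + (795248/11)*y1*y6*y6 + (650252/11)*y1*y6*y7 +
      (291226/11)*y1*y6*y8 + (197256/11)*y1*y6*y9 + (2549796/11)*y1*y6*y10 +
      (301899/11)*y1*y7*y7 + (117356/11)*y1*y7*y8 + (111592/11)*y1*y7*y9 +
      (2375568/11)*y1*y7*y10 + (64693/11)*y1*y8*y8 + (48610/11)*y1*y8*y9 +
      (2097984/11)*y1*y8*y10 + (50135/11)*y1*y9*y9 + (786840/11)*y1*y9*y10 +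
      (62606/11)*y2*y2*y2 + (51620/11)*y2*y2*y3 + (87209/11)*y2*y2*y4 + (123689/11)*y2*y2*y5 +
      (96886/11)*y2*y2*y6 + (48314/11)*y2*y2*y7 + (22974/11)*y2*y2*y8 + (84886/11)*y2*y2*y9 +
      (1649002/11)*y2*y2*y10 + (51774/11)*y2*y3*y3 + (52576/11)*y2*y3*y4 + (141194/11)*y2*y3*y5
      + 5876*y2*y3*y6 + (10584/11)*y2*y3*y7 + (6560/11)*y2*y3*y8 + (182496/11)*y2*y3*y9 +
      (4402252/11)*y2*y3*y10 + (151454/11)*y2*y4*y4 + (199306/11)*y2*y4*y5 +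
      (115878/11)*y2*y4*y6 + 5694*y2*y4*y7 + (6706/11)*y2*y4*y8 + (257920/11)*y2*y4*y9 +
      (4481278/11)*y2*y4*y10 + (221670/11)*y2*y5*y5 + (198338/11)*y2*y5*y6 +
      (114288/11)*y2*y5*y7 + (33890/11)*y2*y5*y8 + 27584*y2*y5*y9 + (4466408/11)*y2*y5*y10 +
      (175038/11)*y2*y6*y6 + (95806/11)*y2*y6*y7 + (46774/11)*y2*y6*y8 + (249268/11)*y2*y6*y9 +
      (4451538/11)*y2*y6*y10 + (47055/11)*y2*y7*y7 + (37900/11)*y2*y7*y8 + (165500/11)*y2*y7*y9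
      + (4107614/11)*y2*y7*y10 + (37657/11)*y2*y8*y8 + (67344/11)*y2*y8*y9 +
      (1738744/11)*y2*y8*y10 + (55467/11)*y2*y9*y9 + (2075742/11)*y2*y9*y10 +
      (20321/11)*y3*y3*y3 + (65051/11)*y3*y3*y4 + (110378/11)*y3*y3*y5 + 7677*y3*y3*y6 +
      (27133/11)*y3*y3*y7 + (29615/11)*y3*y3*y8 + (298946/11)*y3*y3*y9 + (2457153/11)*y3*y3*y10
      + (109129/11)*y3*y4*y4 + (141054/11)*y3*y4*y5 + (88490/11)*y3*y4*y6 + 3600*y3*y4*y7 +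
      (32004/11)*y3*y4*y8 + (557314/11)*y3*y4*y9 + (6460216/11)*y3*y4*y10 +
      (182993/11)*y3*y5*y5 + (121364/11)*y3*y5*y6 + (46098/11)*y3*y5*y7 + (1874/11)*y3*y5*y8 +
      53856*y3*y5*y9 + (6153946/11)*y3*y5*y10 + (161269/11)*y3*y6*y6 + (98686/11)*y3*y6*y7 +
      (31738/11)*y3*y6*y8 + (534392/11)*y3*y6*y9 + (5847676/11)*y3*y6*y10 + (33606/11)*y3*y7*y7
      + (30186/11)*y3*y7*y8 + (305956/11)*y3*y7*y9 + (2640486/11)*y3*y7*y10 +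
      (47064/11)*y3*y8*y8 + (160240/11)*y3*y8*y9 + (4140658/11)*y3*y8*y10 + (55761/11)*y3*y9*y9
      + (2369276/11)*y3*y9*y10 + (100302/11)*y4*y4*y4 + (191199/11)*y4*y4*y5 +
      (146909/11)*y4*y4*y6 + 6843*y4*y4*y7 + (27639/11)*y4*y4*y8 + (708832/11)*y4*y4*y9 +
      (3156878/11)*y4*y4*y10 + (261169/11)*y4*y5*y5 + (194562/11)*y4*y5*y6 +
      (123548/11)*y4*y5*y7 + (66922/11)*y4*y5*y8 + 103954*y4*y5*y9 + (7765342/11)*y4*y5*y10 +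
      (183118/11)*y4*y6*y6 + (120420/11)*y4*y6*y7 + (39868/11)*y4*y6*y8 + (782402/11)*y4*y6*y9
      + (3466678/11)*y4*y6*y10 + (51760/11)*y4*y7*y7 + (47904/11)*y4*y7*y8 +
      (542552/11)*y4*y7*y9 + (5875308/11)*y4*y7*y10 + (52313/11)*y4*y8*y8 +
      (237010/11)*y4*y8*y9 + (4461504/11)*y4*y8*y10 + (99417/11)*y4*y9*y9 +
      (2545022/11)*y4*y9*y10 + (184692/11)*y5*y5*y5 + (144682/11)*y5*y5*y6 +
      (180117/11)*y5*y5*y7 + (95487/11)*y5*y5*y8 + 71910*y5*y5*y9 + (2072415/11)*y5*y5*y10 +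
      (110532/11)*y5*y6*y6 + (127832/11)*y5*y6*y7 + (77170/11)*y5*y6*y8 + (1170552/11)*y5*y6*y9
      + (7787958/11)*y5*y6*y10 + (63523/11)*y5*y7*y7 + (48616/11)*y5*y7*y8 +
      (645938/11)*y5*y7*y9 + (6165320/11)*y5*y7*y10 + (48608/11)*y5*y8*y8 +
      (289008/11)*y5*y8*y9 + (4450062/11)*y5*y8*y10 + (121128/11)*y5*y9*y9 +
      (2541402/11)*y5*y9*y10 + (47999/11)*y6*y6*y6 + (105924/11)*y6*y6*y7 + (47325/11)*y6*y6*y8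
      + (799250/11)*y6*y6*y9 + (3178383/11)*y6*y6*y10 + (49370/11)*y6*y7*y7 +
      (43960/11)*y6*y7*y8 + (636486/11)*y6*y7*y9 + (6507714/11)*y6*y7*y10 + (45057/11)*y6*y8*y8
      + (261894/11)*y6*y8*y9 + (4492432/11)*y6*y8*y10 + (100577/11)*y6*y9*y9 +
      (2572630/11)*y6*y9*y10 + (26347/11)*y7*y7*y7 + (49055/11)*y7*y7*y8 + (353502/11)*y7*y7*y9
      + (2490219/11)*y7*y7*y10 + (34796/11)*y7*y8*y8 + (169110/11)*y7*y8*y9 +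
      (4427288/11)*y7*y8*y10 + (76253/11)*y7*y9*y9 + (2397146/11)*y7*y9*y10 + (9/11)*y8*y8*y8 +
      (78566/11)*y8*y8*y9 + (1648232/11)*y8*y8*y10 + (54624/11)*y8*y9*y9 +
      (2144794/11)*y8*y9*y10 + (4897/11)*y9*y9*y9 + (740675/11)*y9*y9*y10) := by ring
  have k4 := add_nonneg k1 k2
  rw [← k3] at k4
  exact le_of_sub_nonneg ((mul_nonneg_iff_of_pos_left (by norm_num)).1 k4)

theorem cert10 : Cert 10 := by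
  intro x hx h0
  obtain ⟨y10, hy10, e9⟩ : ∃ y, 0 ≤ y ∧ x 9 = y := ⟨x 9, h0 9, rfl⟩
  obtain ⟨y9, hy9, e8⟩ : ∃ y, 0 ≤ y ∧ x 8 = y + (y10) :=
    ⟨x 8 - x 9, sub_nonneg.2 (hx (by decide)), by linarith⟩
  obtain ⟨y8, hy8, e7⟩ : ∃ y, 0 ≤ y ∧ x 7 = y + (y9 + y10) :=
    ⟨x 7 - x 8, sub_nonneg.2 (hx (by decide)), by linarith⟩
  obtain ⟨y7, hy7, e6⟩ : ∃ y, 0 ≤ y ∧ x 6 = y + (y8 + y9 + y10) :=
    ⟨x 6 - x 7, sub_nonneg.2 (hx (by decide)), by linarith⟩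
  obtain ⟨y6, hy6, e5⟩ : ∃ y, 0 ≤ y ∧ x 5 = y + (y7 + y8 + y9 + y10) :=
    ⟨x 5 - x 6, sub_nonneg.2 (hx (by decide)), by linarith⟩
  obtain ⟨y5, hy5, e4⟩ : ∃ y, 0 ≤ y ∧ x 4 = y + (y6 + y7 + y8 + y9 + y10) :=
    ⟨x 4 - x 5, sub_nonneg.2 (hx (by decide)), by linarith⟩
  obtain ⟨y4, hy4, e3⟩ : ∃ y, 0 ≤ y ∧ x 3 = y + (y5 + y6 + y7 + y8 + y9 + y10) :=
    ⟨x 3 - x 4, sub_nonneg.2 (hx (by decide)), by linarith⟩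
  obtain ⟨y3, hy3, e2⟩ : ∃ y, 0 ≤ y ∧ x 2 = y + (y4 + y5 + y6 + y7 + y8 + y9 + y10) :=
    ⟨x 2 - x 3, sub_nonneg.2 (hx (by decide)), by linarith⟩
  obtain ⟨y2, hy2, e1⟩ : ∃ y, 0 ≤ y ∧ x 1 = y + (y3 + y4 + y5 + y6 + y7 + y8 + y9 + y10) :=
    ⟨x 1 - x 2, sub_nonneg.2 (hx (by decide)), by linarith⟩
  obtain ⟨y1, hy1, e0⟩ : ∃ y, 0 ≤ y ∧ x 0 = y + (y2 + y3 + y4 + y5 + y6 + y7 + y8 + y9 + y10) :=
    ⟨x 0 - x 1, sub_nonneg.2 (hx (by decide)), by linarith⟩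
  obtain ⟨p1, f1⟩ : ∃ p, p =
      y1*y10 + y2*y9 + y2*y10 + y3*y8 + y3*y9 + y3*y10 + y4*y7 + y4*y8 + y4*y9 + y4*y10 + y5*y6
      + y5*y7 + y5*y8 + y5*y9 + y5*y10 + (1/2)*y6*y6 + y6*y7 + y6*y8 + y6*y9 + y6*y10 +
      (1/2)*y7*y7 + y7*y8 + y7*y9 + y7*y10 + (1/2)*y8*y8 + y8*y9 + y8*y10 + (1/2)*y9*y9 +
      y9*y10 + (1/2)*y10*y10 := ⟨_, rfl⟩
  obtain ⟨p2, f2⟩ : ∃ p, p =
      y2*y9 + y2*y10 + y3*y8 + y3*y9 + y3*y10 + y4*y7 + y4*y8 + y4*y9 + y4*y10 + y5*y6 + y5*y7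
      + y5*y8 + y5*y9 + y5*y10 + (1/2)*y6*y6 + y6*y7 + y6*y8 + y6*y9 + y6*y10 + (1/2)*y7*y7 +
      y7*y8 + y7*y9 + y7*y10 + (1/2)*y8*y8 + y8*y9 + y8*y10 + (1/2)*y9*y9 + y9*y10 +
      (1/2)*y10*y10 := ⟨_, rfl⟩
  obtain ⟨p3, f3⟩ : ∃ p, p =
      y3*y8 + y3*y9 + y3*y10 + y4*y7 + y4*y8 + y4*y9 + y4*y10 + y5*y6 + y5*y7 + y5*y8 + y5*y9 +
      y5*y10 + (1/2)*y6*y6 + y6*y7 + y6*y8 + y6*y9 + y6*y10 + (1/2)*y7*y7 + y7*y8 + y7*y9 +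
      y7*y10 + (1/2)*y8*y8 + y8*y9 + y8*y10 + (1/2)*y9*y9 + y9*y10 + (1/2)*y10*y10 := ⟨_, rfl⟩
  obtain ⟨p4, f4⟩ : ∃ p, p =
      y4*y7 + y4*y8 + y4*y9 + y4*y10 + y5*y6 + y5*y7 + y5*y8 + y5*y9 + y5*y10 + (1/2)*y6*y6 +
      y6*y7 + y6*y8 + y6*y9 + y6*y10 + (1/2)*y7*y7 + y7*y8 + y7*y9 + y7*y10 + (1/2)*y8*y8 +
      y8*y9 + y8*y10 + (1/2)*y9*y9 + y9*y10 + (1/2)*y10*y10 := ⟨_, rfl⟩
  obtain ⟨p5, f5⟩ : ∃ p, p =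
      y5*y6 + y5*y7 + y5*y8 + y5*y9 + y5*y10 + (1/2)*y6*y6 + y6*y7 + y6*y8 + y6*y9 + y6*y10 +
      (1/2)*y7*y7 + y7*y8 + y7*y9 + y7*y10 + (1/2)*y8*y8 + y8*y9 + y8*y10 + (1/2)*y9*y9 +
      y9*y10 + (1/2)*y10*y10 := ⟨_, rfl⟩
  obtain ⟨p6, f6⟩ : ∃ p, p =
      (1/2)*y6*y6 + y6*y7 + y6*y8 + y6*y9 + y6*y10 + (1/2)*y7*y7 + y7*y8 + y7*y9 + y7*y10 +
      (1/2)*y8*y8 + y8*y9 + y8*y10 + (1/2)*y9*y9 + y9*y10 + (1/2)*y10*y10 := ⟨_, rfl⟩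
  obtain ⟨p7, f7⟩ : ∃ p, p =
      (-1)*y5*y6 + (-1/2)*y6*y6 + (1/2)*y7*y7 + y7*y8 + y7*y9 + y7*y10 + (1/2)*y8*y8 + y8*y9 +
      y8*y10 + (1/2)*y9*y9 + y9*y10 + (1/2)*y10*y10 := ⟨_, rfl⟩
  obtain ⟨p8, f8⟩ : ∃ p, p =
      (-1)*y4*y7 + (-1)*y5*y6 + (-1)*y5*y7 + (-1/2)*y6*y6 + (-1)*y6*y7 + (-1/2)*y7*y7 +
      (1/2)*y8*y8 + y8*y9 + y8*y10 + (1/2)*y9*y9 + y9*y10 + (1/2)*y10*y10 := ⟨_, rfl⟩
  obtain ⟨p9, f9⟩ : ∃ p, p =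
      (-1)*y3*y8 + (-1)*y4*y7 + (-1)*y4*y8 + (-1)*y5*y6 + (-1)*y5*y7 + (-1)*y5*y8 +
      (-1/2)*y6*y6 + (-1)*y6*y7 + (-1)*y6*y8 + (-1/2)*y7*y7 + (-1)*y7*y8 + (-1/2)*y8*y8 +
      (1/2)*y9*y9 + y9*y10 + (1/2)*y10*y10 := ⟨_, rfl⟩
  obtain ⟨p10, f10⟩ : ∃ p, p =
      (-1)*y2*y9 + (-1)*y3*y8 + (-1)*y3*y9 + (-1)*y4*y7 + (-1)*y4*y8 + (-1)*y4*y9 + (-1)*y5*y6
      + (-1)*y5*y7 + (-1)*y5*y8 + (-1)*y5*y9 + (-1/2)*y6*y6 + (-1)*y6*y7 + (-1)*y6*y8 +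
      (-1)*y6*y9 + (-1/2)*y7*y7 + (-1)*y7*y8 + (-1)*y7*y9 + (-1/2)*y8*y8 + (-1)*y8*y9 +
      (-1/2)*y9*y9 + (1/2)*y10*y10 := ⟨_, rfl⟩
  have q1_2 : p1 + p2 ≤ x 0 * x 1 := by
    have t : 0 ≤
      y1*y2 + y1*y3 + y1*y4 + y1*y5 + y1*y6 + y1*y7 + y1*y8 + y1*y9 + y2*y2 + 2*y2*y3 + 2*y2*y4
      + 2*y2*y5 + 2*y2*y6 + 2*y2*y7 + 2*y2*y8 + y3*y3 + 2*y3*y4 + 2*y3*y5 + 2*y3*y6 + 2*y3*y7 +
      y4*y4 + 2*y4*y5 + 2*y4*y6 + y5*y5 := by positivity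
    rw [e0, e1, f1, f2]
    exact le_of_sub_nonneg (le_of_le_of_eq t (by ring))
  have q1_3 : p1 + p3 ≤ x 0 * x 2 := by
    have t : 0 ≤
      y1*y3 + y1*y4 + y1*y5 + y1*y6 + y1*y7 + y1*y8 + y1*y9 + y2*y3 + y2*y4 + y2*y5 + y2*y6 +
      y2*y7 + y2*y8 + y3*y3 + 2*y3*y4 + 2*y3*y5 + 2*y3*y6 + 2*y3*y7 + y4*y4 + 2*y4*y5 + 2*y4*y6
      + y5*y5 := by positivity
    rw [e0, e2, f1, f3]
    exact le_of_sub_nonneg (le_of_le_of_eq t (by ring))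
  have q1_4 : p1 + p4 ≤ x 0 * x 3 := by
    have t : 0 ≤
      y1*y4 + y1*y5 + y1*y6 + y1*y7 + y1*y8 + y1*y9 + y2*y4 + y2*y5 + y2*y6 + y2*y7 + y2*y8 +
      y3*y4 + y3*y5 + y3*y6 + y3*y7 + y4*y4 + 2*y4*y5 + 2*y4*y6 + y5*y5 := by positivity
    rw [e0, e3, f1, f4]
    exact le_of_sub_nonneg (le_of_le_of_eq t (by ring))
  have q1_5 : p1 + p5 ≤ x 0 * x 4 := by
    have t : 0 ≤
      y1*y5 + y1*y6 + y1*y7 + y1*y8 + y1*y9 + y2*y5 + y2*y6 + y2*y7 + y2*y8 + y3*y5 + y3*y6 +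
      y3*y7 + y4*y5 + y4*y6 + y5*y5 := by positivity
    rw [e0, e4, f1, f5]
    exact le_of_sub_nonneg (le_of_le_of_eq t (by ring))
  have q1_6 : p1 + p6 ≤ x 0 * x 5 := by
    have t : 0 ≤
      y1*y6 + y1*y7 + y1*y8 + y1*y9 + y2*y6 + y2*y7 + y2*y8 + y3*y6 + y3*y7 + y4*y6 := by positivity
    rw [e0, e5, f1, f6]
    exact le_of_sub_nonneg (le_of_le_of_eq t (by ring))
  have q1_7 : p1 + p7 ≤ x 0 * x 6 := by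
    have t : 0 ≤
      y1*y7 + y1*y8 + y1*y9 + y2*y7 + y2*y8 + y3*y7 := by positivity
    rw [e0, e6, f1, f7]
    exact le_of_sub_nonneg (le_of_le_of_eq t (by ring))
  have q1_8 : p1 + p8 ≤ x 0 * x 7 := by
    have t : 0 ≤
      y1*y8 + y1*y9 + y2*y8 := by positivity
    rw [e0, e7, f1, f8]
    exact le_of_sub_nonneg (le_of_le_of_eq t (by ring))
  have q1_9 : p1 + p9 ≤ x 0 * x 8 := by
    have t : 0 ≤
      y1*y9 := by positivity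
    rw [e0, e8, f1, f9]
    exact le_of_sub_nonneg (le_of_le_of_eq t (by ring))
  have q1_10 : p1 + p10 ≤ x 0 * x 9 := by
    rw [e0, e9, f1, f10]
    apply le_of_eq
    ring
  have q2_3 : p2 + p3 ≤ x 1 * x 2 := by
    have t : 0 ≤
      y2*y3 + y2*y4 + y2*y5 + y2*y6 + y2*y7 + y2*y8 + y3*y3 + 2*y3*y4 + 2*y3*y5 + 2*y3*y6 +
      2*y3*y7 + y4*y4 + 2*y4*y5 + 2*y4*y6 + y5*y5 := by positivity
    rw [e1, e2, f2, f3]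
    exact le_of_sub_nonneg (le_of_le_of_eq t (by ring))
  have q2_4 : p2 + p4 ≤ x 1 * x 3 := by
    have t : 0 ≤
      y2*y4 + y2*y5 + y2*y6 + y2*y7 + y2*y8 + y3*y4 + y3*y5 + y3*y6 + y3*y7 + y4*y4 + 2*y4*y5 +
      2*y4*y6 + y5*y5 := by positivity
    rw [e1, e3, f2, f4]
    exact le_of_sub_nonneg (le_of_le_of_eq t (by ring))
  have q2_5 : p2 + p5 ≤ x 1 * x 4 := by
    have t : 0 ≤
      y2*y5 + y2*y6 + y2*y7 + y2*y8 + y3*y5 + y3*y6 + y3*y7 + y4*y5 + y4*y6 + y5*y5 := by positivity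
    rw [e1, e4, f2, f5]
    exact le_of_sub_nonneg (le_of_le_of_eq t (by ring))
  have q2_6 : p2 + p6 ≤ x 1 * x 5 := by
    have t : 0 ≤
      y2*y6 + y2*y7 + y2*y8 + y3*y6 + y3*y7 + y4*y6 := by positivity
    rw [e1, e5, f2, f6]
    exact le_of_sub_nonneg (le_of_le_of_eq t (by ring))
  have q2_7 : p2 + p7 ≤ x 1 * x 6 := by
    have t : 0 ≤
      y2*y7 + y2*y8 + y3*y7 := by positivity
    rw [e1, e6, f2, f7]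
    exact le_of_sub_nonneg (le_of_le_of_eq t (by ring))
  have q2_8 : p2 + p8 ≤ x 1 * x 7 := by
    have t : 0 ≤
      y2*y8 := by positivity
    rw [e1, e7, f2, f8]
    exact le_of_sub_nonneg (le_of_le_of_eq t (by ring))
  have q2_9 : p2 + p9 ≤ x 1 * x 8 := by
    rw [e1, e8, f2, f9]
    apply le_of_eq
    ring
  have q2_10 : p2 + p10 ≤ x 1 * x 9 := by
    rw [e1, e9, f2, f10]
    apply le_of_eq
    ring
  have q3_4 : p3 + p4 ≤ x 2 * x 3 := by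
    have t : 0 ≤
      y3*y4 + y3*y5 + y3*y6 + y3*y7 + y4*y4 + 2*y4*y5 + 2*y4*y6 + y5*y5 := by positivity
    rw [e2, e3, f3, f4]
    exact le_of_sub_nonneg (le_of_le_of_eq t (by ring))
  have q3_5 : p3 + p5 ≤ x 2 * x 4 := by
    have t : 0 ≤
      y3*y5 + y3*y6 + y3*y7 + y4*y5 + y4*y6 + y5*y5 := by positivity
    rw [e2, e4, f3, f5]
    exact le_of_sub_nonneg (le_of_le_of_eq t (by ring))
  have q3_6 : p3 + p6 ≤ x 2 * x 5 := by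
    have t : 0 ≤
      y3*y6 + y3*y7 + y4*y6 := by positivity
    rw [e2, e5, f3, f6]
    exact le_of_sub_nonneg (le_of_le_of_eq t (by ring))
  have q3_7 : p3 + p7 ≤ x 2 * x 6 := by
    have t : 0 ≤
      y3*y7 := by positivity
    rw [e2, e6, f3, f7]
    exact le_of_sub_nonneg (le_of_le_of_eq t (by ring))
  have q3_8 : p3 + p8 ≤ x 2 * x 7 := by
    rw [e2, e7, f3, f8]
    apply le_of_eq
    ring
  have q3_9 : p3 + p9 ≤ x 2 * x 8 := by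
    rw [e2, e8, f3, f9]
    apply le_of_eq
    ring
  have q3_10 : p3 + p10 ≤ x 2 * x 9 := by
    have t : 0 ≤
      y2*y9 := by positivity
    rw [e2, e9, f3, f10]
    exact le_of_sub_nonneg (le_of_le_of_eq t (by ring))
  have q4_5 : p4 + p5 ≤ x 3 * x 4 := by
    have t : 0 ≤
      y4*y5 + y4*y6 + y5*y5 := by positivity
    rw [e3, e4, f4, f5]
    exact le_of_sub_nonneg (le_of_le_of_eq t (by ring))
  have q4_6 : p4 + p6 ≤ x 3 * x 5 := by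
    have t : 0 ≤
      y4*y6 := by positivity
    rw [e3, e5, f4, f6]
    exact le_of_sub_nonneg (le_of_le_of_eq t (by ring))
  have q4_7 : p4 + p7 ≤ x 3 * x 6 := by
    rw [e3, e6, f4, f7]
    apply le_of_eq
    ring
  have q4_8 : p4 + p8 ≤ x 3 * x 7 := by
    rw [e3, e7, f4, f8]
    apply le_of_eq
    ring
  have q4_9 : p4 + p9 ≤ x 3 * x 8 := by
    have t : 0 ≤
      y3*y8 := by positivity
    rw [e3, e8, f4, f9]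
    exact le_of_sub_nonneg (le_of_le_of_eq t (by ring))
  have q4_10 : p4 + p10 ≤ x 3 * x 9 := by
    have t : 0 ≤
      y2*y9 + y3*y8 + y3*y9 := by positivity
    rw [e3, e9, f4, f10]
    exact le_of_sub_nonneg (le_of_le_of_eq t (by ring))
  have q5_6 : p5 + p6 ≤ x 4 * x 5 := by
    rw [e4, e5, f5, f6]
    apply le_of_eq
    ring
  have q5_7 : p5 + p7 ≤ x 4 * x 6 := by
    rw [e4, e6, f5, f7]
    apply le_of_eq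
    ring
  have q5_8 : p5 + p8 ≤ x 4 * x 7 := by
    have t : 0 ≤
      y4*y7 := by positivity
    rw [e4, e7, f5, f8]
    exact le_of_sub_nonneg (le_of_le_of_eq t (by ring))
  have q5_9 : p5 + p9 ≤ x 4 * x 8 := by
    have t : 0 ≤
      y3*y8 + y4*y7 + y4*y8 := by positivity
    rw [e4, e8, f5, f9]
    exact le_of_sub_nonneg (le_of_le_of_eq t (by ring))
  have q5_10 : p5 + p10 ≤ x 4 * x 9 := by
    have t : 0 ≤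
      y2*y9 + y3*y8 + y3*y9 + y4*y7 + y4*y8 + y4*y9 := by positivity
    rw [e4, e9, f5, f10]
    exact le_of_sub_nonneg (le_of_le_of_eq t (by ring))
  have q6_7 : p6 + p7 ≤ x 5 * x 6 := by
    have t : 0 ≤
      y5*y6 := by positivity
    rw [e5, e6, f6, f7]
    exact le_of_sub_nonneg (le_of_le_of_eq t (by ring))
  have q6_8 : p6 + p8 ≤ x 5 * x 7 := by
    have t : 0 ≤
      y4*y7 + y5*y6 + y5*y7 := by positivity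
    rw [e5, e7, f6, f8]
    exact le_of_sub_nonneg (le_of_le_of_eq t (by ring))
  have q6_9 : p6 + p9 ≤ x 5 * x 8 := by
    have t : 0 ≤
      y3*y8 + y4*y7 + y4*y8 + y5*y6 + y5*y7 + y5*y8 := by positivity
    rw [e5, e8, f6, f9]
    exact le_of_sub_nonneg (le_of_le_of_eq t (by ring))
  have q6_10 : p6 + p10 ≤ x 5 * x 9 := by
    have t : 0 ≤
      y2*y9 + y3*y8 + y3*y9 + y4*y7 + y4*y8 + y4*y9 + y5*y6 + y5*y7 + y5*y8 + y5*y9 := by positivity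
    rw [e5, e9, f6, f10]
    exact le_of_sub_nonneg (le_of_le_of_eq t (by ring))
  have q7_8 : p7 + p8 ≤ x 6 * x 7 := by
    have t : 0 ≤
      y4*y7 + 2*y5*y6 + y5*y7 + y6*y6 + y6*y7 := by positivity
    rw [e6, e7, f7, f8]
    exact le_of_sub_nonneg (le_of_le_of_eq t (by ring))
  have q7_9 : p7 + p9 ≤ x 6 * x 8 := by
    have t : 0 ≤
      y3*y8 + y4*y7 + y4*y8 + 2*y5*y6 + y5*y7 + y5*y8 + y6*y6 + y6*y7 + y6*y8 := by positivity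
    rw [e6, e8, f7, f9]
    exact le_of_sub_nonneg (le_of_le_of_eq t (by ring))
  have q7_10 : p7 + p10 ≤ x 6 * x 9 := by
    have t : 0 ≤
      y2*y9 + y3*y8 + y3*y9 + y4*y7 + y4*y8 + y4*y9 + 2*y5*y6 + y5*y7 + y5*y8 + y5*y9 + y6*y6 +
      y6*y7 + y6*y8 + y6*y9 := by positivity
    rw [e6, e9, f7, f10]
    exact le_of_sub_nonneg (le_of_le_of_eq t (by ring))
  have q8_9 : p8 + p9 ≤ x 7 * x 8 := by
    have t : 0 ≤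
      y3*y8 + 2*y4*y7 + y4*y8 + 2*y5*y6 + 2*y5*y7 + y5*y8 + y6*y6 + 2*y6*y7 + y6*y8 + y7*y7 +
      y7*y8 := by positivity
    rw [e7, e8, f8, f9]
    exact le_of_sub_nonneg (le_of_le_of_eq t (by ring))
  have q8_10 : p8 + p10 ≤ x 7 * x 9 := by
    have t : 0 ≤
      y2*y9 + y3*y8 + y3*y9 + 2*y4*y7 + y4*y8 + y4*y9 + 2*y5*y6 + 2*y5*y7 + y5*y8 + y5*y9 +
      y6*y6 + 2*y6*y7 + y6*y8 + y6*y9 + y7*y7 + y7*y8 + y7*y9 := by positivity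
    rw [e7, e9, f8, f10]
    exact le_of_sub_nonneg (le_of_le_of_eq t (by ring))
  have q9_10 : p9 + p10 ≤ x 8 * x 9 := by
    have t : 0 ≤
      y2*y9 + 2*y3*y8 + y3*y9 + 2*y4*y7 + 2*y4*y8 + y4*y9 + 2*y5*y6 + 2*y5*y7 + 2*y5*y8 + y5*y9
      + y6*y6 + 2*y6*y7 + 2*y6*y8 + y6*y9 + y7*y7 + 2*y7*y8 + y7*y9 + y8*y8 + y8*y9 := by positivity
    rw [e8, e9, f9, f10]
    exact le_of_sub_nonneg (le_of_le_of_eq t (by ring))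
  have hp : ∀ a b : Fin 10, a < b → (![p1, p2, p3, p4, p5, p6, p7, p8, p9, p10] : Fin 10 → ℝ) a +
      (![p1, p2, p3, p4, p5, p6, p7, p8, p9, p10] : Fin 10 → ℝ) b ≤ x a * x b := by
    intro a b hab
    fin_cases a
    · fin_cases b
      · exact absurd hab (by decide)
      · exact q1_2
      · exact q1_3
      · exact q1_4
      · exact q1_5
      · exact q1_6
      · exact q1_7
      · exact q1_8
      · exact q1_9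
      · exact q1_10
    · fin_cases b
      · exact absurd hab (by decide)
      · exact absurd hab (by decide)
      · exact q2_3
      · exact q2_4
      · exact q2_5
      · exact q2_6
      · exact q2_7
      · exact q2_8
      · exact q2_9
      · exact q2_10
    · fin_cases b
      · exact absurd hab (by decide)
      · exact absurd hab (by decide)
      · exact absurd hab (by decide)
      · exact q3_4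
      · exact q3_5
      · exact q3_6
      · exact q3_7
      · exact q3_8
      · exact q3_9
      · exact q3_10
    · fin_cases b
      · exact absurd hab (by decide)
      · exact absurd hab (by decide)
      · exact absurd hab (by decide)
      · exact absurd hab (by decide)
      · exact q4_5
      · exact q4_6
      · exact q4_7
      · exact q4_8
      · exact q4_9
      · exact q4_10
    · fin_cases b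
      · exact absurd hab (by decide)
      · exact absurd hab (by decide)
      · exact absurd hab (by decide)
      · exact absurd hab (by decide)
      · exact absurd hab (by decide)
      · exact q5_6
      · exact q5_7
      · exact q5_8
      · exact q5_9
      · exact q5_10
    · fin_cases b
      · exact absurd hab (by decide)
      · exact absurd hab (by decide)
      · exact absurd hab (by decide)
      · exact absurd hab (by decide)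
      · exact absurd hab (by decide)
      · exact absurd hab (by decide)
      · exact q6_7
      · exact q6_8
      · exact q6_9
      · exact q6_10
    · fin_cases b
      · exact absurd hab (by decide)
      · exact absurd hab (by decide)
      · exact absurd hab (by decide)
      · exact absurd hab (by decide)
      · exact absurd hab (by decide)
      · exact absurd hab (by decide)
      · exact absurd hab (by decide)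
      · exact q7_8
      · exact q7_9
      · exact q7_10
    · fin_cases b
      · exact absurd hab (by decide)
      · exact absurd hab (by decide)
      · exact absurd hab (by decide)
      · exact absurd hab (by decide)
      · exact absurd hab (by decide)
      · exact absurd hab (by decide)
      · exact absurd hab (by decide)
      · exact absurd hab (by decide)
      · exact q8_9
      · exact q8_10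
    · fin_cases b
      · exact absurd hab (by decide)
      · exact absurd hab (by decide)
      · exact absurd hab (by decide)
      · exact absurd hab (by decide)
      · exact absurd hab (by decide)
      · exact absurd hab (by decide)
      · exact absurd hab (by decide)
      · exact absurd hab (by decide)
      · exact absurd hab (by decide)
      · exact q9_10
    · fin_cases b
      · exact absurd hab (by decide)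
      · exact absurd hab (by decide)
      · exact absurd hab (by decide)
      · exact absurd hab (by decide)
      · exact absurd hab (by decide)
      · exact absurd hab (by decide)
      · exact absurd hab (by decide)
      · exact absurd hab (by decide)
      · exact absurd hab (by decide)
      · exact absurd hab (by decide)
  clear q1_2 q1_3 q1_4 q1_5 q1_6 q1_7 q1_8 q1_9 q1_10 q2_3 q2_4 q2_5 q2_6 q2_7 q2_8 q2_9 q2_10 q3_4 q3_5 q3_6 q3_7 q3_8 q3_9 q3_10 q4_5 q4_6 q4_7 q4_8 q4_9 q4_10 q5_6 q5_7 q5_8 q5_9 q5_10 q6_7 q6_8 q6_9 q6_10 q7_8 q7_9 q7_10 q8_9 q8_10 q9_10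
  have hv : val 10 x ![p1, p2, p3, p4, p5, p6, p7, p8, p9, p10] =
      (171/11)*y1*y1*y1 + (503/11)*y1*y1*y2 + (493/11)*y1*y1*y3 + (483/11)*y1*y1*y4 +
      43*y1*y1*y5 + (463/11)*y1*y1*y6 + (453/11)*y1*y1*y7 + (443/11)*y1*y1*y8 +
      (433/11)*y1*y1*y9 + (423/11)*y1*y1*y10 + (483/11)*y1*y2*y2 + (898/11)*y1*y2*y3 +
      (830/11)*y1*y2*y4 + (762/11)*y1*y2*y5 + (694/11)*y1*y2*y6 + (626/11)*y1*y2*y7 +
      (558/11)*y1*y2*y8 + (490/11)*y1*y2*y9 + (642/11)*y1*y2*y10 + (405/11)*y1*y3*y3 +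
      (694/11)*y1*y3*y4 + (578/11)*y1*y3*y5 + 42*y1*y3*y6 + (346/11)*y1*y3*y7 +
      (230/11)*y1*y3*y8 + (224/11)*y1*y3*y9 + (438/11)*y1*y3*y10 + (279/11)*y1*y4*y4 +
      (394/11)*y1*y4*y5 + (230/11)*y1*y4*y6 + 6*y1*y4*y7 + (12/11)*y1*y4*y8 + (-42/11)*y1*y4*y9
      + (234/11)*y1*y4*y10 + (105/11)*y1*y5*y5 + (-2/11)*y1*y5*y6 + (-104/11)*y1*y5*y7 +
      (-206/11)*y1*y5*y8 + (-28)*y1*y5*y9 + (30/11)*y1*y5*y10 + (-62/11)*y1*y6*y6 +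
      (-274/11)*y1*y6*y7 + (-424/11)*y1*y6*y8 + (-574/11)*y1*y6*y9 + (-174/11)*y1*y6*y10 +
      (-222/11)*y1*y7*y7 + (-642/11)*y1*y7*y8 + (-840/11)*y1*y7*y9 + (-378/11)*y1*y7*y10 +
      (-430/11)*y1*y8*y8 + (-1106/11)*y1*y8*y9 + (-582/11)*y1*y8*y10 + (-686/11)*y1*y9*y9 +
      (-786/11)*y1*y9*y10 + (322/11)*y2*y2*y2 + (898/11)*y2*y2*y3 + (830/11)*y2*y2*y4 +
      (762/11)*y2*y2*y5 + (694/11)*y2*y2*y6 + (626/11)*y2*y2*y7 + (558/11)*y2*y2*y8 +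
      (490/11)*y2*y2*y9 + (642/11)*y2*y2*y10 + (810/11)*y2*y3*y3 + (1388/11)*y2*y3*y4 +
      (1156/11)*y2*y3*y5 + 84*y2*y3*y6 + (692/11)*y2*y3*y7 + (460/11)*y2*y3*y8 +
      (558/11)*y2*y3*y9 + (876/11)*y2*y3*y10 + (558/11)*y2*y4*y4 + (788/11)*y2*y4*y5 +
      (460/11)*y2*y4*y6 + 12*y2*y4*y7 + (24/11)*y2*y4*y8 + (136/11)*y2*y4*y9 +
      (468/11)*y2*y4*y10 + (210/11)*y2*y5*y5 + (-4/11)*y2*y5*y6 + (-208/11)*y2*y5*y7 +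
      (-412/11)*y2*y5*y8 + (-26)*y2*y5*y9 + (60/11)*y2*y5*y10 + (-124/11)*y2*y6*y6 +
      (-548/11)*y2*y6*y7 + (-848/11)*y2*y6*y8 + (-708/11)*y2*y6*y9 + (-348/11)*y2*y6*y10 +
      (-444/11)*y2*y7*y7 + (-1284/11)*y2*y7*y8 + (-1130/11)*y2*y7*y9 + (-756/11)*y2*y7*y10 +
      (-860/11)*y2*y8*y8 + (-1552/11)*y2*y8*y9 + (-1164/11)*y2*y8*y10 + (-602/11)*y2*y9*y9 +
      (-582/11)*y2*y9*y10 + (405/11)*y3*y3*y3 + (1041/11)*y3*y3*y4 + (867/11)*y3*y3*y5 +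
      63*y3*y3*y6 + (519/11)*y3*y3*y7 + (345/11)*y3*y3*y8 + (501/11)*y3*y3*y9 +
      (657/11)*y3*y3*y10 + (837/11)*y3*y4*y4 + (1182/11)*y3*y4*y5 + (690/11)*y3*y4*y6 +
      18*y3*y4*y7 + (146/11)*y3*y4*y8 + (424/11)*y3*y4*y9 + (702/11)*y3*y4*y10 +
      (315/11)*y3*y5*y5 + (-6/11)*y3*y5*y6 + (-312/11)*y3*y5*y7 + (-398/11)*y3*y5*y8 +
      (-14)*y3*y5*y9 + (90/11)*y3*y5*y10 + (-186/11)*y3*y6*y6 + (-822/11)*y3*y6*y7 +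
      (-942/11)*y3*y6*y8 + (-732/11)*y3*y6*y9 + (-522/11)*y3*y6*y10 + (-666/11)*y3*y7*y7 +
      (-1486/11)*y3*y7*y8 + (-1310/11)*y3*y7*y9 + (-1134/11)*y3*y7*y10 + (-740/11)*y3*y8*y8 +
      (-1118/11)*y3*y8*y9 + (-756/11)*y3*y8*y10 + (-408/11)*y3*y9*y9 + (-378/11)*y3*y9*y10 +
      (372/11)*y4*y4*y4 + (788/11)*y4*y4*y5 + (460/11)*y4*y4*y6 + 12*y4*y4*y7 +
      (244/11)*y4*y4*y8 + (356/11)*y4*y4*y9 + (468/11)*y4*y4*y10 + (420/11)*y4*y5*y5 +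
      (-8/11)*y4*y5*y6 + (-306/11)*y4*y5*y7 + (-164/11)*y4*y5*y8 + (-2)*y4*y5*y9 +
      (120/11)*y4*y5*y10 + (-248/11)*y4*y6*y6 + (-876/11)*y4*y6*y7 + (-816/11)*y4*y6*y8 +
      (-756/11)*y4*y6*y9 + (-696/11)*y4*y6*y10 + (-558/11)*y4*y7*y7 + (-918/11)*y4*y7*y8 +
      (-720/11)*y4*y7*y9 + (-522/11)*y4*y7*y10 + (-400/11)*y4*y8*y8 + (-574/11)*y4*y8*y9 +
      (-348/11)*y4*y8*y10 + (-214/11)*y4*y9*y9 + (-174/11)*y4*y9*y10 + (175/11)*y5*y5*y5 +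
      (-5/11)*y5*y5*y6 + (15/11)*y5*y5*y7 + (35/11)*y5*y5*y8 + 5*y5*y5*y9 + (75/11)*y5*y5*y10 +
      (-200/11)*y5*y6*y6 + (-270/11)*y5*y6*y7 + (-140/11)*y5*y6*y8 + (-10/11)*y5*y6*y9 +
      (120/11)*y5*y6*y10 + (-120/11)*y5*y7*y7 + (-130/11)*y5*y7*y8 + (-20/11)*y5*y7*y9 +
      (90/11)*y5*y7*y10 + (-60/11)*y5*y8*y8 + (-30/11)*y5*y8*y9 + (60/11)*y5*y8*y10 +
      (-20/11)*y5*y9*y9 + (30/11)*y5*y9*y10 + (96/11)*y6*y6*y6 + (333/11)*y6*y6*y7 +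
      (378/11)*y6*y6*y8 + (423/11)*y6*y6*y9 + (468/11)*y6*y6*y10 + (318/11)*y6*y7*y7 +
      (658/11)*y6*y7*y8 + (680/11)*y6*y7*y9 + (702/11)*y6*y7*y10 + (280/11)*y6*y8*y8 +
      (514/11)*y6*y8*y9 + (468/11)*y6*y8*y10 + (174/11)*y6*y9*y9 + (234/11)*y6*y9*y10 +
      (252/11)*y7*y7*y7 + (723/11)*y7*y7*y8 + (690/11)*y7*y7*y9 + (657/11)*y7*y7*y10 +
      (620/11)*y7*y8*y8 + (1058/11)*y7*y8*y9 + (876/11)*y7*y8*y10 + (368/11)*y7*y9*y9 +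
      (438/11)*y7*y9*y10 + (320/11)*y8*y8*y8 + (801/11)*y8*y8*y9 + (642/11)*y8*y8*y10 +
      (562/11)*y8*y9*y9 + (642/11)*y8*y9*y10 + (252/11)*y9*y9*y9 + (423/11)*y9*y9*y10 := by
    unfold val
    simp only [sum_univ_ten, Matrix.cons_val, Matrix.cons_val_zero, Matrix.cons_val_one]
    rw [e0, e1, e2, e3, e4, e5, e6, e7, e8, e9, f1, f2, f3, f4, f5, f6, f7, f8, f9, f10]
    push_cast
    ring
  clear f1 f2 f3 f4 f5 f6 f7 f8 f9 f10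
  have hc := cert10_core y1 y2 y3 y4 y5 y6 y7 y8 y9 y10 hy1 hy2 hy3 hy4 hy5 hy6 hy7 hy8 hy9 hy10
  rw [← hv] at hc
  clear hv
  have hd : 0 ≤ y1*y1*y1 + y2*y2*y2 + y3*y3*y3 + y4*y4*y4 + y5*y5*y5 + y6*y6*y6 + y7*y7*y7 + y8*y8*y8 + y9*y9*y9 := by positivity
  refine ⟨![p1, p2, p3, p4, p5, p6, p7, p8, p9, p10], pairs_of_lt hp, le_trans (mul_nonneg (by norm_num) hd) hc, ?_⟩
  clear hp
  have gl : ∀ a, x 9 ≤ x a := fun a => hx (Fin.le_last a)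
  have gu : ∀ a, x a ≤ x 0 := fun a => hx (Fin.zero_le a)
  · intro hz
    rw [hz] at hc
    have t1_1_1 : 0 ≤ y1*y1*y1 := by positivity
    have t2_2_2 : 0 ≤ y2*y2*y2 := by positivity
    have t3_3_3 : 0 ≤ y3*y3*y3 := by positivity
    have t4_4_4 : 0 ≤ y4*y4*y4 := by positivity
    have t5_5_5 : 0 ≤ y5*y5*y5 := by positivity
    have t6_6_6 : 0 ≤ y6*y6*y6 := by positivity
    have t7_7_7 : 0 ≤ y7*y7*y7 := by positivity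
    have t8_8_8 : 0 ≤ y8*y8*y8 := by positivity
    have t9_9_9 : 0 ≤ y9*y9*y9 := by positivity
    have z1 : y1 = 0 := cube_zero hy1 (by linarith)
    have z2 : y2 = 0 := cube_zero hy2 (by linarith)
    have z3 : y3 = 0 := cube_zero hy3 (by linarith)
    have z4 : y4 = 0 := cube_zero hy4 (by linarith)
    have z5 : y5 = 0 := cube_zero hy5 (by linarith)
    have z6 : y6 = 0 := cube_zero hy6 (by linarith)
    have z7 : y7 = 0 := cube_zero hy7 (by linarith)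
    have z8 : y8 = 0 := cube_zero hy8 (by linarith)
    have z9 : y9 = 0 := cube_zero hy9 (by linarith)
    left
    have g : ∀ a, x a = y10 := fun a => by
      have g1 := gl a
      have g2 := gu a
      linarith
    intro a b
    rw [g a, g b]

end Pool.Agent.K1H63.EB
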