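import Pool.Agent.K1H63.EB.Pinch

/-!
# The finite inequality, dimension 5

Generated: an explicit sum of squares certificate.
-/

set_option autoImplicit false
set_option maxRecDepth 4000

namespace Pool.Agent.K1H63.EB

theorem cert4_core (y1 y2 y3 y4 : ℝ)
    (h1 : 0 ≤ y1)
    (h2 : 0 ≤ y2)
    (h3 : 0 ≤ y3)
    (h4 : 0 ≤ y4) :
    44 / 256 * (y1*y1*y1 + y2*y2*y2 + y3*y3*y3) ≤
      (39/5)*y1*y1*y1 + 19*y1*y1*y2 + (73/5)*y1*y1*y3 + (51/5)*y1*y1*y4 + (51/5)*y1*y2*y2 +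
      2*y1*y2*y3 + (18/5)*y1*y2*y4 + (-38/5)*y1*y3*y3 + (-66/5)*y1*y3*y4 + (34/5)*y2*y2*y2 +
      2*y2*y2*y3 + (18/5)*y2*y2*y4 + (-26/5)*y2*y3*y3 + (18/5)*y2*y3*y4 + (12/5)*y3*y3*y3 +
      (51/5)*y3*y3*y4 := by
  have k1 : 0 ≤ y1*((37*y1 +
      y2 - 6*y3)^2 + (52*y2 - 19*y3)^2 + (9*y3)^2) +
      y2*((65*y1 - 3*y2 - 8*y3)^2 + (40*y2 - 16*y3)^2 + (8*y3)^2) +
      y3*((63*y1 + 27*y2 - 20*y3)^2 + (30*y2 - 11*y3)^2 + (7*y3)^2) +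
      y4*((47*y1 - 2*y2 - 41*y3)^2 + (22*y2 - 7*y3)^2 + (21*y3)^2) := by positivity
  have k2 : 0 ≤
      (2919/5)*y1*y1*y1 + 565*y1*y1*y2 + (1063/5)*y1*y1*y3 + (2011/5)*y1*y1*y4 +
      (1481/5)*y1*y2*y2 + 138*y1*y2*y3 + (5548/5)*y1*y2*y4 + (482/5)*y1*y3*y3 +
      (2374/5)*y1*y3*y4 + (439/5)*y2*y2*y2 + 115*y2*y2*y3 + (2168/5)*y2*y2*y4 +
      (124/5)*y2*y3*y3 + (5328/5)*y2*y3*y4 + (2/5)*y3*y3*y3 + (2201/5)*y3*y3*y4 := by positivity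
  have k3 : (256 : ℝ) * ((
      (39/5)*y1*y1*y1 + 19*y1*y1*y2 + (73/5)*y1*y1*y3 + (51/5)*y1*y1*y4 + (51/5)*y1*y2*y2 +
      2*y1*y2*y3 + (18/5)*y1*y2*y4 + (-38/5)*y1*y3*y3 + (-66/5)*y1*y3*y4 + (34/5)*y2*y2*y2 +
      2*y2*y2*y3 + (18/5)*y2*y2*y4 + (-26/5)*y2*y3*y3 + (18/5)*y2*y3*y4 + (12/5)*y3*y3*y3 +
      (51/5)*y3*y3*y4) -
      44 / 256 * (y1*y1*y1 + y2*y2*y2 + y3*y3*y3)) =

      (y1*((37*y1 +
      y2 - 6*y3)^2 + (52*y2 - 19*y3)^2 + (9*y3)^2) +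
      y2*((65*y1 - 3*y2 - 8*y3)^2 + (40*y2 - 16*y3)^2 + (8*y3)^2) +
      y3*((63*y1 + 27*y2 - 20*y3)^2 + (30*y2 - 11*y3)^2 + (7*y3)^2) +
      y4*((47*y1 - 2*y2 - 41*y3)^2 + (22*y2 - 7*y3)^2 + (21*y3)^2)) + (
      (2919/5)*y1*y1*y1 + 565*y1*y1*y2 + (1063/5)*y1*y1*y3 + (2011/5)*y1*y1*y4 +
      (1481/5)*y1*y2*y2 + 138*y1*y2*y3 + (5548/5)*y1*y2*y4 + (482/5)*y1*y3*y3 +
      (2374/5)*y1*y3*y4 + (439/5)*y2*y2*y2 + 115*y2*y2*y3 + (2168/5)*y2*y2*y4 +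
      (124/5)*y2*y3*y3 + (5328/5)*y2*y3*y4 + (2/5)*y3*y3*y3 + (2201/5)*y3*y3*y4) := by ring
  have k4 := add_nonneg k1 k2
  rw [← k3] at k4
  exact le_of_sub_nonneg ((mul_nonneg_iff_of_pos_left (by norm_num)).1 k4)

theorem cert4 : Cert 4 := by
  intro x hx h0
  obtain ⟨y4, hy4, e3⟩ : ∃ y, 0 ≤ y ∧ x 3 = y := ⟨x 3, h0 3, rfl⟩
  obtain ⟨y3, hy3, e2⟩ : ∃ y, 0 ≤ y ∧ x 2 = y + (y4) :=
    ⟨x 2 - x 3, sub_nonneg.2 (hx (by decide)), by linarith⟩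
  obtain ⟨y2, hy2, e1⟩ : ∃ y, 0 ≤ y ∧ x 1 = y + (y3 + y4) :=
    ⟨x 1 - x 2, sub_nonneg.2 (hx (by decide)), by linarith⟩
  obtain ⟨y1, hy1, e0⟩ : ∃ y, 0 ≤ y ∧ x 0 = y + (y2 + y3 + y4) :=
    ⟨x 0 - x 1, sub_nonneg.2 (hx (by decide)), by linarith⟩
  obtain ⟨p1, f1⟩ : ∃ p, p =
      y1*y4 + y2*y3 + y2*y4 + (1/2)*y3*y3 + y3*y4 + (1/2)*y4*y4 := ⟨_, rfl⟩
  obtain ⟨p2, f2⟩ : ∃ p, p =
      y2*y3 + y2*y4 + (1/2)*y3*y3 + y3*y4 + (1/2)*y4*y4 := ⟨_, rfl⟩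
  obtain ⟨p3, f3⟩ : ∃ p, p =
      (1/2)*y3*y3 + y3*y4 + (1/2)*y4*y4 := ⟨_, rfl⟩
  obtain ⟨p4, f4⟩ : ∃ p, p =
      (-1)*y2*y3 + (-1/2)*y3*y3 + (1/2)*y4*y4 := ⟨_, rfl⟩
  have q1_2 : p1 + p2 ≤ x 0 * x 1 := by
    have t : 0 ≤
      y1*y2 + y1*y3 + y2*y2 := by positivity
    rw [e0, e1, f1, f2]
    exact le_of_sub_nonneg (le_of_le_of_eq t (by ring))
  have q1_3 : p1 + p3 ≤ x 0 * x 2 := by
    have t : 0 ≤
      y1*y3 := by positivity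
    rw [e0, e2, f1, f3]
    exact le_of_sub_nonneg (le_of_le_of_eq t (by ring))
  have q1_4 : p1 + p4 ≤ x 0 * x 3 := by
    rw [e0, e3, f1, f4]
    apply le_of_eq
    ring
  have q2_3 : p2 + p3 ≤ x 1 * x 2 := by
    rw [e1, e2, f2, f3]
    apply le_of_eq
    ring
  have q2_4 : p2 + p4 ≤ x 1 * x 3 := by
    rw [e1, e3, f2, f4]
    apply le_of_eq
    ring
  have q3_4 : p3 + p4 ≤ x 2 * x 3 := by
    have t : 0 ≤
      y2*y3 := by positivity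
    rw [e2, e3, f3, f4]
    exact le_of_sub_nonneg (le_of_le_of_eq t (by ring))
  have hp : ∀ a b : Fin 4, a < b → (![p1, p2, p3, p4] : Fin 4 → ℝ) a +
      (![p1, p2, p3, p4] : Fin 4 → ℝ) b ≤ x a * x b := by
    intro a b hab
    fin_cases a
    · fin_cases b
      · exact absurd hab (by decide)
      · exact q1_2
      · exact q1_3
      · exact q1_4
    · fin_cases b
      · exact absurd hab (by decide)
      · exact absurd hab (by decide)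
      · exact q2_3
      · exact q2_4
    · fin_cases b
      · exact absurd hab (by decide)
      · exact absurd hab (by decide)
      · exact absurd hab (by decide)
      · exact q3_4
    · fin_cases b
      · exact absurd hab (by decide)
      · exact absurd hab (by decide)
      · exact absurd hab (by decide)
      · exact absurd hab (by decide)
  clear q1_2 q1_3 q1_4 q2_3 q2_4 q3_4
  have hv : val 4 x ![p1, p2, p3, p4] =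
      (39/5)*y1*y1*y1 + 19*y1*y1*y2 + (73/5)*y1*y1*y3 + (51/5)*y1*y1*y4 + (51/5)*y1*y2*y2 +
      2*y1*y2*y3 + (18/5)*y1*y2*y4 + (-38/5)*y1*y3*y3 + (-66/5)*y1*y3*y4 + (34/5)*y2*y2*y2 +
      2*y2*y2*y3 + (18/5)*y2*y2*y4 + (-26/5)*y2*y3*y3 + (18/5)*y2*y3*y4 + (12/5)*y3*y3*y3 +
      (51/5)*y3*y3*y4 := by
    unfold val
    simp only [Fin.sum_univ_four, Matrix.cons_val, Matrix.cons_val_zero, Matrix.cons_val_one]
    rw [e0, e1, e2, e3, f1, f2, f3, f4]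
    push_cast
    ring
  clear f1 f2 f3 f4
  have hc := cert4_core y1 y2 y3 y4 hy1 hy2 hy3 hy4
  rw [← hv] at hc
  clear hv
  have hd : 0 ≤ y1*y1*y1 + y2*y2*y2 + y3*y3*y3 := by positivity
  refine ⟨![p1, p2, p3, p4], pairs_of_lt hp, le_trans (mul_nonneg (by norm_num) hd) hc, ?_⟩
  clear hp
  have gl : ∀ a, x 3 ≤ x a := fun a => hx (Fin.le_last a)
  have gu : ∀ a, x a ≤ x 0 := fun a => hx (Fin.zero_le a)
  · intro hz
    rw [hz] at hc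
    have t1_1_1 : 0 ≤ y1*y1*y1 := by positivity
    have t2_2_2 : 0 ≤ y2*y2*y2 := by positivity
    have t3_3_3 : 0 ≤ y3*y3*y3 := by positivity
    have z1 : y1 = 0 := cube_zero hy1 (by linarith)
    have z2 : y2 = 0 := cube_zero hy2 (by linarith)
    have z3 : y3 = 0 := cube_zero hy3 (by linarith)
    left
    have g : ∀ a, x a = y4 := fun a => by
      have g1 := gl a
      have g2 := gu a
      linarith
    intro a b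
    rw [g a, g b]

end Pool.Agent.K1H63.EB
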