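import Pool.Agent.K1H63.EB.Pinch

/-!
# The finite inequality, dimension 6

Generated: an explicit sum of squares certificate.
-/

set_option autoImplicit false
set_option maxRecDepth 4000

namespace Pool.Agent.K1H63.EB

theorem cert5_core (y1 y2 y3 y4 y5 : ℝ)
    (h1 : 0 ≤ y1)
    (h2 : 0 ≤ y2)
    (h3 : 0 ≤ y3)
    (h4 : 0 ≤ y4)
    (h5 : 0 ≤ y5) :
    69 / 256 * (y1*y1*y1 + y2*y2*y2 + y4*y4*y4 + y3*y3*y5) ≤
      (28/3)*y1*y1*y1 + (74/3)*y1*y1*y2 + (64/3)*y1*y1*y3 + 18*y1*y1*y4 + (44/3)*y1*y1*y5 +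
      18*y1*y2*y2 + (64/3)*y1*y2*y3 + (20/3)*y1*y2*y4 + 12*y1*y2*y5 + (-38/3)*y1*y3*y4 +
      (-16/3)*y1*y3*y5 + (-16)*y1*y4*y4 + (-68/3)*y1*y4*y5 + 12*y2*y2*y2 + (64/3)*y2*y2*y3 +
      (20/3)*y2*y2*y4 + 12*y2*y2*y5 + (-46/3)*y2*y3*y4 + (-32/3)*y2*y3*y5 + (-12)*y2*y4*y4 +
      (-16/3)*y2*y4*y5 + 6*y3*y3*y4 + 12*y3*y3*y5 + 2*y3*y4*y4 + 12*y3*y4*y5 + (16/3)*y4*y4*y4
      + (44/3)*y4*y4*y5 := by
  have k1 : 0 ≤ y1*((45*y1 + 6*y2 - 12*y4)^2 + (62*y2 - 19*y4)^2 + (9*y4)^2) +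
      y2*((74*y1 + 3*y2 - 17*y4)^2 + (53*y2 - 17*y4)^2 + (9*y4)^2) +
      y3*((71*y1 + 36*y2 - 28*y4)^2 + (62*y2 - 20*y4)^2 + (9*y4)^2) +
      y4*((75*y1 + 44*y2 + 3*y3 - 32*y4)^2 + (40*y2 +
      y3 - 12*y4)^2 + (37*y3 - 8*y4)^2 + (8*y4)^2) +
      y5*((58*y1 + 17*y2 - 20*y3 - 53*y4)^2 + (45*y2 - 32*y3 - 6*y4)^2 + (30*y3 - 8*y4)^2 + (21*y4)^2) := by positivity
  have k2 : 0 ≤
      (886/3)*y1*y1*y1 + (896/3)*y1*y1*y2 + (1261/3)*y1*y1*y3 + 63*y1*y1*y4 + (1172/3)*y1*y1*y5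
      + 284*y1*y2*y2 + (1048/3)*y1*y2*y3 + (368/3)*y1*y2*y4 + 1100*y1*y2*y5 + (850/3)*y1*y3*y4
      + (2864/3)*y1*y3*y5 + 118*y1*y4*y4 + (1036/3)*y1*y4*y5 + 185*y2*y2*y2 + (964/3)*y2*y2*y3
      + (224/3)*y2*y2*y4 + 758*y2*y2*y5 + (680/3)*y2*y3*y4 + (2488/3)*y2*y3*y5 + 45*y2*y4*y4 +
      (2930/3)*y2*y4*y5 + 157*y3*y3*y4 + 679*y3*y3*y5 + 55*y3*y4*y4 + 1048*y3*y4*y5 +
      (1/3)*y4*y4*y4 + (1214/3)*y4*y4*y5 := by positivity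
  have k3 : (256 : ℝ) * ((
      (28/3)*y1*y1*y1 + (74/3)*y1*y1*y2 + (64/3)*y1*y1*y3 + 18*y1*y1*y4 + (44/3)*y1*y1*y5 +
      18*y1*y2*y2 + (64/3)*y1*y2*y3 + (20/3)*y1*y2*y4 + 12*y1*y2*y5 + (-38/3)*y1*y3*y4 +
      (-16/3)*y1*y3*y5 + (-16)*y1*y4*y4 + (-68/3)*y1*y4*y5 + 12*y2*y2*y2 + (64/3)*y2*y2*y3 +
      (20/3)*y2*y2*y4 + 12*y2*y2*y5 + (-46/3)*y2*y3*y4 + (-32/3)*y2*y3*y5 + (-12)*y2*y4*y4 +
      (-16/3)*y2*y4*y5 + 6*y3*y3*y4 + 12*y3*y3*y5 + 2*y3*y4*y4 + 12*y3*y4*y5 + (16/3)*y4*y4*y4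
      + (44/3)*y4*y4*y5) -
      69 / 256 * (y1*y1*y1 + y2*y2*y2 + y4*y4*y4 + y3*y3*y5)) =

      (y1*((45*y1 + 6*y2 - 12*y4)^2 + (62*y2 - 19*y4)^2 + (9*y4)^2) +
      y2*((74*y1 + 3*y2 - 17*y4)^2 + (53*y2 - 17*y4)^2 + (9*y4)^2) +
      y3*((71*y1 + 36*y2 - 28*y4)^2 + (62*y2 - 20*y4)^2 + (9*y4)^2) +
      y4*((75*y1 + 44*y2 + 3*y3 - 32*y4)^2 + (40*y2 +
      y3 - 12*y4)^2 + (37*y3 - 8*y4)^2 + (8*y4)^2) +
      y5*((58*y1 + 17*y2 - 20*y3 - 53*y4)^2 + (45*y2 - 32*y3 - 6*y4)^2 + (30*y3 - 8*y4)^2 + (21*y4)^2)) + (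
      (886/3)*y1*y1*y1 + (896/3)*y1*y1*y2 + (1261/3)*y1*y1*y3 + 63*y1*y1*y4 + (1172/3)*y1*y1*y5
      + 284*y1*y2*y2 + (1048/3)*y1*y2*y3 + (368/3)*y1*y2*y4 + 1100*y1*y2*y5 + (850/3)*y1*y3*y4
      + (2864/3)*y1*y3*y5 + 118*y1*y4*y4 + (1036/3)*y1*y4*y5 + 185*y2*y2*y2 + (964/3)*y2*y2*y3
      + (224/3)*y2*y2*y4 + 758*y2*y2*y5 + (680/3)*y2*y3*y4 + (2488/3)*y2*y3*y5 + 45*y2*y4*y4 +
      (2930/3)*y2*y4*y5 + 157*y3*y3*y4 + 679*y3*y3*y5 + 55*y3*y4*y4 + 1048*y3*y4*y5 +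
      (1/3)*y4*y4*y4 + (1214/3)*y4*y4*y5) := by ring
  have k4 := add_nonneg k1 k2
  rw [← k3] at k4
  exact le_of_sub_nonneg ((mul_nonneg_iff_of_pos_left (by norm_num)).1 k4)

theorem cert5 : Cert 5 := by
  intro x hx h0
  obtain ⟨y5, hy5, e4⟩ : ∃ y, 0 ≤ y ∧ x 4 = y := ⟨x 4, h0 4, rfl⟩
  obtain ⟨y4, hy4, e3⟩ : ∃ y, 0 ≤ y ∧ x 3 = y + (y5) :=
    ⟨x 3 - x 4, sub_nonneg.2 (hx (by decide)), by linarith⟩
  obtain ⟨y3, hy3, e2⟩ : ∃ y, 0 ≤ y ∧ x 2 = y + (y4 + y5) :=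
    ⟨x 2 - x 3, sub_nonneg.2 (hx (by decide)), by linarith⟩
  obtain ⟨y2, hy2, e1⟩ : ∃ y, 0 ≤ y ∧ x 1 = y + (y3 + y4 + y5) :=
    ⟨x 1 - x 2, sub_nonneg.2 (hx (by decide)), by linarith⟩
  obtain ⟨y1, hy1, e0⟩ : ∃ y, 0 ≤ y ∧ x 0 = y + (y2 + y3 + y4 + y5) :=
    ⟨x 0 - x 1, sub_nonneg.2 (hx (by decide)), by linarith⟩
  obtain ⟨p1, f1⟩ : ∃ p, p =
      y1*y5 + y2*y4 + y2*y5 + (1/2)*y3*y3 + y3*y4 + y3*y5 + (1/2)*y4*y4 + y4*y5 + (1/2)*y5*y5 := ⟨_, rfl⟩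
  obtain ⟨p2, f2⟩ : ∃ p, p =
      y2*y4 + y2*y5 + (1/2)*y3*y3 + y3*y4 + y3*y5 + (1/2)*y4*y4 + y4*y5 + (1/2)*y5*y5 := ⟨_, rfl⟩
  obtain ⟨p3, f3⟩ : ∃ p, p =
      (1/2)*y3*y3 + y3*y4 + y3*y5 + (1/2)*y4*y4 + y4*y5 + (1/2)*y5*y5 := ⟨_, rfl⟩
  obtain ⟨p4, f4⟩ : ∃ p, p =
      (-1/2)*y3*y3 + (1/2)*y4*y4 + y4*y5 + (1/2)*y5*y5 := ⟨_, rfl⟩
  obtain ⟨p5, f5⟩ : ∃ p, p =
      (-1)*y2*y4 + (-1/2)*y3*y3 + (-1)*y3*y4 + (-1/2)*y4*y4 + (1/2)*y5*y5 := ⟨_, rfl⟩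
  have q1_2 : p1 + p2 ≤ x 0 * x 1 := by
    have t : 0 ≤
      y1*y2 + y1*y3 + y1*y4 + y2*y2 + 2*y2*y3 := by positivity
    rw [e0, e1, f1, f2]
    exact le_of_sub_nonneg (le_of_le_of_eq t (by ring))
  have q1_3 : p1 + p3 ≤ x 0 * x 2 := by
    have t : 0 ≤
      y1*y3 + y1*y4 + y2*y3 := by positivity
    rw [e0, e2, f1, f3]
    exact le_of_sub_nonneg (le_of_le_of_eq t (by ring))
  have q1_4 : p1 + p4 ≤ x 0 * x 3 := by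
    have t : 0 ≤
      y1*y4 := by positivity
    rw [e0, e3, f1, f4]
    exact le_of_sub_nonneg (le_of_le_of_eq t (by ring))
  have q1_5 : p1 + p5 ≤ x 0 * x 4 := by
    rw [e0, e4, f1, f5]
    apply le_of_eq
    ring
  have q2_3 : p2 + p3 ≤ x 1 * x 2 := by
    have t : 0 ≤
      y2*y3 := by positivity
    rw [e1, e2, f2, f3]
    exact le_of_sub_nonneg (le_of_le_of_eq t (by ring))
  have q2_4 : p2 + p4 ≤ x 1 * x 3 := by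
    rw [e1, e3, f2, f4]
    apply le_of_eq
    ring
  have q2_5 : p2 + p5 ≤ x 1 * x 4 := by
    rw [e1, e4, f2, f5]
    apply le_of_eq
    ring
  have q3_4 : p3 + p4 ≤ x 2 * x 3 := by
    rw [e2, e3, f3, f4]
    apply le_of_eq
    ring
  have q3_5 : p3 + p5 ≤ x 2 * x 4 := by
    have t : 0 ≤
      y2*y4 := by positivity
    rw [e2, e4, f3, f5]
    exact le_of_sub_nonneg (le_of_le_of_eq t (by ring))
  have q4_5 : p4 + p5 ≤ x 3 * x 4 := by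
    have t : 0 ≤
      y2*y4 + y3*y3 + y3*y4 := by positivity
    rw [e3, e4, f4, f5]
    exact le_of_sub_nonneg (le_of_le_of_eq t (by ring))
  have hp : ∀ a b : Fin 5, a < b → (![p1, p2, p3, p4, p5] : Fin 5 → ℝ) a +
      (![p1, p2, p3, p4, p5] : Fin 5 → ℝ) b ≤ x a * x b := by
    intro a b hab
    fin_cases a
    · fin_cases b
      · exact absurd hab (by decide)
      · exact q1_2
      · exact q1_3
      · exact q1_4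
      · exact q1_5
    · fin_cases b
      · exact absurd hab (by decide)
      · exact absurd hab (by decide)
      · exact q2_3
      · exact q2_4
      · exact q2_5
    · fin_cases b
      · exact absurd hab (by decide)
      · exact absurd hab (by decide)
      · exact absurd hab (by decide)
      · exact q3_4
      · exact q3_5
    · fin_cases b
      · exact absurd hab (by decide)
      · exact absurd hab (by decide)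
      · exact absurd hab (by decide)
      · exact absurd hab (by decide)
      · exact q4_5
    · fin_cases b
      · exact absurd hab (by decide)
      · exact absurd hab (by decide)
      · exact absurd hab (by decide)
      · exact absurd hab (by decide)
      · exact absurd hab (by decide)
  clear q1_2 q1_3 q1_4 q1_5 q2_3 q2_4 q2_5 q3_4 q3_5 q4_5
  have hv : val 5 x ![p1, p2, p3, p4, p5] =
      (28/3)*y1*y1*y1 + (74/3)*y1*y1*y2 + (64/3)*y1*y1*y3 + 18*y1*y1*y4 + (44/3)*y1*y1*y5 +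
      18*y1*y2*y2 + (64/3)*y1*y2*y3 + (20/3)*y1*y2*y4 + 12*y1*y2*y5 + (-38/3)*y1*y3*y4 +
      (-16/3)*y1*y3*y5 + (-16)*y1*y4*y4 + (-68/3)*y1*y4*y5 + 12*y2*y2*y2 + (64/3)*y2*y2*y3 +
      (20/3)*y2*y2*y4 + 12*y2*y2*y5 + (-46/3)*y2*y3*y4 + (-32/3)*y2*y3*y5 + (-12)*y2*y4*y4 +
      (-16/3)*y2*y4*y5 + 6*y3*y3*y4 + 12*y3*y3*y5 + 2*y3*y4*y4 + 12*y3*y4*y5 + (16/3)*y4*y4*y4
      + (44/3)*y4*y4*y5 := by
    unfold val
    simp only [Fin.sum_univ_five, Matrix.cons_val, Matrix.cons_val_zero, Matrix.cons_val_one]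
    rw [e0, e1, e2, e3, e4, f1, f2, f3, f4, f5]
    push_cast
    ring
  clear f1 f2 f3 f4 f5
  have hc := cert5_core y1 y2 y3 y4 y5 hy1 hy2 hy3 hy4 hy5
  rw [← hv] at hc
  clear hv
  have hd : 0 ≤ y1*y1*y1 + y2*y2*y2 + y4*y4*y4 + y3*y3*y5 := by positivity
  refine ⟨![p1, p2, p3, p4, p5], pairs_of_lt hp, le_trans (mul_nonneg (by norm_num) hd) hc, ?_⟩
  clear hp
  have gl : ∀ a, x 4 ≤ x a := fun a => hx (Fin.le_last a)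
  have gu : ∀ a, x a ≤ x 0 := fun a => hx (Fin.zero_le a)
  · intro hz
    rw [hz] at hc
    have t1_1_1 : 0 ≤ y1*y1*y1 := by positivity
    have t2_2_2 : 0 ≤ y2*y2*y2 := by positivity
    have t4_4_4 : 0 ≤ y4*y4*y4 := by positivity
    have t3_3_5 : 0 ≤ y3*y3*y5 := by positivity
    have z1 : y1 = 0 := cube_zero hy1 (by linarith)
    have z2 : y2 = 0 := cube_zero hy2 (by linarith)
    have z4 : y4 = 0 := cube_zero hy4 (by linarith)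
    rcases sq_zero_or hy3 hy5 (by linarith) with z3 | z5
    · left
      have g : ∀ a, x a = y5 := fun a => by
        have g1 := gl a
        have g2 := gu a
        linarith
      intro a b
      rw [g a, g b]
    · right
      have hs : ∑ b, x b = 3 * y3 := by
        rw [Fin.sum_univ_five, e0, e1, e2, e3, e4]
        linarith
      intro a
      rcases le_or_gt a 2 with g | g
      · right
        have g1 : x 2 ≤ x a := hx g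
        have g2 := gu a
        have g3 : x a = y3 := by linarith
        rw [hs, g3]
        push_cast
        ring
      · left
        have g1 : x a ≤ x 3 := hx (Nat.succ_le_of_lt g)
        have g2 := h0 a
        linarith

end Pool.Agent.K1H63.EB
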