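import Pool.Agent.K1H63.EB.Pinch

/-!
# The finite inequality, dimension 7

Generated: an explicit sum of squares certificate.
-/

set_option autoImplicit false
set_option maxRecDepth 4000

namespace Pool.Agent.K1H63.EB

theorem cert6_core (y1 y2 y3 y4 y5 y6 : ℝ)
    (h1 : 0 ≤ y1)
    (h2 : 0 ≤ y2)
    (h3 : 0 ≤ y3)
    (h4 : 0 ≤ y4)
    (h5 : 0 ≤ y5)
    (h6 : 0 ≤ y6) :
    108 / 1024 * (y1*y1*y1 + y2*y2*y2 + y3*y3*y3 + y4*y4*y4 + y5*y5*y5) ≤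
      (75/7)*y1*y1*y1 + (207/7)*y1*y1*y2 + 27*y1*y1*y3 + (171/7)*y1*y1*y4 + (153/7)*y1*y1*y5 +
      (135/7)*y1*y1*y6 + (171/7)*y1*y2*y2 + (258/7)*y1*y2*y3 + (174/7)*y1*y2*y4 +
      (90/7)*y1*y2*y5 + (146/7)*y1*y2*y6 + (69/7)*y1*y3*y3 + (6/7)*y1*y3*y4 + (-8)*y1*y3*y5 +
      (22/7)*y1*y3*y6 + (-46/7)*y1*y4*y4 + (-202/7)*y1*y4*y5 + (-102/7)*y1*y4*y6 +
      (-174/7)*y1*y5*y5 + (-226/7)*y1*y5*y6 + (114/7)*y2*y2*y2 + (258/7)*y2*y2*y3 +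
      (174/7)*y2*y2*y4 + (90/7)*y2*y2*y5 + (146/7)*y2*y2*y6 + (138/7)*y2*y3*y3 +
      (12/7)*y2*y3*y4 + (-6)*y2*y3*y5 + (44/7)*y2*y3*y6 + (-92/7)*y2*y4*y4 + (-264/7)*y2*y4*y5
      + (-204/7)*y2*y4*y6 + (-138/7)*y2*y5*y5 + (-102/7)*y2*y5*y6 + (69/7)*y3*y3*y3 +
      (9/7)*y3*y3*y4 + 3*y3*y3*y5 + (33/7)*y3*y3*y6 + (-68/7)*y3*y4*y4 + (-46/7)*y3*y4*y5 +
      (44/7)*y3*y4*y6 + (-32/7)*y3*y5*y5 + (22/7)*y3*y5*y6 + (32/7)*y4*y4*y4 + (121/7)*y4*y4*y5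
      + (146/7)*y4*y4*y6 + (74/7)*y4*y5*y5 + (146/7)*y4*y5*y6 + (60/7)*y5*y5*y5 +
      (135/7)*y5*y5*y6 := by
  have k1 : 0 ≤ y1*((99*y1 + 19*y2 - 2*y3 - 6*y4 - 33*y5)^2 + (137*y2 + 48*y3 - 34*y4 - 38*y5)^2 + (83*y3 - 38*y4 - 4*y5)^2 + (30*y4 - 5*y5)^2 + (18*y5)^2) +
      y2*((159*y1 + 15*y2 + 2*y3 - 6*y4 - 49*y5)^2 + (124*y2 + 35*y3 - 29*y4 - 36*y5)^2 + (90*y3 - 43*y4 - 3*y5)^2 + (22*y4 - 3*y5)^2 + (18*y5)^2) +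
      y3*((162*y1 + 68*y2 - 2*y3 - 10*y4 - 63*y5)^2 + (150*y2 + 34*y3 - 29*y4 - 40*y5)^2 + (93*y3 - 46*y4 - 10*y5)^2 + (16*y4)^2 + (19*y5)^2) +
      y4*((158*y1 + 113*y2 + 40*y3 - 35*y4 - 77*y5)^2 + (138*y2 + 44*y3 - 34*y4 - 39*y5)^2 + (89*y3 - 44*y4 - 2*y5)^2 + (16*y4)^2 + (18*y5)^2) +
      y5*((169*y1 + 118*y2 + 46*y3 - 26*y4 - 85*y5)^2 + (96*y2 + 32*y3 - 39*y4 - 23*y5)^2 + (58*y3 + 24*y4 - 15*y5)^2 + (78*y4 - 18*y5)^2 + (16*y5)^2) +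
      y6*((135*y1 + 64*y2 - 2*y3 - 69*y4 - 127*y5)^2 + (120*y2 - y3 - 100*y4 - 9*y5)^2 + (52*y3 - 10*y4 - 12*y5)^2 + (61*y4 - 17*y5)^2 + (40*y5)^2) := by positivity
  have k2 : 0 ≤
      (7437/7)*y1*y1*y1 + (8667/7)*y1*y1*y2 + 1800*y1*y1*y3 + (8672/7)*y1*y1*y4 +
      (2483/7)*y1*y1*y5 + (10665/7)*y1*y1*y6 + (7804/7)*y1*y2*y2 + (13984/7)*y1*y2*y3 +
      (8384/7)*y1*y2*y4 + (3708/7)*y1*y2*y5 + (28544/7)*y1*y2*y6 + (10813/7)*y1*y3*y3 +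
      (7180/7)*y1*y3*y4 + 852*y1*y3*y5 + (26308/7)*y1*y3*y6 + (5564/7)*y1*y4*y4 +
      (4104/7)*y1*y4*y5 + (25962/7)*y1*y4*y6 + (2648/7)*y1*y5*y5 + (8606/7)*y1*y5*y6 +
      (6773/7)*y2*y2*y2 + (13144/7)*y2*y2*y3 + (7089/7)*y2*y2*y4 + (2966/7)*y2*y2*y5 +
      (20032/7)*y2*y2*y6 + (6513/7)*y2*y3*y3 + (2978/7)*y2*y3*y4 + 680*y2*y3*y5 +
      (48528/7)*y2*y3*y6 + (4380/7)*y2*y4*y4 + (2580/7)*y2*y4*y5 + (20928/7)*y2*y4*y6 +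
      (1747/7)*y2*y5*y5 + (24464/7)*y2*y5*y6 + (1237/7)*y3*y3*y3 + (2433/7)*y3*y3*y4 +
      896*y3*y3*y5 + (14829/7)*y3*y3*y6 + (2545/7)*y3*y4*y4 + (5760/7)*y3*y4*y5 +
      (49004/7)*y3*y4*y6 + (2246/7)*y3*y5*y5 + (27582/7)*y3*y5*y6 + (1/7)*y4*y4*y4 +
      (4379/7)*y4*y4*y5 + (19430/7)*y4*y4*y6 + (2528/7)*y4*y5*y5 + (27060/7)*y4*y5*y6 +
      (771/7)*y5*y5*y5 + (10539/7)*y5*y5*y6 := by positivity
  have k3 : (1024 : ℝ) * ((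
      (75/7)*y1*y1*y1 + (207/7)*y1*y1*y2 + 27*y1*y1*y3 + (171/7)*y1*y1*y4 + (153/7)*y1*y1*y5 +
      (135/7)*y1*y1*y6 + (171/7)*y1*y2*y2 + (258/7)*y1*y2*y3 + (174/7)*y1*y2*y4 +
      (90/7)*y1*y2*y5 + (146/7)*y1*y2*y6 + (69/7)*y1*y3*y3 + (6/7)*y1*y3*y4 + (-8)*y1*y3*y5 +
      (22/7)*y1*y3*y6 + (-46/7)*y1*y4*y4 + (-202/7)*y1*y4*y5 + (-102/7)*y1*y4*y6 +
      (-174/7)*y1*y5*y5 + (-226/7)*y1*y5*y6 + (114/7)*y2*y2*y2 + (258/7)*y2*y2*y3 +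
      (174/7)*y2*y2*y4 + (90/7)*y2*y2*y5 + (146/7)*y2*y2*y6 + (138/7)*y2*y3*y3 +
      (12/7)*y2*y3*y4 + (-6)*y2*y3*y5 + (44/7)*y2*y3*y6 + (-92/7)*y2*y4*y4 + (-264/7)*y2*y4*y5
      + (-204/7)*y2*y4*y6 + (-138/7)*y2*y5*y5 + (-102/7)*y2*y5*y6 + (69/7)*y3*y3*y3 +
      (9/7)*y3*y3*y4 + 3*y3*y3*y5 + (33/7)*y3*y3*y6 + (-68/7)*y3*y4*y4 + (-46/7)*y3*y4*y5 +
      (44/7)*y3*y4*y6 + (-32/7)*y3*y5*y5 + (22/7)*y3*y5*y6 + (32/7)*y4*y4*y4 + (121/7)*y4*y4*y5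
      + (146/7)*y4*y4*y6 + (74/7)*y4*y5*y5 + (146/7)*y4*y5*y6 + (60/7)*y5*y5*y5 +
      (135/7)*y5*y5*y6) -
      108 / 1024 * (y1*y1*y1 + y2*y2*y2 + y3*y3*y3 + y4*y4*y4 + y5*y5*y5)) =

      (y1*((99*y1 + 19*y2 - 2*y3 - 6*y4 - 33*y5)^2 + (137*y2 + 48*y3 - 34*y4 - 38*y5)^2 + (83*y3 - 38*y4 - 4*y5)^2 + (30*y4 - 5*y5)^2 + (18*y5)^2) +
      y2*((159*y1 + 15*y2 + 2*y3 - 6*y4 - 49*y5)^2 + (124*y2 + 35*y3 - 29*y4 - 36*y5)^2 + (90*y3 - 43*y4 - 3*y5)^2 + (22*y4 - 3*y5)^2 + (18*y5)^2) +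
      y3*((162*y1 + 68*y2 - 2*y3 - 10*y4 - 63*y5)^2 + (150*y2 + 34*y3 - 29*y4 - 40*y5)^2 + (93*y3 - 46*y4 - 10*y5)^2 + (16*y4)^2 + (19*y5)^2) +
      y4*((158*y1 + 113*y2 + 40*y3 - 35*y4 - 77*y5)^2 + (138*y2 + 44*y3 - 34*y4 - 39*y5)^2 + (89*y3 - 44*y4 - 2*y5)^2 + (16*y4)^2 + (18*y5)^2) +
      y5*((169*y1 + 118*y2 + 46*y3 - 26*y4 - 85*y5)^2 + (96*y2 + 32*y3 - 39*y4 - 23*y5)^2 + (58*y3 + 24*y4 - 15*y5)^2 + (78*y4 - 18*y5)^2 + (16*y5)^2) +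
      y6*((135*y1 + 64*y2 - 2*y3 - 69*y4 - 127*y5)^2 + (120*y2 - y3 - 100*y4 - 9*y5)^2 + (52*y3 - 10*y4 - 12*y5)^2 + (61*y4 - 17*y5)^2 + (40*y5)^2)) + (
      (7437/7)*y1*y1*y1 + (8667/7)*y1*y1*y2 + 1800*y1*y1*y3 + (8672/7)*y1*y1*y4 +
      (2483/7)*y1*y1*y5 + (10665/7)*y1*y1*y6 + (7804/7)*y1*y2*y2 + (13984/7)*y1*y2*y3 +
      (8384/7)*y1*y2*y4 + (3708/7)*y1*y2*y5 + (28544/7)*y1*y2*y6 + (10813/7)*y1*y3*y3 +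
      (7180/7)*y1*y3*y4 + 852*y1*y3*y5 + (26308/7)*y1*y3*y6 + (5564/7)*y1*y4*y4 +
      (4104/7)*y1*y4*y5 + (25962/7)*y1*y4*y6 + (2648/7)*y1*y5*y5 + (8606/7)*y1*y5*y6 +
      (6773/7)*y2*y2*y2 + (13144/7)*y2*y2*y3 + (7089/7)*y2*y2*y4 + (2966/7)*y2*y2*y5 +
      (20032/7)*y2*y2*y6 + (6513/7)*y2*y3*y3 + (2978/7)*y2*y3*y4 + 680*y2*y3*y5 +
      (48528/7)*y2*y3*y6 + (4380/7)*y2*y4*y4 + (2580/7)*y2*y4*y5 + (20928/7)*y2*y4*y6 +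
      (1747/7)*y2*y5*y5 + (24464/7)*y2*y5*y6 + (1237/7)*y3*y3*y3 + (2433/7)*y3*y3*y4 +
      896*y3*y3*y5 + (14829/7)*y3*y3*y6 + (2545/7)*y3*y4*y4 + (5760/7)*y3*y4*y5 +
      (49004/7)*y3*y4*y6 + (2246/7)*y3*y5*y5 + (27582/7)*y3*y5*y6 + (1/7)*y4*y4*y4 +
      (4379/7)*y4*y4*y5 + (19430/7)*y4*y4*y6 + (2528/7)*y4*y5*y5 + (27060/7)*y4*y5*y6 +
      (771/7)*y5*y5*y5 + (10539/7)*y5*y5*y6) := by ring
  have k4 := add_nonneg k1 k2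
  rw [← k3] at k4
  exact le_of_sub_nonneg ((mul_nonneg_iff_of_pos_left (by norm_num)).1 k4)

theorem cert6 : Cert 6 := by
  intro x hx h0
  obtain ⟨y6, hy6, e5⟩ : ∃ y, 0 ≤ y ∧ x 5 = y := ⟨x 5, h0 5, rfl⟩
  obtain ⟨y5, hy5, e4⟩ : ∃ y, 0 ≤ y ∧ x 4 = y + (y6) :=
    ⟨x 4 - x 5, sub_nonneg.2 (hx (by decide)), by linarith⟩
  obtain ⟨y4, hy4, e3⟩ : ∃ y, 0 ≤ y ∧ x 3 = y + (y5 + y6) :=
    ⟨x 3 - x 4, sub_nonneg.2 (hx (by decide)), by linarith⟩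
  obtain ⟨y3, hy3, e2⟩ : ∃ y, 0 ≤ y ∧ x 2 = y + (y4 + y5 + y6) :=
    ⟨x 2 - x 3, sub_nonneg.2 (hx (by decide)), by linarith⟩
  obtain ⟨y2, hy2, e1⟩ : ∃ y, 0 ≤ y ∧ x 1 = y + (y3 + y4 + y5 + y6) :=
    ⟨x 1 - x 2, sub_nonneg.2 (hx (by decide)), by linarith⟩
  obtain ⟨y1, hy1, e0⟩ : ∃ y, 0 ≤ y ∧ x 0 = y + (y2 + y3 + y4 + y5 + y6) :=
    ⟨x 0 - x 1, sub_nonneg.2 (hx (by decide)), by linarith⟩
  obtain ⟨p1, f1⟩ : ∃ p, p =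
      y1*y6 + y2*y5 + y2*y6 + y3*y4 + y3*y5 + y3*y6 + (1/2)*y4*y4 + y4*y5 + y4*y6 + (1/2)*y5*y5
      + y5*y6 + (1/2)*y6*y6 := ⟨_, rfl⟩
  obtain ⟨p2, f2⟩ : ∃ p, p =
      y2*y5 + y2*y6 + y3*y4 + y3*y5 + y3*y6 + (1/2)*y4*y4 + y4*y5 + y4*y6 + (1/2)*y5*y5 + y5*y6
      + (1/2)*y6*y6 := ⟨_, rfl⟩
  obtain ⟨p3, f3⟩ : ∃ p, p =
      y3*y4 + y3*y5 + y3*y6 + (1/2)*y4*y4 + y4*y5 + y4*y6 + (1/2)*y5*y5 + y5*y6 + (1/2)*y6*y6 := ⟨_, rfl⟩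
  obtain ⟨p4, f4⟩ : ∃ p, p =
      (1/2)*y4*y4 + y4*y5 + y4*y6 + (1/2)*y5*y5 + y5*y6 + (1/2)*y6*y6 := ⟨_, rfl⟩
  obtain ⟨p5, f5⟩ : ∃ p, p =
      (-1)*y3*y4 + (-1/2)*y4*y4 + (1/2)*y5*y5 + y5*y6 + (1/2)*y6*y6 := ⟨_, rfl⟩
  obtain ⟨p6, f6⟩ : ∃ p, p =
      (-1)*y2*y5 + (-1)*y3*y4 + (-1)*y3*y5 + (-1/2)*y4*y4 + (-1)*y4*y5 + (-1/2)*y5*y5 +
      (1/2)*y6*y6 := ⟨_, rfl⟩
  have q1_2 : p1 + p2 ≤ x 0 * x 1 := by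
    have t : 0 ≤
      y1*y2 + y1*y3 + y1*y4 + y1*y5 + y2*y2 + 2*y2*y3 + 2*y2*y4 + y3*y3 := by positivity
    rw [e0, e1, f1, f2]
    exact le_of_sub_nonneg (le_of_le_of_eq t (by ring))
  have q1_3 : p1 + p3 ≤ x 0 * x 2 := by
    have t : 0 ≤
      y1*y3 + y1*y4 + y1*y5 + y2*y3 + y2*y4 + y3*y3 := by positivity
    rw [e0, e2, f1, f3]
    exact le_of_sub_nonneg (le_of_le_of_eq t (by ring))
  have q1_4 : p1 + p4 ≤ x 0 * x 3 := by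
    have t : 0 ≤
      y1*y4 + y1*y5 + y2*y4 := by positivity
    rw [e0, e3, f1, f4]
    exact le_of_sub_nonneg (le_of_le_of_eq t (by ring))
  have q1_5 : p1 + p5 ≤ x 0 * x 4 := by
    have t : 0 ≤
      y1*y5 := by positivity
    rw [e0, e4, f1, f5]
    exact le_of_sub_nonneg (le_of_le_of_eq t (by ring))
  have q1_6 : p1 + p6 ≤ x 0 * x 5 := by
    rw [e0, e5, f1, f6]
    apply le_of_eq
    ring
  have q2_3 : p2 + p3 ≤ x 1 * x 2 := by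
    have t : 0 ≤
      y2*y3 + y2*y4 + y3*y3 := by positivity
    rw [e1, e2, f2, f3]
    exact le_of_sub_nonneg (le_of_le_of_eq t (by ring))
  have q2_4 : p2 + p4 ≤ x 1 * x 3 := by
    have t : 0 ≤
      y2*y4 := by positivity
    rw [e1, e3, f2, f4]
    exact le_of_sub_nonneg (le_of_le_of_eq t (by ring))
  have q2_5 : p2 + p5 ≤ x 1 * x 4 := by
    rw [e1, e4, f2, f5]
    apply le_of_eq
    ring
  have q2_6 : p2 + p6 ≤ x 1 * x 5 := by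
    rw [e1, e5, f2, f6]
    apply le_of_eq
    ring
  have q3_4 : p3 + p4 ≤ x 2 * x 3 := by
    rw [e2, e3, f3, f4]
    apply le_of_eq
    ring
  have q3_5 : p3 + p5 ≤ x 2 * x 4 := by
    rw [e2, e4, f3, f5]
    apply le_of_eq
    ring
  have q3_6 : p3 + p6 ≤ x 2 * x 5 := by
    have t : 0 ≤
      y2*y5 := by positivity
    rw [e2, e5, f3, f6]
    exact le_of_sub_nonneg (le_of_le_of_eq t (by ring))
  have q4_5 : p4 + p5 ≤ x 3 * x 4 := by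
    have t : 0 ≤
      y3*y4 := by positivity
    rw [e3, e4, f4, f5]
    exact le_of_sub_nonneg (le_of_le_of_eq t (by ring))
  have q4_6 : p4 + p6 ≤ x 3 * x 5 := by
    have t : 0 ≤
      y2*y5 + y3*y4 + y3*y5 := by positivity
    rw [e3, e5, f4, f6]
    exact le_of_sub_nonneg (le_of_le_of_eq t (by ring))
  have q5_6 : p5 + p6 ≤ x 4 * x 5 := by
    have t : 0 ≤
      y2*y5 + 2*y3*y4 + y3*y5 + y4*y4 + y4*y5 := by positivity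
    rw [e4, e5, f5, f6]
    exact le_of_sub_nonneg (le_of_le_of_eq t (by ring))
  have hp : ∀ a b : Fin 6, a < b → (![p1, p2, p3, p4, p5, p6] : Fin 6 → ℝ) a +
      (![p1, p2, p3, p4, p5, p6] : Fin 6 → ℝ) b ≤ x a * x b := by
    intro a b hab
    fin_cases a
    · fin_cases b
      · exact absurd hab (by decide)
      · exact q1_2
      · exact q1_3
      · exact q1_4
      · exact q1_5
      · exact q1_6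
    · fin_cases b
      · exact absurd hab (by decide)
      · exact absurd hab (by decide)
      · exact q2_3
      · exact q2_4
      · exact q2_5
      · exact q2_6
    · fin_cases b
      · exact absurd hab (by decide)
      · exact absurd hab (by decide)
      · exact absurd hab (by decide)
      · exact q3_4
      · exact q3_5
      · exact q3_6
    · fin_cases b
      · exact absurd hab (by decide)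
      · exact absurd hab (by decide)
      · exact absurd hab (by decide)
      · exact absurd hab (by decide)
      · exact q4_5
      · exact q4_6
    · fin_cases b
      · exact absurd hab (by decide)
      · exact absurd hab (by decide)
      · exact absurd hab (by decide)
      · exact absurd hab (by decide)
      · exact absurd hab (by decide)
      · exact q5_6
    · fin_cases b
      · exact absurd hab (by decide)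
      · exact absurd hab (by decide)
      · exact absurd hab (by decide)
      · exact absurd hab (by decide)
      · exact absurd hab (by decide)
      · exact absurd hab (by decide)
  clear q1_2 q1_3 q1_4 q1_5 q1_6 q2_3 q2_4 q2_5 q2_6 q3_4 q3_5 q3_6 q4_5 q4_6 q5_6
  have hv : val 6 x ![p1, p2, p3, p4, p5, p6] =
      (75/7)*y1*y1*y1 + (207/7)*y1*y1*y2 + 27*y1*y1*y3 + (171/7)*y1*y1*y4 + (153/7)*y1*y1*y5 +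
      (135/7)*y1*y1*y6 + (171/7)*y1*y2*y2 + (258/7)*y1*y2*y3 + (174/7)*y1*y2*y4 +
      (90/7)*y1*y2*y5 + (146/7)*y1*y2*y6 + (69/7)*y1*y3*y3 + (6/7)*y1*y3*y4 + (-8)*y1*y3*y5 +
      (22/7)*y1*y3*y6 + (-46/7)*y1*y4*y4 + (-202/7)*y1*y4*y5 + (-102/7)*y1*y4*y6 +
      (-174/7)*y1*y5*y5 + (-226/7)*y1*y5*y6 + (114/7)*y2*y2*y2 + (258/7)*y2*y2*y3 +
      (174/7)*y2*y2*y4 + (90/7)*y2*y2*y5 + (146/7)*y2*y2*y6 + (138/7)*y2*y3*y3 +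
      (12/7)*y2*y3*y4 + (-6)*y2*y3*y5 + (44/7)*y2*y3*y6 + (-92/7)*y2*y4*y4 + (-264/7)*y2*y4*y5
      + (-204/7)*y2*y4*y6 + (-138/7)*y2*y5*y5 + (-102/7)*y2*y5*y6 + (69/7)*y3*y3*y3 +
      (9/7)*y3*y3*y4 + 3*y3*y3*y5 + (33/7)*y3*y3*y6 + (-68/7)*y3*y4*y4 + (-46/7)*y3*y4*y5 +
      (44/7)*y3*y4*y6 + (-32/7)*y3*y5*y5 + (22/7)*y3*y5*y6 + (32/7)*y4*y4*y4 + (121/7)*y4*y4*y5
      + (146/7)*y4*y4*y6 + (74/7)*y4*y5*y5 + (146/7)*y4*y5*y6 + (60/7)*y5*y5*y5 +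
      (135/7)*y5*y5*y6 := by
    unfold val
    simp only [Fin.sum_univ_six, Matrix.cons_val, Matrix.cons_val_zero, Matrix.cons_val_one]
    rw [e0, e1, e2, e3, e4, e5, f1, f2, f3, f4, f5, f6]
    push_cast
    ring
  clear f1 f2 f3 f4 f5 f6
  have hc := cert6_core y1 y2 y3 y4 y5 y6 hy1 hy2 hy3 hy4 hy5 hy6
  rw [← hv] at hc
  clear hv
  have hd : 0 ≤ y1*y1*y1 + y2*y2*y2 + y3*y3*y3 + y4*y4*y4 + y5*y5*y5 := by positivity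
  refine ⟨![p1, p2, p3, p4, p5, p6], pairs_of_lt hp, le_trans (mul_nonneg (by norm_num) hd) hc, ?_⟩
  clear hp
  have gl : ∀ a, x 5 ≤ x a := fun a => hx (Fin.le_last a)
  have gu : ∀ a, x a ≤ x 0 := fun a => hx (Fin.zero_le a)
  · intro hz
    rw [hz] at hc
    have t1_1_1 : 0 ≤ y1*y1*y1 := by positivity
    have t2_2_2 : 0 ≤ y2*y2*y2 := by positivity
    have t3_3_3 : 0 ≤ y3*y3*y3 := by positivity
    have t4_4_4 : 0 ≤ y4*y4*y4 := by positivity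
    have t5_5_5 : 0 ≤ y5*y5*y5 := by positivity
    have z1 : y1 = 0 := cube_zero hy1 (by linarith)
    have z2 : y2 = 0 := cube_zero hy2 (by linarith)
    have z3 : y3 = 0 := cube_zero hy3 (by linarith)
    have z4 : y4 = 0 := cube_zero hy4 (by linarith)
    have z5 : y5 = 0 := cube_zero hy5 (by linarith)
    left
    have g : ∀ a, x a = y6 := fun a => by
      have g1 := gl a
      have g2 := gu a
      linarith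
    intro a b
    rw [g a, g b]

end Pool.Agent.K1H63.EB
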