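import Pool.Agent.K1H63.EB.Pinch

/-!
# The finite inequality, dimension 8

Generated: an explicit sum of squares certificate.
-/

set_option autoImplicit false
set_option maxRecDepth 4000

namespace Pool.Agent.K1H63.EB

theorem cert7_core (y1 y2 y3 y4 y5 y6 y7 : ℝ)
    (h1 : 0 ≤ y1)
    (h2 : 0 ≤ y2)
    (h3 : 0 ≤ y3)
    (h4 : 0 ≤ y4)
    (h5 : 0 ≤ y5)
    (h6 : 0 ≤ y6)
    (h7 : 0 ≤ y7) :
    132 / 1024 * (y1*y1*y1 + y2*y2*y2 + y3*y3*y3 + y5*y5*y5 + y6*y6*y6 + y4*y4*y7) ≤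
      12*y1*y1*y1 + 34*y1*y1*y2 + 32*y1*y1*y3 + 30*y1*y1*y4 + 28*y1*y1*y5 + 26*y1*y1*y6 +
      24*y1*y1*y7 + 30*y1*y2*y2 + 50*y1*y2*y3 + 40*y1*y2*y4 + 30*y1*y2*y5 + 20*y1*y2*y6 +
      30*y1*y2*y7 + 18*y1*y3*y3 + 20*y1*y3*y4 + 4*y1*y3*y5 + (-2)*y1*y3*y6 + 12*y1*y3*y7 +
      (-12)*y1*y4*y5 + (-24)*y1*y4*y6 + (-6)*y1*y4*y7 + (-14)*y1*y5*y5 + (-46)*y1*y5*y6 +
      (-24)*y1*y5*y7 + (-34)*y1*y6*y6 + (-42)*y1*y6*y7 + 20*y2*y2*y2 + 50*y2*y2*y3 +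
      40*y2*y2*y4 + 30*y2*y2*y5 + 20*y2*y2*y6 + 30*y2*y2*y7 + 36*y2*y3*y3 + 40*y2*y3*y4 +
      8*y2*y3*y5 + 6*y2*y3*y6 + 24*y2*y3*y7 + (-24)*y2*y4*y5 + (-28)*y2*y4*y6 + (-12)*y2*y4*y7
      + (-28)*y2*y5*y5 + (-62)*y2*y5*y6 + (-48)*y2*y5*y7 + (-28)*y2*y6*y6 + (-24)*y2*y6*y7 +
      18*y3*y3*y3 + 30*y3*y3*y4 + 6*y3*y3*y5 + 12*y3*y3*y6 + 18*y3*y3*y7 + (-26)*y3*y4*y5 +
      (-22)*y3*y4*y6 + (-18)*y3*y4*y7 + (-22)*y3*y5*y5 + (-28)*y3*y5*y6 + (-12)*y3*y5*y7 +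
      (-12)*y3*y6*y6 + (-6)*y3*y6*y7 + 6*y4*y4*y5 + 12*y4*y4*y6 + 18*y4*y4*y7 + 4*y4*y5*y5 +
      16*y4*y5*y6 + 24*y4*y5*y7 + 4*y4*y6*y6 + 12*y4*y6*y7 + 10*y5*y5*y5 + 30*y5*y5*y6 +
      30*y5*y5*y7 + 20*y5*y6*y6 + 30*y5*y6*y7 + 12*y6*y6*y6 + 24*y6*y6*y7 := by
  have k1 : 0 ≤ y1*((108*y1 + 26*y2 - 2*y3 - 11*y5 - 40*y6)^2 + (144*y2 + 77*y3 - 53*y5 - 37*y6)^2 + (107*y3 - 40*y5 - 5*y6)^2 + (37*y5 - 8*y6)^2 + (16*y6)^2) +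
      y2*((168*y1 + 24*y2 + 6*y3 - 12*y5 - 61*y6)^2 + (138*y2 + 59*y3 - 47*y5 - 36*y6)^2 + (123*y3 - 51*y5 - 3*y6)^2 + (23*y5 - 4*y6)^2 + (17*y6)^2) +
      y3*((178*y1 + 71*y2 - 3*y3 - 16*y5 - 74*y6)^2 + (168*y2 + 51*y3 - 47*y5 - 41*y6)^2 + (123*y3 - 52*y5 - 8*y6)^2 + (18*y5 - y6)^2 + (19*y6)^2) +
      y4*((171*y1 + 114*y2 + 53*y3 - 46*y5 - 85*y6)^2 + (162*y2 + 84*y3 - 60*y5 - 42*y6)^2 + (141*y3 - 58*y5 - 7*y6)^2 + (19*y5 - 2*y6)^2 + (19*y6)^2) +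
      y5*((174*y1 + 143*y2 + 73*y3 + 5*y4 - 60*y5 - 94*y6)^2 + (152*y2 + 75*y3 + 9*y4 - 57*y5 - 40*y6)^2 + (111*y3 + 9*y4 - 49*y5 - 3*y6)^2 + (73*y4 - 21*y5 - 4*y6)^2 + (16*y5)^2 + (17*y6)^2) +
      y6*((187*y1 + 142*y2 + 81*y3 + 10*y4 - 52*y5 - 103*y6)^2 + (112*y2 + 55*y3 + 2*y4 - 67*y5 - 22*y6)^2 + (86*y3 - 44*y4 - y5 - 6*y6)^2 + (95*y4 + 30*y5 - 21*y6)^2 + (76*y5 - 19*y6)^2 + (15*y6)^2) +
      y7*((153*y1 + 89*y2 + 28*y3 - 33*y4 - 92*y5 - 145*y6)^2 + (142*y2 + 44*y3 - 45*y4 - 126*y5 - 8*y6)^2 + (110*y3 - 78*y4 - 12*y5 - 6*y6)^2 + (74*y4 - 12*y5 - 18*y6)^2 + (60*y5 - 17*y6)^2 + (39*y6)^2) := by positivity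
  have k2 : 0 ≤
      492*y1*y1*y1 + 976*y1*y1*y2 + 1516*y1*y1*y3 + 1479*y1*y1*y4 + 772*y1*y1*y5 + 295*y1*y1*y6
      + 1167*y1*y1*y7 + 1244*y1*y2*y2 + 1836*y1*y2*y3 + 1972*y1*y2*y4 + 824*y1*y2*y5 +
      604*y1*y2*y6 + 3486*y1*y2*y7 + 2118*y1*y3*y3 + 2354*y1*y3*y4 + 1066*y1*y3*y5 +
      610*y1*y3*y6 + 3720*y1*y3*y7 + 1704*y1*y4*y5 + 754*y1*y4*y6 + 3954*y1*y4*y7 +
      645*y1*y5*y5 + 446*y1*y5*y6 + 3576*y1*y5*y7 + 392*y1*y6*y6 + 1362*y1*y6*y7 + 728*y2*y2*y2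
      + 1363*y2*y2*y3 + 1720*y2*y2*y4 + 715*y2*y2*y5 + 636*y2*y2*y6 + 2635*y2*y2*y7 +
      1508*y2*y3*y3 + 1660*y2*y3*y4 + 814*y2*y3*y5 + 822*y2*y3*y6 + 7096*y2*y3*y7 +
      1186*y2*y4*y5 + 1028*y2*y4*y6 + 6366*y2*y4*y7 + 333*y2*y5*y5 + 362*y2*y5*y6 +
      3008*y2*y5*y7 + 177*y2*y6*y6 + 3506*y2*y6*y7 + 561*y3*y3*y3 + 974*y3*y3*y4 + 359*y3*y3*y5
      + 1012*y3*y3*y6 + 3612*y3*y3*y7 + 610*y3*y4*y5 + 1240*y3*y4*y6 + 4536*y3*y4*y7 +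
      167*y3*y5*y5 + 666*y3*y5*y6 + 6592*y3*y5*y7 + 267*y3*y6*y6 + 4000*y3*y6*y7 + 628*y4*y4*y5
      + 1223*y4*y4*y6 + 3626*y4*y4*y7 + 229*y4*y5*y5 + 606*y4*y5*y6 + 7068*y4*y5*y7 +
      303*y4*y6*y6 + 3726*y4*y6*y7 + 161*y5*y5*y5 + 548*y5*y5*y6 + 2492*y5*y5*y7 + 206*y5*y6*y6
      + 3488*y5*y6*y7 + 1317*y6*y6*y7 := by positivity
  have k3 : (1024 : ℝ) * ((
      12*y1*y1*y1 + 34*y1*y1*y2 + 32*y1*y1*y3 + 30*y1*y1*y4 + 28*y1*y1*y5 + 26*y1*y1*y6 +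
      24*y1*y1*y7 + 30*y1*y2*y2 + 50*y1*y2*y3 + 40*y1*y2*y4 + 30*y1*y2*y5 + 20*y1*y2*y6 +
      30*y1*y2*y7 + 18*y1*y3*y3 + 20*y1*y3*y4 + 4*y1*y3*y5 + (-2)*y1*y3*y6 + 12*y1*y3*y7 +
      (-12)*y1*y4*y5 + (-24)*y1*y4*y6 + (-6)*y1*y4*y7 + (-14)*y1*y5*y5 + (-46)*y1*y5*y6 +
      (-24)*y1*y5*y7 + (-34)*y1*y6*y6 + (-42)*y1*y6*y7 + 20*y2*y2*y2 + 50*y2*y2*y3 +
      40*y2*y2*y4 + 30*y2*y2*y5 + 20*y2*y2*y6 + 30*y2*y2*y7 + 36*y2*y3*y3 + 40*y2*y3*y4 +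
      8*y2*y3*y5 + 6*y2*y3*y6 + 24*y2*y3*y7 + (-24)*y2*y4*y5 + (-28)*y2*y4*y6 + (-12)*y2*y4*y7
      + (-28)*y2*y5*y5 + (-62)*y2*y5*y6 + (-48)*y2*y5*y7 + (-28)*y2*y6*y6 + (-24)*y2*y6*y7 +
      18*y3*y3*y3 + 30*y3*y3*y4 + 6*y3*y3*y5 + 12*y3*y3*y6 + 18*y3*y3*y7 + (-26)*y3*y4*y5 +
      (-22)*y3*y4*y6 + (-18)*y3*y4*y7 + (-22)*y3*y5*y5 + (-28)*y3*y5*y6 + (-12)*y3*y5*y7 +
      (-12)*y3*y6*y6 + (-6)*y3*y6*y7 + 6*y4*y4*y5 + 12*y4*y4*y6 + 18*y4*y4*y7 + 4*y4*y5*y5 +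
      16*y4*y5*y6 + 24*y4*y5*y7 + 4*y4*y6*y6 + 12*y4*y6*y7 + 10*y5*y5*y5 + 30*y5*y5*y6 +
      30*y5*y5*y7 + 20*y5*y6*y6 + 30*y5*y6*y7 + 12*y6*y6*y6 + 24*y6*y6*y7) -
      132 / 1024 * (y1*y1*y1 + y2*y2*y2 + y3*y3*y3 + y5*y5*y5 + y6*y6*y6 + y4*y4*y7)) =

      (y1*((108*y1 + 26*y2 - 2*y3 - 11*y5 - 40*y6)^2 + (144*y2 + 77*y3 - 53*y5 - 37*y6)^2 + (107*y3 - 40*y5 - 5*y6)^2 + (37*y5 - 8*y6)^2 + (16*y6)^2) +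
      y2*((168*y1 + 24*y2 + 6*y3 - 12*y5 - 61*y6)^2 + (138*y2 + 59*y3 - 47*y5 - 36*y6)^2 + (123*y3 - 51*y5 - 3*y6)^2 + (23*y5 - 4*y6)^2 + (17*y6)^2) +
      y3*((178*y1 + 71*y2 - 3*y3 - 16*y5 - 74*y6)^2 + (168*y2 + 51*y3 - 47*y5 - 41*y6)^2 + (123*y3 - 52*y5 - 8*y6)^2 + (18*y5 - y6)^2 + (19*y6)^2) +
      y4*((171*y1 + 114*y2 + 53*y3 - 46*y5 - 85*y6)^2 + (162*y2 + 84*y3 - 60*y5 - 42*y6)^2 + (141*y3 - 58*y5 - 7*y6)^2 + (19*y5 - 2*y6)^2 + (19*y6)^2) +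
      y5*((174*y1 + 143*y2 + 73*y3 + 5*y4 - 60*y5 - 94*y6)^2 + (152*y2 + 75*y3 + 9*y4 - 57*y5 - 40*y6)^2 + (111*y3 + 9*y4 - 49*y5 - 3*y6)^2 + (73*y4 - 21*y5 - 4*y6)^2 + (16*y5)^2 + (17*y6)^2) +
      y6*((187*y1 + 142*y2 + 81*y3 + 10*y4 - 52*y5 - 103*y6)^2 + (112*y2 + 55*y3 + 2*y4 - 67*y5 - 22*y6)^2 + (86*y3 - 44*y4 - y5 - 6*y6)^2 + (95*y4 + 30*y5 - 21*y6)^2 + (76*y5 - 19*y6)^2 + (15*y6)^2) +
      y7*((153*y1 + 89*y2 + 28*y3 - 33*y4 - 92*y5 - 145*y6)^2 + (142*y2 + 44*y3 - 45*y4 - 126*y5 - 8*y6)^2 + (110*y3 - 78*y4 - 12*y5 - 6*y6)^2 + (74*y4 - 12*y5 - 18*y6)^2 + (60*y5 - 17*y6)^2 + (39*y6)^2)) + (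
      492*y1*y1*y1 + 976*y1*y1*y2 + 1516*y1*y1*y3 + 1479*y1*y1*y4 + 772*y1*y1*y5 + 295*y1*y1*y6
      + 1167*y1*y1*y7 + 1244*y1*y2*y2 + 1836*y1*y2*y3 + 1972*y1*y2*y4 + 824*y1*y2*y5 +
      604*y1*y2*y6 + 3486*y1*y2*y7 + 2118*y1*y3*y3 + 2354*y1*y3*y4 + 1066*y1*y3*y5 +
      610*y1*y3*y6 + 3720*y1*y3*y7 + 1704*y1*y4*y5 + 754*y1*y4*y6 + 3954*y1*y4*y7 +
      645*y1*y5*y5 + 446*y1*y5*y6 + 3576*y1*y5*y7 + 392*y1*y6*y6 + 1362*y1*y6*y7 + 728*y2*y2*y2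
      + 1363*y2*y2*y3 + 1720*y2*y2*y4 + 715*y2*y2*y5 + 636*y2*y2*y6 + 2635*y2*y2*y7 +
      1508*y2*y3*y3 + 1660*y2*y3*y4 + 814*y2*y3*y5 + 822*y2*y3*y6 + 7096*y2*y3*y7 +
      1186*y2*y4*y5 + 1028*y2*y4*y6 + 6366*y2*y4*y7 + 333*y2*y5*y5 + 362*y2*y5*y6 +
      3008*y2*y5*y7 + 177*y2*y6*y6 + 3506*y2*y6*y7 + 561*y3*y3*y3 + 974*y3*y3*y4 + 359*y3*y3*y5
      + 1012*y3*y3*y6 + 3612*y3*y3*y7 + 610*y3*y4*y5 + 1240*y3*y4*y6 + 4536*y3*y4*y7 +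
      167*y3*y5*y5 + 666*y3*y5*y6 + 6592*y3*y5*y7 + 267*y3*y6*y6 + 4000*y3*y6*y7 + 628*y4*y4*y5
      + 1223*y4*y4*y6 + 3626*y4*y4*y7 + 229*y4*y5*y5 + 606*y4*y5*y6 + 7068*y4*y5*y7 +
      303*y4*y6*y6 + 3726*y4*y6*y7 + 161*y5*y5*y5 + 548*y5*y5*y6 + 2492*y5*y5*y7 + 206*y5*y6*y6
      + 3488*y5*y6*y7 + 1317*y6*y6*y7) := by ring
  have k4 := add_nonneg k1 k2
  rw [← k3] at k4
  exact le_of_sub_nonneg ((mul_nonneg_iff_of_pos_left (by norm_num)).1 k4)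

theorem cert7 : Cert 7 := by
  intro x hx h0
  obtain ⟨y7, hy7, e6⟩ : ∃ y, 0 ≤ y ∧ x 6 = y := ⟨x 6, h0 6, rfl⟩
  obtain ⟨y6, hy6, e5⟩ : ∃ y, 0 ≤ y ∧ x 5 = y + (y7) :=
    ⟨x 5 - x 6, sub_nonneg.2 (hx (by decide)), by linarith⟩
  obtain ⟨y5, hy5, e4⟩ : ∃ y, 0 ≤ y ∧ x 4 = y + (y6 + y7) :=
    ⟨x 4 - x 5, sub_nonneg.2 (hx (by decide)), by linarith⟩
  obtain ⟨y4, hy4, e3⟩ : ∃ y, 0 ≤ y ∧ x 3 = y + (y5 + y6 + y7) :=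
    ⟨x 3 - x 4, sub_nonneg.2 (hx (by decide)), by linarith⟩
  obtain ⟨y3, hy3, e2⟩ : ∃ y, 0 ≤ y ∧ x 2 = y + (y4 + y5 + y6 + y7) :=
    ⟨x 2 - x 3, sub_nonneg.2 (hx (by decide)), by linarith⟩
  obtain ⟨y2, hy2, e1⟩ : ∃ y, 0 ≤ y ∧ x 1 = y + (y3 + y4 + y5 + y6 + y7) :=
    ⟨x 1 - x 2, sub_nonneg.2 (hx (by decide)), by linarith⟩
  obtain ⟨y1, hy1, e0⟩ : ∃ y, 0 ≤ y ∧ x 0 = y + (y2 + y3 + y4 + y5 + y6 + y7) :=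
    ⟨x 0 - x 1, sub_nonneg.2 (hx (by decide)), by linarith⟩
  obtain ⟨p1, f1⟩ : ∃ p, p =
      y1*y7 + y2*y6 + y2*y7 + y3*y5 + y3*y6 + y3*y7 + (1/2)*y4*y4 + y4*y5 + y4*y6 + y4*y7 +
      (1/2)*y5*y5 + y5*y6 + y5*y7 + (1/2)*y6*y6 + y6*y7 + (1/2)*y7*y7 := ⟨_, rfl⟩
  obtain ⟨p2, f2⟩ : ∃ p, p =
      y2*y6 + y2*y7 + y3*y5 + y3*y6 + y3*y7 + (1/2)*y4*y4 + y4*y5 + y4*y6 + y4*y7 + (1/2)*y5*y5
      + y5*y6 + y5*y7 + (1/2)*y6*y6 + y6*y7 + (1/2)*y7*y7 := ⟨_, rfl⟩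
  obtain ⟨p3, f3⟩ : ∃ p, p =
      y3*y5 + y3*y6 + y3*y7 + (1/2)*y4*y4 + y4*y5 + y4*y6 + y4*y7 + (1/2)*y5*y5 + y5*y6 + y5*y7
      + (1/2)*y6*y6 + y6*y7 + (1/2)*y7*y7 := ⟨_, rfl⟩
  obtain ⟨p4, f4⟩ : ∃ p, p =
      (1/2)*y4*y4 + y4*y5 + y4*y6 + y4*y7 + (1/2)*y5*y5 + y5*y6 + y5*y7 + (1/2)*y6*y6 + y6*y7 +
      (1/2)*y7*y7 := ⟨_, rfl⟩
  obtain ⟨p5, f5⟩ : ∃ p, p =
      (-1/2)*y4*y4 + (1/2)*y5*y5 + y5*y6 + y5*y7 + (1/2)*y6*y6 + y6*y7 + (1/2)*y7*y7 := ⟨_, rfl⟩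
  obtain ⟨p6, f6⟩ : ∃ p, p =
      (-1)*y3*y5 + (-1/2)*y4*y4 + (-1)*y4*y5 + (-1/2)*y5*y5 + (1/2)*y6*y6 + y6*y7 + (1/2)*y7*y7 := ⟨_, rfl⟩
  obtain ⟨p7, f7⟩ : ∃ p, p =
      (-1)*y2*y6 + (-1)*y3*y5 + (-1)*y3*y6 + (-1/2)*y4*y4 + (-1)*y4*y5 + (-1)*y4*y6 +
      (-1/2)*y5*y5 + (-1)*y5*y6 + (-1/2)*y6*y6 + (1/2)*y7*y7 := ⟨_, rfl⟩
  have q1_2 : p1 + p2 ≤ x 0 * x 1 := by
    have t : 0 ≤
      y1*y2 + y1*y3 + y1*y4 + y1*y5 + y1*y6 + y2*y2 + 2*y2*y3 + 2*y2*y4 + 2*y2*y5 + y3*y3 +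
      2*y3*y4 := by positivity
    rw [e0, e1, f1, f2]
    exact le_of_sub_nonneg (le_of_le_of_eq t (by ring))
  have q1_3 : p1 + p3 ≤ x 0 * x 2 := by
    have t : 0 ≤
      y1*y3 + y1*y4 + y1*y5 + y1*y6 + y2*y3 + y2*y4 + y2*y5 + y3*y3 + 2*y3*y4 := by positivity
    rw [e0, e2, f1, f3]
    exact le_of_sub_nonneg (le_of_le_of_eq t (by ring))
  have q1_4 : p1 + p4 ≤ x 0 * x 3 := by
    have t : 0 ≤
      y1*y4 + y1*y5 + y1*y6 + y2*y4 + y2*y5 + y3*y4 := by positivity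
    rw [e0, e3, f1, f4]
    exact le_of_sub_nonneg (le_of_le_of_eq t (by ring))
  have q1_5 : p1 + p5 ≤ x 0 * x 4 := by
    have t : 0 ≤
      y1*y5 + y1*y6 + y2*y5 := by positivity
    rw [e0, e4, f1, f5]
    exact le_of_sub_nonneg (le_of_le_of_eq t (by ring))
  have q1_6 : p1 + p6 ≤ x 0 * x 5 := by
    have t : 0 ≤
      y1*y6 := by positivity
    rw [e0, e5, f1, f6]
    exact le_of_sub_nonneg (le_of_le_of_eq t (by ring))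
  have q1_7 : p1 + p7 ≤ x 0 * x 6 := by
    rw [e0, e6, f1, f7]
    apply le_of_eq
    ring
  have q2_3 : p2 + p3 ≤ x 1 * x 2 := by
    have t : 0 ≤
      y2*y3 + y2*y4 + y2*y5 + y3*y3 + 2*y3*y4 := by positivity
    rw [e1, e2, f2, f3]
    exact le_of_sub_nonneg (le_of_le_of_eq t (by ring))
  have q2_4 : p2 + p4 ≤ x 1 * x 3 := by
    have t : 0 ≤
      y2*y4 + y2*y5 + y3*y4 := by positivity
    rw [e1, e3, f2, f4]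
    exact le_of_sub_nonneg (le_of_le_of_eq t (by ring))
  have q2_5 : p2 + p5 ≤ x 1 * x 4 := by
    have t : 0 ≤
      y2*y5 := by positivity
    rw [e1, e4, f2, f5]
    exact le_of_sub_nonneg (le_of_le_of_eq t (by ring))
  have q2_6 : p2 + p6 ≤ x 1 * x 5 := by
    rw [e1, e5, f2, f6]
    apply le_of_eq
    ring
  have q2_7 : p2 + p7 ≤ x 1 * x 6 := by
    rw [e1, e6, f2, f7]
    apply le_of_eq
    ring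
  have q3_4 : p3 + p4 ≤ x 2 * x 3 := by
    have t : 0 ≤
      y3*y4 := by positivity
    rw [e2, e3, f3, f4]
    exact le_of_sub_nonneg (le_of_le_of_eq t (by ring))
  have q3_5 : p3 + p5 ≤ x 2 * x 4 := by
    rw [e2, e4, f3, f5]
    apply le_of_eq
    ring
  have q3_6 : p3 + p6 ≤ x 2 * x 5 := by
    rw [e2, e5, f3, f6]
    apply le_of_eq
    ring
  have q3_7 : p3 + p7 ≤ x 2 * x 6 := by
    have t : 0 ≤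
      y2*y6 := by positivity
    rw [e2, e6, f3, f7]
    exact le_of_sub_nonneg (le_of_le_of_eq t (by ring))
  have q4_5 : p4 + p5 ≤ x 3 * x 4 := by
    rw [e3, e4, f4, f5]
    apply le_of_eq
    ring
  have q4_6 : p4 + p6 ≤ x 3 * x 5 := by
    have t : 0 ≤
      y3*y5 := by positivity
    rw [e3, e5, f4, f6]
    exact le_of_sub_nonneg (le_of_le_of_eq t (by ring))
  have q4_7 : p4 + p7 ≤ x 3 * x 6 := by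
    have t : 0 ≤
      y2*y6 + y3*y5 + y3*y6 := by positivity
    rw [e3, e6, f4, f7]
    exact le_of_sub_nonneg (le_of_le_of_eq t (by ring))
  have q5_6 : p5 + p6 ≤ x 4 * x 5 := by
    have t : 0 ≤
      y3*y5 + y4*y4 + y4*y5 := by positivity
    rw [e4, e5, f5, f6]
    exact le_of_sub_nonneg (le_of_le_of_eq t (by ring))
  have q5_7 : p5 + p7 ≤ x 4 * x 6 := by
    have t : 0 ≤
      y2*y6 + y3*y5 + y3*y6 + y4*y4 + y4*y5 + y4*y6 := by positivity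
    rw [e4, e6, f5, f7]
    exact le_of_sub_nonneg (le_of_le_of_eq t (by ring))
  have q6_7 : p6 + p7 ≤ x 5 * x 6 := by
    have t : 0 ≤
      y2*y6 + 2*y3*y5 + y3*y6 + y4*y4 + 2*y4*y5 + y4*y6 + y5*y5 + y5*y6 := by positivity
    rw [e5, e6, f6, f7]
    exact le_of_sub_nonneg (le_of_le_of_eq t (by ring))
  have hp : ∀ a b : Fin 7, a < b → (![p1, p2, p3, p4, p5, p6, p7] : Fin 7 → ℝ) a +
      (![p1, p2, p3, p4, p5, p6, p7] : Fin 7 → ℝ) b ≤ x a * x b := by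
    intro a b hab
    fin_cases a
    · fin_cases b
      · exact absurd hab (by decide)
      · exact q1_2
      · exact q1_3
      · exact q1_4
      · exact q1_5
      · exact q1_6
      · exact q1_7
    · fin_cases b
      · exact absurd hab (by decide)
      · exact absurd hab (by decide)
      · exact q2_3
      · exact q2_4
      · exact q2_5
      · exact q2_6
      · exact q2_7
    · fin_cases b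
      · exact absurd hab (by decide)
      · exact absurd hab (by decide)
      · exact absurd hab (by decide)
      · exact q3_4
      · exact q3_5
      · exact q3_6
      · exact q3_7
    · fin_cases b
      · exact absurd hab (by decide)
      · exact absurd hab (by decide)
      · exact absurd hab (by decide)
      · exact absurd hab (by decide)
      · exact q4_5
      · exact q4_6
      · exact q4_7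
    · fin_cases b
      · exact absurd hab (by decide)
      · exact absurd hab (by decide)
      · exact absurd hab (by decide)
      · exact absurd hab (by decide)
      · exact absurd hab (by decide)
      · exact q5_6
      · exact q5_7
    · fin_cases b
      · exact absurd hab (by decide)
      · exact absurd hab (by decide)
      · exact absurd hab (by decide)
      · exact absurd hab (by decide)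
      · exact absurd hab (by decide)
      · exact absurd hab (by decide)
      · exact q6_7
    · fin_cases b
      · exact absurd hab (by decide)
      · exact absurd hab (by decide)
      · exact absurd hab (by decide)
      · exact absurd hab (by decide)
      · exact absurd hab (by decide)
      · exact absurd hab (by decide)
      · exact absurd hab (by decide)
  clear q1_2 q1_3 q1_4 q1_5 q1_6 q1_7 q2_3 q2_4 q2_5 q2_6 q2_7 q3_4 q3_5 q3_6 q3_7 q4_5 q4_6 q4_7 q5_6 q5_7 q6_7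
  have hv : val 7 x ![p1, p2, p3, p4, p5, p6, p7] =
      12*y1*y1*y1 + 34*y1*y1*y2 + 32*y1*y1*y3 + 30*y1*y1*y4 + 28*y1*y1*y5 + 26*y1*y1*y6 +
      24*y1*y1*y7 + 30*y1*y2*y2 + 50*y1*y2*y3 + 40*y1*y2*y4 + 30*y1*y2*y5 + 20*y1*y2*y6 +
      30*y1*y2*y7 + 18*y1*y3*y3 + 20*y1*y3*y4 + 4*y1*y3*y5 + (-2)*y1*y3*y6 + 12*y1*y3*y7 +
      (-12)*y1*y4*y5 + (-24)*y1*y4*y6 + (-6)*y1*y4*y7 + (-14)*y1*y5*y5 + (-46)*y1*y5*y6 +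
      (-24)*y1*y5*y7 + (-34)*y1*y6*y6 + (-42)*y1*y6*y7 + 20*y2*y2*y2 + 50*y2*y2*y3 +
      40*y2*y2*y4 + 30*y2*y2*y5 + 20*y2*y2*y6 + 30*y2*y2*y7 + 36*y2*y3*y3 + 40*y2*y3*y4 +
      8*y2*y3*y5 + 6*y2*y3*y6 + 24*y2*y3*y7 + (-24)*y2*y4*y5 + (-28)*y2*y4*y6 + (-12)*y2*y4*y7
      + (-28)*y2*y5*y5 + (-62)*y2*y5*y6 + (-48)*y2*y5*y7 + (-28)*y2*y6*y6 + (-24)*y2*y6*y7 +
      18*y3*y3*y3 + 30*y3*y3*y4 + 6*y3*y3*y5 + 12*y3*y3*y6 + 18*y3*y3*y7 + (-26)*y3*y4*y5 +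
      (-22)*y3*y4*y6 + (-18)*y3*y4*y7 + (-22)*y3*y5*y5 + (-28)*y3*y5*y6 + (-12)*y3*y5*y7 +
      (-12)*y3*y6*y6 + (-6)*y3*y6*y7 + 6*y4*y4*y5 + 12*y4*y4*y6 + 18*y4*y4*y7 + 4*y4*y5*y5 +
      16*y4*y5*y6 + 24*y4*y5*y7 + 4*y4*y6*y6 + 12*y4*y6*y7 + 10*y5*y5*y5 + 30*y5*y5*y6 +
      30*y5*y5*y7 + 20*y5*y6*y6 + 30*y5*y6*y7 + 12*y6*y6*y6 + 24*y6*y6*y7 := by
    unfold val
    simp only [Fin.sum_univ_seven, Matrix.cons_val, Matrix.cons_val_zero, Matrix.cons_val_one]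
    rw [e0, e1, e2, e3, e4, e5, e6, f1, f2, f3, f4, f5, f6, f7]
    push_cast
    ring
  clear f1 f2 f3 f4 f5 f6 f7
  have hc := cert7_core y1 y2 y3 y4 y5 y6 y7 hy1 hy2 hy3 hy4 hy5 hy6 hy7
  rw [← hv] at hc
  clear hv
  have hd : 0 ≤ y1*y1*y1 + y2*y2*y2 + y3*y3*y3 + y5*y5*y5 + y6*y6*y6 + y4*y4*y7 := by positivity
  refine ⟨![p1, p2, p3, p4, p5, p6, p7], pairs_of_lt hp, le_trans (mul_nonneg (by norm_num) hd) hc, ?_⟩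
  clear hp
  have gl : ∀ a, x 6 ≤ x a := fun a => hx (Fin.le_last a)
  have gu : ∀ a, x a ≤ x 0 := fun a => hx (Fin.zero_le a)
  · intro hz
    rw [hz] at hc
    have t1_1_1 : 0 ≤ y1*y1*y1 := by positivity
    have t2_2_2 : 0 ≤ y2*y2*y2 := by positivity
    have t3_3_3 : 0 ≤ y3*y3*y3 := by positivity
    have t5_5_5 : 0 ≤ y5*y5*y5 := by positivity
    have t6_6_6 : 0 ≤ y6*y6*y6 := by positivity
    have t4_4_7 : 0 ≤ y4*y4*y7 := by positivity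
    have z1 : y1 = 0 := cube_zero hy1 (by linarith)
    have z2 : y2 = 0 := cube_zero hy2 (by linarith)
    have z3 : y3 = 0 := cube_zero hy3 (by linarith)
    have z5 : y5 = 0 := cube_zero hy5 (by linarith)
    have z6 : y6 = 0 := cube_zero hy6 (by linarith)
    rcases sq_zero_or hy4 hy7 (by linarith) with z4 | z7
    · left
      have g : ∀ a, x a = y7 := fun a => by
        have g1 := gl a
        have g2 := gu a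
        linarith
      intro a b
      rw [g a, g b]
    · right
      have hs : ∑ b, x b = 4 * y4 := by
        rw [Fin.sum_univ_seven, e0, e1, e2, e3, e4, e5, e6]
        linarith
      intro a
      rcases le_or_gt a 3 with g | g
      · right
        have g1 : x 3 ≤ x a := hx g
        have g2 := gu a
        have g3 : x a = y4 := by linarith
        rw [hs, g3]
        push_cast
        ring
      · left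
        have g1 : x a ≤ x 4 := hx (Nat.succ_le_of_lt g)
        have g2 := h0 a
        linarith

end Pool.Agent.K1H63.EB
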