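import Pool.Agent.K1H63.EB.Pinch

/-!
# The finite inequality, dimension 9

Generated: an explicit sum of squares certificate.
-/

set_option autoImplicit false
set_option maxRecDepth 4000

namespace Pool.Agent.K1H63.EB

theorem cert8_core (y1 y2 y3 y4 y5 y6 y7 y8 : ℝ)
    (h1 : 0 ≤ y1)
    (h2 : 0 ≤ y2)
    (h3 : 0 ≤ y3)
    (h4 : 0 ≤ y4)
    (h5 : 0 ≤ y5)
    (h6 : 0 ≤ y6)
    (h7 : 0 ≤ y7)
    (h8 : 0 ≤ y8) :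
    112 / 1024 * (y1*y1*y1 + y2*y2*y2 + y3*y3*y3 + y4*y4*y4 + y5*y5*y5 + y6*y6*y6 + y7*y7*y7) ≤
      (119/9)*y1*y1*y1 + (343/9)*y1*y1*y2 + (329/9)*y1*y1*y3 + 35*y1*y1*y4 + (301/9)*y1*y1*y5 +
      (287/9)*y1*y1*y6 + (91/3)*y1*y1*y7 + (259/9)*y1*y1*y8 + 35*y1*y2*y2 + (554/9)*y1*y2*y3 +
      (478/9)*y1*y2*y4 + (134/3)*y1*y2*y5 + (326/9)*y1*y2*y6 + (250/9)*y1*y2*y7 +
      (118/3)*y1*y2*y8 + 25*y1*y3*y3 + (326/9)*y1*y3*y4 + (202/9)*y1*y3*y5 + (26/3)*y1*y3*y6 +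
      (44/9)*y1*y3*y7 + (190/9)*y1*y3*y8 + (29/3)*y1*y4*y4 + (2/9)*y1*y4*y5 + (-80/9)*y1*y4*y6
      + (-18)*y1*y4*y7 + (26/9)*y1*y4*y8 + (-6)*y1*y5*y5 + (-238/9)*y1*y5*y6 +
      (-368/9)*y1*y5*y7 + (-46/3)*y1*y5*y8 + (-22)*y1*y6*y6 + (-574/9)*y1*y6*y7 +
      (-302/9)*y1*y6*y8 + (-130/3)*y1*y7*y7 + (-466/9)*y1*y7*y8 + (70/3)*y2*y2*y2 +
      (554/9)*y2*y2*y3 + (478/9)*y2*y2*y4 + (134/3)*y2*y2*y5 + (326/9)*y2*y2*y6 +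
      (250/9)*y2*y2*y7 + (118/3)*y2*y2*y8 + 50*y2*y3*y3 + (652/9)*y2*y3*y4 + (404/9)*y2*y3*y5 +
      (52/3)*y2*y3*y6 + (178/9)*y2*y3*y7 + (380/9)*y2*y3*y8 + (58/3)*y2*y4*y4 + (4/9)*y2*y4*y5
      + (-160/9)*y2*y4*y6 + (-16)*y2*y4*y7 + (52/9)*y2*y4*y8 + (-12)*y2*y5*y5 +
      (-476/9)*y2*y5*y6 + (-466/9)*y2*y5*y7 + (-92/3)*y2*y5*y8 + (-44)*y2*y6*y6 +
      (-788/9)*y2*y6*y7 + (-604/9)*y2*y6*y8 + (-110/3)*y2*y7*y7 + (-302/9)*y2*y7*y8 +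
      25*y3*y3*y3 + (163/3)*y3*y3*y4 + (101/3)*y3*y3*y5 + 13*y3*y3*y6 + (67/3)*y3*y3*y7 +
      (95/3)*y3*y3*y8 + 29*y3*y4*y4 + (2/3)*y3*y4*y5 + (-50/3)*y3*y4*y6 + (-4)*y3*y4*y7 +
      (26/3)*y3*y4*y8 + (-18)*y3*y5*y5 + (-178/3)*y3*y5*y6 + (-158/3)*y3*y5*y7 + (-46)*y3*y5*y8
      + (-36)*y3*y6*y6 + (-154/3)*y3*y6*y7 + (-92/3)*y3*y6*y8 + (-20)*y3*y7*y7 +
      (-46/3)*y3*y7*y8 + (116/9)*y4*y4*y4 + (4/9)*y4*y4*y5 + (20/9)*y4*y4*y6 + 4*y4*y4*y7 +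
      (52/9)*y4*y4*y8 + (-14)*y4*y5*y5 + (-142/9)*y4*y5*y6 + (-32/9)*y4*y5*y7 + (26/3)*y4*y5*y8
      + (-8)*y4*y6*y6 + (-46/9)*y4*y6*y7 + (52/9)*y4*y6*y8 + (-10/3)*y4*y7*y7 + (26/9)*y4*y7*y8
      + (20/3)*y5*y5*y5 + (215/9)*y5*y5*y6 + (250/9)*y5*y5*y7 + (95/3)*y5*y5*y8 + 20*y5*y6*y6 +
      (370/9)*y5*y6*y7 + (380/9)*y5*y6*y8 + (40/3)*y5*y7*y7 + (190/9)*y5*y7*y8 + 16*y6*y6*y6 +
      (131/3)*y6*y6*y7 + (118/3)*y6*y6*y8 + 30*y6*y7*y7 + (118/3)*y6*y7*y8 + (140/9)*y7*y7*y7 +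
      (259/9)*y7*y7*y8 := by
  have k1 : 0 ≤ y1*((115*y1 + 30*y2 + 3*y3 - 4*y4 - 4*y5 - 13*y6 - 47*y7)^2 + (152*y2 + 96*y3 + 36*y4 - 24*y5 - 68*y6 - 36*y7)^2 + (120*y3 + 36*y4 - 33*y5 - 39*y6 - 5*y7)^2 + (75*y4 - 36*y5 - 5*y6 - 2*y7)^2 + (37*y5 - 9*y6 - 2*y7)^2 + (37*y6 - 8*y7)^2 + (15*y7)^2) +
      y2*((178*y1 + 32*y2 + 11*y3 + 3*y4 - 4*y5 - 15*y6 - 72*y7)^2 + (149*y2 + 76*y3 + 23*y4 - 23*y5 - 59*y6 - 36*y7)^2 + (142*y3 + 49*y4 - 40*y5 - 53*y6 - 4*y7)^2 + (84*y4 - 40*y5 - 6*y6 - 2*y7)^2 + (44*y5 - 13*y6 - y7)^2 + (19*y6 - 2*y7)^2 + (15*y7)^2) +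
      y3*((189*y1 + 76*y2 +
      y3 - y4 - 5*y5 - 20*y6 - 85*y7)^2 + (181*y2 + 66*y3 + 22*y4 - 18*y5 - 62*y6 - 41*y7)^2 + (143*y3 + 46*y4 - 35*y5 - 55*y6 - 7*y7)^2 + (99*y4 - 54*y5 - 5*y6)^2 + (27*y5 - 6*y6 - y7)^2 + (17*y6 - y7)^2 + (17*y7)^2) +
      y4*((189*y1 + 109*y2 + 52*y3 - 10*y5 - 45*y6 - 93*y7)^2 + (185*y2 + 97*y3 + 23*y4 - 21*y5 - 74*y6 - 43*y7)^2 + (163*y3 + 37*y4 - 30*y5 - 61*y6 - 5*y7)^2 + (105*y4 - 58*y5 - 7*y6 - 7*y7)^2 + (16*y5 - y6)^2 + (18*y6 - 2*y7)^2 + (18*y7)^2) +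
      y5*((185*y1 + 145*y2 + 96*y3 + 32*y4 - 31*y5 - 70*y6 - 102*y7)^2 + (175*y2 + 112*y3 + 33*y4 - 28*y5 - 78*y6 - 42*y7)^2 + (156*y3 + 51*y4 - 38*y5 - 60*y6 - 7*y7)^2 + (104*y4 - 57*y5 - 5*y6)^2 + (15*y5)^2 + (17*y6 - y7)^2 + (17*y7)^2) +
      y6*((187*y1 + 169*y2 + 101*y3 + 40*y4 - 21*y5 - 82*y6 - 109*y7)^2 + (163*y2 + 101*y3 + 42*y4 - 20*y5 - 76*y6 - 40*y7)^2 + (129*y3 + 52*y4 - 38*y5 - 50*y6 - 4*y7)^2 + (70*y4 - 8*y5 - 14*y6 - 2*y7)^2 + (89*y5 - 29*y6 - 3*y7)^2 + (15*y6)^2 + (15*y7)^2) +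
      y7*((204*y1 + 165*y2 + 110*y3 + 47*y4 - 17*y5 - 75*y6 - 119*y7)^2 + (126*y2 + 75*y3 + 25*y4 - 25*y5 - 87*y6 - 20*y7)^2 + (108*y3 + 12*y4 - 88*y5 - 7*y6 - 3*y7)^2 + (63*y4 + 42*y5 + 24*y6 - 19*y7)^2 + (89*y5 + 22*y6 - 17*y7)^2 + (74*y6 - 20*y7)^2 + (14*y7)^2) +
      y8*((168*y1 + 110*y2 + 53*y3 - 2*y4 - 58*y5 - 112*y6 - 161*y7)^2 + (160*y2 + 77*y3 - 78*y5 - 146*y6 - 7*y7)^2 + (141*y3 - 117*y5 - 11*y6 - 4*y7)^2 + (58*y4 - 4*y5 - 10*y6 - 12*y7)^2 + (75*y5 - 13*y6 - 18*y7)^2 + (59*y6 - 17*y7)^2 + (37*y7)^2) := by positivity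
  have k2 : 0 ≤
      (1823/9)*y1*y1*y1 + (3976/9)*y1*y1*y2 + (9197/9)*y1*y1*y3 + 1039*y1*y1*y4 +
      (8479/9)*y1*y1*y5 + (6077/9)*y1*y1*y6 + (766/3)*y1*y1*y7 + (11200/9)*y1*y1*y8 +
      444*y1*y2*y2 + (9224/9)*y1*y2*y3 + (12706/9)*y1*y2*y4 + (3146/3)*y1*y2*y5 +
      (6098/9)*y1*y2*y6 + (4684/9)*y1*y2*y7 + (9952/3)*y1*y2*y8 + 1597*y1*y3*y3 +
      (20570/9)*y1*y3*y4 + (17146/9)*y1*y3*y5 + (3464/3)*y1*y3*y6 + (5852/9)*y1*y3*y7 +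
      (34288/9)*y1*y3*y8 + (4997/3)*y1*y4*y4 + (14756/9)*y1*y4*y5 + (11680/9)*y1*y4*y6 +
      422*y1*y4*y7 + (32672/9)*y1*y4*y8 + 980*y1*y5*y5 + (9350/9)*y1*y5*y6 + (3382/9)*y1*y5*y7
      + (11360/3)*y1*y5*y8 + 351*y1*y6*y6 + (770/9)*y1*y6*y7 + (29440/9)*y1*y6*y8 +
      (1055/3)*y1*y7*y7 + (9680/9)*y1*y7*y8 + (1669/3)*y2*y2*y2 + (10295/9)*y2*y2*y3 +
      (11104/9)*y2*y2*y4 + (3596/3)*y2*y2*y5 + (4532/9)*y2*y2*y6 + (6115/9)*y2*y2*y7 +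
      (7732/3)*y2*y2*y8 + 1095*y2*y3*y3 + (15004/9)*y2*y3*y4 + (10316/9)*y2*y3*y5 +
      (1558/3)*y2*y3*y6 + (9058/9)*y2*y3*y7 + (62420/9)*y2*y3*y8 + (3877/3)*y2*y4*y4 +
      (11674/9)*y2*y4*y5 + (7016/9)*y2*y4*y6 + 806*y2*y4*y7 + (57208/9)*y2*y4*y8 + 821*y2*y5*y5
      + (5848/9)*y2*y5*y6 + (4910/9)*y2*y5*y7 + (18952/3)*y2*y5*y8 + 355*y2*y6*y6 +
      (838/9)*y2*y6*y7 + (23744/9)*y2*y6*y8 + (100/3)*y2*y7*y7 + (29692/9)*y2*y7*y8 +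
      682*y3*y3*y3 + (2692/3)*y3*y3*y4 + (2324/3)*y3*y3*y5 + 223*y3*y3*y6 + (3193/3)*y3*y3*y7 +
      (11423/3)*y3*y3*y8 + 770*y3*y4*y4 + (2468/3)*y3*y4*y5 + (1840/3)*y3*y4*y6 + 1144*y3*y4*y7
      + (27260/3)*y3*y4*y8 + 429*y3*y5*y5 + (1388/3)*y3*y5*y6 + (2944/3)*y3*y5*y7 +
      4050*y3*y5*y8 + 333*y3*y6*y6 + (1184/3)*y3*y6*y7 + (18166/3)*y3*y6*y8 + 102*y3*y7*y7 +
      (10712/3)*y3*y7*y8 + (1469/9)*y4*y4*y4 + (2620/9)*y4*y4*y5 + (6260/9)*y4*y4*y6 +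
      967*y4*y4*y7 + (22936/9)*y4*y4*y8 + 167*y4*y5*y5 + (5540/9)*y4*y5*y6 + (11368/9)*y4*y5*y7
      + (27320/3)*y4*y5*y8 + 316*y4*y6*y6 + (6446/9)*y4*y6*y7 + (59656/9)*y4*y6*y8 +
      (1016/3)*y4*y7*y7 + (33356/9)*y4*y7*y8 + (155/3)*y5*y5*y5 + (3188/9)*y5*y5*y6 +
      (8041/9)*y5*y5*y7 + (10946/3)*y5*y5*y8 + 236*y5*y6*y6 + (3742/9)*y5*y6*y7 +
      (60872/9)*y5*y6*y8 + (583/3)*y5*y7*y7 + (31660/9)*y5*y7*y8 + 10*y6*y6*y6 +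
      (1049/3)*y6*y6*y7 + (7639/3)*y6*y6*y8 + 233*y6*y7*y7 + (10138/3)*y6*y7*y8 +
      (8/9)*y7*y7*y7 + (12208/9)*y7*y7*y8 := by positivity
  have k3 : (1024 : ℝ) * ((
      (119/9)*y1*y1*y1 + (343/9)*y1*y1*y2 + (329/9)*y1*y1*y3 + 35*y1*y1*y4 + (301/9)*y1*y1*y5 +
      (287/9)*y1*y1*y6 + (91/3)*y1*y1*y7 + (259/9)*y1*y1*y8 + 35*y1*y2*y2 + (554/9)*y1*y2*y3 +
      (478/9)*y1*y2*y4 + (134/3)*y1*y2*y5 + (326/9)*y1*y2*y6 + (250/9)*y1*y2*y7 +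
      (118/3)*y1*y2*y8 + 25*y1*y3*y3 + (326/9)*y1*y3*y4 + (202/9)*y1*y3*y5 + (26/3)*y1*y3*y6 +
      (44/9)*y1*y3*y7 + (190/9)*y1*y3*y8 + (29/3)*y1*y4*y4 + (2/9)*y1*y4*y5 + (-80/9)*y1*y4*y6
      + (-18)*y1*y4*y7 + (26/9)*y1*y4*y8 + (-6)*y1*y5*y5 + (-238/9)*y1*y5*y6 +
      (-368/9)*y1*y5*y7 + (-46/3)*y1*y5*y8 + (-22)*y1*y6*y6 + (-574/9)*y1*y6*y7 +
      (-302/9)*y1*y6*y8 + (-130/3)*y1*y7*y7 + (-466/9)*y1*y7*y8 + (70/3)*y2*y2*y2 +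
      (554/9)*y2*y2*y3 + (478/9)*y2*y2*y4 + (134/3)*y2*y2*y5 + (326/9)*y2*y2*y6 +
      (250/9)*y2*y2*y7 + (118/3)*y2*y2*y8 + 50*y2*y3*y3 + (652/9)*y2*y3*y4 + (404/9)*y2*y3*y5 +
      (52/3)*y2*y3*y6 + (178/9)*y2*y3*y7 + (380/9)*y2*y3*y8 + (58/3)*y2*y4*y4 + (4/9)*y2*y4*y5
      + (-160/9)*y2*y4*y6 + (-16)*y2*y4*y7 + (52/9)*y2*y4*y8 + (-12)*y2*y5*y5 +
      (-476/9)*y2*y5*y6 + (-466/9)*y2*y5*y7 + (-92/3)*y2*y5*y8 + (-44)*y2*y6*y6 +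
      (-788/9)*y2*y6*y7 + (-604/9)*y2*y6*y8 + (-110/3)*y2*y7*y7 + (-302/9)*y2*y7*y8 +
      25*y3*y3*y3 + (163/3)*y3*y3*y4 + (101/3)*y3*y3*y5 + 13*y3*y3*y6 + (67/3)*y3*y3*y7 +
      (95/3)*y3*y3*y8 + 29*y3*y4*y4 + (2/3)*y3*y4*y5 + (-50/3)*y3*y4*y6 + (-4)*y3*y4*y7 +
      (26/3)*y3*y4*y8 + (-18)*y3*y5*y5 + (-178/3)*y3*y5*y6 + (-158/3)*y3*y5*y7 + (-46)*y3*y5*y8
      + (-36)*y3*y6*y6 + (-154/3)*y3*y6*y7 + (-92/3)*y3*y6*y8 + (-20)*y3*y7*y7 +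
      (-46/3)*y3*y7*y8 + (116/9)*y4*y4*y4 + (4/9)*y4*y4*y5 + (20/9)*y4*y4*y6 + 4*y4*y4*y7 +
      (52/9)*y4*y4*y8 + (-14)*y4*y5*y5 + (-142/9)*y4*y5*y6 + (-32/9)*y4*y5*y7 + (26/3)*y4*y5*y8
      + (-8)*y4*y6*y6 + (-46/9)*y4*y6*y7 + (52/9)*y4*y6*y8 + (-10/3)*y4*y7*y7 + (26/9)*y4*y7*y8
      + (20/3)*y5*y5*y5 + (215/9)*y5*y5*y6 + (250/9)*y5*y5*y7 + (95/3)*y5*y5*y8 + 20*y5*y6*y6 +
      (370/9)*y5*y6*y7 + (380/9)*y5*y6*y8 + (40/3)*y5*y7*y7 + (190/9)*y5*y7*y8 + 16*y6*y6*y6 +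
      (131/3)*y6*y6*y7 + (118/3)*y6*y6*y8 + 30*y6*y7*y7 + (118/3)*y6*y7*y8 + (140/9)*y7*y7*y7 +
      (259/9)*y7*y7*y8) -
      112 / 1024 * (y1*y1*y1 + y2*y2*y2 + y3*y3*y3 + y4*y4*y4 + y5*y5*y5 + y6*y6*y6 + y7*y7*y7)) =

      (y1*((115*y1 + 30*y2 + 3*y3 - 4*y4 - 4*y5 - 13*y6 - 47*y7)^2 + (152*y2 + 96*y3 + 36*y4 - 24*y5 - 68*y6 - 36*y7)^2 + (120*y3 + 36*y4 - 33*y5 - 39*y6 - 5*y7)^2 + (75*y4 - 36*y5 - 5*y6 - 2*y7)^2 + (37*y5 - 9*y6 - 2*y7)^2 + (37*y6 - 8*y7)^2 + (15*y7)^2) +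
      y2*((178*y1 + 32*y2 + 11*y3 + 3*y4 - 4*y5 - 15*y6 - 72*y7)^2 + (149*y2 + 76*y3 + 23*y4 - 23*y5 - 59*y6 - 36*y7)^2 + (142*y3 + 49*y4 - 40*y5 - 53*y6 - 4*y7)^2 + (84*y4 - 40*y5 - 6*y6 - 2*y7)^2 + (44*y5 - 13*y6 - y7)^2 + (19*y6 - 2*y7)^2 + (15*y7)^2) +
      y3*((189*y1 + 76*y2 +
      y3 - y4 - 5*y5 - 20*y6 - 85*y7)^2 + (181*y2 + 66*y3 + 22*y4 - 18*y5 - 62*y6 - 41*y7)^2 + (143*y3 + 46*y4 - 35*y5 - 55*y6 - 7*y7)^2 + (99*y4 - 54*y5 - 5*y6)^2 + (27*y5 - 6*y6 - y7)^2 + (17*y6 - y7)^2 + (17*y7)^2) +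
      y4*((189*y1 + 109*y2 + 52*y3 - 10*y5 - 45*y6 - 93*y7)^2 + (185*y2 + 97*y3 + 23*y4 - 21*y5 - 74*y6 - 43*y7)^2 + (163*y3 + 37*y4 - 30*y5 - 61*y6 - 5*y7)^2 + (105*y4 - 58*y5 - 7*y6 - 7*y7)^2 + (16*y5 - y6)^2 + (18*y6 - 2*y7)^2 + (18*y7)^2) +
      y5*((185*y1 + 145*y2 + 96*y3 + 32*y4 - 31*y5 - 70*y6 - 102*y7)^2 + (175*y2 + 112*y3 + 33*y4 - 28*y5 - 78*y6 - 42*y7)^2 + (156*y3 + 51*y4 - 38*y5 - 60*y6 - 7*y7)^2 + (104*y4 - 57*y5 - 5*y6)^2 + (15*y5)^2 + (17*y6 - y7)^2 + (17*y7)^2) +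
      y6*((187*y1 + 169*y2 + 101*y3 + 40*y4 - 21*y5 - 82*y6 - 109*y7)^2 + (163*y2 + 101*y3 + 42*y4 - 20*y5 - 76*y6 - 40*y7)^2 + (129*y3 + 52*y4 - 38*y5 - 50*y6 - 4*y7)^2 + (70*y4 - 8*y5 - 14*y6 - 2*y7)^2 + (89*y5 - 29*y6 - 3*y7)^2 + (15*y6)^2 + (15*y7)^2) +
      y7*((204*y1 + 165*y2 + 110*y3 + 47*y4 - 17*y5 - 75*y6 - 119*y7)^2 + (126*y2 + 75*y3 + 25*y4 - 25*y5 - 87*y6 - 20*y7)^2 + (108*y3 + 12*y4 - 88*y5 - 7*y6 - 3*y7)^2 + (63*y4 + 42*y5 + 24*y6 - 19*y7)^2 + (89*y5 + 22*y6 - 17*y7)^2 + (74*y6 - 20*y7)^2 + (14*y7)^2) +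
      y8*((168*y1 + 110*y2 + 53*y3 - 2*y4 - 58*y5 - 112*y6 - 161*y7)^2 + (160*y2 + 77*y3 - 78*y5 - 146*y6 - 7*y7)^2 + (141*y3 - 117*y5 - 11*y6 - 4*y7)^2 + (58*y4 - 4*y5 - 10*y6 - 12*y7)^2 + (75*y5 - 13*y6 - 18*y7)^2 + (59*y6 - 17*y7)^2 + (37*y7)^2)) + (
      (1823/9)*y1*y1*y1 + (3976/9)*y1*y1*y2 + (9197/9)*y1*y1*y3 + 1039*y1*y1*y4 +
      (8479/9)*y1*y1*y5 + (6077/9)*y1*y1*y6 + (766/3)*y1*y1*y7 + (11200/9)*y1*y1*y8 +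
      444*y1*y2*y2 + (9224/9)*y1*y2*y3 + (12706/9)*y1*y2*y4 + (3146/3)*y1*y2*y5 +
      (6098/9)*y1*y2*y6 + (4684/9)*y1*y2*y7 + (9952/3)*y1*y2*y8 + 1597*y1*y3*y3 +
      (20570/9)*y1*y3*y4 + (17146/9)*y1*y3*y5 + (3464/3)*y1*y3*y6 + (5852/9)*y1*y3*y7 +
      (34288/9)*y1*y3*y8 + (4997/3)*y1*y4*y4 + (14756/9)*y1*y4*y5 + (11680/9)*y1*y4*y6 +
      422*y1*y4*y7 + (32672/9)*y1*y4*y8 + 980*y1*y5*y5 + (9350/9)*y1*y5*y6 + (3382/9)*y1*y5*y7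
      + (11360/3)*y1*y5*y8 + 351*y1*y6*y6 + (770/9)*y1*y6*y7 + (29440/9)*y1*y6*y8 +
      (1055/3)*y1*y7*y7 + (9680/9)*y1*y7*y8 + (1669/3)*y2*y2*y2 + (10295/9)*y2*y2*y3 +
      (11104/9)*y2*y2*y4 + (3596/3)*y2*y2*y5 + (4532/9)*y2*y2*y6 + (6115/9)*y2*y2*y7 +
      (7732/3)*y2*y2*y8 + 1095*y2*y3*y3 + (15004/9)*y2*y3*y4 + (10316/9)*y2*y3*y5 +
      (1558/3)*y2*y3*y6 + (9058/9)*y2*y3*y7 + (62420/9)*y2*y3*y8 + (3877/3)*y2*y4*y4 +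
      (11674/9)*y2*y4*y5 + (7016/9)*y2*y4*y6 + 806*y2*y4*y7 + (57208/9)*y2*y4*y8 + 821*y2*y5*y5
      + (5848/9)*y2*y5*y6 + (4910/9)*y2*y5*y7 + (18952/3)*y2*y5*y8 + 355*y2*y6*y6 +
      (838/9)*y2*y6*y7 + (23744/9)*y2*y6*y8 + (100/3)*y2*y7*y7 + (29692/9)*y2*y7*y8 +
      682*y3*y3*y3 + (2692/3)*y3*y3*y4 + (2324/3)*y3*y3*y5 + 223*y3*y3*y6 + (3193/3)*y3*y3*y7 +
      (11423/3)*y3*y3*y8 + 770*y3*y4*y4 + (2468/3)*y3*y4*y5 + (1840/3)*y3*y4*y6 + 1144*y3*y4*y7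
      + (27260/3)*y3*y4*y8 + 429*y3*y5*y5 + (1388/3)*y3*y5*y6 + (2944/3)*y3*y5*y7 +
      4050*y3*y5*y8 + 333*y3*y6*y6 + (1184/3)*y3*y6*y7 + (18166/3)*y3*y6*y8 + 102*y3*y7*y7 +
      (10712/3)*y3*y7*y8 + (1469/9)*y4*y4*y4 + (2620/9)*y4*y4*y5 + (6260/9)*y4*y4*y6 +
      967*y4*y4*y7 + (22936/9)*y4*y4*y8 + 167*y4*y5*y5 + (5540/9)*y4*y5*y6 + (11368/9)*y4*y5*y7
      + (27320/3)*y4*y5*y8 + 316*y4*y6*y6 + (6446/9)*y4*y6*y7 + (59656/9)*y4*y6*y8 +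
      (1016/3)*y4*y7*y7 + (33356/9)*y4*y7*y8 + (155/3)*y5*y5*y5 + (3188/9)*y5*y5*y6 +
      (8041/9)*y5*y5*y7 + (10946/3)*y5*y5*y8 + 236*y5*y6*y6 + (3742/9)*y5*y6*y7 +
      (60872/9)*y5*y6*y8 + (583/3)*y5*y7*y7 + (31660/9)*y5*y7*y8 + 10*y6*y6*y6 +
      (1049/3)*y6*y6*y7 + (7639/3)*y6*y6*y8 + 233*y6*y7*y7 + (10138/3)*y6*y7*y8 +
      (8/9)*y7*y7*y7 + (12208/9)*y7*y7*y8) := by ring
  have k4 := add_nonneg k1 k2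
  rw [← k3] at k4
  exact le_of_sub_nonneg ((mul_nonneg_iff_of_pos_left (by norm_num)).1 k4)

theorem cert8 : Cert 8 := by
  intro x hx h0
  obtain ⟨y8, hy8, e7⟩ : ∃ y, 0 ≤ y ∧ x 7 = y := ⟨x 7, h0 7, rfl⟩
  obtain ⟨y7, hy7, e6⟩ : ∃ y, 0 ≤ y ∧ x 6 = y + (y8) :=
    ⟨x 6 - x 7, sub_nonneg.2 (hx (by decide)), by linarith⟩
  obtain ⟨y6, hy6, e5⟩ : ∃ y, 0 ≤ y ∧ x 5 = y + (y7 + y8) :=
    ⟨x 5 - x 6, sub_nonneg.2 (hx (by decide)), by linarith⟩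
  obtain ⟨y5, hy5, e4⟩ : ∃ y, 0 ≤ y ∧ x 4 = y + (y6 + y7 + y8) :=
    ⟨x 4 - x 5, sub_nonneg.2 (hx (by decide)), by linarith⟩
  obtain ⟨y4, hy4, e3⟩ : ∃ y, 0 ≤ y ∧ x 3 = y + (y5 + y6 + y7 + y8) :=
    ⟨x 3 - x 4, sub_nonneg.2 (hx (by decide)), by linarith⟩
  obtain ⟨y3, hy3, e2⟩ : ∃ y, 0 ≤ y ∧ x 2 = y + (y4 + y5 + y6 + y7 + y8) :=
    ⟨x 2 - x 3, sub_nonneg.2 (hx (by decide)), by linarith⟩
  obtain ⟨y2, hy2, e1⟩ : ∃ y, 0 ≤ y ∧ x 1 = y + (y3 + y4 + y5 + y6 + y7 + y8) :=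
    ⟨x 1 - x 2, sub_nonneg.2 (hx (by decide)), by linarith⟩
  obtain ⟨y1, hy1, e0⟩ : ∃ y, 0 ≤ y ∧ x 0 = y + (y2 + y3 + y4 + y5 + y6 + y7 + y8) :=
    ⟨x 0 - x 1, sub_nonneg.2 (hx (by decide)), by linarith⟩
  obtain ⟨p1, f1⟩ : ∃ p, p =
      y1*y8 + y2*y7 + y2*y8 + y3*y6 + y3*y7 + y3*y8 + y4*y5 + y4*y6 + y4*y7 + y4*y8 +
      (1/2)*y5*y5 + y5*y6 + y5*y7 + y5*y8 + (1/2)*y6*y6 + y6*y7 + y6*y8 + (1/2)*y7*y7 + y7*y8 +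
      (1/2)*y8*y8 := ⟨_, rfl⟩
  obtain ⟨p2, f2⟩ : ∃ p, p =
      y2*y7 + y2*y8 + y3*y6 + y3*y7 + y3*y8 + y4*y5 + y4*y6 + y4*y7 + y4*y8 + (1/2)*y5*y5 +
      y5*y6 + y5*y7 + y5*y8 + (1/2)*y6*y6 + y6*y7 + y6*y8 + (1/2)*y7*y7 + y7*y8 + (1/2)*y8*y8 := ⟨_, rfl⟩
  obtain ⟨p3, f3⟩ : ∃ p, p =
      y3*y6 + y3*y7 + y3*y8 + y4*y5 + y4*y6 + y4*y7 + y4*y8 + (1/2)*y5*y5 + y5*y6 + y5*y7 +
      y5*y8 + (1/2)*y6*y6 + y6*y7 + y6*y8 + (1/2)*y7*y7 + y7*y8 + (1/2)*y8*y8 := ⟨_, rfl⟩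
  obtain ⟨p4, f4⟩ : ∃ p, p =
      y4*y5 + y4*y6 + y4*y7 + y4*y8 + (1/2)*y5*y5 + y5*y6 + y5*y7 + y5*y8 + (1/2)*y6*y6 + y6*y7
      + y6*y8 + (1/2)*y7*y7 + y7*y8 + (1/2)*y8*y8 := ⟨_, rfl⟩
  obtain ⟨p5, f5⟩ : ∃ p, p =
      (1/2)*y5*y5 + y5*y6 + y5*y7 + y5*y8 + (1/2)*y6*y6 + y6*y7 + y6*y8 + (1/2)*y7*y7 + y7*y8 +
      (1/2)*y8*y8 := ⟨_, rfl⟩
  obtain ⟨p6, f6⟩ : ∃ p, p =
      (-1)*y4*y5 + (-1/2)*y5*y5 + (1/2)*y6*y6 + y6*y7 + y6*y8 + (1/2)*y7*y7 + y7*y8 +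
      (1/2)*y8*y8 := ⟨_, rfl⟩
  obtain ⟨p7, f7⟩ : ∃ p, p =
      (-1)*y3*y6 + (-1)*y4*y5 + (-1)*y4*y6 + (-1/2)*y5*y5 + (-1)*y5*y6 + (-1/2)*y6*y6 +
      (1/2)*y7*y7 + y7*y8 + (1/2)*y8*y8 := ⟨_, rfl⟩
  obtain ⟨p8, f8⟩ : ∃ p, p =
      (-1)*y2*y7 + (-1)*y3*y6 + (-1)*y3*y7 + (-1)*y4*y5 + (-1)*y4*y6 + (-1)*y4*y7 +
      (-1/2)*y5*y5 + (-1)*y5*y6 + (-1)*y5*y7 + (-1/2)*y6*y6 + (-1)*y6*y7 + (-1/2)*y7*y7 +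
      (1/2)*y8*y8 := ⟨_, rfl⟩
  have q1_2 : p1 + p2 ≤ x 0 * x 1 := by
    have t : 0 ≤
      y1*y2 + y1*y3 + y1*y4 + y1*y5 + y1*y6 + y1*y7 + y2*y2 + 2*y2*y3 + 2*y2*y4 + 2*y2*y5 +
      2*y2*y6 + y3*y3 + 2*y3*y4 + 2*y3*y5 + y4*y4 := by positivity
    rw [e0, e1, f1, f2]
    exact le_of_sub_nonneg (le_of_le_of_eq t (by ring))
  have q1_3 : p1 + p3 ≤ x 0 * x 2 := by
    have t : 0 ≤
      y1*y3 + y1*y4 + y1*y5 + y1*y6 + y1*y7 + y2*y3 + y2*y4 + y2*y5 + y2*y6 + y3*y3 + 2*y3*y4 +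
      2*y3*y5 + y4*y4 := by positivity
    rw [e0, e2, f1, f3]
    exact le_of_sub_nonneg (le_of_le_of_eq t (by ring))
  have q1_4 : p1 + p4 ≤ x 0 * x 3 := by
    have t : 0 ≤
      y1*y4 + y1*y5 + y1*y6 + y1*y7 + y2*y4 + y2*y5 + y2*y6 + y3*y4 + y3*y5 + y4*y4 := by positivity
    rw [e0, e3, f1, f4]
    exact le_of_sub_nonneg (le_of_le_of_eq t (by ring))
  have q1_5 : p1 + p5 ≤ x 0 * x 4 := by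
    have t : 0 ≤
      y1*y5 + y1*y6 + y1*y7 + y2*y5 + y2*y6 + y3*y5 := by positivity
    rw [e0, e4, f1, f5]
    exact le_of_sub_nonneg (le_of_le_of_eq t (by ring))
  have q1_6 : p1 + p6 ≤ x 0 * x 5 := by
    have t : 0 ≤
      y1*y6 + y1*y7 + y2*y6 := by positivity
    rw [e0, e5, f1, f6]
    exact le_of_sub_nonneg (le_of_le_of_eq t (by ring))
  have q1_7 : p1 + p7 ≤ x 0 * x 6 := by
    have t : 0 ≤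
      y1*y7 := by positivity
    rw [e0, e6, f1, f7]
    exact le_of_sub_nonneg (le_of_le_of_eq t (by ring))
  have q1_8 : p1 + p8 ≤ x 0 * x 7 := by
    rw [e0, e7, f1, f8]
    apply le_of_eq
    ring
  have q2_3 : p2 + p3 ≤ x 1 * x 2 := by
    have t : 0 ≤
      y2*y3 + y2*y4 + y2*y5 + y2*y6 + y3*y3 + 2*y3*y4 + 2*y3*y5 + y4*y4 := by positivity
    rw [e1, e2, f2, f3]
    exact le_of_sub_nonneg (le_of_le_of_eq t (by ring))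
  have q2_4 : p2 + p4 ≤ x 1 * x 3 := by
    have t : 0 ≤
      y2*y4 + y2*y5 + y2*y6 + y3*y4 + y3*y5 + y4*y4 := by positivity
    rw [e1, e3, f2, f4]
    exact le_of_sub_nonneg (le_of_le_of_eq t (by ring))
  have q2_5 : p2 + p5 ≤ x 1 * x 4 := by
    have t : 0 ≤
      y2*y5 + y2*y6 + y3*y5 := by positivity
    rw [e1, e4, f2, f5]
    exact le_of_sub_nonneg (le_of_le_of_eq t (by ring))
  have q2_6 : p2 + p6 ≤ x 1 * x 5 := by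
    have t : 0 ≤
      y2*y6 := by positivity
    rw [e1, e5, f2, f6]
    exact le_of_sub_nonneg (le_of_le_of_eq t (by ring))
  have q2_7 : p2 + p7 ≤ x 1 * x 6 := by
    rw [e1, e6, f2, f7]
    apply le_of_eq
    ring
  have q2_8 : p2 + p8 ≤ x 1 * x 7 := by
    rw [e1, e7, f2, f8]
    apply le_of_eq
    ring
  have q3_4 : p3 + p4 ≤ x 2 * x 3 := by
    have t : 0 ≤
      y3*y4 + y3*y5 + y4*y4 := by positivity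
    rw [e2, e3, f3, f4]
    exact le_of_sub_nonneg (le_of_le_of_eq t (by ring))
  have q3_5 : p3 + p5 ≤ x 2 * x 4 := by
    have t : 0 ≤
      y3*y5 := by positivity
    rw [e2, e4, f3, f5]
    exact le_of_sub_nonneg (le_of_le_of_eq t (by ring))
  have q3_6 : p3 + p6 ≤ x 2 * x 5 := by
    rw [e2, e5, f3, f6]
    apply le_of_eq
    ring
  have q3_7 : p3 + p7 ≤ x 2 * x 6 := by
    rw [e2, e6, f3, f7]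
    apply le_of_eq
    ring
  have q3_8 : p3 + p8 ≤ x 2 * x 7 := by
    have t : 0 ≤
      y2*y7 := by positivity
    rw [e2, e7, f3, f8]
    exact le_of_sub_nonneg (le_of_le_of_eq t (by ring))
  have q4_5 : p4 + p5 ≤ x 3 * x 4 := by
    rw [e3, e4, f4, f5]
    apply le_of_eq
    ring
  have q4_6 : p4 + p6 ≤ x 3 * x 5 := by
    rw [e3, e5, f4, f6]
    apply le_of_eq
    ring
  have q4_7 : p4 + p7 ≤ x 3 * x 6 := by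
    have t : 0 ≤
      y3*y6 := by positivity
    rw [e3, e6, f4, f7]
    exact le_of_sub_nonneg (le_of_le_of_eq t (by ring))
  have q4_8 : p4 + p8 ≤ x 3 * x 7 := by
    have t : 0 ≤
      y2*y7 + y3*y6 + y3*y7 := by positivity
    rw [e3, e7, f4, f8]
    exact le_of_sub_nonneg (le_of_le_of_eq t (by ring))
  have q5_6 : p5 + p6 ≤ x 4 * x 5 := by
    have t : 0 ≤
      y4*y5 := by positivity
    rw [e4, e5, f5, f6]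
    exact le_of_sub_nonneg (le_of_le_of_eq t (by ring))
  have q5_7 : p5 + p7 ≤ x 4 * x 6 := by
    have t : 0 ≤
      y3*y6 + y4*y5 + y4*y6 := by positivity
    rw [e4, e6, f5, f7]
    exact le_of_sub_nonneg (le_of_le_of_eq t (by ring))
  have q5_8 : p5 + p8 ≤ x 4 * x 7 := by
    have t : 0 ≤
      y2*y7 + y3*y6 + y3*y7 + y4*y5 + y4*y6 + y4*y7 := by positivity
    rw [e4, e7, f5, f8]
    exact le_of_sub_nonneg (le_of_le_of_eq t (by ring))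
  have q6_7 : p6 + p7 ≤ x 5 * x 6 := by
    have t : 0 ≤
      y3*y6 + 2*y4*y5 + y4*y6 + y5*y5 + y5*y6 := by positivity
    rw [e5, e6, f6, f7]
    exact le_of_sub_nonneg (le_of_le_of_eq t (by ring))
  have q6_8 : p6 + p8 ≤ x 5 * x 7 := by
    have t : 0 ≤
      y2*y7 + y3*y6 + y3*y7 + 2*y4*y5 + y4*y6 + y4*y7 + y5*y5 + y5*y6 + y5*y7 := by positivity
    rw [e5, e7, f6, f8]
    exact le_of_sub_nonneg (le_of_le_of_eq t (by ring))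
  have q7_8 : p7 + p8 ≤ x 6 * x 7 := by
    have t : 0 ≤
      y2*y7 + 2*y3*y6 + y3*y7 + 2*y4*y5 + 2*y4*y6 + y4*y7 + y5*y5 + 2*y5*y6 + y5*y7 + y6*y6 +
      y6*y7 := by positivity
    rw [e6, e7, f7, f8]
    exact le_of_sub_nonneg (le_of_le_of_eq t (by ring))
  have hp : ∀ a b : Fin 8, a < b → (![p1, p2, p3, p4, p5, p6, p7, p8] : Fin 8 → ℝ) a +
      (![p1, p2, p3, p4, p5, p6, p7, p8] : Fin 8 → ℝ) b ≤ x a * x b := by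
    intro a b hab
    fin_cases a
    · fin_cases b
      · exact absurd hab (by decide)
      · exact q1_2
      · exact q1_3
      · exact q1_4
      · exact q1_5
      · exact q1_6
      · exact q1_7
      · exact q1_8
    · fin_cases b
      · exact absurd hab (by decide)
      · exact absurd hab (by decide)
      · exact q2_3
      · exact q2_4
      · exact q2_5
      · exact q2_6
      · exact q2_7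
      · exact q2_8
    · fin_cases b
      · exact absurd hab (by decide)
      · exact absurd hab (by decide)
      · exact absurd hab (by decide)
      · exact q3_4
      · exact q3_5
      · exact q3_6
      · exact q3_7
      · exact q3_8
    · fin_cases b
      · exact absurd hab (by decide)
      · exact absurd hab (by decide)
      · exact absurd hab (by decide)
      · exact absurd hab (by decide)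
      · exact q4_5
      · exact q4_6
      · exact q4_7
      · exact q4_8
    · fin_cases b
      · exact absurd hab (by decide)
      · exact absurd hab (by decide)
      · exact absurd hab (by decide)
      · exact absurd hab (by decide)
      · exact absurd hab (by decide)
      · exact q5_6
      · exact q5_7
      · exact q5_8
    · fin_cases b
      · exact absurd hab (by decide)
      · exact absurd hab (by decide)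
      · exact absurd hab (by decide)
      · exact absurd hab (by decide)
      · exact absurd hab (by decide)
      · exact absurd hab (by decide)
      · exact q6_7
      · exact q6_8
    · fin_cases b
      · exact absurd hab (by decide)
      · exact absurd hab (by decide)
      · exact absurd hab (by decide)
      · exact absurd hab (by decide)
      · exact absurd hab (by decide)
      · exact absurd hab (by decide)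
      · exact absurd hab (by decide)
      · exact q7_8
    · fin_cases b
      · exact absurd hab (by decide)
      · exact absurd hab (by decide)
      · exact absurd hab (by decide)
      · exact absurd hab (by decide)
      · exact absurd hab (by decide)
      · exact absurd hab (by decide)
      · exact absurd hab (by decide)
      · exact absurd hab (by decide)
  clear q1_2 q1_3 q1_4 q1_5 q1_6 q1_7 q1_8 q2_3 q2_4 q2_5 q2_6 q2_7 q2_8 q3_4 q3_5 q3_6 q3_7 q3_8 q4_5 q4_6 q4_7 q4_8 q5_6 q5_7 q5_8 q6_7 q6_8 q7_8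
  have hv : val 8 x ![p1, p2, p3, p4, p5, p6, p7, p8] =
      (119/9)*y1*y1*y1 + (343/9)*y1*y1*y2 + (329/9)*y1*y1*y3 + 35*y1*y1*y4 + (301/9)*y1*y1*y5 +
      (287/9)*y1*y1*y6 + (91/3)*y1*y1*y7 + (259/9)*y1*y1*y8 + 35*y1*y2*y2 + (554/9)*y1*y2*y3 +
      (478/9)*y1*y2*y4 + (134/3)*y1*y2*y5 + (326/9)*y1*y2*y6 + (250/9)*y1*y2*y7 +
      (118/3)*y1*y2*y8 + 25*y1*y3*y3 + (326/9)*y1*y3*y4 + (202/9)*y1*y3*y5 + (26/3)*y1*y3*y6 +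
      (44/9)*y1*y3*y7 + (190/9)*y1*y3*y8 + (29/3)*y1*y4*y4 + (2/9)*y1*y4*y5 + (-80/9)*y1*y4*y6
      + (-18)*y1*y4*y7 + (26/9)*y1*y4*y8 + (-6)*y1*y5*y5 + (-238/9)*y1*y5*y6 +
      (-368/9)*y1*y5*y7 + (-46/3)*y1*y5*y8 + (-22)*y1*y6*y6 + (-574/9)*y1*y6*y7 +
      (-302/9)*y1*y6*y8 + (-130/3)*y1*y7*y7 + (-466/9)*y1*y7*y8 + (70/3)*y2*y2*y2 +
      (554/9)*y2*y2*y3 + (478/9)*y2*y2*y4 + (134/3)*y2*y2*y5 + (326/9)*y2*y2*y6 +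
      (250/9)*y2*y2*y7 + (118/3)*y2*y2*y8 + 50*y2*y3*y3 + (652/9)*y2*y3*y4 + (404/9)*y2*y3*y5 +
      (52/3)*y2*y3*y6 + (178/9)*y2*y3*y7 + (380/9)*y2*y3*y8 + (58/3)*y2*y4*y4 + (4/9)*y2*y4*y5
      + (-160/9)*y2*y4*y6 + (-16)*y2*y4*y7 + (52/9)*y2*y4*y8 + (-12)*y2*y5*y5 +
      (-476/9)*y2*y5*y6 + (-466/9)*y2*y5*y7 + (-92/3)*y2*y5*y8 + (-44)*y2*y6*y6 +
      (-788/9)*y2*y6*y7 + (-604/9)*y2*y6*y8 + (-110/3)*y2*y7*y7 + (-302/9)*y2*y7*y8 +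
      25*y3*y3*y3 + (163/3)*y3*y3*y4 + (101/3)*y3*y3*y5 + 13*y3*y3*y6 + (67/3)*y3*y3*y7 +
      (95/3)*y3*y3*y8 + 29*y3*y4*y4 + (2/3)*y3*y4*y5 + (-50/3)*y3*y4*y6 + (-4)*y3*y4*y7 +
      (26/3)*y3*y4*y8 + (-18)*y3*y5*y5 + (-178/3)*y3*y5*y6 + (-158/3)*y3*y5*y7 + (-46)*y3*y5*y8
      + (-36)*y3*y6*y6 + (-154/3)*y3*y6*y7 + (-92/3)*y3*y6*y8 + (-20)*y3*y7*y7 +
      (-46/3)*y3*y7*y8 + (116/9)*y4*y4*y4 + (4/9)*y4*y4*y5 + (20/9)*y4*y4*y6 + 4*y4*y4*y7 +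
      (52/9)*y4*y4*y8 + (-14)*y4*y5*y5 + (-142/9)*y4*y5*y6 + (-32/9)*y4*y5*y7 + (26/3)*y4*y5*y8
      + (-8)*y4*y6*y6 + (-46/9)*y4*y6*y7 + (52/9)*y4*y6*y8 + (-10/3)*y4*y7*y7 + (26/9)*y4*y7*y8
      + (20/3)*y5*y5*y5 + (215/9)*y5*y5*y6 + (250/9)*y5*y5*y7 + (95/3)*y5*y5*y8 + 20*y5*y6*y6 +
      (370/9)*y5*y6*y7 + (380/9)*y5*y6*y8 + (40/3)*y5*y7*y7 + (190/9)*y5*y7*y8 + 16*y6*y6*y6 +
      (131/3)*y6*y6*y7 + (118/3)*y6*y6*y8 + 30*y6*y7*y7 + (118/3)*y6*y7*y8 + (140/9)*y7*y7*y7 +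
      (259/9)*y7*y7*y8 := by
    unfold val
    simp only [Fin.sum_univ_eight, Matrix.cons_val, Matrix.cons_val_zero, Matrix.cons_val_one]
    rw [e0, e1, e2, e3, e4, e5, e6, e7, f1, f2, f3, f4, f5, f6, f7, f8]
    push_cast
    ring
  clear f1 f2 f3 f4 f5 f6 f7 f8
  have hc := cert8_core y1 y2 y3 y4 y5 y6 y7 y8 hy1 hy2 hy3 hy4 hy5 hy6 hy7 hy8
  rw [← hv] at hc
  clear hv
  have hd : 0 ≤ y1*y1*y1 + y2*y2*y2 + y3*y3*y3 + y4*y4*y4 + y5*y5*y5 + y6*y6*y6 + y7*y7*y7 := by positivity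
  refine ⟨![p1, p2, p3, p4, p5, p6, p7, p8], pairs_of_lt hp, le_trans (mul_nonneg (by norm_num) hd) hc, ?_⟩
  clear hp
  have gl : ∀ a, x 7 ≤ x a := fun a => hx (Fin.le_last a)
  have gu : ∀ a, x a ≤ x 0 := fun a => hx (Fin.zero_le a)
  · intro hz
    rw [hz] at hc
    have t1_1_1 : 0 ≤ y1*y1*y1 := by positivity
    have t2_2_2 : 0 ≤ y2*y2*y2 := by positivity
    have t3_3_3 : 0 ≤ y3*y3*y3 := by positivity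
    have t4_4_4 : 0 ≤ y4*y4*y4 := by positivity
    have t5_5_5 : 0 ≤ y5*y5*y5 := by positivity
    have t6_6_6 : 0 ≤ y6*y6*y6 := by positivity
    have t7_7_7 : 0 ≤ y7*y7*y7 := by positivity
    have z1 : y1 = 0 := cube_zero hy1 (by linarith)
    have z2 : y2 = 0 := cube_zero hy2 (by linarith)
    have z3 : y3 = 0 := cube_zero hy3 (by linarith)
    have z4 : y4 = 0 := cube_zero hy4 (by linarith)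
    have z5 : y5 = 0 := cube_zero hy5 (by linarith)
    have z6 : y6 = 0 := cube_zero hy6 (by linarith)
    have z7 : y7 = 0 := cube_zero hy7 (by linarith)
    left
    have g : ∀ a, x a = y8 := fun a => by
      have g1 := gl a
      have g2 := gu a
      linarith
    intro a b
    rw [g a, g b]

end Pool.Agent.K1H63.EB
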