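import Pool.Agent.K1H63.EB.Pinch

/-!
# The finite inequality, dimension 10

Generated: an explicit sum of squares certificate.
-/

set_option autoImplicit false
set_option maxRecDepth 4000

namespace Pool.Agent.K1H63.EB

theorem cert9_core (y1 y2 y3 y4 y5 y6 y7 y8 y9 : ℝ)
    (h1 : 0 ≤ y1)
    (h2 : 0 ≤ y2)
    (h3 : 0 ≤ y3)
    (h4 : 0 ≤ y4)
    (h5 : 0 ≤ y5)
    (h6 : 0 ≤ y6)
    (h7 : 0 ≤ y7)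
    (h8 : 0 ≤ y8)
    (h9 : 0 ≤ y9) :
    587 / 4096 * (y1*y1*y1 + y2*y2*y2 + y3*y3*y3 + y4*y4*y4 + y6*y6*y6 + y7*y7*y7 + y8*y8*y8 + y5*y5*y9) ≤
      (72/5)*y1*y1*y1 + 42*y1*y1*y2 + (204/5)*y1*y1*y3 + (198/5)*y1*y1*y4 + (192/5)*y1*y1*y5 +
      (186/5)*y1*y1*y6 + 36*y1*y1*y7 + (174/5)*y1*y1*y8 + (168/5)*y1*y1*y9 + (198/5)*y1*y2*y2 +
      72*y1*y2*y3 + (324/5)*y1*y2*y4 + (288/5)*y1*y2*y5 + (252/5)*y1*y2*y6 + (216/5)*y1*y2*y7 +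
      36*y1*y2*y8 + (244/5)*y1*y2*y9 + (156/5)*y1*y3*y3 + (252/5)*y1*y3*y4 + (192/5)*y1*y3*y5 +
      (132/5)*y1*y3*y6 + (72/5)*y1*y3*y7 + (62/5)*y1*y3*y8 + (152/5)*y1*y3*y9 + 18*y1*y4*y4 +
      (96/5)*y1*y4*y5 + (12/5)*y1*y4*y6 + (-22/5)*y1*y4*y7 + (-56/5)*y1*y4*y8 + 12*y1*y4*y9 +
      (-58/5)*y1*y5*y6 + (-116/5)*y1*y5*y7 + (-174/5)*y1*y5*y8 + (-32/5)*y1*y5*y9 +
      (-64/5)*y1*y6*y6 + (-42)*y1*y6*y7 + (-292/5)*y1*y6*y8 + (-124/5)*y1*y6*y9 +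
      (-152/5)*y1*y7*y7 + (-82)*y1*y7*y8 + (-216/5)*y1*y7*y9 + (-264/5)*y1*y8*y8 +
      (-308/5)*y1*y8*y9 + (132/5)*y2*y2*y2 + 72*y2*y2*y3 + (324/5)*y2*y2*y4 + (288/5)*y2*y2*y5
      + (252/5)*y2*y2*y6 + (216/5)*y2*y2*y7 + 36*y2*y2*y8 + (244/5)*y2*y2*y9 + (312/5)*y2*y3*y3
      + (504/5)*y2*y3*y4 + (384/5)*y2*y3*y5 + (264/5)*y2*y3*y6 + (144/5)*y2*y3*y7 +
      (174/5)*y2*y3*y8 + (304/5)*y2*y3*y9 + 36*y2*y4*y4 + (192/5)*y2*y4*y5 + (24/5)*y2*y4*y6 +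
      (-44/5)*y2*y4*y7 + (-12/5)*y2*y4*y8 + 24*y2*y4*y9 + (-116/5)*y2*y5*y6 + (-232/5)*y2*y5*y7
      + (-198/5)*y2*y5*y8 + (-64/5)*y2*y5*y9 + (-128/5)*y2*y6*y6 + (-84)*y2*y6*y7 +
      (-384/5)*y2*y6*y8 + (-248/5)*y2*y6*y9 + (-304/5)*y2*y7*y7 + (-114)*y2*y7*y8 +
      (-432/5)*y2*y7*y9 + (-228/5)*y2*y8*y8 + (-216/5)*y2*y8*y9 + (156/5)*y3*y3*y3 +
      (378/5)*y3*y3*y4 + (288/5)*y3*y3*y5 + (198/5)*y3*y3*y6 + (108/5)*y3*y3*y7 +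
      (168/5)*y3*y3*y8 + (228/5)*y3*y3*y9 + 54*y3*y4*y4 + (288/5)*y3*y4*y5 + (36/5)*y3*y4*y6 +
      (-16/5)*y3*y4*y7 + (82/5)*y3*y4*y8 + 36*y3*y4*y9 + (-174/5)*y3*y5*y6 + (-248/5)*y3*y5*y7
      + (-172/5)*y3*y5*y8 + (-96/5)*y3*y5*y9 + (-192/5)*y3*y6*y6 + (-96)*y3*y6*y7 +
      (-426/5)*y3*y6*y8 + (-372/5)*y3*y6*y9 + (-256/5)*y3*y7*y7 + (-76)*y3*y7*y8 +
      (-248/5)*y3*y7*y9 + (-142/5)*y3*y8*y8 + (-124/5)*y3*y8*y9 + 24*y4*y4*y4 +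
      (192/5)*y4*y4*y5 + (24/5)*y4*y4*y6 + (56/5)*y4*y4*y7 + (88/5)*y4*y4*y8 + 24*y4*y4*y9 +
      (-182/5)*y4*y5*y6 + (-164/5)*y4*y5*y7 + (-146/5)*y4*y5*y8 + (-128/5)*y4*y5*y9 +
      (-156/5)*y4*y6*y6 + (-48)*y4*y6*y7 + (-168/5)*y4*y6*y8 + (-96/5)*y4*y6*y9 +
      (-108/5)*y4*y7*y7 + (-28)*y4*y7*y8 + (-64/5)*y4*y7*y9 + (-56/5)*y4*y8*y8 +
      (-32/5)*y4*y8*y9 + 6*y5*y5*y6 + 12*y5*y5*y7 + 18*y5*y5*y8 + 24*y5*y5*y9 + 6*y5*y6*y6 +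
      20*y5*y6*y7 + 28*y5*y6*y8 + 36*y5*y6*y9 + 8*y5*y7*y7 + 20*y5*y7*y8 + 24*y5*y7*y9 +
      6*y5*y8*y8 + 12*y5*y8*y9 + (72/5)*y6*y6*y6 + 44*y6*y6*y7 + (224/5)*y6*y6*y8 +
      (228/5)*y6*y6*y9 + (188/5)*y6*y7*y7 + 68*y6*y7*y8 + (304/5)*y6*y7*y9 + (116/5)*y6*y8*y8 +
      (152/5)*y6*y8*y9 + (112/5)*y7*y7*y7 + 58*y7*y7*y8 + (244/5)*y7*y7*y9 + (202/5)*y7*y8*y8 +
      (244/5)*y7*y8*y9 + (96/5)*y8*y8*y8 + (168/5)*y8*y8*y9 := by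
  have k1 : 0 ≤ y1*((241*y1 + 67*y2 + 16*y3 - 12*y4 - 13*y6 - 26*y7 - 107*y8)^2 + (317*y2 + 214*y3 + 126*y4 - 78*y6 - 158*y7 - 71*y8)^2 + (258*y3 + 122*y4 - 107*y6 - 78*y7 - 8*y8)^2 + (202*y4 - 79*y6 - 13*y7 - 3*y8)^2 + (89*y6 - 27*y7 - 2*y8)^2 + (60*y7 - 14*y8)^2 + (26*y8)^2) +
      y2*((372*y1 + 75*y2 + 30*y3 + 12*y4 - 11*y6 - 36*y7 - 163*y8)^2 + (318*y2 + 175*y3 + 80*y4 - 73*y6 - 137*y7 - 70*y8)^2 + (312*y3 + 173*y4 - 132*y6 - 107*y7 - 7*y8)^2 + (229*y4 - 90*y6 - 17*y7 - 3*y8)^2 + (112*y6 - 39*y7 - y8)^2 + (30*y7 - y8)^2 + (26*y8)^2) +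
      y3*((397*y1 + 167*y2 + 14*y3 + 2*y4 - 14*y6 - 50*y7 - 191*y8)^2 + (386*y2 + 155*y3 + 75*y4 - 57*y6 - 151*y7 - 83*y8)^2 + (319*y3 + 150*y4 - 111*y6 - 112*y7 - 10*y8)^2 + (272*y4 - 129*y6 - 11*y7 - 2*y8)^2 + (53*y6 - 15*y7 - y8)^2 + (28*y7 - y8)^2 + (28*y8)^2) +
      y4*((406*y1 + 215*y2 + 101*y3 - 6*y4 - 23*y6 - 90*y7 - 206*y8)^2 + (405*y2 + 211*y3 + 70*y4 - 64*y6 - 173*y7 - 87*y8)^2 + (365*y3 + 120*y4 - 99*y6 - 127*y7 - 8*y8)^2 + (277*y4 - 134*y6 - 12*y7 - 8*y8)^2 + (33*y6 - 5*y7)^2 + (30*y7 - 2*y8)^2 + (31*y8)^2) +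
      y5*((393*y1 + 295*y2 + 191*y3 + 90*y4 - 80*y6 - 144*y7 - 221*y8)^2 + (382*y2 + 260*y3 + 130*y4 - 97*y6 - 186*y7 - 85*y8)^2 + (360*y3 + 181*y4 - 127*y6 - 128*y7 - 10*y8)^2 + (311*y4 - 147*y6 - 13*y7 - 8*y8)^2 + (36*y6 - 7*y7)^2 + (31*y7 - 2*y8)^2 + (31*y8)^2) +
      y6*((396*y1 + 333*y2 + 258*y3 + 127*y4 + 12*y5 - 111*y6 - 178*y7 - 232*y8)^2 + (377*y2 + 265*y3 + 123*y4 + 20*y5 - 101*y6 - 188*y7 - 85*y8)^2 + (336*y3 + 167*y4 + 16*y5 - 123*y6 - 121*y7 - 10*y8)^2 + (257*y4 + 26*y5 - 132*y6 - 12*y7 - 2*y8)^2 + (146*y5 - 48*y6 - 8*y7 - 2*y8)^2 + (30*y6 - 2*y7)^2 + (27*y7 - y8)^2 + (29*y8)^2) +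
      y7*((399*y1 + 384*y2 + 258*y3 + 145*y4 + 19*y5 - 91*y6 - 203*y7 - 245*y8)^2 + (348*y2 + 243*y3 + 139*y4 + 30*y5 - 84*y6 - 184*y7 - 79*y8)^2 + (287*y3 + 156*y4 + 26*y5 - 137*y6 - 96*y7 - 7*y8)^2 + (199*y4 - 74*y5 - 54*y6 - 10*y7 - y8)^2 + (199*y5 + 30*y6 - 47*y7 - 5*y8)^2 + (174*y6 - 62*y7 - 2*y8)^2 + (27*y7 +
      y8)^2 + (26*y8)^2) +
      y8*((440*y1 + 372*y2 + 272*y3 + 158*y4 + 34*y5 - 82*y6 - 192*y7 - 266*y8)^2 + (278*y2 + 190*y3 + 88*y4 + 11*y5 - 94*y6 - 205*y7 - 39*y8)^2 + (252*y3 + 92*y4 - 62*y5 - 231*y6 - 15*y7 - 4*y8)^2 + (208*y4 - 133*y5 + 10*y6 + 24*y7 - 15*y8)^2 + (215*y5 + 106*y6 + 48*y7 - 44*y8)^2 + (170*y6 + 38*y7 - 32*y8)^2 + (150*y7 - 43*y8)^2 + (26*y8)^2) +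
      y9*((365*y1 + 256*y2 + 152*y3 + 47*y4 - 56*y5 - 158*y6 - 259*y7 - 352*y8)^2 + (353*y2 + 206*y3 + 68*y4 - 70*y5 - 207*y6 - 328*y7 - 12*y8)^2 + (327*y3 + 103*y4 - 102*y5 - 286*y6 - 21*y7 - 6*y8)^2 + (251*y4 - 180*y5 - 21*y6 - 10*y7 - 10*y8)^2 + (172*y5 - 9*y6 - 31*y7 - 34*y8)^2 + (149*y6 - 25*y7 - 35*y8)^2 + (115*y7 - 34*y8)^2 + (72*y8)^2) := by positivity
  have k2 : 0 ≤
      (1572/5)*y1*y1*y1 + 1354*y1*y1*y2 + (8979/5)*y1*y1*y3 + (15748/5)*y1*y1*y4 +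
      (14187/5)*y1*y1*y5 + (9106/5)*y1*y1*y6 + 787*y1*y1*y7 + (2574/5)*y1*y1*y8 +
      (22003/5)*y1*y1*y9 + (7118/5)*y1*y2*y2 + 2174*y1*y2*y3 + (18184/5)*y1*y2*y4 +
      (20298/5)*y1*y2*y5 + (10402/5)*y1*y2*y6 + (4776/5)*y1*y2*y7 + 720*y1*y2*y8 +
      (65024/5)*y1*y2*y9 + (20316/5)*y1*y3*y3 + (31712/5)*y1*y3*y4 + (35802/5)*y1*y3*y5 +
      (19632/5)*y1*y3*y6 + (7512/5)*y1*y3*y7 + (5122/5)*y1*y3*y8 + (67792/5)*y1*y3*y9 +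
      6892*y1*y4*y4 + (39516/5)*y1*y4*y5 + (26452/5)*y1*y4*y6 + (14118/5)*y1*y4*y7 +
      (4224/5)*y1*y4*y8 + 14842*y1*y4*y9 + (29312/5)*y1*y5*y6 + (14974/5)*y1*y5*y7 +
      (6226/5)*y1*y5*y8 + (73328/5)*y1*y5*y9 + (18096/5)*y1*y6*y6 + 2298*y1*y6*y7 +
      (5048/5)*y1*y6*y8 + (68796/5)*y1*y6*y9 + (6268/5)*y1*y7*y7 + 844*y1*y7*y8 +
      (60614/5)*y1*y7*y9 + (1861/5)*y1*y8*y8 + (23232/5)*y1*y8*y9 + (3992/5)*y2*y2*y2 +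
      2227*y2*y2*y3 + (12454/5)*y2*y2*y4 + (14903/5)*y2*y2*y5 + (7492/5)*y2*y2*y6 +
      (4596/5)*y2*y2*y7 + 758*y2*y2*y8 + (48699/5)*y2*y2*y9 + (11927/5)*y2*y3*y3 +
      (16484/5)*y2*y3*y4 + (16214/5)*y2*y3*y5 + (9444/5)*y2*y3*y6 + (4214/5)*y2*y3*y7 +
      (5254/5)*y2*y3*y8 + (128884/5)*y2*y3*y9 + 4422*y2*y4*y4 + (24332/5)*y2*y4*y5 +
      (14514/5)*y2*y4*y6 + (11366/5)*y2*y4*y7 + (8238/5)*y2*y4*y8 + 26232*y2*y4*y9 +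
      (16044/5)*y2*y5*y6 + (7688/5)*y2*y5*y7 + (8582/5)*y2*y5*y8 + (128316/5)*y2*y5*y9 +
      (8522/5)*y2*y6*y6 + 1222*y2*y6*y7 + (6656/5)*y2*y6*y8 + (119382/5)*y2*y6*y9 +
      (3536/5)*y2*y7*y7 + 494*y2*y7*y8 + (51408/5)*y2*y7*y9 + (3027/5)*y2*y8*y8 +
      (58744/5)*y2*y8*y9 + (6131/5)*y3*y3*y3 + (13523/5)*y3*y3*y4 + (11243/5)*y3*y3*y5 +
      (6983/5)*y3*y3*y6 + (788/5)*y3*y3*y7 + (7478/5)*y3*y3*y8 + (71543/5)*y3*y3*y9 +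
      3143*y3*y4*y4 + (18148/5)*y3*y4*y5 + (12756/5)*y3*y4*y6 + (6524/5)*y3*y4*y7 +
      (14412/5)*y3*y4*y8 + 37790*y3*y4*y9 + (11776/5)*y3*y5*y6 + (7092/5)*y3*y5*y7 +
      (17458/5)*y3*y5*y8 + (169644/5)*y3*y5*y9 + (4798/5)*y3*y6*y6 + 1276*y3*y6*y7 +
      (9074/5)*y3*y6*y8 + (78088/5)*y3*y6*y9 + (2929/5)*y3*y7*y7 + 1020*y3*y7*y8 +
      (122222/5)*y3*y7*y9 + (4768/5)*y3*y8*y8 + (71476/5)*y3*y8*y9 + 1652*y4*y4*y4 +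
      (14022/5)*y4*y4*y5 + (5724/5)*y4*y4*y6 + (9301/5)*y4*y4*y7 + (18568/5)*y4*y4*y8 +
      17861*y4*y4*y9 + (6288/5)*y4*y5*y6 + (9216/5)*y4*y5*y7 + (24644/5)*y4*y5*y8 +
      (106492/5)*y4*y5*y9 + (3519/5)*y4*y6*y6 + 1096*y4*y6*y7 + (15202/5)*y4*y6*y8 +
      (169094/5)*y4*y6*y9 + (1267/5)*y4*y7*y7 + 1148*y4*y7*y8 + (129356/5)*y4*y7*y9 +
      (4614/5)*y4*y8*y8 + (73808/5)*y4*y8*y9 + 1784*y5*y5*y6 + 2138*y5*y5*y7 + 4693*y5*y5*y8 +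
      17293*y5*y5*y9 + 1253*y5*y6*y6 + 1280*y5*y6*y7 + 4002*y5*y6*y8 + 37972*y5*y6*y9 +
      845*y5*y7*y7 + 1714*y5*y7*y8 + 26156*y5*y7*y9 + 761*y5*y8*y8 + 14920*y5*y8*y9 +
      (582/5)*y6*y6*y6 + 952*y6*y6*y7 + (12449/5)*y6*y6*y8 + (72228/5)*y6*y6*y9 +
      (2768/5)*y6*y7*y7 + 2104*y6*y7*y8 + (129304/5)*y6*y7*y9 + (3661/5)*y6*y8*y8 +
      (71422/5)*y6*y8*y9 + (2/5)*y7*y7*y7 + 952*y7*y7*y8 + (49339/5)*y7*y7*y9 +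
      (2392/5)*y7*y8*y8 + (65934/5)*y7*y8*y9 + (266/5)*y8*y8*y8 + (23603/5)*y8*y8*y9 := by positivity
  have k3 : (4096 : ℝ) * ((
      (72/5)*y1*y1*y1 + 42*y1*y1*y2 + (204/5)*y1*y1*y3 + (198/5)*y1*y1*y4 + (192/5)*y1*y1*y5 +
      (186/5)*y1*y1*y6 + 36*y1*y1*y7 + (174/5)*y1*y1*y8 + (168/5)*y1*y1*y9 + (198/5)*y1*y2*y2 +
      72*y1*y2*y3 + (324/5)*y1*y2*y4 + (288/5)*y1*y2*y5 + (252/5)*y1*y2*y6 + (216/5)*y1*y2*y7 +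
      36*y1*y2*y8 + (244/5)*y1*y2*y9 + (156/5)*y1*y3*y3 + (252/5)*y1*y3*y4 + (192/5)*y1*y3*y5 +
      (132/5)*y1*y3*y6 + (72/5)*y1*y3*y7 + (62/5)*y1*y3*y8 + (152/5)*y1*y3*y9 + 18*y1*y4*y4 +
      (96/5)*y1*y4*y5 + (12/5)*y1*y4*y6 + (-22/5)*y1*y4*y7 + (-56/5)*y1*y4*y8 + 12*y1*y4*y9 +
      (-58/5)*y1*y5*y6 + (-116/5)*y1*y5*y7 + (-174/5)*y1*y5*y8 + (-32/5)*y1*y5*y9 +
      (-64/5)*y1*y6*y6 + (-42)*y1*y6*y7 + (-292/5)*y1*y6*y8 + (-124/5)*y1*y6*y9 +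
      (-152/5)*y1*y7*y7 + (-82)*y1*y7*y8 + (-216/5)*y1*y7*y9 + (-264/5)*y1*y8*y8 +
      (-308/5)*y1*y8*y9 + (132/5)*y2*y2*y2 + 72*y2*y2*y3 + (324/5)*y2*y2*y4 + (288/5)*y2*y2*y5
      + (252/5)*y2*y2*y6 + (216/5)*y2*y2*y7 + 36*y2*y2*y8 + (244/5)*y2*y2*y9 + (312/5)*y2*y3*y3
      + (504/5)*y2*y3*y4 + (384/5)*y2*y3*y5 + (264/5)*y2*y3*y6 + (144/5)*y2*y3*y7 +
      (174/5)*y2*y3*y8 + (304/5)*y2*y3*y9 + 36*y2*y4*y4 + (192/5)*y2*y4*y5 + (24/5)*y2*y4*y6 +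
      (-44/5)*y2*y4*y7 + (-12/5)*y2*y4*y8 + 24*y2*y4*y9 + (-116/5)*y2*y5*y6 + (-232/5)*y2*y5*y7
      + (-198/5)*y2*y5*y8 + (-64/5)*y2*y5*y9 + (-128/5)*y2*y6*y6 + (-84)*y2*y6*y7 +
      (-384/5)*y2*y6*y8 + (-248/5)*y2*y6*y9 + (-304/5)*y2*y7*y7 + (-114)*y2*y7*y8 +
      (-432/5)*y2*y7*y9 + (-228/5)*y2*y8*y8 + (-216/5)*y2*y8*y9 + (156/5)*y3*y3*y3 +
      (378/5)*y3*y3*y4 + (288/5)*y3*y3*y5 + (198/5)*y3*y3*y6 + (108/5)*y3*y3*y7 +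
      (168/5)*y3*y3*y8 + (228/5)*y3*y3*y9 + 54*y3*y4*y4 + (288/5)*y3*y4*y5 + (36/5)*y3*y4*y6 +
      (-16/5)*y3*y4*y7 + (82/5)*y3*y4*y8 + 36*y3*y4*y9 + (-174/5)*y3*y5*y6 + (-248/5)*y3*y5*y7
      + (-172/5)*y3*y5*y8 + (-96/5)*y3*y5*y9 + (-192/5)*y3*y6*y6 + (-96)*y3*y6*y7 +
      (-426/5)*y3*y6*y8 + (-372/5)*y3*y6*y9 + (-256/5)*y3*y7*y7 + (-76)*y3*y7*y8 +
      (-248/5)*y3*y7*y9 + (-142/5)*y3*y8*y8 + (-124/5)*y3*y8*y9 + 24*y4*y4*y4 +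
      (192/5)*y4*y4*y5 + (24/5)*y4*y4*y6 + (56/5)*y4*y4*y7 + (88/5)*y4*y4*y8 + 24*y4*y4*y9 +
      (-182/5)*y4*y5*y6 + (-164/5)*y4*y5*y7 + (-146/5)*y4*y5*y8 + (-128/5)*y4*y5*y9 +
      (-156/5)*y4*y6*y6 + (-48)*y4*y6*y7 + (-168/5)*y4*y6*y8 + (-96/5)*y4*y6*y9 +
      (-108/5)*y4*y7*y7 + (-28)*y4*y7*y8 + (-64/5)*y4*y7*y9 + (-56/5)*y4*y8*y8 +
      (-32/5)*y4*y8*y9 + 6*y5*y5*y6 + 12*y5*y5*y7 + 18*y5*y5*y8 + 24*y5*y5*y9 + 6*y5*y6*y6 +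
      20*y5*y6*y7 + 28*y5*y6*y8 + 36*y5*y6*y9 + 8*y5*y7*y7 + 20*y5*y7*y8 + 24*y5*y7*y9 +
      6*y5*y8*y8 + 12*y5*y8*y9 + (72/5)*y6*y6*y6 + 44*y6*y6*y7 + (224/5)*y6*y6*y8 +
      (228/5)*y6*y6*y9 + (188/5)*y6*y7*y7 + 68*y6*y7*y8 + (304/5)*y6*y7*y9 + (116/5)*y6*y8*y8 +
      (152/5)*y6*y8*y9 + (112/5)*y7*y7*y7 + 58*y7*y7*y8 + (244/5)*y7*y7*y9 + (202/5)*y7*y8*y8 +
      (244/5)*y7*y8*y9 + (96/5)*y8*y8*y8 + (168/5)*y8*y8*y9) -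
      587 / 4096 * (y1*y1*y1 + y2*y2*y2 + y3*y3*y3 + y4*y4*y4 + y6*y6*y6 + y7*y7*y7 + y8*y8*y8 + y5*y5*y9)) =

      (y1*((241*y1 + 67*y2 + 16*y3 - 12*y4 - 13*y6 - 26*y7 - 107*y8)^2 + (317*y2 + 214*y3 + 126*y4 - 78*y6 - 158*y7 - 71*y8)^2 + (258*y3 + 122*y4 - 107*y6 - 78*y7 - 8*y8)^2 + (202*y4 - 79*y6 - 13*y7 - 3*y8)^2 + (89*y6 - 27*y7 - 2*y8)^2 + (60*y7 - 14*y8)^2 + (26*y8)^2) +
      y2*((372*y1 + 75*y2 + 30*y3 + 12*y4 - 11*y6 - 36*y7 - 163*y8)^2 + (318*y2 + 175*y3 + 80*y4 - 73*y6 - 137*y7 - 70*y8)^2 + (312*y3 + 173*y4 - 132*y6 - 107*y7 - 7*y8)^2 + (229*y4 - 90*y6 - 17*y7 - 3*y8)^2 + (112*y6 - 39*y7 - y8)^2 + (30*y7 - y8)^2 + (26*y8)^2) +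
      y3*((397*y1 + 167*y2 + 14*y3 + 2*y4 - 14*y6 - 50*y7 - 191*y8)^2 + (386*y2 + 155*y3 + 75*y4 - 57*y6 - 151*y7 - 83*y8)^2 + (319*y3 + 150*y4 - 111*y6 - 112*y7 - 10*y8)^2 + (272*y4 - 129*y6 - 11*y7 - 2*y8)^2 + (53*y6 - 15*y7 - y8)^2 + (28*y7 - y8)^2 + (28*y8)^2) +
      y4*((406*y1 + 215*y2 + 101*y3 - 6*y4 - 23*y6 - 90*y7 - 206*y8)^2 + (405*y2 + 211*y3 + 70*y4 - 64*y6 - 173*y7 - 87*y8)^2 + (365*y3 + 120*y4 - 99*y6 - 127*y7 - 8*y8)^2 + (277*y4 - 134*y6 - 12*y7 - 8*y8)^2 + (33*y6 - 5*y7)^2 + (30*y7 - 2*y8)^2 + (31*y8)^2) +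
      y5*((393*y1 + 295*y2 + 191*y3 + 90*y4 - 80*y6 - 144*y7 - 221*y8)^2 + (382*y2 + 260*y3 + 130*y4 - 97*y6 - 186*y7 - 85*y8)^2 + (360*y3 + 181*y4 - 127*y6 - 128*y7 - 10*y8)^2 + (311*y4 - 147*y6 - 13*y7 - 8*y8)^2 + (36*y6 - 7*y7)^2 + (31*y7 - 2*y8)^2 + (31*y8)^2) +
      y6*((396*y1 + 333*y2 + 258*y3 + 127*y4 + 12*y5 - 111*y6 - 178*y7 - 232*y8)^2 + (377*y2 + 265*y3 + 123*y4 + 20*y5 - 101*y6 - 188*y7 - 85*y8)^2 + (336*y3 + 167*y4 + 16*y5 - 123*y6 - 121*y7 - 10*y8)^2 + (257*y4 + 26*y5 - 132*y6 - 12*y7 - 2*y8)^2 + (146*y5 - 48*y6 - 8*y7 - 2*y8)^2 + (30*y6 - 2*y7)^2 + (27*y7 - y8)^2 + (29*y8)^2) +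
      y7*((399*y1 + 384*y2 + 258*y3 + 145*y4 + 19*y5 - 91*y6 - 203*y7 - 245*y8)^2 + (348*y2 + 243*y3 + 139*y4 + 30*y5 - 84*y6 - 184*y7 - 79*y8)^2 + (287*y3 + 156*y4 + 26*y5 - 137*y6 - 96*y7 - 7*y8)^2 + (199*y4 - 74*y5 - 54*y6 - 10*y7 - y8)^2 + (199*y5 + 30*y6 - 47*y7 - 5*y8)^2 + (174*y6 - 62*y7 - 2*y8)^2 + (27*y7 +
      y8)^2 + (26*y8)^2) +
      y8*((440*y1 + 372*y2 + 272*y3 + 158*y4 + 34*y5 - 82*y6 - 192*y7 - 266*y8)^2 + (278*y2 + 190*y3 + 88*y4 + 11*y5 - 94*y6 - 205*y7 - 39*y8)^2 + (252*y3 + 92*y4 - 62*y5 - 231*y6 - 15*y7 - 4*y8)^2 + (208*y4 - 133*y5 + 10*y6 + 24*y7 - 15*y8)^2 + (215*y5 + 106*y6 + 48*y7 - 44*y8)^2 + (170*y6 + 38*y7 - 32*y8)^2 + (150*y7 - 43*y8)^2 + (26*y8)^2) +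
      y9*((365*y1 + 256*y2 + 152*y3 + 47*y4 - 56*y5 - 158*y6 - 259*y7 - 352*y8)^2 + (353*y2 + 206*y3 + 68*y4 - 70*y5 - 207*y6 - 328*y7 - 12*y8)^2 + (327*y3 + 103*y4 - 102*y5 - 286*y6 - 21*y7 - 6*y8)^2 + (251*y4 - 180*y5 - 21*y6 - 10*y7 - 10*y8)^2 + (172*y5 - 9*y6 - 31*y7 - 34*y8)^2 + (149*y6 - 25*y7 - 35*y8)^2 + (115*y7 - 34*y8)^2 + (72*y8)^2)) + (
      (1572/5)*y1*y1*y1 + 1354*y1*y1*y2 + (8979/5)*y1*y1*y3 + (15748/5)*y1*y1*y4 +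
      (14187/5)*y1*y1*y5 + (9106/5)*y1*y1*y6 + 787*y1*y1*y7 + (2574/5)*y1*y1*y8 +
      (22003/5)*y1*y1*y9 + (7118/5)*y1*y2*y2 + 2174*y1*y2*y3 + (18184/5)*y1*y2*y4 +
      (20298/5)*y1*y2*y5 + (10402/5)*y1*y2*y6 + (4776/5)*y1*y2*y7 + 720*y1*y2*y8 +
      (65024/5)*y1*y2*y9 + (20316/5)*y1*y3*y3 + (31712/5)*y1*y3*y4 + (35802/5)*y1*y3*y5 +
      (19632/5)*y1*y3*y6 + (7512/5)*y1*y3*y7 + (5122/5)*y1*y3*y8 + (67792/5)*y1*y3*y9 +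
      6892*y1*y4*y4 + (39516/5)*y1*y4*y5 + (26452/5)*y1*y4*y6 + (14118/5)*y1*y4*y7 +
      (4224/5)*y1*y4*y8 + 14842*y1*y4*y9 + (29312/5)*y1*y5*y6 + (14974/5)*y1*y5*y7 +
      (6226/5)*y1*y5*y8 + (73328/5)*y1*y5*y9 + (18096/5)*y1*y6*y6 + 2298*y1*y6*y7 +
      (5048/5)*y1*y6*y8 + (68796/5)*y1*y6*y9 + (6268/5)*y1*y7*y7 + 844*y1*y7*y8 +
      (60614/5)*y1*y7*y9 + (1861/5)*y1*y8*y8 + (23232/5)*y1*y8*y9 + (3992/5)*y2*y2*y2 +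
      2227*y2*y2*y3 + (12454/5)*y2*y2*y4 + (14903/5)*y2*y2*y5 + (7492/5)*y2*y2*y6 +
      (4596/5)*y2*y2*y7 + 758*y2*y2*y8 + (48699/5)*y2*y2*y9 + (11927/5)*y2*y3*y3 +
      (16484/5)*y2*y3*y4 + (16214/5)*y2*y3*y5 + (9444/5)*y2*y3*y6 + (4214/5)*y2*y3*y7 +
      (5254/5)*y2*y3*y8 + (128884/5)*y2*y3*y9 + 4422*y2*y4*y4 + (24332/5)*y2*y4*y5 +
      (14514/5)*y2*y4*y6 + (11366/5)*y2*y4*y7 + (8238/5)*y2*y4*y8 + 26232*y2*y4*y9 +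
      (16044/5)*y2*y5*y6 + (7688/5)*y2*y5*y7 + (8582/5)*y2*y5*y8 + (128316/5)*y2*y5*y9 +
      (8522/5)*y2*y6*y6 + 1222*y2*y6*y7 + (6656/5)*y2*y6*y8 + (119382/5)*y2*y6*y9 +
      (3536/5)*y2*y7*y7 + 494*y2*y7*y8 + (51408/5)*y2*y7*y9 + (3027/5)*y2*y8*y8 +
      (58744/5)*y2*y8*y9 + (6131/5)*y3*y3*y3 + (13523/5)*y3*y3*y4 + (11243/5)*y3*y3*y5 +
      (6983/5)*y3*y3*y6 + (788/5)*y3*y3*y7 + (7478/5)*y3*y3*y8 + (71543/5)*y3*y3*y9 +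
      3143*y3*y4*y4 + (18148/5)*y3*y4*y5 + (12756/5)*y3*y4*y6 + (6524/5)*y3*y4*y7 +
      (14412/5)*y3*y4*y8 + 37790*y3*y4*y9 + (11776/5)*y3*y5*y6 + (7092/5)*y3*y5*y7 +
      (17458/5)*y3*y5*y8 + (169644/5)*y3*y5*y9 + (4798/5)*y3*y6*y6 + 1276*y3*y6*y7 +
      (9074/5)*y3*y6*y8 + (78088/5)*y3*y6*y9 + (2929/5)*y3*y7*y7 + 1020*y3*y7*y8 +
      (122222/5)*y3*y7*y9 + (4768/5)*y3*y8*y8 + (71476/5)*y3*y8*y9 + 1652*y4*y4*y4 +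
      (14022/5)*y4*y4*y5 + (5724/5)*y4*y4*y6 + (9301/5)*y4*y4*y7 + (18568/5)*y4*y4*y8 +
      17861*y4*y4*y9 + (6288/5)*y4*y5*y6 + (9216/5)*y4*y5*y7 + (24644/5)*y4*y5*y8 +
      (106492/5)*y4*y5*y9 + (3519/5)*y4*y6*y6 + 1096*y4*y6*y7 + (15202/5)*y4*y6*y8 +
      (169094/5)*y4*y6*y9 + (1267/5)*y4*y7*y7 + 1148*y4*y7*y8 + (129356/5)*y4*y7*y9 +
      (4614/5)*y4*y8*y8 + (73808/5)*y4*y8*y9 + 1784*y5*y5*y6 + 2138*y5*y5*y7 + 4693*y5*y5*y8 +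
      17293*y5*y5*y9 + 1253*y5*y6*y6 + 1280*y5*y6*y7 + 4002*y5*y6*y8 + 37972*y5*y6*y9 +
      845*y5*y7*y7 + 1714*y5*y7*y8 + 26156*y5*y7*y9 + 761*y5*y8*y8 + 14920*y5*y8*y9 +
      (582/5)*y6*y6*y6 + 952*y6*y6*y7 + (12449/5)*y6*y6*y8 + (72228/5)*y6*y6*y9 +
      (2768/5)*y6*y7*y7 + 2104*y6*y7*y8 + (129304/5)*y6*y7*y9 + (3661/5)*y6*y8*y8 +
      (71422/5)*y6*y8*y9 + (2/5)*y7*y7*y7 + 952*y7*y7*y8 + (49339/5)*y7*y7*y9 +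
      (2392/5)*y7*y8*y8 + (65934/5)*y7*y8*y9 + (266/5)*y8*y8*y8 + (23603/5)*y8*y8*y9) := by ring
  have k4 := add_nonneg k1 k2
  rw [← k3] at k4
  exact le_of_sub_nonneg ((mul_nonneg_iff_of_pos_left (by norm_num)).1 k4)

theorem cert9 : Cert 9 := by
  intro x hx h0
  obtain ⟨y9, hy9, e8⟩ : ∃ y, 0 ≤ y ∧ x 8 = y := ⟨x 8, h0 8, rfl⟩
  obtain ⟨y8, hy8, e7⟩ : ∃ y, 0 ≤ y ∧ x 7 = y + (y9) :=
    ⟨x 7 - x 8, sub_nonneg.2 (hx (by decide)), by linarith⟩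
  obtain ⟨y7, hy7, e6⟩ : ∃ y, 0 ≤ y ∧ x 6 = y + (y8 + y9) :=
    ⟨x 6 - x 7, sub_nonneg.2 (hx (by decide)), by linarith⟩
  obtain ⟨y6, hy6, e5⟩ : ∃ y, 0 ≤ y ∧ x 5 = y + (y7 + y8 + y9) :=
    ⟨x 5 - x 6, sub_nonneg.2 (hx (by decide)), by linarith⟩
  obtain ⟨y5, hy5, e4⟩ : ∃ y, 0 ≤ y ∧ x 4 = y + (y6 + y7 + y8 + y9) :=
    ⟨x 4 - x 5, sub_nonneg.2 (hx (by decide)), by linarith⟩
  obtain ⟨y4, hy4, e3⟩ : ∃ y, 0 ≤ y ∧ x 3 = y + (y5 + y6 + y7 + y8 + y9) :=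
    ⟨x 3 - x 4, sub_nonneg.2 (hx (by decide)), by linarith⟩
  obtain ⟨y3, hy3, e2⟩ : ∃ y, 0 ≤ y ∧ x 2 = y + (y4 + y5 + y6 + y7 + y8 + y9) :=
    ⟨x 2 - x 3, sub_nonneg.2 (hx (by decide)), by linarith⟩
  obtain ⟨y2, hy2, e1⟩ : ∃ y, 0 ≤ y ∧ x 1 = y + (y3 + y4 + y5 + y6 + y7 + y8 + y9) :=
    ⟨x 1 - x 2, sub_nonneg.2 (hx (by decide)), by linarith⟩
  obtain ⟨y1, hy1, e0⟩ : ∃ y, 0 ≤ y ∧ x 0 = y + (y2 + y3 + y4 + y5 + y6 + y7 + y8 + y9) :=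
    ⟨x 0 - x 1, sub_nonneg.2 (hx (by decide)), by linarith⟩
  obtain ⟨p1, f1⟩ : ∃ p, p =
      y1*y9 + y2*y8 + y2*y9 + y3*y7 + y3*y8 + y3*y9 + y4*y6 + y4*y7 + y4*y8 + y4*y9 +
      (1/2)*y5*y5 + y5*y6 + y5*y7 + y5*y8 + y5*y9 + (1/2)*y6*y6 + y6*y7 + y6*y8 + y6*y9 +
      (1/2)*y7*y7 + y7*y8 + y7*y9 + (1/2)*y8*y8 + y8*y9 + (1/2)*y9*y9 := ⟨_, rfl⟩
  obtain ⟨p2, f2⟩ : ∃ p, p =
      y2*y8 + y2*y9 + y3*y7 + y3*y8 + y3*y9 + y4*y6 + y4*y7 + y4*y8 + y4*y9 + (1/2)*y5*y5 +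
      y5*y6 + y5*y7 + y5*y8 + y5*y9 + (1/2)*y6*y6 + y6*y7 + y6*y8 + y6*y9 + (1/2)*y7*y7 + y7*y8
      + y7*y9 + (1/2)*y8*y8 + y8*y9 + (1/2)*y9*y9 := ⟨_, rfl⟩
  obtain ⟨p3, f3⟩ : ∃ p, p =
      y3*y7 + y3*y8 + y3*y9 + y4*y6 + y4*y7 + y4*y8 + y4*y9 + (1/2)*y5*y5 + y5*y6 + y5*y7 +
      y5*y8 + y5*y9 + (1/2)*y6*y6 + y6*y7 + y6*y8 + y6*y9 + (1/2)*y7*y7 + y7*y8 + y7*y9 +
      (1/2)*y8*y8 + y8*y9 + (1/2)*y9*y9 := ⟨_, rfl⟩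
  obtain ⟨p4, f4⟩ : ∃ p, p =
      y4*y6 + y4*y7 + y4*y8 + y4*y9 + (1/2)*y5*y5 + y5*y6 + y5*y7 + y5*y8 + y5*y9 + (1/2)*y6*y6
      + y6*y7 + y6*y8 + y6*y9 + (1/2)*y7*y7 + y7*y8 + y7*y9 + (1/2)*y8*y8 + y8*y9 + (1/2)*y9*y9 := ⟨_, rfl⟩
  obtain ⟨p5, f5⟩ : ∃ p, p =
      (1/2)*y5*y5 + y5*y6 + y5*y7 + y5*y8 + y5*y9 + (1/2)*y6*y6 + y6*y7 + y6*y8 + y6*y9 +
      (1/2)*y7*y7 + y7*y8 + y7*y9 + (1/2)*y8*y8 + y8*y9 + (1/2)*y9*y9 := ⟨_, rfl⟩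
  obtain ⟨p6, f6⟩ : ∃ p, p =
      (-1/2)*y5*y5 + (1/2)*y6*y6 + y6*y7 + y6*y8 + y6*y9 + (1/2)*y7*y7 + y7*y8 + y7*y9 +
      (1/2)*y8*y8 + y8*y9 + (1/2)*y9*y9 := ⟨_, rfl⟩
  obtain ⟨p7, f7⟩ : ∃ p, p =
      (-1)*y4*y6 + (-1/2)*y5*y5 + (-1)*y5*y6 + (-1/2)*y6*y6 + (1/2)*y7*y7 + y7*y8 + y7*y9 +
      (1/2)*y8*y8 + y8*y9 + (1/2)*y9*y9 := ⟨_, rfl⟩
  obtain ⟨p8, f8⟩ : ∃ p, p =
      (-1)*y3*y7 + (-1)*y4*y6 + (-1)*y4*y7 + (-1/2)*y5*y5 + (-1)*y5*y6 + (-1)*y5*y7 +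
      (-1/2)*y6*y6 + (-1)*y6*y7 + (-1/2)*y7*y7 + (1/2)*y8*y8 + y8*y9 + (1/2)*y9*y9 := ⟨_, rfl⟩
  obtain ⟨p9, f9⟩ : ∃ p, p =
      (-1)*y2*y8 + (-1)*y3*y7 + (-1)*y3*y8 + (-1)*y4*y6 + (-1)*y4*y7 + (-1)*y4*y8 +
      (-1/2)*y5*y5 + (-1)*y5*y6 + (-1)*y5*y7 + (-1)*y5*y8 + (-1/2)*y6*y6 + (-1)*y6*y7 +
      (-1)*y6*y8 + (-1/2)*y7*y7 + (-1)*y7*y8 + (-1/2)*y8*y8 + (1/2)*y9*y9 := ⟨_, rfl⟩
  have q1_2 : p1 + p2 ≤ x 0 * x 1 := by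
    have t : 0 ≤
      y1*y2 + y1*y3 + y1*y4 + y1*y5 + y1*y6 + y1*y7 + y1*y8 + y2*y2 + 2*y2*y3 + 2*y2*y4 +
      2*y2*y5 + 2*y2*y6 + 2*y2*y7 + y3*y3 + 2*y3*y4 + 2*y3*y5 + 2*y3*y6 + y4*y4 + 2*y4*y5 := by positivity
    rw [e0, e1, f1, f2]
    exact le_of_sub_nonneg (le_of_le_of_eq t (by ring))
  have q1_3 : p1 + p3 ≤ x 0 * x 2 := by
    have t : 0 ≤
      y1*y3 + y1*y4 + y1*y5 + y1*y6 + y1*y7 + y1*y8 + y2*y3 + y2*y4 + y2*y5 + y2*y6 + y2*y7 +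
      y3*y3 + 2*y3*y4 + 2*y3*y5 + 2*y3*y6 + y4*y4 + 2*y4*y5 := by positivity
    rw [e0, e2, f1, f3]
    exact le_of_sub_nonneg (le_of_le_of_eq t (by ring))
  have q1_4 : p1 + p4 ≤ x 0 * x 3 := by
    have t : 0 ≤
      y1*y4 + y1*y5 + y1*y6 + y1*y7 + y1*y8 + y2*y4 + y2*y5 + y2*y6 + y2*y7 + y3*y4 + y3*y5 +
      y3*y6 + y4*y4 + 2*y4*y5 := by positivity
    rw [e0, e3, f1, f4]
    exact le_of_sub_nonneg (le_of_le_of_eq t (by ring))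
  have q1_5 : p1 + p5 ≤ x 0 * x 4 := by
    have t : 0 ≤
      y1*y5 + y1*y6 + y1*y7 + y1*y8 + y2*y5 + y2*y6 + y2*y7 + y3*y5 + y3*y6 + y4*y5 := by positivity
    rw [e0, e4, f1, f5]
    exact le_of_sub_nonneg (le_of_le_of_eq t (by ring))
  have q1_6 : p1 + p6 ≤ x 0 * x 5 := by
    have t : 0 ≤
      y1*y6 + y1*y7 + y1*y8 + y2*y6 + y2*y7 + y3*y6 := by positivity
    rw [e0, e5, f1, f6]
    exact le_of_sub_nonneg (le_of_le_of_eq t (by ring))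
  have q1_7 : p1 + p7 ≤ x 0 * x 6 := by
    have t : 0 ≤
      y1*y7 + y1*y8 + y2*y7 := by positivity
    rw [e0, e6, f1, f7]
    exact le_of_sub_nonneg (le_of_le_of_eq t (by ring))
  have q1_8 : p1 + p8 ≤ x 0 * x 7 := by
    have t : 0 ≤
      y1*y8 := by positivity
    rw [e0, e7, f1, f8]
    exact le_of_sub_nonneg (le_of_le_of_eq t (by ring))
  have q1_9 : p1 + p9 ≤ x 0 * x 8 := by
    rw [e0, e8, f1, f9]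
    apply le_of_eq
    ring
  have q2_3 : p2 + p3 ≤ x 1 * x 2 := by
    have t : 0 ≤
      y2*y3 + y2*y4 + y2*y5 + y2*y6 + y2*y7 + y3*y3 + 2*y3*y4 + 2*y3*y5 + 2*y3*y6 + y4*y4 +
      2*y4*y5 := by positivity
    rw [e1, e2, f2, f3]
    exact le_of_sub_nonneg (le_of_le_of_eq t (by ring))
  have q2_4 : p2 + p4 ≤ x 1 * x 3 := by
    have t : 0 ≤
      y2*y4 + y2*y5 + y2*y6 + y2*y7 + y3*y4 + y3*y5 + y3*y6 + y4*y4 + 2*y4*y5 := by positivity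
    rw [e1, e3, f2, f4]
    exact le_of_sub_nonneg (le_of_le_of_eq t (by ring))
  have q2_5 : p2 + p5 ≤ x 1 * x 4 := by
    have t : 0 ≤
      y2*y5 + y2*y6 + y2*y7 + y3*y5 + y3*y6 + y4*y5 := by positivity
    rw [e1, e4, f2, f5]
    exact le_of_sub_nonneg (le_of_le_of_eq t (by ring))
  have q2_6 : p2 + p6 ≤ x 1 * x 5 := by
    have t : 0 ≤
      y2*y6 + y2*y7 + y3*y6 := by positivity
    rw [e1, e5, f2, f6]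
    exact le_of_sub_nonneg (le_of_le_of_eq t (by ring))
  have q2_7 : p2 + p7 ≤ x 1 * x 6 := by
    have t : 0 ≤
      y2*y7 := by positivity
    rw [e1, e6, f2, f7]
    exact le_of_sub_nonneg (le_of_le_of_eq t (by ring))
  have q2_8 : p2 + p8 ≤ x 1 * x 7 := by
    rw [e1, e7, f2, f8]
    apply le_of_eq
    ring
  have q2_9 : p2 + p9 ≤ x 1 * x 8 := by
    rw [e1, e8, f2, f9]
    apply le_of_eq
    ring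
  have q3_4 : p3 + p4 ≤ x 2 * x 3 := by
    have t : 0 ≤
      y3*y4 + y3*y5 + y3*y6 + y4*y4 + 2*y4*y5 := by positivity
    rw [e2, e3, f3, f4]
    exact le_of_sub_nonneg (le_of_le_of_eq t (by ring))
  have q3_5 : p3 + p5 ≤ x 2 * x 4 := by
    have t : 0 ≤
      y3*y5 + y3*y6 + y4*y5 := by positivity
    rw [e2, e4, f3, f5]
    exact le_of_sub_nonneg (le_of_le_of_eq t (by ring))
  have q3_6 : p3 + p6 ≤ x 2 * x 5 := by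
    have t : 0 ≤
      y3*y6 := by positivity
    rw [e2, e5, f3, f6]
    exact le_of_sub_nonneg (le_of_le_of_eq t (by ring))
  have q3_7 : p3 + p7 ≤ x 2 * x 6 := by
    rw [e2, e6, f3, f7]
    apply le_of_eq
    ring
  have q3_8 : p3 + p8 ≤ x 2 * x 7 := by
    rw [e2, e7, f3, f8]
    apply le_of_eq
    ring
  have q3_9 : p3 + p9 ≤ x 2 * x 8 := by
    have t : 0 ≤
      y2*y8 := by positivity
    rw [e2, e8, f3, f9]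
    exact le_of_sub_nonneg (le_of_le_of_eq t (by ring))
  have q4_5 : p4 + p5 ≤ x 3 * x 4 := by
    have t : 0 ≤
      y4*y5 := by positivity
    rw [e3, e4, f4, f5]
    exact le_of_sub_nonneg (le_of_le_of_eq t (by ring))
  have q4_6 : p4 + p6 ≤ x 3 * x 5 := by
    rw [e3, e5, f4, f6]
    apply le_of_eq
    ring
  have q4_7 : p4 + p7 ≤ x 3 * x 6 := by
    rw [e3, e6, f4, f7]
    apply le_of_eq
    ring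
  have q4_8 : p4 + p8 ≤ x 3 * x 7 := by
    have t : 0 ≤
      y3*y7 := by positivity
    rw [e3, e7, f4, f8]
    exact le_of_sub_nonneg (le_of_le_of_eq t (by ring))
  have q4_9 : p4 + p9 ≤ x 3 * x 8 := by
    have t : 0 ≤
      y2*y8 + y3*y7 + y3*y8 := by positivity
    rw [e3, e8, f4, f9]
    exact le_of_sub_nonneg (le_of_le_of_eq t (by ring))
  have q5_6 : p5 + p6 ≤ x 4 * x 5 := by
    rw [e4, e5, f5, f6]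
    apply le_of_eq
    ring
  have q5_7 : p5 + p7 ≤ x 4 * x 6 := by
    have t : 0 ≤
      y4*y6 := by positivity
    rw [e4, e6, f5, f7]
    exact le_of_sub_nonneg (le_of_le_of_eq t (by ring))
  have q5_8 : p5 + p8 ≤ x 4 * x 7 := by
    have t : 0 ≤
      y3*y7 + y4*y6 + y4*y7 := by positivity
    rw [e4, e7, f5, f8]
    exact le_of_sub_nonneg (le_of_le_of_eq t (by ring))
  have q5_9 : p5 + p9 ≤ x 4 * x 8 := by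
    have t : 0 ≤
      y2*y8 + y3*y7 + y3*y8 + y4*y6 + y4*y7 + y4*y8 := by positivity
    rw [e4, e8, f5, f9]
    exact le_of_sub_nonneg (le_of_le_of_eq t (by ring))
  have q6_7 : p6 + p7 ≤ x 5 * x 6 := by
    have t : 0 ≤
      y4*y6 + y5*y5 + y5*y6 := by positivity
    rw [e5, e6, f6, f7]
    exact le_of_sub_nonneg (le_of_le_of_eq t (by ring))
  have q6_8 : p6 + p8 ≤ x 5 * x 7 := by
    have t : 0 ≤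
      y3*y7 + y4*y6 + y4*y7 + y5*y5 + y5*y6 + y5*y7 := by positivity
    rw [e5, e7, f6, f8]
    exact le_of_sub_nonneg (le_of_le_of_eq t (by ring))
  have q6_9 : p6 + p9 ≤ x 5 * x 8 := by
    have t : 0 ≤
      y2*y8 + y3*y7 + y3*y8 + y4*y6 + y4*y7 + y4*y8 + y5*y5 + y5*y6 + y5*y7 + y5*y8 := by positivity
    rw [e5, e8, f6, f9]
    exact le_of_sub_nonneg (le_of_le_of_eq t (by ring))
  have q7_8 : p7 + p8 ≤ x 6 * x 7 := by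
    have t : 0 ≤
      y3*y7 + 2*y4*y6 + y4*y7 + y5*y5 + 2*y5*y6 + y5*y7 + y6*y6 + y6*y7 := by positivity
    rw [e6, e7, f7, f8]
    exact le_of_sub_nonneg (le_of_le_of_eq t (by ring))
  have q7_9 : p7 + p9 ≤ x 6 * x 8 := by
    have t : 0 ≤
      y2*y8 + y3*y7 + y3*y8 + 2*y4*y6 + y4*y7 + y4*y8 + y5*y5 + 2*y5*y6 + y5*y7 + y5*y8 + y6*y6
      + y6*y7 + y6*y8 := by positivity
    rw [e6, e8, f7, f9]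
    exact le_of_sub_nonneg (le_of_le_of_eq t (by ring))
  have q8_9 : p8 + p9 ≤ x 7 * x 8 := by
    have t : 0 ≤
      y2*y8 + 2*y3*y7 + y3*y8 + 2*y4*y6 + 2*y4*y7 + y4*y8 + y5*y5 + 2*y5*y6 + 2*y5*y7 + y5*y8 +
      y6*y6 + 2*y6*y7 + y6*y8 + y7*y7 + y7*y8 := by positivity
    rw [e7, e8, f8, f9]
    exact le_of_sub_nonneg (le_of_le_of_eq t (by ring))
  have hp : ∀ a b : Fin 9, a < b → (![p1, p2, p3, p4, p5, p6, p7, p8, p9] : Fin 9 → ℝ) a +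
      (![p1, p2, p3, p4, p5, p6, p7, p8, p9] : Fin 9 → ℝ) b ≤ x a * x b := by
    intro a b hab
    fin_cases a
    · fin_cases b
      · exact absurd hab (by decide)
      · exact q1_2
      · exact q1_3
      · exact q1_4
      · exact q1_5
      · exact q1_6
      · exact q1_7
      · exact q1_8
      · exact q1_9
    · fin_cases b
      · exact absurd hab (by decide)
      · exact absurd hab (by decide)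
      · exact q2_3
      · exact q2_4
      · exact q2_5
      · exact q2_6
      · exact q2_7
      · exact q2_8
      · exact q2_9
    · fin_cases b
      · exact absurd hab (by decide)
      · exact absurd hab (by decide)
      · exact absurd hab (by decide)
      · exact q3_4
      · exact q3_5
      · exact q3_6
      · exact q3_7
      · exact q3_8
      · exact q3_9
    · fin_cases b
      · exact absurd hab (by decide)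
      · exact absurd hab (by decide)
      · exact absurd hab (by decide)
      · exact absurd hab (by decide)
      · exact q4_5
      · exact q4_6
      · exact q4_7
      · exact q4_8
      · exact q4_9
    · fin_cases b
      · exact absurd hab (by decide)
      · exact absurd hab (by decide)
      · exact absurd hab (by decide)
      · exact absurd hab (by decide)
      · exact absurd hab (by decide)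
      · exact q5_6
      · exact q5_7
      · exact q5_8
      · exact q5_9
    · fin_cases b
      · exact absurd hab (by decide)
      · exact absurd hab (by decide)
      · exact absurd hab (by decide)
      · exact absurd hab (by decide)
      · exact absurd hab (by decide)
      · exact absurd hab (by decide)
      · exact q6_7
      · exact q6_8
      · exact q6_9
    · fin_cases b
      · exact absurd hab (by decide)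
      · exact absurd hab (by decide)
      · exact absurd hab (by decide)
      · exact absurd hab (by decide)
      · exact absurd hab (by decide)
      · exact absurd hab (by decide)
      · exact absurd hab (by decide)
      · exact q7_8
      · exact q7_9
    · fin_cases b
      · exact absurd hab (by decide)
      · exact absurd hab (by decide)
      · exact absurd hab (by decide)
      · exact absurd hab (by decide)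
      · exact absurd hab (by decide)
      · exact absurd hab (by decide)
      · exact absurd hab (by decide)
      · exact absurd hab (by decide)
      · exact q8_9
    · fin_cases b
      · exact absurd hab (by decide)
      · exact absurd hab (by decide)
      · exact absurd hab (by decide)
      · exact absurd hab (by decide)
      · exact absurd hab (by decide)
      · exact absurd hab (by decide)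
      · exact absurd hab (by decide)
      · exact absurd hab (by decide)
      · exact absurd hab (by decide)
  clear q1_2 q1_3 q1_4 q1_5 q1_6 q1_7 q1_8 q1_9 q2_3 q2_4 q2_5 q2_6 q2_7 q2_8 q2_9 q3_4 q3_5 q3_6 q3_7 q3_8 q3_9 q4_5 q4_6 q4_7 q4_8 q4_9 q5_6 q5_7 q5_8 q5_9 q6_7 q6_8 q6_9 q7_8 q7_9 q8_9
  have hv : val 9 x ![p1, p2, p3, p4, p5, p6, p7, p8, p9] =
      (72/5)*y1*y1*y1 + 42*y1*y1*y2 + (204/5)*y1*y1*y3 + (198/5)*y1*y1*y4 + (192/5)*y1*y1*y5 +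
      (186/5)*y1*y1*y6 + 36*y1*y1*y7 + (174/5)*y1*y1*y8 + (168/5)*y1*y1*y9 + (198/5)*y1*y2*y2 +
      72*y1*y2*y3 + (324/5)*y1*y2*y4 + (288/5)*y1*y2*y5 + (252/5)*y1*y2*y6 + (216/5)*y1*y2*y7 +
      36*y1*y2*y8 + (244/5)*y1*y2*y9 + (156/5)*y1*y3*y3 + (252/5)*y1*y3*y4 + (192/5)*y1*y3*y5 +
      (132/5)*y1*y3*y6 + (72/5)*y1*y3*y7 + (62/5)*y1*y3*y8 + (152/5)*y1*y3*y9 + 18*y1*y4*y4 +
      (96/5)*y1*y4*y5 + (12/5)*y1*y4*y6 + (-22/5)*y1*y4*y7 + (-56/5)*y1*y4*y8 + 12*y1*y4*y9 +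
      (-58/5)*y1*y5*y6 + (-116/5)*y1*y5*y7 + (-174/5)*y1*y5*y8 + (-32/5)*y1*y5*y9 +
      (-64/5)*y1*y6*y6 + (-42)*y1*y6*y7 + (-292/5)*y1*y6*y8 + (-124/5)*y1*y6*y9 +
      (-152/5)*y1*y7*y7 + (-82)*y1*y7*y8 + (-216/5)*y1*y7*y9 + (-264/5)*y1*y8*y8 +
      (-308/5)*y1*y8*y9 + (132/5)*y2*y2*y2 + 72*y2*y2*y3 + (324/5)*y2*y2*y4 + (288/5)*y2*y2*y5
      + (252/5)*y2*y2*y6 + (216/5)*y2*y2*y7 + 36*y2*y2*y8 + (244/5)*y2*y2*y9 + (312/5)*y2*y3*y3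
      + (504/5)*y2*y3*y4 + (384/5)*y2*y3*y5 + (264/5)*y2*y3*y6 + (144/5)*y2*y3*y7 +
      (174/5)*y2*y3*y8 + (304/5)*y2*y3*y9 + 36*y2*y4*y4 + (192/5)*y2*y4*y5 + (24/5)*y2*y4*y6 +
      (-44/5)*y2*y4*y7 + (-12/5)*y2*y4*y8 + 24*y2*y4*y9 + (-116/5)*y2*y5*y6 + (-232/5)*y2*y5*y7
      + (-198/5)*y2*y5*y8 + (-64/5)*y2*y5*y9 + (-128/5)*y2*y6*y6 + (-84)*y2*y6*y7 +
      (-384/5)*y2*y6*y8 + (-248/5)*y2*y6*y9 + (-304/5)*y2*y7*y7 + (-114)*y2*y7*y8 +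
      (-432/5)*y2*y7*y9 + (-228/5)*y2*y8*y8 + (-216/5)*y2*y8*y9 + (156/5)*y3*y3*y3 +
      (378/5)*y3*y3*y4 + (288/5)*y3*y3*y5 + (198/5)*y3*y3*y6 + (108/5)*y3*y3*y7 +
      (168/5)*y3*y3*y8 + (228/5)*y3*y3*y9 + 54*y3*y4*y4 + (288/5)*y3*y4*y5 + (36/5)*y3*y4*y6 +
      (-16/5)*y3*y4*y7 + (82/5)*y3*y4*y8 + 36*y3*y4*y9 + (-174/5)*y3*y5*y6 + (-248/5)*y3*y5*y7
      + (-172/5)*y3*y5*y8 + (-96/5)*y3*y5*y9 + (-192/5)*y3*y6*y6 + (-96)*y3*y6*y7 +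
      (-426/5)*y3*y6*y8 + (-372/5)*y3*y6*y9 + (-256/5)*y3*y7*y7 + (-76)*y3*y7*y8 +
      (-248/5)*y3*y7*y9 + (-142/5)*y3*y8*y8 + (-124/5)*y3*y8*y9 + 24*y4*y4*y4 +
      (192/5)*y4*y4*y5 + (24/5)*y4*y4*y6 + (56/5)*y4*y4*y7 + (88/5)*y4*y4*y8 + 24*y4*y4*y9 +
      (-182/5)*y4*y5*y6 + (-164/5)*y4*y5*y7 + (-146/5)*y4*y5*y8 + (-128/5)*y4*y5*y9 +
      (-156/5)*y4*y6*y6 + (-48)*y4*y6*y7 + (-168/5)*y4*y6*y8 + (-96/5)*y4*y6*y9 +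
      (-108/5)*y4*y7*y7 + (-28)*y4*y7*y8 + (-64/5)*y4*y7*y9 + (-56/5)*y4*y8*y8 +
      (-32/5)*y4*y8*y9 + 6*y5*y5*y6 + 12*y5*y5*y7 + 18*y5*y5*y8 + 24*y5*y5*y9 + 6*y5*y6*y6 +
      20*y5*y6*y7 + 28*y5*y6*y8 + 36*y5*y6*y9 + 8*y5*y7*y7 + 20*y5*y7*y8 + 24*y5*y7*y9 +
      6*y5*y8*y8 + 12*y5*y8*y9 + (72/5)*y6*y6*y6 + 44*y6*y6*y7 + (224/5)*y6*y6*y8 +
      (228/5)*y6*y6*y9 + (188/5)*y6*y7*y7 + 68*y6*y7*y8 + (304/5)*y6*y7*y9 + (116/5)*y6*y8*y8 +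
      (152/5)*y6*y8*y9 + (112/5)*y7*y7*y7 + 58*y7*y7*y8 + (244/5)*y7*y7*y9 + (202/5)*y7*y8*y8 +
      (244/5)*y7*y8*y9 + (96/5)*y8*y8*y8 + (168/5)*y8*y8*y9 := by
    unfold val
    simp only [sum_univ_nine, Matrix.cons_val, Matrix.cons_val_zero, Matrix.cons_val_one]
    rw [e0, e1, e2, e3, e4, e5, e6, e7, e8, f1, f2, f3, f4, f5, f6, f7, f8, f9]
    push_cast
    ring
  clear f1 f2 f3 f4 f5 f6 f7 f8 f9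
  have hc := cert9_core y1 y2 y3 y4 y5 y6 y7 y8 y9 hy1 hy2 hy3 hy4 hy5 hy6 hy7 hy8 hy9
  rw [← hv] at hc
  clear hv
  have hd : 0 ≤ y1*y1*y1 + y2*y2*y2 + y3*y3*y3 + y4*y4*y4 + y6*y6*y6 + y7*y7*y7 + y8*y8*y8 + y5*y5*y9 := by positivity
  refine ⟨![p1, p2, p3, p4, p5, p6, p7, p8, p9], pairs_of_lt hp, le_trans (mul_nonneg (by norm_num) hd) hc, ?_⟩
  clear hp
  have gl : ∀ a, x 8 ≤ x a := fun a => hx (Fin.le_last a)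
  have gu : ∀ a, x a ≤ x 0 := fun a => hx (Fin.zero_le a)
  · intro hz
    rw [hz] at hc
    have t1_1_1 : 0 ≤ y1*y1*y1 := by positivity
    have t2_2_2 : 0 ≤ y2*y2*y2 := by positivity
    have t3_3_3 : 0 ≤ y3*y3*y3 := by positivity
    have t4_4_4 : 0 ≤ y4*y4*y4 := by positivity
    have t6_6_6 : 0 ≤ y6*y6*y6 := by positivity
    have t7_7_7 : 0 ≤ y7*y7*y7 := by positivity
    have t8_8_8 : 0 ≤ y8*y8*y8 := by positivity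
    have t5_5_9 : 0 ≤ y5*y5*y9 := by positivity
    have z1 : y1 = 0 := cube_zero hy1 (by linarith)
    have z2 : y2 = 0 := cube_zero hy2 (by linarith)
    have z3 : y3 = 0 := cube_zero hy3 (by linarith)
    have z4 : y4 = 0 := cube_zero hy4 (by linarith)
    have z6 : y6 = 0 := cube_zero hy6 (by linarith)
    have z7 : y7 = 0 := cube_zero hy7 (by linarith)
    have z8 : y8 = 0 := cube_zero hy8 (by linarith)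
    rcases sq_zero_or hy5 hy9 (by linarith) with z5 | z9
    · left
      have g : ∀ a, x a = y9 := fun a => by
        have g1 := gl a
        have g2 := gu a
        linarith
      intro a b
      rw [g a, g b]
    · right
      have hs : ∑ b, x b = 5 * y5 := by
        rw [sum_univ_nine, e0, e1, e2, e3, e4, e5, e6, e7, e8]
        linarith
      intro a
      rcases le_or_gt a 4 with g | g
      · right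
        have g1 : x 4 ≤ x a := hx g
        have g2 := gu a
        have g3 : x a = y5 := by linarith
        rw [hs, g3]
        push_cast
        ring
      · left
        have g1 : x a ≤ x 5 := hx (Nat.succ_le_of_lt g)
        have g2 := h0 a
        linarith

end Pool.Agent.K1H63.EB
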