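import Pool.Agent.K1H63.EB.Cert4
import Pool.Agent.K1H63.EB.Cert5
import Pool.Agent.K1H63.EB.Cert6
import Pool.Agent.K1H63.EB.Cert7
import Pool.Agent.K1H63.EB.Cert8
import Pool.Agent.K1H63.EB.Cert9
import Pool.Agent.K1H63.EB.Cert10

/-!
# The finite inequality in the dimensions five to eleven
-/

set_option autoImplicit false

namespace Pool.Agent.K1H63.EB

theorem cert_all {m : ℕ} (h4 : 4 ≤ m) (h10 : m ≤ 10) : Cert m := by
  interval_cases m
  · exact cert4
  · exact cert5
  · exact cert6
  · exact cert7
  · exact cert8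
  · exact cert9
  · exact cert10

end Pool.Agent.K1H63.EB
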