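import Pool.Agent.K1H63.EB.Defs

/-!
# Existence of a quadrature formula on the sphere

The product of `n` copies of a probability measure on `{-3, …, 3}` whose moments up to order six are
those of the Gaussian measure, projected to the sphere.
-/

set_option autoImplicit false

open scoped BigOperators

namespace Pool.Agent.K1H63.EB

namespace Ex

/-- the nodes -/
def nd (v : Fin 7) : ℝ := (v.val : ℝ) - 3

/-- the weights -/
noncomputable def wt : Fin 7 → ℝ := ![1 / 180, 1 / 20, 1 / 4, 7 / 18, 1 / 4, 1 / 20, 1 / 180]

theorem wt_nonneg (v : Fin 7) : 0 ≤ wt v := by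
  fin_cases v <;> simp [wt] <;> norm_num

/-- the moments -/
noncomputable def mom (c : ℕ) : ℝ := ∑ v, wt v * nd v ^ c

theorem mom_step (c : ℕ) (hc : c ≤ 5) : mom (c + 1) = (c : ℝ) * mom (c - 1) := by
  interval_cases c <;> simp [mom, Fin.sum_univ_succ, wt, nd] <;> norm_num

theorem mom_zero : mom 0 = 1 := by
  simp [mom, Fin.sum_univ_succ, wt]
  norm_num

variable {n : ℕ}

/-- the moment of a word -/
noncomputable def M (L : List (Fin n)) : ℝ := ∏ j, mom (L.count j)

theorem M_nil : M ([] : List (Fin n)) = 1 := by
  simp [M, mom_zero]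

theorem cnt (i : Fin n) (L : List (Fin n)) :
    ∑ r : Fin L.length, (if L.get r = i then (1 : ℝ) else 0) = (L.count i : ℝ) := by
  induction L with
  | nil => simp
  | cons a t ih =>
    have h : ∑ r : Fin (a :: t).length, (if (a :: t).get r = i then (1 : ℝ) else 0) =
        (if a = i then (1 : ℝ) else 0) + ∑ r : Fin t.length, (if t.get r = i then (1 : ℝ) else 0) :=
      Fin.sum_univ_succ _
    rw [h, ih, List.count_cons]
    push_cast
    by_cases hi : a = i
    · simp [hi]
      ring
    · simp [hi]

theorem M_cons (i : Fin n) (L : List (Fin n)) (hL : L.length ≤ 5) :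
    M (i :: L) = ∑ r : Fin L.length, if L.get r = i then M (L.eraseIdx r) else 0 := by
  classical
  set N : ℝ := ∏ j ∈ Finset.univ.erase i, mom (L.count j) with hN
  have h1 : M (i :: L) = mom (L.count i + 1) * N := by
    unfold M
    rw [← Finset.mul_prod_erase Finset.univ _ (Finset.mem_univ i)]
    congr 1
    · simp
    · refine Finset.prod_congr rfl fun j hj => ?_
      have hj' : i ≠ j := fun h => (Finset.mem_erase.1 hj).1 h.symm
      rw [List.count_cons_of_ne hj']
  have h2 : ∀ r : Fin L.length, L.get r = i →
      M (L.eraseIdx r) = mom (L.count i - 1) * N := by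
    intro r hr
    have hp : ∀ j, L.count j = (L.eraseIdx r).count j + if L.get r = j then 1 else 0 := by
      intro j
      have h3 := (List.getElem_cons_eraseIdx_perm r.2).count_eq j
      rw [← h3, List.count_cons]
      simp
    unfold M
    rw [← Finset.mul_prod_erase Finset.univ _ (Finset.mem_univ i)]
    congr 1
    · have := hp i
      rw [if_pos hr] at this
      rw [this]
      simp
    · refine Finset.prod_congr rfl fun j hj => ?_
      have hj' : ¬ L.get r = j := fun h => (Finset.mem_erase.1 hj).1 (h.symm.trans hr)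
      have := hp j
      rw [if_neg hj', add_zero] at this
      rw [this]
  have h3 : (∑ r : Fin L.length, if L.get r = i then M (L.eraseIdx r) else 0) =
      (L.count i : ℝ) * (mom (L.count i - 1) * N) := by
    rw [← cnt i L, Finset.sum_mul]
    refine Finset.sum_congr rfl fun r _ => ?_
    by_cases h : L.get r = i
    · rw [if_pos h, if_pos h, one_mul, h2 r h]
    · rw [if_neg h, if_neg h, zero_mul]
  rw [h1, h3, mom_step _ (le_trans List.count_le_length hL)]
  ring

theorem M2 (a b : Fin n) : M [a, b] = dl a b := by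
  rw [M_cons a [b] (by simp)]
  simp [M_nil, dl, eq_comm]

theorem M4 (a b c d : Fin n) : M [a, b, c, d] =
    dl a b * dl c d + dl a c * dl b d + dl a d * dl b c := by
  rw [M_cons a [b, c, d] (by simp)]
  have h : ∀ (g : Fin 3 → ℝ), ∑ r : Fin 3, g r = g 0 + g 1 + g 2 := Fin.sum_univ_three
  have e : (∑ r : Fin [b, c, d].length,
      if [b, c, d].get r = a then M ([b, c, d].eraseIdx r) else 0) =
      (if b = a then M [c, d] else 0) + (if c = a then M [b, d] else 0)
        + (if d = a then M [b, c] else 0) :=
    h _
  rw [e, M2, M2, M2]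
  have s : ∀ (x : Fin n) (Y : ℝ), (if x = a then Y else 0) = dl a x * Y := by
    intro x Y
    unfold dl
    by_cases hx : x = a
    · rw [if_pos hx, if_pos hx.symm, one_mul]
    · rw [if_neg hx, if_neg (Ne.symm hx), zero_mul]
  rw [s, s, s]

theorem M6 (a b c d e f : Fin n) : M [a, b, c, d, e, f] =
        dl a b * dl c d * dl e f + dl a b * dl c e * dl d f + dl a b * dl c f * dl d e
      + dl a c * dl b d * dl e f + dl a c * dl b e * dl d f + dl a c * dl b f * dl d e
      + dl a d * dl b c * dl e f + dl a d * dl b e * dl c f + dl a d * dl b f * dl c e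
      + dl a e * dl b c * dl d f + dl a e * dl b d * dl c f + dl a e * dl b f * dl c d
      + dl a f * dl b c * dl d e + dl a f * dl b d * dl c e + dl a f * dl b e * dl c d := by
  rw [M_cons a [b, c, d, e, f] (by simp)]
  have h : ∀ (g : Fin 5 → ℝ), ∑ r : Fin 5, g r = g 0 + g 1 + g 2 + g 3 + g 4 := Fin.sum_univ_five
  have e1 : (∑ r : Fin [b, c, d, e, f].length,
      if [b, c, d, e, f].get r = a then M ([b, c, d, e, f].eraseIdx r) else 0) =
      (if b = a then M [c, d, e, f] else 0) + (if c = a then M [b, d, e, f] else 0)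
        + (if d = a then M [b, c, e, f] else 0) + (if e = a then M [b, c, d, f] else 0)
        + (if f = a then M [b, c, d, e] else 0) :=
    h _
  rw [e1, M4, M4, M4, M4, M4]
  have s : ∀ (x : Fin n) (Y : ℝ), (if x = a then Y else 0) = dl a x * Y := by
    intro x Y
    unfold dl
    by_cases hx : x = a
    · rw [if_pos hx, if_pos hx.symm, one_mul]
    · rw [if_neg hx, if_neg (Ne.symm hx), zero_mul]
  rw [s, s, s, s, s]
  ring

theorem prod_count (x : Fin n → ℝ) (L : List (Fin n)) :
    (L.map x).prod = ∏ j, x j ^ L.count j := by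
  classical
  induction L with
  | nil => simp
  | cons a t ih =>
    rw [List.map_cons, List.prod_cons, ih]
    have h : ∀ j, x j ^ (a :: t).count j = x j ^ t.count j * (if a = j then x j else 1) := by
      intro j
      by_cases hj : a = j
      · rw [if_pos hj, hj, List.count_cons_self, pow_succ]
      · rw [if_neg hj, List.count_cons_of_ne hj, mul_one]
    rw [Finset.prod_congr rfl fun j _ => h j, Finset.prod_mul_distrib, Finset.prod_ite_eq,
      if_pos (Finset.mem_univ a), mul_comm]

/-- the weight of a point -/
noncomputable def W (f : Fin n → Fin 7) : ℝ := ∏ j, wt (f j)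

theorem W_nonneg (f : Fin n → Fin 7) : 0 ≤ W f := Finset.prod_nonneg fun _ _ => wt_nonneg _

/-- the point -/
def pt (f : Fin n → Fin 7) (a : Fin n) : ℝ := nd (f a)

theorem sum_word (L : List (Fin n)) :
    ∑ f : Fin n → Fin 7, W f * (L.map (pt f)).prod = M L := by
  classical
  have h : ∀ f : Fin n → Fin 7, W f * (L.map (pt f)).prod =
      ∏ j, (wt (f j) * nd (f j) ^ L.count j) := by
    intro f
    rw [prod_count, W, ← Finset.prod_mul_distrib]
    rfl
  rw [Finset.sum_congr rfl fun f _ => h f]
  unfold M mom
  rw [Finset.prod_univ_sum, Fintype.piFinset_univ]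

theorem six (a b c d e f : Fin n) :
    ∑ g : Fin n → Fin 7, W g * (pt g a * pt g b * (pt g c * pt g d) * (pt g e * pt g f)) =
        dl a b * dl c d * dl e f + dl a b * dl c e * dl d f + dl a b * dl c f * dl d e
      + dl a c * dl b d * dl e f + dl a c * dl b e * dl d f + dl a c * dl b f * dl d e
      + dl a d * dl b c * dl e f + dl a d * dl b e * dl c f + dl a d * dl b f * dl c e
      + dl a e * dl b c * dl d f + dl a e * dl b d * dl c f + dl a e * dl b f * dl c d
      + dl a f * dl b c * dl d e + dl a f * dl b d * dl c e + dl a f * dl b e * dl c d := by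
  rw [← M6, ← sum_word]
  refine Finset.sum_congr rfl fun g _ => ?_
  simp only [List.map_cons, List.map_nil, List.prod_cons, List.prod_nil]
  ring

end Ex

open Ex in
/-- There is a quadrature formula on the sphere. -/
theorem exists_design (n : ℕ) [NeZero n] : ∃ (ι : Type) (_ : Fintype ι), Nonempty (Design n ι) := by
  classical
  let nn : (Fin n → Fin 7) → ℝ := fun g => ∑ a, pt g a ^ 2
  let e0 : Fin n → ℝ := fun a => if a = 0 then 1 else 0
  refine ⟨Fin n → Fin 7, inferInstance, ⟨?_⟩⟩
  have hk : 0 ≤ k6 n := by
    unfold k6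
    positivity
  refine
    { w := fun g => k6 n * (W g * nn g ^ 3)
      X := fun g a => if nn g = 0 then e0 a else pt g a / Real.sqrt (nn g)
      w_nonneg := fun g => mul_nonneg hk (mul_nonneg (W_nonneg g)
        (pow_nonneg (Finset.sum_nonneg fun a _ => sq_nonneg _) 3))
      unit := ?_
      six := ?_ }
  · intro g
    by_cases h : nn g = 0
    · simp only [if_pos h, e0]
      simp
    · simp only [if_neg h, div_pow]
      rw [← Finset.sum_div]
      have h0 : 0 ≤ nn g := Finset.sum_nonneg fun a _ => sq_nonneg _
      rw [Real.sq_sqrt h0]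
      exact div_self h
  · intro a b c d e f
    rw [← Ex.six a b c d e f, Finset.mul_sum]
    refine Finset.sum_congr rfl fun g _ => ?_
    by_cases h : nn g = 0
    · have hz : ∀ a, pt g a = 0 := by
        intro a
        have h1 : ∀ a ∈ Finset.univ, 0 ≤ pt g a ^ 2 := fun a _ => sq_nonneg _
        have h2 := (Finset.sum_eq_zero_iff_of_nonneg h1).1 h a (Finset.mem_univ a)
        exact pow_eq_zero_iff two_ne_zero |>.1 h2
      rw [h]
      simp [hz]
    · simp only [if_neg h]
      have h0 : 0 ≤ nn g := Finset.sum_nonneg fun a _ => sq_nonneg _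
      have h1 : 0 < Real.sqrt (nn g) := Real.sqrt_pos.2 (lt_of_le_of_ne h0 (Ne.symm h))
      have h2 : nn g = Real.sqrt (nn g) ^ 2 := (Real.sq_sqrt h0).symm
      rw [show nn g ^ 3 = Real.sqrt (nn g) ^ 6 by rw [h2]; simp [Real.sqrt_sq h1.le]; ring]
      field_simp

end Pool.Agent.K1H63.EB
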