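import Mathlib

/-!
# The inequality for the eigenvalues of a Jacobi operator
-/

set_option autoImplicit false

open scoped BigOperators

namespace Pool.Agent.K1H63.EB

theorem pair_aux {b c : ℝ} (hb : 0 ≤ b) (hb' : b ≤ 579 / 1000) (hc : 0 ≤ c) :
    0 ≤ 3 * b ^ 2 - b ^ 3 + 3 * c ^ 2 + c ^ 3 - 579 / 100 * (b * c) := by
  rcases le_total b c with h | h
  · have h1 : b ^ 3 ≤ c ^ 3 := pow_le_pow_left₀ hb h 3
    nlinarith [sq_nonneg (b - c), mul_nonneg hb hc]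
  · have e1 : 0 ≤ 3 * b ^ 2 + 3 * c ^ 2 - 579 / 100 * (b * c) := by
      nlinarith [sq_nonneg (b - c), mul_nonneg hb hc]
    have e2 : 0 ≤ (3 - 579 / 1000) * b ^ 3 - 579 / 100 * (b ^ 2 * c) + 3 * (b * c ^ 2)
        + 579 / 1000 * c ^ 3 := by
      have h1 : 0 ≤ (579 / 1000 * c + (3 + 2 * (786 / 1000) * (579 / 1000)) * b) *
          (c - 786 / 1000 * b) ^ 2 := mul_nonneg (by positivity) (sq_nonneg _)
      have h2 : 0 ≤ b ^ 2 * (b - c) := mul_nonneg (sq_nonneg _) (by linarith)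
      have h3 : 0 ≤ b ^ 3 := pow_nonneg hb 3
      nlinarith [h1, h2, h3]
    have e3 := mul_nonneg (sub_nonneg.2 hb') e1
    nlinarith [e2, e3]

/-- the inequality for a pair -/
theorem pair_ineq {l μ ν : ℝ} (hl : 0 < l) (hl' : l ≤ 579 / 1000) (hμ : μ ≤ l) (hν : ν ≤ l) :
    5 * l * (μ - ν) ^ 2 ≤ μ ^ 2 * (3 + 5 * l - μ) + ν ^ 2 * (3 + 5 * l - ν) := by
  suffices h : 0 ≤ 3 * μ ^ 2 - μ ^ 3 + 3 * ν ^ 2 - ν ^ 3 + 10 * l * (μ * ν) by nlinarith [h]
  have key : ∀ b c : ℝ, 0 ≤ b → b ≤ l → c ≤ 0 →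
      0 ≤ 3 * b ^ 2 - b ^ 3 + 3 * c ^ 2 - c ^ 3 + 10 * l * (b * c) := by
    intro b c hb hbl hc
    have h1 := pair_aux (b := b) (c := -c) hb (hbl.trans hl') (by linarith)
    have h2 : 0 ≤ (579 / 1000 - l) * (b * (-c)) :=
      mul_nonneg (by linarith) (mul_nonneg hb (by linarith))
    nlinarith [h1, h2]
  rcases le_total 0 μ with h | h <;> rcases le_total 0 ν with h' | h'
  · have h1 : 0 ≤ μ ^ 2 * (3 - μ) := mul_nonneg (sq_nonneg _) (by linarith)
    have h2 : 0 ≤ ν ^ 2 * (3 - ν) := mul_nonneg (sq_nonneg _) (by linarith)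
    have h3 : 0 ≤ l * (μ * ν) := mul_nonneg hl.le (mul_nonneg h h')
    nlinarith [h1, h2, h3]
  · exact key μ ν h hμ h'
  · have := key ν μ h' hν h
    nlinarith [this]
  · have h1 : 0 ≤ μ ^ 2 * (3 - μ) := mul_nonneg (sq_nonneg _) (by linarith)
    have h2 : 0 ≤ ν ^ 2 * (3 - ν) := mul_nonneg (sq_nonneg _) (by linarith)
    have h3 : 0 ≤ l * (μ * ν) := mul_nonneg hl.le (mul_nonneg_of_nonpos_of_nonpos h h')
    nlinarith [h1, h2, h3]

section
variable {m : ℕ} (L : Fin m → ℝ) (K : Fin m → Fin m → ℝ)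

/-- the function of the data of an eigenframe -/
def gfun : ℝ :=
  6 * (m : ℝ) * ∑ i, L i ^ 2 - ((m : ℝ) + 5) * ∑ i, L i ^ 3 - 5 * ∑ i, ∑ j, L i * L j * K i j

variable {L K}

theorem gfun_eq (hsym : ∀ i j, K i j = K j i) (hrow : ∀ i, ∑ j, K i j = (m : ℝ) - L i)
    (hs : ∑ i, L i = (m : ℝ)) :
    gfun L K = - (m : ℝ) * ∑ i, (L i - 1) ^ 2 * (L i + 1)
      + 5 / 2 * ∑ i, ∑ j, (L i - L j) ^ 2 * K i j := by
  have h1 : ∑ i, ∑ j, (L i - L j) ^ 2 * K i j =
      2 * ∑ i, L i ^ 2 * ((m : ℝ) - L i) - 2 * ∑ i, ∑ j, L i * L j * K i j := by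
    have e : ∀ i j, (L i - L j) ^ 2 * K i j =
        L i ^ 2 * K i j + L j ^ 2 * K j i - 2 * (L i * L j * K i j) := by
      intro i j
      rw [hsym j i]
      ring
    simp only [e, Finset.sum_add_distrib, Finset.sum_sub_distrib]
    have e2 : ∑ i, ∑ j, L j ^ 2 * K j i = ∑ i, ∑ j, L i ^ 2 * K i j := by
      rw [Finset.sum_comm]
    rw [e2]
    simp only [← Finset.mul_sum, hrow]
    ring
  have h2 : ∑ i, (L i - 1) ^ 2 * (L i + 1) = ∑ i, L i ^ 3 - ∑ i, L i ^ 2 - ∑ i, L i + (m : ℝ) := by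
    have e : ∀ i, (L i - 1) ^ 2 * (L i + 1) = L i ^ 3 - L i ^ 2 - L i + 1 := fun i => by ring
    simp only [e, Finset.sum_add_distrib, Finset.sum_sub_distrib]
    simp
  have h3 : ∑ i, L i ^ 2 * ((m : ℝ) - L i) = (m : ℝ) * ∑ i, L i ^ 2 - ∑ i, L i ^ 3 := by
    rw [Finset.mul_sum, ← Finset.sum_sub_distrib]
    exact Finset.sum_congr rfl fun i _ => by ring
  unfold gfun
  rw [h1, h2, h3, hs]
  ring

/-- the inequality, for every dimension -/
theorem gfun_ge {l : ℝ} (hl : 0 < l) (hl' : l ≤ 579 / 1000)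
    (hsym : ∀ i j, K i j = K j i) (hd : ∀ i, K i i = 0)
    (hK : ∀ i j, i ≠ j → K i j ≤ 1 + l) (hrow : ∀ i, ∑ j, K i j = (m : ℝ) - L i)
    (hL : ∀ i, L i ≤ 1 + l) (hs : ∑ i, L i = (m : ℝ)) :
    ∑ i, (L i - 1) ^ 2 * (4 + 5 * l - L i) * (1 + l - L i) ≤ l * gfun L K := by
  classical
  rw [gfun_eq hsym hrow hs]
  let k : Fin m → Fin m → ℝ := fun i j => if i = j then 0 else 1 + l - K i j
  have hk0 : ∀ i j, 0 ≤ k i j := by
    intro i j
    by_cases h : i = j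
    · simp [k, h]
    · simp only [k, if_neg h]
      linarith [hK i j h]
  have hksym : ∀ i j, k i j = k j i := by
    intro i j
    by_cases h : i = j
    · simp [k, h]
    · simp only [k, if_neg h, if_neg (Ne.symm h), hsym i j]
  have hkrow : ∀ i, ∑ j, k i j = ((m : ℝ) - 1) * l + (L i - 1) := by
    intro i
    have e : ∀ j, k i j = (1 + l - K i j) - (if i = j then (1 + l) else 0) := by
      intro j
      by_cases h : i = j
      · simp [k, h, hd]
      · simp [k, h]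
    simp only [e, Finset.sum_sub_distrib, hrow]
    simp
    ring
  have h1 : ∑ i, ∑ j, (L i - L j) ^ 2 * K i j =
      (1 + l) * ∑ i, ∑ j, (L i - L j) ^ 2 - ∑ i, ∑ j, (L i - L j) ^ 2 * k i j := by
    rw [Finset.mul_sum, ← Finset.sum_sub_distrib]
    refine Finset.sum_congr rfl fun i _ => ?_
    rw [Finset.mul_sum, ← Finset.sum_sub_distrib]
    refine Finset.sum_congr rfl fun j _ => ?_
    by_cases h : i = j
    · simp [h]
    · simp only [k, if_neg h]
      ring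
  have h2 : ∑ i, ∑ j, (L i - L j) ^ 2 = 2 * (m : ℝ) * ∑ i, (L i - 1) ^ 2 := by
    have e : ∀ i j, (L i - L j) ^ 2 = (L i - 1) ^ 2 + (L j - 1) ^ 2
        - 2 * ((L i - 1) * (L j - 1)) := fun i j => by ring
    have e3 : ∑ j, L j - ∑ _j : Fin m, (1 : ℝ) = 0 := by
      rw [hs]
      simp
    simp only [e, Finset.sum_add_distrib, Finset.sum_sub_distrib, ← Finset.mul_sum]
    rw [e3]
    simp only [Finset.sum_const, Finset.card_univ, Fintype.card_fin, nsmul_eq_mul, mul_zero,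
      Finset.sum_const_zero, sub_zero, ← Finset.mul_sum]
    ring
  let ψ : Fin m → ℝ := fun i => (L i - 1) ^ 2 * (4 + 5 * l - L i)
  have h3 : 5 * l * ∑ i, ∑ j, (L i - L j) ^ 2 * k i j ≤
      2 * ∑ i, ψ i * (((m : ℝ) - 1) * l + (L i - 1)) := by
    have e1 : ∀ i j, 5 * l * ((L i - L j) ^ 2 * k i j) ≤ ψ i * k i j + ψ j * k j i := by
      intro i j
      have := pair_ineq hl hl' (μ := L i - 1) (ν := L j - 1) (by linarith [hL i])
        (by linarith [hL j])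
      have h4 : 5 * l * (L i - L j) ^ 2 ≤ ψ i + ψ j := by
        simp only [ψ]
        calc 5 * l * (L i - L j) ^ 2 = 5 * l * ((L i - 1) - (L j - 1)) ^ 2 := by ring
          _ ≤ _ := this
          _ = _ := by ring
      rw [hksym j i]
      calc 5 * l * ((L i - L j) ^ 2 * k i j) = (5 * l * (L i - L j) ^ 2) * k i j := by ring
        _ ≤ (ψ i + ψ j) * k i j := mul_le_mul_of_nonneg_right h4 (hk0 i j)
        _ = _ := by ring
    have e2 : ∑ i, ∑ j, ψ j * k j i = ∑ i, ψ i * (((m : ℝ) - 1) * l + (L i - 1)) := by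
      rw [Finset.sum_comm]
      refine Finset.sum_congr rfl fun i _ => ?_
      rw [← Finset.mul_sum, hkrow]
    have e3 : ∑ i, ∑ j, ψ i * k i j = ∑ i, ψ i * (((m : ℝ) - 1) * l + (L i - 1)) := by
      refine Finset.sum_congr rfl fun i _ => ?_
      rw [← Finset.mul_sum, hkrow]
    calc 5 * l * ∑ i, ∑ j, (L i - L j) ^ 2 * k i j =
          ∑ i, ∑ j, 5 * l * ((L i - L j) ^ 2 * k i j) := by simp only [Finset.mul_sum]
      _ ≤ ∑ i, ∑ j, (ψ i * k i j + ψ j * k j i) :=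
          Finset.sum_le_sum fun i _ => Finset.sum_le_sum fun j _ => e1 i j
      _ = _ := by
          simp only [Finset.sum_add_distrib]
          rw [e2, e3]
          ring
  have h4 : ∑ i, (L i - 1) ^ 2 * (4 + 5 * l - L i) * (1 + l - L i) =
      l * (m : ℝ) * ∑ i, ψ i - ∑ i, ψ i * (((m : ℝ) - 1) * l + (L i - 1)) := by
    rw [Finset.mul_sum, ← Finset.sum_sub_distrib]
    refine Finset.sum_congr rfl fun i _ => ?_
    simp only [ψ]
    ring
  have h5 : ∑ i, ψ i = (4 + 5 * l) * ∑ i, (L i - 1) ^ 2 - ∑ i, (L i - 1) ^ 2 * L i := by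
    rw [Finset.mul_sum, ← Finset.sum_sub_distrib]
    refine Finset.sum_congr rfl fun i _ => ?_
    simp only [ψ]
    ring
  have h6 : ∑ i, (L i - 1) ^ 2 * (L i + 1) =
      ∑ i, (L i - 1) ^ 2 * L i + ∑ i, (L i - 1) ^ 2 := by
    rw [← Finset.sum_add_distrib]
    exact Finset.sum_congr rfl fun i _ => by ring
  rw [h1, h2, h6, h4, h5]
  nlinarith [h3]

end

end Pool.Agent.K1H63.EB
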