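import Pool.Agent.K1H63.EB.Frame
import Pool.Agent.K1H63.EB.Exist
import Pool.Agent.K1H63.EB.Ineq
import Pool.Agent.K1H63.EB.Bochner

/-!
# The curvature term of the Bochner formula of an Einstein metric with an upper curvature bound
-/

set_option autoImplicit false

open scoped BigOperators
open MeasureTheory

namespace Pool.Agent.K1H63.EB

section
variable {n : ℕ} {R : Ten n} {c : ℝ}

theorem nR_ein (hE : IsEinstein R c) : nR R = (n : ℝ) * c ^ 2 := by
  unfold nR
  have h : ∀ a, ∑ b, Rc R a b * Rc R a b = c ^ 2 := by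
    intro a
    rw [Finset.sum_eq_single a]
    · rw [hE, if_pos rfl]
      ring
    · intro b _ hb
      rw [hE, if_neg (Ne.symm hb), zero_mul]
    · simp
  simp only [h]
  simp

theorem sc_ein (hE : IsEinstein R c) : sc R = (n : ℝ) * c := by
  unfold sc
  have h : ∀ a, Rc R a a = c := fun a => by rw [hE, if_pos rfl]
  simp only [h]
  simp

theorem I4_ein (hE : IsEinstein R c) : I4 R = (n : ℝ) * c ^ 3 := by
  unfold I4
  have h : ∀ a, ∑ b, ∑ d, Rc R a b * Rc R b d * Rc R d a = c ^ 3 := by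
    intro a
    rw [Finset.sum_eq_single a]
    · rw [Finset.sum_eq_single a]
      · rw [hE, if_pos rfl]
        ring
      · intro b _ hb
        rw [hE b a, if_neg hb, mul_zero]
      · simp
    · intro b _ hb
      refine Finset.sum_eq_zero fun d _ => ?_
      rw [hE a b, if_neg (Ne.symm hb), zero_mul, zero_mul]
    · simp
  simp only [h]
  simp

theorem I5_ein (hE : IsEinstein R c) : I5 R = (n : ℝ) * c ^ 3 := by
  have h : ∀ a, ∑ b, ∑ d, ∑ e, Rc R a b * R a d b e * Rc R d e = c ^ 2 * Rc R a a := by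
    intro a
    rw [Finset.sum_eq_single a]
    · have h1 : ∀ d, ∑ e, Rc R a a * R a d a e * Rc R d e = c ^ 2 * R a d a d := by
        intro d
        rw [Finset.sum_eq_single d]
        · rw [hE a a, hE d d, if_pos rfl, if_pos rfl]
          ring
        · intro e _ he
          rw [hE d e, if_neg (Ne.symm he), mul_zero]
        · simp
      simp only [h1]
      rw [← Finset.mul_sum]
      rfl
    · intro b _ hb
      refine Finset.sum_eq_zero fun d _ => Finset.sum_eq_zero fun e _ => ?_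
      rw [hE a b, if_neg (Ne.symm hb), zero_mul, zero_mul]
    · simp
  have h2 : I5 R = ∑ a, c ^ 2 * Rc R a a := Finset.sum_congr rfl fun a _ => h a
  have h3 : ∀ a, Rc R a a = c := fun a => by rw [hE, if_pos rfl]
  rw [h2]
  simp only [h3, Finset.sum_const, Finset.card_univ, Fintype.card_fin, nsmul_eq_mul]
  ring

/-- the function of a unit vector whose average is the curvature term -/
def fx (R : Ten n) (c : ℝ) (x : Fin n → ℝ) : ℝ :=
  6 * c * mJJ R x - ((n : ℝ) + 4) * mJJJ R x - 5 * mJSJ R x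

theorem av_fx {ι : Type} [Fintype ι] (D : Design n ι) (hR : IsCurv R) (hE : IsEinstein R c) :
    D.av (fx R c) = - (9 / 4) * k4 n * boch c R := by
  have e : fx R c = fun x => (6 * c) * mJJ R x + ((-((n : ℝ) + 4)) * mJJJ R x
      + (-5) * mJSJ R x) := by
    funext x
    unfold fx
    ring
  rw [e, Design.av_add, Design.av_add, Design.av_cmul, Design.av_cmul, Design.av_cmul,
    show D.av (fun x => mJJ R x) = _ from D.av_JJ hR,
    show D.av (fun x => mJJJ R x) = _ from D.av_JJJ hR,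
    show D.av (fun x => mJSJ R x) = _ from D.av_JSJ hR,
    nR_ein hE, I4_ein hE, I5_ein hE, I6_ein hE]
  unfold boch
  have := k6_mul n
  rw [← this]
  ring

end

/-- the data of an eigenframe of dimension `m` with all sectional curvatures at most `b` -/
structure FData (m : ℕ) (b : ℝ) (L : Fin m → ℝ) (K : Fin m → Fin m → ℝ) : Prop where
  symm : ∀ i j, K i j = K j i
  diag : ∀ i, K i i = 0
  le : ∀ i j, i ≠ j → K i j ≤ b
  row : ∀ i, ∑ j, K i j = (m : ℝ) - L i
  leL : ∀ i, L i ≤ b
  sum : ∑ i, L i = (m : ℝ)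

section
variable {m : ℕ} {R : Ten (m + 1)} {b : ℝ}

theorem fx_data (hR : IsCurv R) (hE : IsEinstein R (m : ℝ)) (hb : SecLE R b)
    {x : Fin (m + 1) → ℝ} (hx : ∑ a, x a ^ 2 = 1) :
    ∃ L K, FData m b L K ∧ fx R (m : ℝ) x = gfun L K ∧ mJJ R x = ∑ i, L i ^ 2 := by
  obtain ⟨w, l, o1, o2, hl, hs, hrow, t2, t3, t4⟩ := frame_data hR hE hx
  obtain ⟨s1, s2⟩ := frame_sec (R := R) hx o1 o2 (Q := fun t => t ≤ b) hb
  refine ⟨l, fun i j => quad R (w i) (w j), ⟨fun i j => quad_symm hR _ _,
    fun i => quad_self hR _, s2, hrow, fun i => by rw [← hl i]; exact s1 i, hs⟩, ?_, t2⟩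
  unfold fx gfun
  rw [t2, t3, t4]
  push_cast
  ring

/-- The curvature term is not positive. -/
theorem boch_nonpos (hg : ∀ L K, FData m b L K → 0 ≤ gfun L K)
    (hR : IsCurv R) (hE : IsEinstein R (m : ℝ)) (hb : SecLE R b) : boch (m : ℝ) R ≤ 0 := by
  obtain ⟨ι, _, ⟨D⟩⟩ := exists_design (m + 1)
  have h1 : 0 ≤ D.av (fx R (m : ℝ)) := D.av_nonneg fun i => by
    obtain ⟨L, K, hd, he, -⟩ := fx_data hR hE hb (D.unit i)
    rw [he]
    exact hg L K hd
  rw [av_fx D hR hE] at h1
  have hk : 0 < k4 (m + 1) := by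
    unfold k4
    positivity
  by_contra hcon
  have h2 : 0 < k4 (m + 1) * boch (m : ℝ) R := mul_pos hk (not_le.1 hcon)
  linarith

theorem sum4_split (F G : Fin (m + 1) → Fin (m + 1) → Fin (m + 1) → Fin (m + 1) → ℝ) :
    ∑ a, ∑ b, ∑ c, ∑ d, (F a b c d + G a b c d) =
      ∑ a, ∑ b, ∑ c, ∑ d, F a b c d + ∑ a, ∑ b, ∑ c, ∑ d, G a b c d := by
  simp only [Finset.sum_add_distrib]

/-- the curvature tensor of constant curvature `1` -/
def R1 {n : ℕ} (a b c d : Fin n) : ℝ := dl a c * dl b d - dl a d * dl b c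

theorem inner_R1 {n : ℕ} {R : Ten n} (hR : IsCurv R) :
    ∑ a, ∑ b, ∑ c, ∑ d, R a b c d * R1 a b c d = 2 * sc R := by
  have h1 : ∀ a b, ∑ c, ∑ d, R a b c d * R1 a b c d = R a b a b - R a b b a := by
    intro a b
    unfold R1
    simp only [mul_sub, Finset.sum_sub_distrib]
    congr 1
    · have : ∀ c, ∑ d, R a b c d * (dl a c * dl b d) = R a b c b * dl a c := by
        intro c
        have e : ∀ d, R a b c d * (dl a c * dl b d) = (R a b c d * dl a c) * dl b d :=
          fun d => by ring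
        simp only [e, Design.sdl1]
      simp only [this, Design.sdl1]
    · have : ∀ c, ∑ d, R a b c d * (dl a d * dl b c) = R a b c a * dl b c := by
        intro c
        have e : ∀ d, R a b c d * (dl a d * dl b c) = (R a b c d * dl b c) * dl a d :=
          fun d => by ring
        simp only [e, Design.sdl1]
      simp only [this, Design.sdl1]
  have h2 : ∀ a b, R a b b a = - R a b a b := fun a b => anti' hR a b a b
  simp only [h1, h2, sub_neg_eq_add, Finset.sum_add_distrib]
  unfold sc Rc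
  ring

theorem R1_curv {n : ℕ} : IsCurv (R1 (n := n)) where
  anti a b c d := by unfold R1; ring
  pair a b c d := by
    unfold R1
    have h : ∀ x y : Fin n, dl x y = dl y x := fun x y => by
      unfold dl
      by_cases h : x = y
      · simp [h]
      · simp [h, Ne.symm h]
    rw [h c a, h d b, h c b, h d a]
    ring
  bianchi a b c d := by
    unfold R1
    have h : ∀ x y : Fin n, dl x y = dl y x := fun x y => by
      unfold dl
      by_cases h : x = y
      · simp [h]
      · simp [h, Ne.symm h]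
    rw [h b a, h c b, h c a]
    ring

theorem sc_R1 : sc (R1 (n := m + 1)) = ((m : ℝ) + 1) * m := by
  unfold sc Rc R1
  have h : ∀ a : Fin (m + 1), ∑ c, (dl a a * dl c c - dl a c * dl c a) = (m : ℝ) := by
    intro a
    have e : ∀ c, dl a a * dl c c - dl a c * dl c a = 1 - dl a c * dl c a := by
      intro c
      simp [dl]
    simp only [e, Finset.sum_sub_distrib]
    have e2 : ∑ c, dl a c * dl c a = 1 := by
      simp [dl]
    rw [e2]
    simp
  simp only [h]
  simp

theorem const_of_nS {R : Ten (m + 1)} (hR : IsCurv R) (hE : IsEinstein R (m : ℝ))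
    (h : nS R = 2 * ((m : ℝ) + 1) * m) : ∀ a b c d, R a b c d = R1 a b c d := by
  have h1 : ∑ a, ∑ b, ∑ c, ∑ d, (R a b c d - R1 a b c d) ^ 2 = 0 := by
    have e : ∀ a b c d, (R a b c d - R1 a b c d) ^ 2 =
        (R a b c d * R a b c d + (-2) * (R a b c d * R1 a b c d)) + R1 a b c d * R1 a b c d :=
      fun a b c d => by ring
    simp only [e]
    rw [sum4_split, sum4_split]
    have e2 : ∑ a, ∑ b, ∑ c, ∑ d, (-2) * (R a b c d * R1 a b c d) =
        (-2) * ∑ a, ∑ b, ∑ c, ∑ d, R a b c d * R1 a b c d := by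
      simp only [Finset.mul_sum]
    rw [e2, inner_R1 hR, inner_R1 (R := R1) R1_curv, sc_R1, sc_ein hE]
    have e3 : ∑ a, ∑ b, ∑ c, ∑ d, R a b c d * R a b c d = nS R := rfl
    rw [e3, h]
    push_cast
    ring
  intro a b c d
  have h2 := (Finset.sum_eq_zero_iff_of_nonneg (fun a _ => Finset.sum_nonneg fun b _ =>
    Finset.sum_nonneg fun c _ => Finset.sum_nonneg fun d _ => sq_nonneg _)).1 h1 a
    (Finset.mem_univ a)
  have h3 := (Finset.sum_eq_zero_iff_of_nonneg (fun b _ =>
    Finset.sum_nonneg fun c _ => Finset.sum_nonneg fun d _ => sq_nonneg _)).1 h2 b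
    (Finset.mem_univ b)
  have h4 := (Finset.sum_eq_zero_iff_of_nonneg (fun c _ =>
    Finset.sum_nonneg fun d _ => sq_nonneg _)).1 h3 c (Finset.mem_univ c)
  have h5 := (Finset.sum_eq_zero_iff_of_nonneg (fun d _ => sq_nonneg _)).1 h4 d
    (Finset.mem_univ d)
  have h6 := pow_eq_zero_iff two_ne_zero |>.1 h5
  linarith

/-- If the curvature term vanishes then the sectional curvature is constant. -/
theorem const_of_boch (hg : ∀ L K, FData m b L K → 0 ≤ gfun L K ∧ (gfun L K = 0 → ∀ i, L i = 1))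
    (hR : IsCurv R) (hE : IsEinstein R (m : ℝ)) (hb : SecLE R b) (h0 : boch (m : ℝ) R = 0) :
    ∀ a b c d, R a b c d = R1 a b c d := by
  obtain ⟨ι, _, ⟨D⟩⟩ := exists_design (m + 1)
  have h1 : D.av (fx R (m : ℝ)) = 0 := by rw [av_fx D hR hE, h0, mul_zero]
  have h2 : ∀ i ∈ Finset.univ, 0 ≤ D.w i * fx R (m : ℝ) (D.X i) := fun i _ => by
    obtain ⟨L, K, hd, he, -⟩ := fx_data hR hE hb (D.unit i)
    rw [he]
    exact mul_nonneg (D.w_nonneg i) (hg L K hd).1
  have h3 := (Finset.sum_eq_zero_iff_of_nonneg h2).1 h1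
  have h4 : D.av (mJJ R) = (m : ℝ) := by
    have h5 : ∀ i, D.w i * mJJ R (D.X i) = D.w i * (m : ℝ) := by
      intro i
      obtain ⟨L, K, hd, he, hJ⟩ := fx_data hR hE hb (D.unit i)
      rcases mul_eq_zero.1 (h3 i (Finset.mem_univ i)) with hw | hf
      · rw [hw, zero_mul, zero_mul]
      · rw [he] at hf
        have hL := (hg L K hd).2 hf
        rw [hJ]
        simp [hL]
    unfold Design.av
    rw [Finset.sum_congr rfl fun i _ => h5 i, ← Finset.sum_mul, D.zero', one_mul]
  rw [D.av_JJ hR, nR_ein hE] at h4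
  refine const_of_nS hR hE ?_
  unfold k4 at h4
  push_cast at h4
  have hm : (0 : ℝ) ≤ m := Nat.cast_nonneg m
  have hne : ((m : ℝ) + 1) * ((m : ℝ) + 1 + 2) ≠ 0 := by positivity
  rw [div_mul_eq_mul_div, one_mul, div_eq_iff hne] at h4
  linarith

end

/-! ### scaling -/

section
variable {n : ℕ}

/-- a multiple of `R` -/
def scl (k : ℝ) (R : Ten n) : Ten n := fun a b c d => k * R a b c d

theorem scl_curv {R : Ten n} (hR : IsCurv R) (k : ℝ) : IsCurv (scl k R) where
  anti a b c d := by unfold scl; rw [hR.anti]; ring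
  pair a b c d := by unfold scl; rw [hR.pair]
  bianchi a b c d := by
    unfold scl
    have := hR.bianchi a b c d
    linear_combination k * this

theorem Rc_scl (k : ℝ) (R : Ten n) (a b : Fin n) : Rc (scl k R) a b = k * Rc R a b := by
  unfold Rc scl
  rw [Finset.mul_sum]

theorem quad_scl (k : ℝ) (R : Ten n) (y z : Fin n → ℝ) : quad (scl k R) y z = k * quad R y z := by
  unfold quad scl
  simp only [Finset.mul_sum]
  refine Finset.sum_congr rfl fun _ _ => Finset.sum_congr rfl fun _ _ =>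
    Finset.sum_congr rfl fun _ _ => Finset.sum_congr rfl fun _ _ => ?_
  ring

theorem boch_scl (c k : ℝ) (R : Ten n) : boch (k * c) (scl k R) = k ^ 3 * boch c R := by
  have h7 : I7 (scl k R) = k ^ 3 * I7 R := by
    unfold I7 scl
    simp only [Finset.mul_sum]
    refine Finset.sum_congr rfl fun _ _ => Finset.sum_congr rfl fun _ _ =>
      Finset.sum_congr rfl fun _ _ => Finset.sum_congr rfl fun _ _ =>
      Finset.sum_congr rfl fun _ _ => Finset.sum_congr rfl fun _ _ => ?_
    ring
  have h8 : I8 (scl k R) = k ^ 3 * I8 R := by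
    unfold I8 scl
    simp only [Finset.mul_sum]
    refine Finset.sum_congr rfl fun _ _ => Finset.sum_congr rfl fun _ _ =>
      Finset.sum_congr rfl fun _ _ => Finset.sum_congr rfl fun _ _ =>
      Finset.sum_congr rfl fun _ _ => Finset.sum_congr rfl fun _ _ => ?_
    ring
  have hn : nS (scl k R) = k ^ 2 * nS R := by
    unfold nS scl
    simp only [Finset.mul_sum]
    refine Finset.sum_congr rfl fun _ _ => Finset.sum_congr rfl fun _ _ =>
      Finset.sum_congr rfl fun _ _ => Finset.sum_congr rfl fun _ _ => ?_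
    ring
  unfold boch
  rw [h7, h8, hn]
  ring

end

section
variable {m : ℕ} {R : Ten (m + 1)} {b κ : ℝ}

theorem scl_ein (hκ : 0 < κ) (hE : IsEinstein R ((m : ℝ) * κ)) :
    IsEinstein (scl κ⁻¹ R) (m : ℝ) := by
  intro a b
  rw [Rc_scl, hE]
  split_ifs
  · field_simp
  · simp

theorem scl_sec (hκ : 0 < κ) (hb : SecLE R (b * κ)) : SecLE (scl κ⁻¹ R) b := by
  intro y z hy hz hyz
  rw [quad_scl]
  calc κ⁻¹ * quad R y z ≤ κ⁻¹ * (b * κ) :=
        mul_le_mul_of_nonneg_left (hb y z hy hz hyz) (inv_nonneg.2 hκ.le)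
    _ = b := by field_simp

theorem boch_scaled (hκ : 0 < κ) :
    boch ((m : ℝ) * κ) R = κ ^ 3 * boch (m : ℝ) (scl κ⁻¹ R) := by
  have h2 : boch (m : ℝ) (scl κ⁻¹ R) = κ⁻¹ ^ 3 * boch ((m : ℝ) * κ) R := by
    rw [← boch_scl]
    congr 1
    field_simp
  rw [h2]
  field_simp

theorem boch_nonpos_scaled (hg : ∀ L K, FData m b L K → 0 ≤ gfun L K) (hR : IsCurv R)
    (hκ : 0 < κ) (hE : IsEinstein R ((m : ℝ) * κ)) (hb : SecLE R (b * κ)) :
    boch ((m : ℝ) * κ) R ≤ 0 := by
  rw [boch_scaled hκ]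
  exact mul_nonpos_of_nonneg_of_nonpos (by positivity)
    (boch_nonpos hg (scl_curv hR _) (scl_ein hκ hE) (scl_sec hκ hb))

theorem ite_mul_ite (p q : Prop) [Decidable p] [Decidable q] :
    (if p then (1 : ℝ) else 0) * (if q then 1 else 0) = if p ∧ q then 1 else 0 := by
  by_cases hp : p <;> by_cases hq : q <;> simp [hp, hq]

theorem const_scaled (hg : ∀ L K, FData m b L K → 0 ≤ gfun L K ∧ (gfun L K = 0 → ∀ i, L i = 1))
    (hR : IsCurv R) (hκ : 0 < κ) (hE : IsEinstein R ((m : ℝ) * κ)) (hb : SecLE R (b * κ))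
    (h0 : boch ((m : ℝ) * κ) R = 0) : IsConst R κ := by
  rw [boch_scaled hκ] at h0
  have h1 : boch (m : ℝ) (scl κ⁻¹ R) = 0 := by
    rcases mul_eq_zero.1 h0 with h | h
    · exact absurd h (by positivity)
    · exact h
  have h2 := const_of_boch hg (scl_curv hR _) (scl_ein hκ hE) (scl_sec hκ hb) h1
  intro a b c d
  have h3 := h2 a b c d
  unfold scl R1 dl at h3
  have h4 : R a b c d = κ * (κ⁻¹ * R a b c d) := by field_simp
  rw [h4, h3, ite_mul_ite, ite_mul_ite]

end

end Pool.Agent.K1H63.EB
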