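import Pool.Agent.K1H63.EB.Mom

/-!
# The curvature of an Einstein tensor in an eigenframe of a Jacobi operator
-/

set_option autoImplicit false
set_option linter.unusedSimpArgs false

open scoped BigOperators

namespace Pool.Agent.K1H63.EB

variable {n : ℕ}

section
variable {m : ℕ}

theorem lin_apply (J : Matrix (Fin (m + 1)) (Fin (m + 1)) ℝ) (v : EuclideanSpace ℝ (Fin (m + 1))) (a : Fin (m + 1)) :
    (Matrix.toEuclideanLin J v).ofLp a = ∑ b, J a b * v.ofLp b := by
  have h : Matrix.toEuclideanLin J v = WithLp.toLp 2 (J.mulVec v.ofLp) := rfl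
  rw [h]
  rfl

theorem exists_eig (J : Matrix (Fin (m + 1)) (Fin (m + 1)) ℝ) (hJ : J.transpose = J) (x : Fin (m + 1) → ℝ)
    (hx : ∑ a, x a ^ 2 = 1) (hJx : ∀ a, ∑ b, J a b * x b = 0) :
    ∃ (w : Fin m → Fin (m + 1) → ℝ) (l : Fin m → ℝ),
      (∀ i j, ∑ a, w i a * w j a = if i = j then 1 else 0) ∧
      (∀ i, ∑ a, w i a * x a = 0) ∧
      (∀ i a, ∑ b, J a b * w i b = l i * w i a) := by
  classical
  let E := EuclideanSpace ℝ (Fin (m + 1))
  let T : E →ₗ[ℝ] E := Matrix.toEuclideanLin J
  have hsym : T.IsSymmetric := by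
    refine Matrix.isSymmetric_toEuclideanLin_iff.2 ?_
    unfold Matrix.IsHermitian
    rw [Matrix.conjTranspose_eq_transpose_of_trivial, hJ]
  let xE : E := WithLp.toLp 2 x
  have hTx : T xE = 0 := by
    ext a
    change (Matrix.toEuclideanLin J xE).ofLp a = 0
    rw [lin_apply]
    exact hJx a
  have hxE : xE ≠ 0 := by
    intro h
    have h1 : ∀ a, x a = 0 := fun a => by
      have := congrArg (fun v : E => v a) h
      simpa [xE] using this
    rw [Finset.sum_eq_zero (fun a _ => by rw [h1 a]; norm_num)] at hx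
    norm_num at hx
  let K0 : Submodule ℝ E := (ℝ ∙ xE)ᗮ
  have hinv : ∀ v ∈ K0, T v ∈ K0 := by
    intro v hv
    rw [Submodule.mem_orthogonal_singleton_iff_inner_right] at hv ⊢
    rw [← hsym, hTx, inner_zero_left]
  have : Fact (Module.finrank ℝ E = m + 1) := ⟨by simp [E]⟩
  have hn : Module.finrank ℝ K0 = m := Submodule.finrank_orthogonal_span_singleton hxE
  have hr := hsym.restrict_invariant hinv
  let B := hr.eigenvectorBasis hn
  let l := hr.eigenvalues hn
  refine ⟨fun i a => ((B i : K0) : E) a, l, ?_, ?_, ?_⟩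
  · intro i j
    have h1 := B.orthonormal
    rw [orthonormal_iff_ite] at h1
    have h2 := h1 i j
    rw [Submodule.coe_inner, PiLp.inner_apply] at h2
    simp only [RCLike.inner_apply, conj_trivial] at h2
    rw [← h2]
    exact Finset.sum_congr rfl fun a _ => mul_comm _ _
  · intro i
    have h1 := (B i).2
    rw [Submodule.mem_orthogonal_singleton_iff_inner_right, PiLp.inner_apply] at h1
    simp only [RCLike.inner_apply, conj_trivial] at h1
    rw [← h1]
  · intro i a
    have h1 := hr.apply_eigenvectorBasis hn i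
    have h2 : T ((B i : K0) : E) = l i • ((B i : K0) : E) := by
      have := congrArg (fun v : K0 => (v : E)) h1
      exact this
    have h3 := congrArg (fun v : E => v.ofLp a) h2
    change (Matrix.toEuclideanLin J ((B i : K0) : E)).ofLp a = l i * ((B i : K0) : E).ofLp a at h3
    rw [lin_apply] at h3
    exact h3

theorem exists_frame (J : Matrix (Fin (m + 1)) (Fin (m + 1)) ℝ) (hJ : J.transpose = J) (x : Fin (m + 1) → ℝ)
    (hx : ∑ a, x a ^ 2 = 1) (hJx : ∀ a, ∑ b, J a b * x b = 0) :
    ∃ (w : Fin m → Fin (m + 1) → ℝ) (l : Fin m → ℝ),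
      (∀ i j, ∑ a, w i a * w j a = if i = j then 1 else 0) ∧
      (∀ i, ∑ a, w i a * x a = 0) ∧
      (∀ a b, (∑ i, w i a * w i b) + x a * x b = if a = b then 1 else 0) ∧
      (∀ a b, J a b = ∑ i, l i * (w i a * w i b)) := by
  classical
  obtain ⟨w, l, h1, h2, h3⟩ := exists_eig J hJ x hx hJx
  have hc : ∀ a b, (∑ i, w i a * w i b) + x a * x b = if a = b then 1 else 0 := by
    let U : Matrix (Fin (m + 1)) (Fin (m + 1)) ℝ := Matrix.of (Fin.cons x w : Fin (m + 1) → Fin (m + 1) → ℝ)
    have hU : U * U.transpose = 1 := by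
      ext i j
      rw [Matrix.mul_apply]
      simp only [Matrix.transpose_apply, U, Matrix.of_apply]
      rw [Matrix.one_apply]
      refine Fin.cases ?_ (fun i => ?_) i <;> refine Fin.cases ?_ (fun j => ?_) j
      · simp only [Fin.cons_zero, if_true]
        rw [← hx]
        exact Finset.sum_congr rfl fun a _ => (pow_two _).symm
      · simp only [Fin.cons_zero, Fin.cons_succ]
        rw [if_neg (Fin.succ_ne_zero j).symm, ← h2 j]
        exact Finset.sum_congr rfl fun a _ => mul_comm _ _
      · simp only [Fin.cons_zero, Fin.cons_succ]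
        rw [if_neg (Fin.succ_ne_zero i), ← h2 i]
      · simp only [Fin.cons_succ]
        rw [h1 i j]
        by_cases h : i = j
        · simp [h]
        · rw [if_neg h, if_neg (fun h' => h (Fin.succ_injective _ h'))]
    have hU' : U.transpose * U = 1 := by
      rw [mul_eq_one_comm] at hU
      exact hU
    intro a b
    have h := congrFun (congrFun hU' a) b
    rw [Matrix.mul_apply, Matrix.one_apply] at h
    simp only [Matrix.transpose_apply, U, Matrix.of_apply] at h
    rw [Fin.sum_univ_succ] at h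
    simp only [Fin.cons_zero, Fin.cons_succ] at h
    rw [← h]
    ring
  refine ⟨w, l, h1, h2, hc, ?_⟩
  intro a b
  have e1 : J a b = ∑ c, J a c * (if c = b then 1 else 0) := by simp
  rw [e1]
  have e2 : ∀ c, J a c * (if c = b then (1 : ℝ) else 0) =
      (∑ i, J a c * w i c * w i b) + J a c * x c * x b := by
    intro c
    rw [← hc c b, mul_add, Finset.mul_sum]
    congr 1
    · exact Finset.sum_congr rfl fun i _ => by ring
    · ring
  rw [Finset.sum_congr rfl fun c _ => e2 c, Finset.sum_add_distrib, Finset.sum_comm,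
    ← Finset.sum_mul, hJx a, zero_mul, add_zero]
  refine Finset.sum_congr rfl fun i _ => ?_
  rw [← Finset.sum_mul, h3 i a]
  ring

end

theorem lin_sum {m : ℕ} (l : Fin m → ℝ) (A : Fin m → Fin n → Fin n → ℝ) (F : Fin n → Fin n → ℝ) :
    ∑ a, ∑ b, (∑ i, l i * A i a b) * F a b = ∑ i, l i * ∑ a, ∑ b, A i a b * F a b := by
  have h1 : ∀ a, ∑ b, (∑ i, l i * A i a b) * F a b = ∑ i, ∑ b, l i * (A i a b * F a b) := by
    intro a
    simp only [Finset.sum_mul]
    rw [Finset.sum_comm]
    exact Finset.sum_congr rfl fun i _ => Finset.sum_congr rfl fun b _ => by ring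
  rw [Finset.sum_congr rfl fun a _ => h1 a, Finset.sum_comm]
  refine Finset.sum_congr rfl fun i _ => ?_
  simp only [Finset.mul_sum]

theorem quad_form (R : Ten n) (x y : Fin n → ℝ) :
    quad R x y = ∑ a, ∑ c, (x a * x c) * ∑ b, ∑ d, (y b * y d) * R a b c d := by
  unfold quad
  refine Finset.sum_congr rfl fun a _ => ?_
  rw [Finset.sum_comm]
  refine Finset.sum_congr rfl fun c _ => ?_
  simp only [Finset.mul_sum]
  refine Finset.sum_congr rfl fun b _ => Finset.sum_congr rfl fun d _ => ?_
  ring

theorem quad_symm {R : Ten n} (hR : IsCurv R) (x y : Fin n → ℝ) : quad R x y = quad R y x := by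
  unfold quad
  rw [Finset.sum_comm]
  refine Finset.sum_congr rfl fun b _ => Finset.sum_congr rfl fun a _ => ?_
  rw [Finset.sum_comm]
  refine Finset.sum_congr rfl fun d _ => Finset.sum_congr rfl fun c _ => ?_
  have h : R a b c d = R b a d c := by
    have h1 := hR.anti b a c d
    have h2 := hR.pair b a c d
    have h3 := hR.anti d c b a
    have h4 := hR.pair b a d c
    linarith
  rw [h]
  ring

theorem quad_self {R : Ten n} (hR : IsCurv R) (x : Fin n → ℝ) : quad R x x = 0 := by
  have h : quad R x x = - quad R x x := by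
    unfold quad
    calc ∑ a, ∑ b, ∑ c, ∑ d, R a b c d * x a * x b * x c * x d
        = ∑ b, ∑ a, ∑ c, ∑ d, R a b c d * x a * x b * x c * x d := Finset.sum_comm
      _ = - ∑ a, ∑ b, ∑ c, ∑ d, R a b c d * x a * x b * x c * x d := by
        simp only [← Finset.sum_neg_distrib]
        refine Finset.sum_congr rfl fun a _ => Finset.sum_congr rfl fun b _ =>
          Finset.sum_congr rfl fun c _ => Finset.sum_congr rfl fun d _ => ?_
        rw [hR.anti a b c d]
        ring
  linarith

section
variable {R : Ten n} (x : Fin n → ℝ)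

/-- Jacobi operator as a matrix -/
def MJ (R : Ten n) (x : Fin n → ℝ) : Matrix (Fin n) (Fin n) ℝ := Matrix.of (Jm R x)

theorem Jm_symm (hR : IsCurv R) (a b : Fin n) : Jm R x a b = Jm R x b a := by
  unfold Jm
  rw [Finset.sum_comm]
  refine Finset.sum_congr rfl fun p _ => Finset.sum_congr rfl fun q _ => ?_
  rw [hR.pair p b q a]
  ring


theorem Jm_x (hR : IsCurv R) (a : Fin n) : ∑ b, Jm R x a b * x b = 0 := by
  unfold Jm
  have h : ∑ b, (∑ p, ∑ q, R p a q b * (x p * x q)) * x b =
      ∑ p, x p * (∑ b, ∑ q, R p a q b * x q * x b) := by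
    simp only [Finset.sum_mul, Finset.mul_sum]
    rw [Finset.sum_comm]
    refine Finset.sum_congr rfl fun p _ => Finset.sum_congr rfl fun b _ =>
      Finset.sum_congr rfl fun q _ => ?_
    ring
  rw [h]
  refine Finset.sum_eq_zero fun p _ => ?_
  have h2 : ∑ b, ∑ q, R p a q b * x q * x b = - ∑ b, ∑ q, R p a q b * x q * x b := by
    conv_lhs => rw [Finset.sum_comm]
    simp only [← Finset.sum_neg_distrib]
    refine Finset.sum_congr rfl fun b _ => Finset.sum_congr rfl fun q _ => ?_
    rw [anti' hR p a b q]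
    ring
  have h3 : ∑ b, ∑ q, R p a q b * x q * x b = 0 := by linarith
  rw [h3, mul_zero]


theorem MJ_symm (hR : IsCurv R) : (MJ R x).transpose = MJ R x := by
  ext a b
  exact Jm_symm x hR b a


theorem quad_J (R : Ten n) (x y : Fin n → ℝ) :
    quad R x y = ∑ a, ∑ b, Jm R x a b * (y a * y b) := by
  unfold quad Jm
  simp only [Finset.sum_mul]
  rw [Finset.sum_comm]
  refine Finset.sum_congr rfl fun b _ => ?_
  have h1 : ∀ p, ∑ c, ∑ d, R p b c d * x p * y b * x c * y d =
    ∑ d, ∑ c, R p b c d * x p * y b * x c * y d := fun p => Finset.sum_comm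
  simp only [h1]
  rw [Finset.sum_comm]
  refine Finset.sum_congr rfl fun d _ => Finset.sum_congr rfl fun p _ =>
    Finset.sum_congr rfl fun c _ => ?_
  ring


end

section
variable {R : Ten n} {x : Fin n → ℝ}

theorem tr_mul2 (A B : Matrix (Fin n) (Fin n) ℝ) :
    (A * B).trace = ∑ a, ∑ b, A a b * B b a := by
  simp only [Matrix.trace, Matrix.diag_apply, Matrix.mul_apply]


theorem tr_mul3 (A B C : Matrix (Fin n) (Fin n) ℝ) :
    (A * B * C).trace = ∑ a, ∑ b, ∑ c, A a b * B b c * C c a := by
  simp only [Matrix.trace, Matrix.diag_apply, Matrix.mul_apply, Finset.sum_mul]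
  exact Finset.sum_congr rfl fun a _ => Finset.sum_comm


theorem tr_MJ : (MJ R x).trace = jx R x := by
  simp only [Matrix.trace, Matrix.diag_apply, MJ, Matrix.of_apply, Jm, jx]
  rw [Finset.sum_comm]
  refine Finset.sum_congr rfl fun p _ => ?_
  rw [Finset.sum_comm]
  refine Finset.sum_congr rfl fun q _ => ?_
  unfold Rc
  rw [Finset.sum_mul]


theorem tr_JJ (hR : IsCurv R) : (MJ R x * MJ R x).trace = mJJ R x := by
  rw [tr_mul2]
  refine Finset.sum_congr rfl fun a _ => Finset.sum_congr rfl fun b _ => ?_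
  simp only [MJ, Matrix.of_apply]
  rw [Jm_symm x hR b a]


theorem tr_JJJ : (MJ R x * MJ R x * MJ R x).trace = mJJJ R x := tr_mul3 _ _ _


end
section
variable {m : ℕ} {R : Ten (m + 1)} {x : Fin (m + 1) → ℝ}

/-- For a unit vector `x` and an Einstein curvature tensor with `Ric = c`: an orthonormal basis `w` of
the orthogonal complement of `x` consisting of eigenvectors of the Jacobi operator of `x`. -/
theorem frame_data' (hR : IsCurv R) {c : ℝ} (hE : ∀ a b, Rc R a b = if a = b then c else 0)
    (hx : ∑ a, x a ^ 2 = 1) :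
    ∃ (w : Fin m → Fin (m + 1) → ℝ) (l : Fin m → ℝ),
      (∀ i j, ∑ a, w i a * w j a = if i = j then 1 else 0) ∧ (∀ i, ∑ a, w i a * x a = 0) ∧
      (∀ i, quad R x (w i) = l i) ∧ ∑ i, l i = c ∧
      (∀ i, ∑ j, quad R (w i) (w j) = c - l i) ∧
      mJJ R x = ∑ i, l i ^ 2 ∧ mJJJ R x = ∑ i, l i ^ 3 ∧
      mJSJ R x = ∑ i, ∑ j, l i * l j * quad R (w i) (w j) ∧
      (∀ a b, (∑ i, w i a * w i b) + x a * x b = if a = b then 1 else 0) ∧
      (∀ a b, Jm R x a b = ∑ i, l i * (w i a * w i b)) := by
  obtain ⟨w, l, h1, h2, hc, hJ⟩ := exists_frame (MJ R x) (MJ_symm x hR) x hx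
    (fun a => Jm_x x hR a)
  -- matrix form
  let W : Matrix (Fin m) (Fin (m + 1)) ℝ := Matrix.of w
  let Dg : Matrix (Fin m) (Fin m) ℝ := Matrix.diagonal l
  have hWW : W * W.transpose = 1 := by
    ext i j
    rw [Matrix.mul_apply, Matrix.one_apply]
    simpa [W] using h1 i j
  have hJW : MJ R x = W.transpose * Dg * W := by
    ext a b
    rw [hJ a b, Matrix.mul_apply]
    refine Finset.sum_congr rfl fun i _ => ?_
    rw [Matrix.mul_diagonal]
    simp only [W, Matrix.transpose_apply, Matrix.of_apply]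
    ring
  have hJJ : MJ R x * MJ R x = W.transpose * (Dg * Dg) * W := by
    rw [hJW]
    calc W.transpose * Dg * W * (W.transpose * Dg * W)
        = W.transpose * Dg * (W * W.transpose) * Dg * W := by simp only [Matrix.mul_assoc]
      _ = _ := by rw [hWW, Matrix.mul_one]; simp only [Matrix.mul_assoc]
  have hJJJ : MJ R x * MJ R x * MJ R x = W.transpose * (Dg * Dg * Dg) * W := by
    rw [hJJ, hJW]
    calc W.transpose * (Dg * Dg) * W * (W.transpose * Dg * W)
        = W.transpose * (Dg * Dg) * (W * W.transpose) * Dg * W := by simp only [Matrix.mul_assoc]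
      _ = _ := by rw [hWW, Matrix.mul_one]; simp only [Matrix.mul_assoc]
  have htr : ∀ A : Matrix (Fin m) (Fin m) ℝ, (W.transpose * A * W).trace = A.trace := by
    intro A
    rw [Matrix.mul_assoc, Matrix.trace_mul_comm, Matrix.mul_assoc, hWW, Matrix.mul_one]
  have t1 : jx R x = ∑ i, l i := by
    rw [← tr_MJ, hJW, htr]
    simp [Dg, Matrix.trace_diagonal]
  have t2 : mJJ R x = ∑ i, l i ^ 2 := by
    rw [← tr_JJ hR, hJJ, htr]
    simp only [Dg, Matrix.diagonal_mul_diagonal, Matrix.trace_diagonal]
    exact Finset.sum_congr rfl fun i _ => by ring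
  have t3 : mJJJ R x = ∑ i, l i ^ 3 := by
    rw [← tr_JJJ, hJJJ, htr]
    simp only [Dg, Matrix.diagonal_mul_diagonal, Matrix.trace_diagonal]
    exact Finset.sum_congr rfl fun i _ => by ring
  -- the sectional curvatures of the frame
  let K : Fin m → Fin m → ℝ := fun i j => quad R (w i) (w j)
  have hsym : ∀ i j, K i j = K j i := fun i j => quad_symm hR _ _
  have hd : ∀ i, K i i = 0 := fun i => quad_self hR _
  have hu : ∀ i, ∑ a, w i a ^ 2 = 1 := fun i => by
    have := h1 i i
    rw [if_pos rfl] at this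
    rw [← this]
    exact Finset.sum_congr rfl fun a _ => by ring
  have hJquad : ∀ i, quad R x (w i) = l i := by
    intro i
    rw [quad_J]
    have h5 : ∀ a b, Jm R x a b * (w i a * w i b) =
        (∑ j, l j * (w j a * w j b)) * (w i a * w i b) := fun a b => by
      rw [← hJ a b]
      rfl
    simp only [h5]
    rw [lin_sum l (fun j a b => w j a * w j b) (fun a b => w i a * w i b)]
    have h6 : ∀ j, ∑ a, ∑ b, w j a * w j b * (w i a * w i b) = if j = i then 1 else 0 := by
      intro j
      have : ∑ a, ∑ b, w j a * w j b * (w i a * w i b) =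
          (∑ a, w j a * w i a) * ∑ b, w j b * w i b := by
        rw [Finset.sum_mul_sum]
        exact Finset.sum_congr rfl fun a _ => Finset.sum_congr rfl fun b _ => by ring
      rw [this, h1 j i]
      split_ifs <;> simp
    simp only [h6]
    simp
  have hj : jx R x = c := by
    unfold jx
    have : ∀ p, ∑ q, Rc R p q * (x p * x q) = c * x p ^ 2 := by
      intro p
      simp only [hE]
      rw [Finset.sum_eq_single p]
      · rw [if_pos rfl]
        ring
      · intro q _ hq
        rw [if_neg (Ne.symm hq), zero_mul]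
      · simp
    simp only [this]
    rw [← Finset.mul_sum, hx, mul_one]
  have hs : ∑ i, l i = c := by rw [← t1, hj]
  have hrow : ∀ i, ∑ j, K i j = c - l i := by
    intro i
    have e1 : ∑ j, K i j + quad R (w i) x = c := by
      have e2 : ∀ y : Fin (m + 1) → ℝ, quad R (w i) y =
          ∑ b, ∑ d, (y b * y d) * ∑ a, ∑ c, (w i a * w i c) * R a b c d := by
        intro y
        rw [quad_symm hR, quad_form]
        refine Finset.sum_congr rfl fun b _ => Finset.sum_congr rfl fun d _ => ?_
        congr 1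
        refine Finset.sum_congr rfl fun a _ => Finset.sum_congr rfl fun c _ => ?_
        have : R b a d c = R a b c d := by
          have h1 := hR.anti b a c d
          have h2 := hR.pair b a c d
          have h3 := hR.anti d c b a
          have h4 := hR.pair b a d c
          linarith
        rw [this]
      have e3 : ∑ j, K i j = ∑ b, ∑ d, (∑ j, w j b * w j d) *
          ∑ a, ∑ c, (w i a * w i c) * R a b c d := by
        have := lin_sum (fun _ => 1) (fun j b d => w j b * w j d)
          (fun b d => ∑ a, ∑ c, (w i a * w i c) * R a b c d)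
        simp only [one_mul] at this
        rw [this]
        exact Finset.sum_congr rfl fun j _ => e2 (w j)
      rw [e3, e2 x, ← Finset.sum_add_distrib]
      have e4 : ∀ b, (∑ d, (∑ j, w j b * w j d) * ∑ a, ∑ c, (w i a * w i c) * R a b c d) +
          ∑ d, (x b * x d) * ∑ a, ∑ c, (w i a * w i c) * R a b c d =
          ∑ a, ∑ c, (w i a * w i c) * R a b c b := by
        intro b
        rw [← Finset.sum_add_distrib]
        have : ∀ d, (∑ j, w j b * w j d) * ∑ a, ∑ c, (w i a * w i c) * R a b c d +
            (x b * x d) * ∑ a, ∑ c, (w i a * w i c) * R a b c d =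
            (if b = d then 1 else 0) * ∑ a, ∑ c, (w i a * w i c) * R a b c d := by
          intro d
          rw [← add_mul, hc b d]
        rw [Finset.sum_congr rfl fun d _ => this d]
        simp
      rw [Finset.sum_congr rfl fun b _ => e4 b]
      have e5 : ∑ b, ∑ a, ∑ c, (w i a * w i c) * R a b c b =
          ∑ a, ∑ c, (w i a * w i c) * Rc R a c := by
        rw [Finset.sum_comm]
        refine Finset.sum_congr rfl fun a _ => ?_
        rw [Finset.sum_comm]
        refine Finset.sum_congr rfl fun c _ => ?_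
        unfold Rc
        rw [Finset.mul_sum]
      rw [e5]
      have e6 : ∀ a, ∑ c, (w i a * w i c) * Rc R a c = c * w i a ^ 2 := by
        intro a
        simp only [hE]
        rw [Finset.sum_eq_single a]
        · rw [if_pos rfl]
          ring
        · intro q _ hq
          rw [if_neg (Ne.symm hq), mul_zero]
        · simp
      simp only [e6]
      rw [← Finset.mul_sum, hu i, mul_one]
    have e7 : quad R (w i) x = l i := by rw [quad_symm hR, hJquad i]
    linarith
  have t4 : mJSJ R x = ∑ i, ∑ j, l i * l j * K i j := by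
    unfold mJSJ
    have e1 : ∀ a b, ∑ c, ∑ d, Jm R x a b * Jm R x c d * R a c b d =
        (∑ i, l i * (w i a * w i b)) * ∑ c, ∑ d, Jm R x c d * R a c b d := by
      intro a b
      rw [← hJ a b]
      simp only [Finset.mul_sum]
      exact Finset.sum_congr rfl fun c _ => Finset.sum_congr rfl fun d _ => by
        rw [mul_assoc]
        rfl
    simp only [e1]
    rw [lin_sum l (fun i a b => w i a * w i b) (fun a b => ∑ c, ∑ d, Jm R x c d * R a c b d)]
    refine Finset.sum_congr rfl fun i _ => ?_
    have e2 : ∀ a b, ∑ c, ∑ d, Jm R x c d * R a c b d =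
        ∑ j, l j * ∑ c, ∑ d, (w j c * w j d) * R a c b d := by
      intro a b
      rw [← lin_sum l (fun j c d => w j c * w j d) (fun c d => R a c b d)]
      exact Finset.sum_congr rfl fun c _ => Finset.sum_congr rfl fun d _ => by
        rw [← hJ c d]
        rfl
    simp only [e2]
    have e3 : ∑ a, ∑ b, w i a * w i b * ∑ j, l j * ∑ c, ∑ d, (w j c * w j d) * R a c b d =
        ∑ j, l j * K i j := by
      have e4 : ∀ a b, w i a * w i b * ∑ j, l j * ∑ c, ∑ d, (w j c * w j d) * R a c b d =
          (∑ j, l j * (w i a * w i b * ∑ c, ∑ d, (w j c * w j d) * R a c b d)) * 1 := by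
        intro a b
        rw [mul_one, Finset.mul_sum]
        exact Finset.sum_congr rfl fun j _ => by ring
      simp only [e4]
      rw [lin_sum l (fun j a b => w i a * w i b * ∑ c, ∑ d, (w j c * w j d) * R a c b d)
        (fun _ _ => 1)]
      refine Finset.sum_congr rfl fun j _ => ?_
      congr 1
      simp only [mul_one]
      exact (quad_form R (w i) (w j)).symm
    rw [e3, Finset.mul_sum]
    exact Finset.sum_congr rfl fun j _ => by ring
  exact ⟨w, l, h1, h2, hJquad, hs, hrow, t2, t3, t4, hc, fun a b => hJ a b⟩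

theorem frame_data (hR : IsCurv R) {c : ℝ} (hE : ∀ a b, Rc R a b = if a = b then c else 0)
    (hx : ∑ a, x a ^ 2 = 1) :
    ∃ (w : Fin m → Fin (m + 1) → ℝ) (l : Fin m → ℝ),
      (∀ i j, ∑ a, w i a * w j a = if i = j then 1 else 0) ∧ (∀ i, ∑ a, w i a * x a = 0) ∧
      (∀ i, quad R x (w i) = l i) ∧ ∑ i, l i = c ∧
      (∀ i, ∑ j, quad R (w i) (w j) = c - l i) ∧
      mJJ R x = ∑ i, l i ^ 2 ∧ mJJJ R x = ∑ i, l i ^ 3 ∧
      mJSJ R x = ∑ i, ∑ j, l i * l j * quad R (w i) (w j) := by
  obtain ⟨w, l, h1, h2, h3, h4, h5, h6, h7, h8, -, -⟩ := frame_data' hR hE hx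
  exact ⟨w, l, h1, h2, h3, h4, h5, h6, h7, h8⟩

end

/-- the sectional curvatures of the frame -/
theorem frame_sec {m : ℕ} {R : Ten (m + 1)} {x : Fin (m + 1) → ℝ} {w : Fin m → Fin (m + 1) → ℝ}
    (hx : ∑ a, x a ^ 2 = 1)
    (h1 : ∀ i j, ∑ a, w i a * w j a = if i = j then 1 else 0) (h2 : ∀ i, ∑ a, w i a * x a = 0)
    {Q : ℝ → Prop}
    (h : ∀ y z : Fin (m + 1) → ℝ, ∑ a, y a ^ 2 = 1 → ∑ a, z a ^ 2 = 1 → ∑ a, y a * z a = 0 →
      Q (quad R y z)) :
    (∀ i, Q (quad R x (w i))) ∧ ∀ i j, i ≠ j → Q (quad R (w i) (w j)) := by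
  have hu : ∀ i, ∑ a, w i a ^ 2 = 1 := fun i => by
    have := h1 i i
    rw [if_pos rfl] at this
    rw [← this]
    exact Finset.sum_congr rfl fun a _ => by ring
  refine ⟨fun i => h x (w i) hx (hu i) ?_, fun i j hij => h (w i) (w j) (hu i) (hu j) ?_⟩
  · rw [← h2 i]
    exact Finset.sum_congr rfl fun a _ => mul_comm _ _
  · rw [h1 i j, if_neg hij]


end Pool.Agent.K1H63.EB
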