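import Pool.Agent.K1H63.EB.Core

/-!
# Closed Einstein manifolds with an upper curvature bound: rigidity
-/

set_option autoImplicit false

open scoped BigOperators
open MeasureTheory

namespace Pool.Agent.K1H63.EB

/-- a vector field as a derivation -/
noncomputable def IsField.der {P : Type} {S : Subalgebra ℝ (P → ℝ)} {D : (P → ℝ) → P → ℝ}
    (h : IsField S D) : Derivation ℝ S S :=
  Derivation.mk'
    { toFun := fun f => ⟨D f, h.mem f f.2⟩
      map_add' := fun f g => Subtype.ext (h.add f f.2 g g.2)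
      map_smul' := fun c f => Subtype.ext (h.smul c f f.2) }
    (fun f g => Subtype.ext (h.leibniz f f.2 g g.2))

namespace FrameCalc

variable {n : ℕ} {P : Type} [TopologicalSpace P] [MeasurableSpace P] {μ : Measure P}
  (F : FrameCalc n P μ)

/-- the same data with derivations -/
noncomputable def bundle : FrameBundle n P μ where
  S := F.S
  integrable := fun f => F.integrable f f.2
  H := fun i => (F.H_field i).der
  V := fun a b => (F.V_field a b).der
  R := fun a b c d => ⟨F.R a b c d, F.R_mem a b c d⟩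
  curv := F.curv
  bianchi2 := fun m a b c d => Subtype.ext (funext fun p => F.bianchi2 m a b c d p)
  cartan := fun i j f => Subtype.ext (funext fun p => by
    have h := F.cartan i j f f.2 p
    have e1 : ((∑ a, ∑ b, (⟨F.R i j a b, F.R_mem i j a b⟩ : F.S) * (F.V_field a b).der f : F.S) :
        P → ℝ) p = ∑ a, ∑ b, F.R i j a b p * F.V a b f p := by
      simp only [AddSubmonoidClass.coe_finsetSum, Finset.sum_apply]
      rfl
    change F.H i (F.H j f) p - F.H j (F.H i f) p = (1 / 2) * _
    rw [h, e1])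
  equivariant := fun a b i j k l => Subtype.ext (funext fun p => by
    have h := F.equivariant a b i j k l p
    change F.V a b (F.R i j k l) p = _
    rw [h]
    rfl)
  stokes := fun i f => F.stokes i f f.2

theorem bundle_T (p : P) : F.bundle.T p = F.T p := rfl

theorem continuous_ev (f : F.bundle.S) : Continuous fun p => F.bundle.ev p f :=
  F.continuous f f.2

theorem continuous_boch {c : ℝ} (hE : ∀ p, IsEinstein (F.T p) c) :
    Continuous fun p => boch c (F.T p) := by
  have h1 : (fun p => boch c (F.T p)) =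
      fun p => F.bundle.ev p F.bundle.dR2 -
        2 * ∑ m, F.bundle.ev p (F.bundle.H m (F.bundle.X m)) := by
    funext p
    rw [F.bundle.dR2_ev hE p, bundle_T]
    ring
  rw [h1]
  exact (F.continuous_ev _).sub (continuous_const.mul
    (continuous_finsetSum _ fun m _ => F.continuous_ev _))

/-- If the curvature term is not positive, it vanishes and the curvature is parallel. -/
theorem parallel [μ.IsOpenPosMeasure] {c : ℝ} (hE : ∀ p, IsEinstein (F.T p) c)
    (hneg : ∀ p, boch c (F.T p) ≤ 0) :
    (∀ p, boch c (F.T p) = 0) ∧ ∀ m a b c d p, F.H m (F.R a b c d) p = 0 := by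
  obtain ⟨hi, he⟩ := F.bundle.integral_boch hE
  have h0 : 0 ≤ ∫ p, boch c (F.T p) ∂μ := F.bundle.integral_boch_nonneg hE
  have h1 : ∫ p, boch c (F.T p) ∂μ ≤ 0 := integral_nonpos hneg
  have h2 : ∫ p, boch c (F.T p) ∂μ = 0 := le_antisymm h1 h0
  constructor
  · have hi' : Integrable (fun p => -boch c (F.T p)) μ := hi.neg
    have hnn : (0 : P → ℝ) ≤ fun p => -boch c (F.T p) := fun p => neg_nonneg.2 (hneg p)
    have h3 : (fun p => -boch c (F.T p)) =ᵐ[μ] 0 := by
      refine (integral_eq_zero_iff_of_nonneg hnn hi').1 ?_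
      rw [integral_neg, h2, neg_zero]
    have hc : Continuous fun p => -boch c (F.T p) := (F.continuous_boch hE).neg
    have h4 := (Continuous.ae_eq_iff_eq μ hc continuous_zero).1 h3
    intro p
    have h5 : -boch c (F.T p) = 0 := congrFun h4 p
    linarith
  · have h3 : ∫ p, F.bundle.ev p F.bundle.dR2 ∂μ = 0 := by
      rw [← he]
      exact h2
    have h4 : (fun p => F.bundle.ev p F.bundle.dR2) =ᵐ[μ] 0 :=
      (integral_eq_zero_iff_of_nonneg (fun p => F.bundle.dR2_nonneg p)
        (F.bundle.ev_integrable _)).1 h3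
    have h5 := (Continuous.ae_eq_iff_eq μ (F.continuous_ev _) continuous_zero).1 h4
    intro m a b c d p
    have h6 : F.bundle.ev p F.bundle.dR2 = 0 := congrFun h5 p
    unfold FrameBundle.dR2 at h6
    simp only [map_sum, map_mul] at h6
    have g1 := (Finset.sum_eq_zero_iff_of_nonneg (fun _ _ => Finset.sum_nonneg fun _ _ =>
      Finset.sum_nonneg fun _ _ => Finset.sum_nonneg fun _ _ => Finset.sum_nonneg fun _ _ =>
      mul_self_nonneg _)).1 h6 m (Finset.mem_univ m)
    have g2 := (Finset.sum_eq_zero_iff_of_nonneg (fun _ _ =>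
      Finset.sum_nonneg fun _ _ => Finset.sum_nonneg fun _ _ => Finset.sum_nonneg fun _ _ =>
      mul_self_nonneg _)).1 g1 a (Finset.mem_univ a)
    have g3 := (Finset.sum_eq_zero_iff_of_nonneg (fun _ _ =>
      Finset.sum_nonneg fun _ _ => Finset.sum_nonneg fun _ _ =>
      mul_self_nonneg _)).1 g2 b (Finset.mem_univ b)
    have g4 := (Finset.sum_eq_zero_iff_of_nonneg (fun _ _ =>
      Finset.sum_nonneg fun _ _ => mul_self_nonneg _)).1 g3 c (Finset.mem_univ c)
    have g5 := (Finset.sum_eq_zero_iff_of_nonneg (fun _ _ => mul_self_nonneg _)).1 g4 d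
      (Finset.mem_univ d)
    exact mul_self_eq_zero.1 g5

end FrameCalc

/-- the inequality for all dimensions, with its equality case -/
theorem strict_all {m : ℕ} (L : Fin m → ℝ) (K : Fin m → Fin m → ℝ)
    (h : FData m (1579 / 1000) L K) :
    0 ≤ gfun L K ∧ (gfun L K = 0 → ∀ i, L i = 1) := by
  have h0 := gfun_ge (l := 579 / 1000) (by norm_num) le_rfl h.symm h.diag
    (fun i j hij => (h.le i j hij).trans (by norm_num)) h.row
    (fun i => (h.leL i).trans (by norm_num)) h.sum
  have hL : ∀ i, L i ≤ 1579 / 1000 := h.leL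
  have hterm : ∀ i, 0 ≤ (L i - 1) ^ 2 * (4 + 5 * (579 / 1000) - L i) * (1 + 579 / 1000 - L i) := by
    intro i
    have := hL i
    exact mul_nonneg (mul_nonneg (sq_nonneg _) (by linarith)) (by linarith)
  have hsum : 0 ≤ ∑ i, (L i - 1) ^ 2 * (4 + 5 * (579 / 1000) - L i) * (1 + 579 / 1000 - L i) :=
    Finset.sum_nonneg fun i _ => hterm i
  refine ⟨by nlinarith, fun hz => ?_⟩
  rw [hz, mul_zero] at h0
  have hz' : ∑ i, (L i - 1) ^ 2 * (4 + 5 * (579 / 1000) - L i) * (1 + 579 / 1000 - L i) = 0 :=
    le_antisymm h0 hsum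
  have h1 := (Finset.sum_eq_zero_iff_of_nonneg fun i _ => hterm i).1 hz'
  have h2 : ∀ i, L i = 1 ∨ L i = 1579 / 1000 := by
    intro i
    have h3 := h1 i (Finset.mem_univ i)
    rcases mul_eq_zero.1 h3 with h4 | h4
    · rcases mul_eq_zero.1 h4 with h5 | h5
      · left
        have := pow_eq_zero_iff two_ne_zero |>.1 h5
        linarith
      · exfalso
        have := hL i
        linarith
    · right
      linarith
  have h3 : ∑ i, (L i - 1) = 0 := by
    rw [Finset.sum_sub_distrib, h.sum]
    simp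
  have h4 : ∀ i, 0 ≤ L i - 1 := by
    intro i
    rcases h2 i with h5 | h5 <;> rw [h5] <;> norm_num
  have h5 := (Finset.sum_eq_zero_iff_of_nonneg fun i _ => h4 i).1 h3
  intro i
  have := h5 i (Finset.mem_univ i)
  linarith

/-- Rigidity under an upper curvature bound from a pointwise inequality. -/
theorem FrameCalc.rigid {m : ℕ} {b κ : ℝ}
    (hg : ∀ L K, FData m b L K → 0 ≤ gfun L K ∧ (gfun L K = 0 → ∀ i, L i = 1))
    {P : Type} [TopologicalSpace P] [MeasurableSpace P] {μ : Measure P} [μ.IsOpenPosMeasure]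
    (F : FrameCalc (m + 1) P μ) (hκ : 0 < κ)
    (hE : ∀ p, IsEinstein (F.T p) ((m : ℝ) * κ)) (hb : ∀ p, SecLE (F.T p) (b * κ)) (p : P) :
    IsConst (F.T p) κ :=
  const_scaled hg (F.curv p) hκ (hE p) (hb p)
    ((F.parallel hE fun q => boch_nonpos_scaled (fun L K h => (hg L K h).1) (F.curv q) hκ (hE q)
      (hb q)).1 p)

end Pool.Agent.K1H63.EB
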