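import Pool.Agent.K1H63.EB.Avg

/-!
# Averages of the monomials which are needed
-/

set_option autoImplicit false
set_option linter.unusedSimpArgs false

open scoped BigOperators

namespace Pool.Agent.K1H63.EB

variable {n : ℕ}

theorem ck (c : ℝ) (F : Fin n → ℝ) : ∑ a, c * F a = c * ∑ a, F a := by
  rw [Finset.mul_sum]

section
variable (F : Fin n → Fin n → Fin n → Fin n → ℝ)

theorem sw12 : ∑ a, ∑ b, ∑ c, ∑ d, F a b c d = ∑ a, ∑ b, ∑ c, ∑ d, F b a c d := by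
  rw [Finset.sum_comm]

theorem sw23 : ∑ a, ∑ b, ∑ c, ∑ d, F a b c d = ∑ a, ∑ b, ∑ c, ∑ d, F a c b d := by
  refine Finset.sum_congr rfl fun a _ => ?_
  rw [Finset.sum_comm]

theorem sw34 : ∑ a, ∑ b, ∑ c, ∑ d, F a b c d = ∑ a, ∑ b, ∑ c, ∑ d, F a b d c := by
  refine Finset.sum_congr rfl fun a _ => Finset.sum_congr rfl fun b _ => ?_
  rw [Finset.sum_comm]

theorem cyc : ∑ a, ∑ b, ∑ c, ∑ d, F a b c d = ∑ a, ∑ b, ∑ c, ∑ d, F d b a c := by
  rw [sw34 (fun a b c d => F d b a c), sw12 (fun a b c d => F c b a d),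
    sw23 (fun a b c d => F c a b d), sw12 (fun a b c d => F b a c d)]

end

theorem nS_form (R : Ten n) : ∑ a, ∑ b, ∑ p, ∑ q, R p a q b * R p a q b = nS R := by
  rw [sw23 (fun a b p q => R p a q b * R p a q b)]
  rw [sw12 (fun a p b q => R p a q b * R p a q b)]
  rw [sw34 (fun p a b q => R p a q b * R p a q b)]
  rfl

theorem nS_half {R : Ten n} (hR : IsCurv R) :
    ∑ a, ∑ b, ∑ p, ∑ q, R p a q b * R q a p b = (1 / 2) * nS R := by
  have h1 : ∑ a, ∑ b, ∑ p, ∑ q, R p a q b * (R p a q b + R a q p b + R q p a b) = 0 := by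
    refine Finset.sum_eq_zero fun a _ => Finset.sum_eq_zero fun b _ =>
      Finset.sum_eq_zero fun p _ => Finset.sum_eq_zero fun q _ => ?_
    rw [hR.bianchi p a q b, mul_zero]
  have h2 : ∑ a, ∑ b, ∑ p, ∑ q, R p a q b * R a q p b =
      - ∑ a, ∑ b, ∑ p, ∑ q, R p a q b * R q a p b := by
    simp only [← Finset.sum_neg_distrib]
    refine Finset.sum_congr rfl fun a _ => Finset.sum_congr rfl fun b _ =>
      Finset.sum_congr rfl fun p _ => Finset.sum_congr rfl fun q _ => ?_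
    rw [hR.anti q a p b]
    ring
  have h3 : ∑ a, ∑ b, ∑ p, ∑ q, R p a q b * R q p a b =
      - ∑ a, ∑ b, ∑ p, ∑ q, R p a q b * R q a p b := by
    rw [cyc (fun a b p q => R p a q b * R q p a b)]
    simp only [← Finset.sum_neg_distrib]
    refine Finset.sum_congr rfl fun a _ => Finset.sum_congr rfl fun b _ =>
      Finset.sum_congr rfl fun p _ => Finset.sum_congr rfl fun q _ => ?_
    rw [hR.anti q a p b]
    ring
  simp only [mul_add, Finset.sum_add_distrib, h2, h3, nS_form] at h1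
  linarith

theorem Rc_alt {R : Ten n} (hR : IsCurv R) (a b : Fin n) : ∑ p, R p a p b = Rc R a b := by
  unfold Rc
  refine Finset.sum_congr rfl fun p _ => ?_
  rw [hR.anti a p p b, anti' hR a p b p]
  ring


namespace Design
variable {ι : Type} [Fintype ι] (D : Design n ι) {R : Ten n}

theorem av_JJ (hR : IsCurv R) : D.av (mJJ R) = k4 n * (nR R + 3 / 2 * nS R) := by
  have h : D.av (mJJ R) = ∑ a, ∑ b, D.av (fun x => qf (fun p q => R p a q b) x *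
      qf (fun p q => R p a q b) x) := by
    simp only [← av_sum]
    rfl
  have h1 : ∑ a, ∑ b, ∑ p, ∑ q, R p a p b * R q a q b = nR R := by
    unfold nR
    refine Finset.sum_congr rfl fun a _ => Finset.sum_congr rfl fun b _ => ?_
    rw [← Rc_alt hR a b, Finset.sum_mul_sum]
  rw [h]
  simp only [quad2, ck (k4 n), Finset.sum_add_distrib]
  rw [h1, nS_form, nS_half hR]
  ring


theorem av_one [NeZero n] (c : ℝ) : D.av (fun _ => c) = c := by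
  unfold av
  rw [← Finset.sum_mul, D.zero', one_mul]


theorem av_add (φ ψ : (Fin n → ℝ) → ℝ) : D.av (fun x => φ x + ψ x) = D.av φ + D.av ψ := by
  unfold av
  rw [← Finset.sum_add_distrib]
  exact Finset.sum_congr rfl fun i _ => mul_add _ _ _


theorem av_cmul (c : ℝ) (φ : (Fin n → ℝ) → ℝ) : D.av (fun x => c * φ x) = c * D.av φ := by
  unfold av
  rw [Finset.mul_sum]
  refine Finset.sum_congr rfl fun i _ => ?_
  ring


theorem av_nonneg {φ : (Fin n → ℝ) → ℝ} (h : ∀ i, 0 ≤ φ (D.X i)) : 0 ≤ D.av φ :=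
  Finset.sum_nonneg fun i _ => mul_nonneg (D.w_nonneg i) (h i)


theorem n_JJJ0 (hR : IsCurv R) : ∑ a, ∑ b, ∑ c, ∑ p, ∑ q, ∑ r, R p a p b * R q b q c * R r c r a = (-1) * (- I4 R) := by
  have e : ∑ a, ∑ b, ∑ c, ∑ p, ∑ q, ∑ r, R p a p b * R q b q c * R r c r a = net R ![3, 0, 3, 1, 4, 1, 4, 2, 5, 2, 5, 0] := by
    rw [net_sum6]
    simp only [T3, Matrix.cons_val, Finset.sum_mul, Finset.mul_sum, mul_assoc]
  rw [e, net_eval hR (c := 5) (v := 0) (d0 := 4) (d1 := 1) (d2 := 7) (σ := ![3, 1, 0, 4, 2, 5]) (by decide)]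
  simp only [d4s, vals, Matrix.cons_val]
  push_cast
  ring


theorem n_JJJ1 (hR : IsCurv R) : ∑ a, ∑ b, ∑ c, ∑ p, ∑ q, ∑ r, R p a p b * R q b r c * R q c r a = (I6 R / 2) := by
  have e : ∑ a, ∑ b, ∑ c, ∑ p, ∑ q, ∑ r, R p a p b * R q b r c * R q c r a = net R ![3, 0, 3, 1, 4, 1, 5, 2, 4, 2, 5, 0] := by
    rw [net_sum6]
    simp only [T3, Matrix.cons_val, Finset.sum_mul, Finset.mul_sum, mul_assoc]
  rw [e, net_eval hR (c := 7) (v := 0) (d0 := 4) (d1 := 1) (d2 := 5) (σ := ![3, 1, 0, 4, 5, 2]) (by decide)]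
  simp only [d4s, vals, Matrix.cons_val]
  push_cast
  ring


theorem n_JJJ2 (hR : IsCurv R) : ∑ a, ∑ b, ∑ c, ∑ p, ∑ q, ∑ r, R p a p b * R q b r c * R r c q a = (I6 R) := by
  have e : ∑ a, ∑ b, ∑ c, ∑ p, ∑ q, ∑ r, R p a p b * R q b r c * R r c q a = net R ![3, 0, 3, 1, 4, 1, 5, 2, 5, 2, 4, 0] := by
    rw [net_sum6]
    simp only [T3, Matrix.cons_val, Finset.sum_mul, Finset.mul_sum, mul_assoc]
  rw [e, net_eval hR (c := 6) (v := 0) (d0 := 4) (d1 := 1) (d2 := 5) (σ := ![3, 1, 0, 4, 5, 2]) (by decide)]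
  simp only [d4s, vals, Matrix.cons_val]
  push_cast
  ring


theorem n_JJJ3 (hR : IsCurv R) : ∑ a, ∑ b, ∑ c, ∑ p, ∑ q, ∑ r, R p a q b * R p b q c * R r c r a = (I6 R / 2) := by
  have e : ∑ a, ∑ b, ∑ c, ∑ p, ∑ q, ∑ r, R p a q b * R p b q c * R r c r a = net R ![3, 0, 4, 1, 3, 1, 4, 2, 5, 2, 5, 0] := by
    rw [net_sum6]
    simp only [T3, Matrix.cons_val, Finset.sum_mul, Finset.mul_sum, mul_assoc]
  rw [e, net_eval hR (c := 7) (v := 4) (d0 := 4) (d1 := 1) (d2 := 5) (σ := ![5, 0, 2, 3, 4, 1]) (by decide)]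
  simp only [d4s, vals, Matrix.cons_val]
  push_cast
  ring


theorem n_JJJ4 (hR : IsCurv R) : ∑ a, ∑ b, ∑ c, ∑ p, ∑ q, ∑ r, R p a q b * R p b r c * R q c r a = (I7 R / 4) := by
  have e : ∑ a, ∑ b, ∑ c, ∑ p, ∑ q, ∑ r, R p a q b * R p b r c * R q c r a = net R ![3, 0, 4, 1, 3, 1, 5, 2, 4, 2, 5, 0] := by
    rw [net_sum6]
    simp only [T3, Matrix.cons_val, Finset.sum_mul, Finset.mul_sum, mul_assoc]
  rw [e, net_eval hR (c := 10) (v := 0) (d0 := 2) (d1 := 0) (d2 := 5) (σ := ![3, 0, 1, 4, 5, 2]) (by decide)]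
  simp only [d4s, vals, Matrix.cons_val]
  push_cast
  ring


theorem n_JJJ5 (hR : IsCurv R) : ∑ a, ∑ b, ∑ c, ∑ p, ∑ q, ∑ r, R p a q b * R p b r c * R r c q a = (I7 R / 2) := by
  have e : ∑ a, ∑ b, ∑ c, ∑ p, ∑ q, ∑ r, R p a q b * R p b r c * R r c q a = net R ![3, 0, 4, 1, 3, 1, 5, 2, 5, 2, 4, 0] := by
    rw [net_sum6]
    simp only [T3, Matrix.cons_val, Finset.sum_mul, Finset.mul_sum, mul_assoc]
  rw [e, net_eval hR (c := 9) (v := 3) (d0 := 4) (d1 := 2) (d2 := 2) (σ := ![5, 2, 3, 1, 0, 4]) (by decide)]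
  simp only [d4s, vals, Matrix.cons_val]
  push_cast
  ring


theorem n_JJJ6 (hR : IsCurv R) : ∑ a, ∑ b, ∑ c, ∑ p, ∑ q, ∑ r, R p a q b * R q b p c * R r c r a = (I6 R) := by
  have e : ∑ a, ∑ b, ∑ c, ∑ p, ∑ q, ∑ r, R p a q b * R q b p c * R r c r a = net R ![3, 0, 4, 1, 4, 1, 3, 2, 5, 2, 5, 0] := by
    rw [net_sum6]
    simp only [T3, Matrix.cons_val, Finset.sum_mul, Finset.mul_sum, mul_assoc]
  rw [e, net_eval hR (c := 6) (v := 4) (d0 := 4) (d1 := 1) (d2 := 5) (σ := ![5, 0, 2, 3, 4, 1]) (by decide)]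
  simp only [d4s, vals, Matrix.cons_val]
  push_cast
  ring


theorem n_JJJ7 (hR : IsCurv R) : ∑ a, ∑ b, ∑ c, ∑ p, ∑ q, ∑ r, R p a q b * R r b p c * R q c r a = (-1) * (I8 R - I7 R / 4) := by
  have e : ∑ a, ∑ b, ∑ c, ∑ p, ∑ q, ∑ r, R p a q b * R r b p c * R q c r a = net R ![3, 0, 4, 1, 5, 1, 3, 2, 4, 2, 5, 0] := by
    rw [net_sum6]
    simp only [T3, Matrix.cons_val, Finset.sum_mul, Finset.mul_sum, mul_assoc]
  rw [e, net_eval hR (c := 12) (v := 0) (d0 := 2) (d1 := 6) (d2 := 5) (σ := ![3, 0, 1, 4, 2, 5]) (by decide)]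
  simp only [d4s, vals, Matrix.cons_val]
  push_cast
  ring


theorem n_JJJ8 (hR : IsCurv R) : ∑ a, ∑ b, ∑ c, ∑ p, ∑ q, ∑ r, R p a q b * R r b p c * R r c q a = (I7 R / 4) := by
  have e : ∑ a, ∑ b, ∑ c, ∑ p, ∑ q, ∑ r, R p a q b * R r b p c * R r c q a = net R ![3, 0, 4, 1, 5, 1, 3, 2, 5, 2, 4, 0] := by
    rw [net_sum6]
    simp only [T3, Matrix.cons_val, Finset.sum_mul, Finset.mul_sum, mul_assoc]
  rw [e, net_eval hR (c := 10) (v := 1) (d0 := 1) (d1 := 7) (d2 := 6) (σ := ![0, 3, 4, 1, 2, 5]) (by decide)]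
  simp only [d4s, vals, Matrix.cons_val]
  push_cast
  ring


theorem n_JJJ9 (hR : IsCurv R) : ∑ a, ∑ b, ∑ c, ∑ p, ∑ q, ∑ r, R p a q b * R q b r c * R p c r a = (I7 R / 2) := by
  have e : ∑ a, ∑ b, ∑ c, ∑ p, ∑ q, ∑ r, R p a q b * R q b r c * R p c r a = net R ![3, 0, 4, 1, 4, 1, 5, 2, 3, 2, 5, 0] := by
    rw [net_sum6]
    simp only [T3, Matrix.cons_val, Finset.sum_mul, Finset.mul_sum, mul_assoc]
  rw [e, net_eval hR (c := 9) (v := 0) (d0 := 4) (d1 := 2) (d2 := 2) (σ := ![4, 1, 3, 0, 2, 5]) (by decide)]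
  simp only [d4s, vals, Matrix.cons_val]
  push_cast
  ring


theorem n_JJJ10 (hR : IsCurv R) : ∑ a, ∑ b, ∑ c, ∑ p, ∑ q, ∑ r, R p a q b * R r b q c * R p c r a = (I7 R / 4) := by
  have e : ∑ a, ∑ b, ∑ c, ∑ p, ∑ q, ∑ r, R p a q b * R r b q c * R p c r a = net R ![3, 0, 4, 1, 5, 1, 4, 2, 3, 2, 5, 0] := by
    rw [net_sum6]
    simp only [T3, Matrix.cons_val, Finset.sum_mul, Finset.mul_sum, mul_assoc]
  rw [e, net_eval hR (c := 10) (v := 2) (d0 := 1) (d1 := 7) (d2 := 6) (σ := ![1, 5, 4, 2, 0, 3]) (by decide)]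
  simp only [d4s, vals, Matrix.cons_val]
  push_cast
  ring


theorem n_JJJ11 (hR : IsCurv R) : ∑ a, ∑ b, ∑ c, ∑ p, ∑ q, ∑ r, R p a q b * R r b r c * R p c q a = (I6 R / 2) := by
  have e : ∑ a, ∑ b, ∑ c, ∑ p, ∑ q, ∑ r, R p a q b * R r b r c * R p c q a = net R ![3, 0, 4, 1, 5, 1, 5, 2, 3, 2, 4, 0] := by
    rw [net_sum6]
    simp only [T3, Matrix.cons_val, Finset.sum_mul, Finset.mul_sum, mul_assoc]
  rw [e, net_eval hR (c := 7) (v := 2) (d0 := 0) (d1 := 5) (d2 := 1) (σ := ![5, 1, 2, 4, 3, 0]) (by decide)]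
  simp only [d4s, vals, Matrix.cons_val]
  push_cast
  ring


theorem n_JJJ12 (hR : IsCurv R) : ∑ a, ∑ b, ∑ c, ∑ p, ∑ q, ∑ r, R p a q b * R q b r c * R r c p a = (I7 R) := by
  have e : ∑ a, ∑ b, ∑ c, ∑ p, ∑ q, ∑ r, R p a q b * R q b r c * R r c p a = net R ![3, 0, 4, 1, 4, 1, 5, 2, 5, 2, 3, 0] := by
    rw [net_sum6]
    simp only [T3, Matrix.cons_val, Finset.sum_mul, Finset.mul_sum, mul_assoc]
  rw [e, net_eval hR (c := 8) (v := 0) (d0 := 4) (d1 := 0) (d2 := 4) (σ := ![4, 1, 3, 0, 5, 2]) (by decide)]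
  simp only [d4s, vals, Matrix.cons_val]
  push_cast
  ring


theorem n_JJJ13 (hR : IsCurv R) : ∑ a, ∑ b, ∑ c, ∑ p, ∑ q, ∑ r, R p a q b * R r b q c * R r c p a = (I7 R / 2) := by
  have e : ∑ a, ∑ b, ∑ c, ∑ p, ∑ q, ∑ r, R p a q b * R r b q c * R r c p a = net R ![3, 0, 4, 1, 5, 1, 4, 2, 5, 2, 3, 0] := by
    rw [net_sum6]
    simp only [T3, Matrix.cons_val, Finset.sum_mul, Finset.mul_sum, mul_assoc]
  rw [e, net_eval hR (c := 9) (v := 1) (d0 := 0) (d1 := 6) (d2 := 6) (σ := ![3, 0, 4, 1, 2, 5]) (by decide)]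
  simp only [d4s, vals, Matrix.cons_val]
  push_cast
  ring


theorem n_JJJ14 (hR : IsCurv R) : ∑ a, ∑ b, ∑ c, ∑ p, ∑ q, ∑ r, R p a q b * R r b r c * R q c p a = (I6 R) := by
  have e : ∑ a, ∑ b, ∑ c, ∑ p, ∑ q, ∑ r, R p a q b * R r b r c * R q c p a = net R ![3, 0, 4, 1, 5, 1, 5, 2, 4, 2, 3, 0] := by
    rw [net_sum6]
    simp only [T3, Matrix.cons_val, Finset.sum_mul, Finset.mul_sum, mul_assoc]
  rw [e, net_eval hR (c := 6) (v := 2) (d0 := 0) (d1 := 5) (d2 := 1) (σ := ![5, 1, 2, 4, 3, 0]) (by decide)]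
  simp only [d4s, vals, Matrix.cons_val]
  push_cast
  ring


theorem av_JJJ (hR : IsCurv R) : D.av (mJJJ R) =
    k6 n * (I4 R + 9 / 2 * I6 R + 7 / 2 * I7 R - I8 R) := by
  have h : D.av (mJJJ R) = ∑ a, ∑ b, ∑ c, D.av (fun x => qf (fun p q => R p a q b) x * qf (fun p q => R p b q c) x * qf (fun p q => R p c q a) x) := by
    simp only [← av_sum]
    rfl

  rw [h]
  simp (maxSteps := 2000000) only [quad3, ck (k6 n), Finset.sum_add_distrib]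
  rw [n_JJJ0 hR, n_JJJ1 hR, n_JJJ2 hR, n_JJJ3 hR, n_JJJ4 hR, n_JJJ5 hR, n_JJJ6 hR, n_JJJ7 hR, n_JJJ8 hR, n_JJJ9 hR, n_JJJ10 hR, n_JJJ11 hR, n_JJJ12 hR, n_JJJ13 hR, n_JJJ14 hR]
  all_goals ring


theorem n_JSJ0 (hR : IsCurv R) : ∑ a, ∑ b, ∑ c, ∑ d, ∑ p, ∑ q, R p a p b * R q c q d * R a c b d = (I5 R) := by
  have e : ∑ a, ∑ b, ∑ c, ∑ d, ∑ p, ∑ q, R p a p b * R q c q d * R a c b d = net R ![4, 0, 4, 1, 5, 2, 5, 3, 0, 2, 1, 3] := by
    rw [net_sum6]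
    simp only [T3, Matrix.cons_val, Finset.sum_mul, Finset.mul_sum, mul_assoc]
  rw [e, net_eval hR (c := 4) (v := 1) (d0 := 0) (d1 := 0) (d2 := 3) (σ := ![4, 0, 1, 2, 3, 5]) (by decide)]
  simp only [d4s, vals, Matrix.cons_val]
  push_cast
  ring


theorem n_JSJ1 (hR : IsCurv R) : ∑ a, ∑ b, ∑ c, ∑ d, ∑ p, ∑ q, R p a q b * R p c q d * R a c b d = (I8 R) := by
  have e : ∑ a, ∑ b, ∑ c, ∑ d, ∑ p, ∑ q, R p a q b * R p c q d * R a c b d = net R ![4, 0, 5, 1, 4, 2, 5, 3, 0, 2, 1, 3] := by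
    rw [net_sum6]
    simp only [T3, Matrix.cons_val, Finset.sum_mul, Finset.mul_sum, mul_assoc]
  rw [e, net_eval hR (c := 11) (v := 0) (d0 := 0) (d1 := 0) (d2 := 0) (σ := ![4, 0, 5, 1, 2, 3]) (by decide)]
  simp only [d4s, vals, Matrix.cons_val]
  push_cast
  ring


theorem n_JSJ2 (hR : IsCurv R) : ∑ a, ∑ b, ∑ c, ∑ d, ∑ p, ∑ q, R p a q b * R q c p d * R a c b d = (I8 R - I7 R / 4) := by
  have e : ∑ a, ∑ b, ∑ c, ∑ d, ∑ p, ∑ q, R p a q b * R q c p d * R a c b d = net R ![4, 0, 5, 1, 5, 2, 4, 3, 0, 2, 1, 3] := by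
    rw [net_sum6]
    simp only [T3, Matrix.cons_val, Finset.sum_mul, Finset.mul_sum, mul_assoc]
  rw [e, net_eval hR (c := 12) (v := 0) (d0 := 0) (d1 := 4) (d2 := 0) (σ := ![4, 0, 5, 1, 3, 2]) (by decide)]
  simp only [d4s, vals, Matrix.cons_val]
  push_cast
  ring


theorem av_JSJ (hR : IsCurv R) : D.av (mJSJ R) =
    k4 n * (I5 R - 1 / 4 * I7 R + 2 * I8 R) := by
  have h : D.av (mJSJ R) = ∑ a, ∑ b, ∑ c, ∑ d, D.av (fun x => qf (fun p q => R p a q b) x * qf (fun p q => R p c q d) x * (R a c b d)) := by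
    simp only [← av_sum]
    rfl

  rw [h]
  simp (maxSteps := 2000000) only [quad2Y, ck (k4 n), Finset.sum_add_distrib]
  rw [n_JSJ0 hR, n_JSJ1 hR, n_JSJ2 hR]
  all_goals ring


end Design
end Pool.Agent.K1H63.EB
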