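import Pool.Agent.K1H63.EB.Core

/-!
# The inequality for an upper bound `b = 8 m / (5 m - 3)`

`b = 8 (n - 1) / (5 n - 8)`, `n = m + 1`: the largest sectional curvature of the projective planes over
`ℂ`, `ℍ`, `𝕆` for `n = 4, 8, 16` (with `Ric = n - 1`).
-/

set_option autoImplicit false

open scoped BigOperators

namespace Pool.Agent.K1H63.EB

/-- the lower bound obtained from the dual variables `ψ` -/
noncomputable def val (m : ℕ) (x ψ : Fin m → ℝ) : ℝ :=
  ((m : ℝ) + 5) * ∑ a, x a ^ 3 + 2 * ((m : ℝ) - 3) / ((m : ℝ) + 1) * (∑ a, x a) * ∑ a, x a ^ 2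
    + 10 * ∑ a, ψ a * (∑ b, x b - x a) - 8 / ((m : ℝ) + 1) * (∑ a, x a) ^ 3

/-- the finite inequality -/
def Cert (m : ℕ) : Prop := ∀ x : Fin m → ℝ, Antitone x → (∀ a, 0 ≤ x a) → ∃ ψ : Fin m → ℝ,
  (∀ a b, a ≠ b → ψ a + ψ b ≤ x a * x b) ∧ 0 ≤ val m x ψ ∧
  (val m x ψ = 0 → (∀ a b, x a = x b) ∨ ∀ a, x a = 0 ∨ x a = 2 * (∑ b, x b) / ((m : ℝ) + 1))

/-- the bound -/
noncomputable def bd (m : ℕ) : ℝ := 8 * (m : ℝ) / (5 * (m : ℝ) - 3)

theorem bd_eq {m : ℕ} (hm : 1 ≤ m) : bd m * (5 * (m : ℝ) - 3) = 8 * (m : ℝ) := by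
  have h : (1 : ℝ) ≤ m := by exact_mod_cast hm
  unfold bd
  have : 5 * (m : ℝ) - 3 ≠ 0 := by
    have : 0 < 5 * (m : ℝ) - 3 := by linarith
    exact this.ne'
  exact div_mul_cancel₀ _ this

theorem bd_gt {m : ℕ} (hm : 1 ≤ m) : 1 < bd m := by
  have h : (1 : ℝ) ≤ m := by exact_mod_cast hm
  unfold bd
  rw [lt_div_iff₀ (by linarith)]
  linarith

theorem val_comp {m : ℕ} (x ψ : Fin m → ℝ) (σ : Equiv.Perm (Fin m)) :
    val m (x ∘ σ) (ψ ∘ σ) = val m x ψ := by
  unfold val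
  simp only [Function.comp]
  rw [Equiv.sum_comp σ (fun a => x a ^ 3), Equiv.sum_comp σ (fun a => x a ^ 2),
    Equiv.sum_comp σ x]
  rw [Equiv.sum_comp σ (fun a => ψ a * (∑ b, x b - x a))]

/-- the same without the order -/
theorem Cert.gen {m : ℕ} (hc : Cert m) (x : Fin m → ℝ) (h0 : ∀ a, 0 ≤ x a) : ∃ ψ : Fin m → ℝ,
    (∀ a b, a ≠ b → ψ a + ψ b ≤ x a * x b) ∧ 0 ≤ val m x ψ ∧
    (val m x ψ = 0 →
      (∀ a b, x a = x b) ∨ ∀ a, x a = 0 ∨ x a = 2 * (∑ b, x b) / ((m : ℝ) + 1)) := by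
  let σ := Tuple.sort (fun a => - x a)
  have hm : Antitone (x ∘ σ) := by
    have h := Tuple.monotone_sort (fun a => - x a)
    intro a b hab
    have := h hab
    simp only [Function.comp] at this ⊢
    linarith
  obtain ⟨ψ, h1, h2, h3⟩ := hc (x ∘ σ) hm (fun a => h0 _)
  have hψ : (ψ ∘ σ.symm) ∘ σ = ψ := by
    funext a
    simp
  have hv : val m x (ψ ∘ σ.symm) = val m (x ∘ σ) ψ := by
    rw [← val_comp x (ψ ∘ σ.symm) σ, hψ]
  refine ⟨ψ ∘ σ.symm, ?_, ?_, ?_⟩
  · intro a b hab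
    have := h1 (σ.symm a) (σ.symm b) (fun h => hab (σ.symm.injective h))
    simpa using this
  · rw [hv]
    exact h2
  · intro h
    rw [hv] at h
    have hs : ∑ b, (x ∘ σ) b = ∑ b, x b := Equiv.sum_comp σ x
    rcases h3 h with h4 | h4
    · left
      intro a b
      have := h4 (σ.symm a) (σ.symm b)
      simpa using this
    · right
      intro a
      have := h4 (σ.symm a)
      rw [hs] at this
      simpa using this

/-- the inequality for the data of an eigenframe -/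
theorem gfun_of_cert {m : ℕ} (hm : 1 ≤ m) (hc : Cert m) {L : Fin m → ℝ}
    {K : Fin m → Fin m → ℝ} (h : FData m (bd m) L K) :
    0 ≤ gfun L K ∧ (gfun L K = 0 → (∀ i, L i = 1) ∨ ∀ i, L i = bd m ∨ L i = bd m / 4) := by
  classical
  have hm1 : (1 : ℝ) ≤ m := by exact_mod_cast hm
  set b := bd m with hb
  have hbe : b * (5 * (m : ℝ) - 3) = 8 * (m : ℝ) := bd_eq hm
  let x : Fin m → ℝ := fun i => b - L i
  have hx0 : ∀ i, 0 ≤ x i := fun i => sub_nonneg.2 (h.leL i)
  obtain ⟨ψ, hp, hv, he⟩ := hc.gen x hx0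
  let k : Fin m → Fin m → ℝ := fun i j => if i = j then 0 else b - K i j
  have hk0 : ∀ i j, 0 ≤ k i j := by
    intro i j
    by_cases hij : i = j
    · simp [k, hij]
    · simp only [k, if_neg hij]
      linarith [h.le i j hij]
  have hksym : ∀ i j, k i j = k j i := by
    intro i j
    by_cases hij : i = j
    · simp [k, hij]
    · simp only [k, if_neg hij, if_neg (Ne.symm hij), h.symm i j]
  have hS1 : ∑ i, x i = (m : ℝ) * (b - 1) := by
    simp only [x, Finset.sum_sub_distrib, h.sum]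
    simp
    ring
  have hkrow : ∀ i, ∑ j, k i j = ∑ j, x j - x i := by
    intro i
    have e : ∀ j, k i j = (b - K i j) - (if i = j then b else 0) := by
      intro j
      by_cases hij : i = j
      · simp [k, hij, h.diag]
      · simp [k, hij]
    rw [hS1]
    simp only [e, Finset.sum_sub_distrib, h.row, x]
    simp
    ring
  -- the transport bound
  have hX : 2 * ∑ i, ψ i * (∑ j, x j - x i) ≤ ∑ i, ∑ j, x i * x j * k i j := by
    have e1 : ∀ i j, ψ i * k i j + ψ j * k j i ≤ x i * x j * k i j := by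
      intro i j
      by_cases hij : i = j
      · simp [k, hij]
      · rw [hksym j i, ← add_mul]
        exact mul_le_mul_of_nonneg_right (hp i j hij) (hk0 i j)
    have e2 : ∑ i, ∑ j, ψ j * k j i = ∑ i, ψ i * (∑ j, x j - x i) := by
      rw [Finset.sum_comm]
      refine Finset.sum_congr rfl fun i _ => ?_
      rw [← Finset.mul_sum, hkrow]
    have e3 : ∑ i, ∑ j, ψ i * k i j = ∑ i, ψ i * (∑ j, x j - x i) := by
      refine Finset.sum_congr rfl fun i _ => ?_
      rw [← Finset.mul_sum, hkrow]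
    calc 2 * ∑ i, ψ i * (∑ j, x j - x i) = ∑ i, ∑ j, (ψ i * k i j + ψ j * k j i) := by
          simp only [Finset.sum_add_distrib]
          rw [e2, e3]
          ring
      _ ≤ _ := Finset.sum_le_sum fun i _ => Finset.sum_le_sum fun j _ => e1 i j
  -- sums
  have hL : ∀ i, L i = b - x i := fun i => by simp [x]
  have h2 : ∑ i, L i ^ 2 = (m : ℝ) * b ^ 2 - 2 * b * ∑ i, x i + ∑ i, x i ^ 2 := by
    have e : ∀ i, L i ^ 2 = b ^ 2 - 2 * b * x i + x i ^ 2 := fun i => by rw [hL i]; ring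
    simp only [e, Finset.sum_add_distrib, Finset.sum_sub_distrib, ← Finset.mul_sum]
    simp
  have h3 : ∑ i, L i ^ 3 = (m : ℝ) * b ^ 3 - 3 * b ^ 2 * ∑ i, x i + 3 * b * ∑ i, x i ^ 2
      - ∑ i, x i ^ 3 := by
    have e : ∀ i, L i ^ 3 = b ^ 3 - 3 * b ^ 2 * x i + 3 * b * x i ^ 2 - x i ^ 3 :=
      fun i => by rw [hL i]; ring
    simp only [e, Finset.sum_add_distrib, Finset.sum_sub_distrib, ← Finset.mul_sum]
    simp
  have hQ : ∑ i, ∑ j, L i * L j * K i j = b * ((m : ℝ) ^ 2 - ∑ i, L i ^ 2)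
      - (b ^ 2 * (((m : ℝ) - 1) * ∑ i, x i) - 2 * b * ((∑ i, x i) ^ 2 - ∑ i, x i ^ 2)
        + ∑ i, ∑ j, x i * x j * k i j) := by
    have e : ∀ i j, L i * L j * K i j = b * (L i * L j) - (if i = j then b * L i ^ 2 else 0)
        - (b ^ 2 * k i j - b * (x i * k i j) - b * (x j * k j i) + x i * x j * k i j) := by
      intro i j
      by_cases hij : i = j
      · subst hij
        simp only [k, if_true, h.diag]
        ring
      · rw [hksym j i]
        simp only [k, if_neg hij]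
        rw [hL i, hL j]
        ring
    have f1 : ∑ i, ∑ j, b * (L i * L j) = b * (m : ℝ) ^ 2 := by
      have : ∀ i, ∑ j, b * (L i * L j) = b * (m : ℝ) * L i := by
        intro i
        have : ∀ j, b * (L i * L j) = b * L i * L j := fun j => by ring
        simp only [this]
        rw [← Finset.mul_sum, h.sum]
        ring
      simp only [this]
      rw [← Finset.mul_sum, h.sum]
      ring
    have f2 : ∑ i, ∑ j, (if i = j then b * L i ^ 2 else 0) = b * ∑ i, L i ^ 2 := by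
      simp only [Finset.sum_ite_eq, Finset.mem_univ, if_true]
      rw [Finset.mul_sum]
    have f3 : ∑ i, ∑ j, b ^ 2 * k i j = b ^ 2 * (((m : ℝ) - 1) * ∑ i, x i) := by
      simp only [← Finset.mul_sum, hkrow, Finset.sum_sub_distrib]
      simp
      left
      ring
    have f4 : ∑ i, ∑ j, b * (x i * k i j) = b * ((∑ i, x i) ^ 2 - ∑ i, x i ^ 2) := by
      simp only [← Finset.mul_sum, hkrow]
      congr 1
      simp only [mul_sub, Finset.sum_sub_distrib]
      rw [← Finset.sum_mul]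
      congr 1
      · ring
      · exact Finset.sum_congr rfl fun i _ => by ring
    have f5 : ∑ i, ∑ j, b * (x j * k j i) = b * ((∑ i, x i) ^ 2 - ∑ i, x i ^ 2) := by
      rw [Finset.sum_comm]
      exact f4
    simp only [e, Finset.sum_add_distrib, Finset.sum_sub_distrib]
    rw [f1, f2, f3, f4, f5]
    ring
  obtain ⟨u, hu, hrel⟩ : ∃ u : ℝ, b = 1 + u * ((m : ℝ) + 1) ∧ u * (5 * (m : ℝ) - 3) = 3 := by
    have hm0 : (m : ℝ) + 1 ≠ 0 := by positivity
    refine ⟨(b - 1) / ((m : ℝ) + 1), ?_, ?_⟩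
    · rw [div_mul_cancel₀ _ hm0]
      ring
    · rw [div_mul_eq_mul_div, div_eq_iff hm0]
      linarith
  have hg : gfun L K = val m x ψ + 5 * (∑ i, ∑ j, x i * x j * k i j
      - 2 * ∑ i, ψ i * (∑ j, x j - x i)) := by
    unfold gfun val
    rw [hQ, h2, h3, hS1, hu]
    have hm0 : (m : ℝ) + 1 ≠ 0 := by positivity
    have e1 : 2 * ((m : ℝ) - 3) / ((m : ℝ) + 1) * ((m : ℝ) * (1 + u * ((m : ℝ) + 1) - 1)) =
        2 * ((m : ℝ) - 3) * ((m : ℝ) * u) := by
      field_simp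
      ring
    have e2 : 8 / ((m : ℝ) + 1) * ((m : ℝ) * (1 + u * ((m : ℝ) + 1) - 1)) ^ 3 =
        8 * (m : ℝ) ^ 3 * u ^ 3 * ((m : ℝ) + 1) ^ 2 := by
      field_simp
      ring
    rw [e1, e2]
    linear_combination (-(m : ℝ) * ∑ i, x i ^ 2
      + (m : ℝ) ^ 2 * ((m : ℝ) + 1) ^ 2 * u ^ 2) * hrel
  constructor
  · rw [hg]
    linarith
  · intro hz
    rw [hg] at hz
    have hv0 : val m x ψ = 0 := by linarith
    have hmp : (0 : ℝ) < m := by linarith
    rcases he hv0 with h4 | h4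
    · left
      intro i
      have h5 : ∑ j, x j = (m : ℝ) * x i := by
        rw [Finset.sum_congr rfl fun j _ => h4 j i]
        simp
      rw [hS1] at h5
      have h6 : b - 1 = x i := mul_left_cancel₀ hmp.ne' h5
      rw [hL i]
      linarith
    · right
      intro i
      rcases h4 i with h5 | h5
      · left
        rw [hL i, h5, sub_zero]
      · right
        have hm0 : (m : ℝ) + 1 ≠ 0 := by positivity
        have h6 : 2 * ((m : ℝ) * (b - 1)) / ((m : ℝ) + 1) = 2 * (m : ℝ) * u := by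
          rw [hu]
          field_simp
          ring
        rw [hL i, h5, hS1, h6]
        linear_combination (3 / 4) * hu - (1 / 4) * hrel

theorem sum_univ_nine (f : Fin 9 → ℝ) :
    ∑ i, f i = f 0 + f 1 + f 2 + f 3 + f 4 + f 5 + f 6 + f 7 + f 8 := by
  rw [Fin.sum_univ_castSucc, Fin.sum_univ_eight]
  rfl

theorem sum_univ_ten (f : Fin 10 → ℝ) :
    ∑ i, f i = f 0 + f 1 + f 2 + f 3 + f 4 + f 5 + f 6 + f 7 + f 8 + f 9 := by
  rw [Fin.sum_univ_castSucc, sum_univ_nine]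
  rfl

theorem cube_zero {y : ℝ} (h : 0 ≤ y) (h' : y * y * y ≤ 0) : y = 0 := by
  by_contra hne
  have h1 : 0 < y := lt_of_le_of_ne h (Ne.symm hne)
  have h2 : 0 < y * y * y := by positivity
  linarith

theorem sq_zero_or {y z : ℝ} (hy : 0 ≤ y) (hz : 0 ≤ z) (h' : y * y * z ≤ 0) : y = 0 ∨ z = 0 := by
  by_contra hne
  push Not at hne
  have h1 : 0 < y := lt_of_le_of_ne hy (Ne.symm hne.1)
  have h2 : 0 < z := lt_of_le_of_ne hz (Ne.symm hne.2)
  have h3 : 0 < y * y * z := by positivity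
  linarith

theorem pairs_of_lt {m : ℕ} {x ψ : Fin m → ℝ} (h : ∀ a b, a < b → ψ a + ψ b ≤ x a * x b) :
    ∀ a b, a ≠ b → ψ a + ψ b ≤ x a * x b := by
  intro a b hab
  rcases lt_or_gt_of_ne hab with h1 | h1
  · exact h a b h1
  · have := h b a h1
    linarith

end Pool.Agent.K1H63.EB
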