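import Pool.Agent.K1H63.EB.Exist
import Pool.Agent.K1H63.EB.Avg

/-!
# A quadrature formula with a given node
-/

set_option autoImplicit false

open scoped BigOperators

namespace Pool.Agent.K1H63.EB

variable {n : ℕ}

/-- inner product -/
def ip (u v : Fin n → ℝ) : ℝ := ∑ a, u a * v a

theorem ip_dl (u : Fin n → ℝ) (b : Fin n) : ip u (fun a => dl a b) = u b := by
  simp [ip, dl]

theorem sum5 (u g1 g2 g3 g4 g5 : Fin n → ℝ) (k B1 B2 B3 B4 B5 : ℝ) :
    ∑ a, u a * (k * (g1 a * B1 + g2 a * B2 + g3 a * B3 + g4 a * B4 + g5 a * B5)) =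
      k * (ip u g1 * B1 + ip u g2 * B2 + ip u g3 * B3 + ip u g4 * B4 + ip u g5 * B5) := by
  unfold ip
  simp only [Finset.sum_mul, Finset.mul_sum, mul_add, Finset.sum_add_distrib]
  congr 1
  · congr 1
    · congr 1
      · congr 1
        · exact Finset.sum_congr rfl fun a _ => by ring
        · exact Finset.sum_congr rfl fun a _ => by ring
      · exact Finset.sum_congr rfl fun a _ => by ring
    · exact Finset.sum_congr rfl fun a _ => by ring
  · exact Finset.sum_congr rfl fun a _ => by ring

namespace Design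

variable {ι : Type} [Fintype ι] (D : Design n ι)

theorem sum_ip (u : Fin n → ℝ) (M : ι → ℝ) :
    ∑ i, D.w i * (ip u (D.X i) * M i) = ∑ a, u a * ∑ i, D.w i * (D.X i a * M i) := by
  simp only [Finset.mul_sum]
  rw [Finset.sum_comm]
  refine Finset.sum_congr rfl fun i _ => ?_
  unfold ip
  rw [Finset.sum_mul, Finset.mul_sum]
  exact Finset.sum_congr rfl fun a _ => by ring

theorem pol1 (u : Fin n → ℝ) (b c d e f : Fin n) :
    ∑ i, D.w i * (ip u (D.X i) * (D.X i b * (D.X i c * D.X i d * (D.X i e * D.X i f)))) =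
      k6 n * (u b * (dl c d * dl e f + dl c e * dl d f + dl c f * dl d e)
        + u c * (dl b d * dl e f + dl b e * dl d f + dl b f * dl d e)
        + u d * (dl b c * dl e f + dl b e * dl c f + dl b f * dl c e)
        + u e * (dl b c * dl d f + dl b d * dl c f + dl b f * dl c d)
        + u f * (dl b c * dl d e + dl b d * dl c e + dl b e * dl c d)) := by
  rw [D.sum_ip]
  have h : ∀ a, ∑ i, D.w i * (D.X i a * (D.X i b * (D.X i c * D.X i d * (D.X i e * D.X i f)))) =
      k6 n * (dl a b * (dl c d * dl e f + dl c e * dl d f + dl c f * dl d e)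
        + dl a c * (dl b d * dl e f + dl b e * dl d f + dl b f * dl d e)
        + dl a d * (dl b c * dl e f + dl b e * dl c f + dl b f * dl c e)
        + dl a e * (dl b c * dl d f + dl b d * dl c f + dl b f * dl c d)
        + dl a f * (dl b c * dl d e + dl b d * dl c e + dl b e * dl c d)) := by
    intro a
    have := D.six a b c d e f
    rw [show ∑ i, D.w i * (D.X i a * (D.X i b * (D.X i c * D.X i d * (D.X i e * D.X i f)))) =
      ∑ i, D.w i * (D.X i a * D.X i b * (D.X i c * D.X i d) * (D.X i e * D.X i f)) from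
      Finset.sum_congr rfl fun i _ => by ring, this]
    ring
  simp only [h]
  rw [sum5 u (fun a => dl a b) (fun a => dl a c) (fun a => dl a d) (fun a => dl a e)
    (fun a => dl a f)]
  simp only [ip_dl]

theorem pol2 (u v : Fin n → ℝ) (c d e f : Fin n) :
    ∑ i, D.w i * (ip v (D.X i) * (ip u (D.X i) * (D.X i c * D.X i d * (D.X i e * D.X i f)))) =
      k6 n * (ip v u * (dl c d * dl e f + dl c e * dl d f + dl c f * dl d e)
        + v c * (u d * dl e f + u e * dl d f + u f * dl d e)
        + v d * (u c * dl e f + u e * dl c f + u f * dl c e)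
        + v e * (u c * dl d f + u d * dl c f + u f * dl c d)
        + v f * (u c * dl d e + u d * dl c e + u e * dl c d)) := by
  rw [D.sum_ip]
  have h : ∀ b, ∑ i, D.w i * (D.X i b * (ip u (D.X i) * (D.X i c * D.X i d *
      (D.X i e * D.X i f)))) =
      k6 n * (u b * (dl c d * dl e f + dl c e * dl d f + dl c f * dl d e)
        + dl b c * (u d * dl e f + u e * dl d f + u f * dl d e)
        + dl b d * (u c * dl e f + u e * dl c f + u f * dl c e)
        + dl b e * (u c * dl d f + u d * dl c f + u f * dl c d)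
        + dl b f * (u c * dl d e + u d * dl c e + u e * dl c d)) := by
    intro b
    have := D.pol1 u b c d e f
    rw [show ∑ i, D.w i * (D.X i b * (ip u (D.X i) * (D.X i c * D.X i d *
      (D.X i e * D.X i f)))) = ∑ i, D.w i * (ip u (D.X i) * (D.X i b * (D.X i c * D.X i d *
      (D.X i e * D.X i f)))) from
      Finset.sum_congr rfl fun i _ => by ring, this]
    ring
  simp only [h]
  rw [sum5 v u (fun a => dl a c) (fun a => dl a d) (fun a => dl a e)
    (fun a => dl a f)]
  simp only [ip_dl]

theorem pol3 (u v w : Fin n → ℝ) (d e f : Fin n) :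
    ∑ i, D.w i * (ip w (D.X i) * (ip v (D.X i) * (ip u (D.X i) * (D.X i d *
      (D.X i e * D.X i f))))) =
      k6 n * (ip w u * (v d * dl e f + v e * dl d f + v f * dl d e)
        + ip w v * (u d * dl e f + u e * dl d f + u f * dl d e)
        + w d * (ip v u * dl e f + v e * u f + v f * u e)
        + w e * (ip v u * dl d f + v d * u f + v f * u d)
        + w f * (ip v u * dl d e + v d * u e + v e * u d)) := by
  rw [D.sum_ip]
  have h : ∀ c, ∑ i, D.w i * (D.X i c * (ip v (D.X i) * (ip u (D.X i) * (D.X i d *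
      (D.X i e * D.X i f))))) =
      k6 n * (u c * (v d * dl e f + v e * dl d f + v f * dl d e)
        + v c * (u d * dl e f + u e * dl d f + u f * dl d e)
        + dl c d * (ip v u * dl e f + v e * u f + v f * u e)
        + dl c e * (ip v u * dl d f + v d * u f + v f * u d)
        + dl c f * (ip v u * dl d e + v d * u e + v e * u d)) := by
    intro c
    have := D.pol2 u v c d e f
    rw [show ∑ i, D.w i * (D.X i c * (ip v (D.X i) * (ip u (D.X i) * (D.X i d *
      (D.X i e * D.X i f))))) = ∑ i, D.w i * (ip v (D.X i) * (ip u (D.X i) * (D.X i c *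
      D.X i d * (D.X i e * D.X i f)))) from
      Finset.sum_congr rfl fun i _ => by ring, this]
    ring
  simp only [h]
  rw [sum5 w u v (fun a => dl a d) (fun a => dl a e) (fun a => dl a f)]
  simp only [ip_dl]

theorem pol4 (u v w s : Fin n → ℝ) (e f : Fin n) :
    ∑ i, D.w i * (ip s (D.X i) * (ip w (D.X i) * (ip v (D.X i) * (ip u (D.X i) *
      (D.X i e * D.X i f))))) =
      k6 n * (ip s u * (ip w v * dl e f + w e * v f + w f * v e)
        + ip s v * (ip w u * dl e f + w e * u f + w f * u e)
        + ip s w * (ip v u * dl e f + v e * u f + v f * u e)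
        + s e * (ip w u * v f + ip w v * u f + w f * ip v u)
        + s f * (ip w u * v e + ip w v * u e + w e * ip v u)) := by
  rw [D.sum_ip]
  have h : ∀ d, ∑ i, D.w i * (D.X i d * (ip w (D.X i) * (ip v (D.X i) * (ip u (D.X i) *
      (D.X i e * D.X i f))))) =
      k6 n * (u d * (ip w v * dl e f + w e * v f + w f * v e)
        + v d * (ip w u * dl e f + w e * u f + w f * u e)
        + w d * (ip v u * dl e f + v e * u f + v f * u e)
        + dl d e * (ip w u * v f + ip w v * u f + w f * ip v u)
        + dl d f * (ip w u * v e + ip w v * u e + w e * ip v u)) := by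
    intro d
    have := D.pol3 u v w d e f
    rw [show ∑ i, D.w i * (D.X i d * (ip w (D.X i) * (ip v (D.X i) * (ip u (D.X i) *
      (D.X i e * D.X i f))))) = ∑ i, D.w i * (ip w (D.X i) * (ip v (D.X i) * (ip u (D.X i) *
      (D.X i d * (D.X i e * D.X i f))))) from
      Finset.sum_congr rfl fun i _ => by ring, this]
    ring
  simp only [h]
  rw [sum5 s u v w (fun a => dl a e) (fun a => dl a f)]
  simp only [ip_dl]

theorem pol5 (u v w s t : Fin n → ℝ) (f : Fin n) :
    ∑ i, D.w i * (ip t (D.X i) * (ip s (D.X i) * (ip w (D.X i) * (ip v (D.X i) *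
      (ip u (D.X i) * D.X i f))))) =
      k6 n * (ip t u * (ip s v * w f + ip s w * v f + s f * ip w v)
        + ip t v * (ip s u * w f + ip s w * u f + s f * ip w u)
        + ip t w * (ip s u * v f + ip s v * u f + s f * ip v u)
        + ip t s * (ip w u * v f + ip w v * u f + w f * ip v u)
        + t f * (ip s u * ip w v + ip s v * ip w u + ip s w * ip v u)) := by
  rw [D.sum_ip]
  have h : ∀ e, ∑ i, D.w i * (D.X i e * (ip s (D.X i) * (ip w (D.X i) * (ip v (D.X i) *
      (ip u (D.X i) * D.X i f))))) =
      k6 n * (u e * (ip s v * w f + ip s w * v f + s f * ip w v)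
        + v e * (ip s u * w f + ip s w * u f + s f * ip w u)
        + w e * (ip s u * v f + ip s v * u f + s f * ip v u)
        + s e * (ip w u * v f + ip w v * u f + w f * ip v u)
        + dl e f * (ip s u * ip w v + ip s v * ip w u + ip s w * ip v u)) := by
    intro e
    have := D.pol4 u v w s e f
    rw [show ∑ i, D.w i * (D.X i e * (ip s (D.X i) * (ip w (D.X i) * (ip v (D.X i) *
      (ip u (D.X i) * D.X i f))))) = ∑ i, D.w i * (ip s (D.X i) * (ip w (D.X i) *
      (ip v (D.X i) * (ip u (D.X i) * (D.X i e * D.X i f))))) from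
      Finset.sum_congr rfl fun i _ => by ring, this]
    ring
  simp only [h]
  rw [sum5 t u v w s (fun a => dl a f)]
  simp only [ip_dl]

theorem pol6 (u v w s t r : Fin n → ℝ) :
    ∑ i, D.w i * (ip r (D.X i) * (ip t (D.X i) * (ip s (D.X i) * (ip w (D.X i) *
      (ip v (D.X i) * ip u (D.X i)))))) =
      k6 n * (ip r u * (ip t v * ip s w + ip t w * ip s v + ip t s * ip w v)
        + ip r v * (ip t u * ip s w + ip t w * ip s u + ip t s * ip w u)
        + ip r w * (ip t u * ip s v + ip t v * ip s u + ip t s * ip v u)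
        + ip r s * (ip t u * ip w v + ip t v * ip w u + ip t w * ip v u)
        + ip r t * (ip s u * ip w v + ip s v * ip w u + ip s w * ip v u)) := by
  rw [D.sum_ip]
  have h : ∀ f, ∑ i, D.w i * (D.X i f * (ip t (D.X i) * (ip s (D.X i) * (ip w (D.X i) *
      (ip v (D.X i) * ip u (D.X i)))))) =
      k6 n * (u f * (ip t v * ip s w + ip t w * ip s v + ip t s * ip w v)
        + v f * (ip t u * ip s w + ip t w * ip s u + ip t s * ip w u)
        + w f * (ip t u * ip s v + ip t v * ip s u + ip t s * ip v u)
        + s f * (ip t u * ip w v + ip t v * ip w u + ip t w * ip v u)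
        + t f * (ip s u * ip w v + ip s v * ip w u + ip s w * ip v u)) := by
    intro f
    have := D.pol5 u v w s t f
    rw [show ∑ i, D.w i * (D.X i f * (ip t (D.X i) * (ip s (D.X i) * (ip w (D.X i) *
      (ip v (D.X i) * ip u (D.X i)))))) = ∑ i, D.w i * (ip t (D.X i) * (ip s (D.X i) *
      (ip w (D.X i) * (ip v (D.X i) * (ip u (D.X i) * D.X i f))))) from
      Finset.sum_congr rfl fun i _ => by ring, this]
    ring
  simp only [h]
  rw [sum5 r u v w s t]

theorem ip_comm (u v : Fin n → ℝ) : ip u v = ip v u := by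
  unfold ip
  exact Finset.sum_congr rfl fun a _ => mul_comm _ _

theorem dl_comm (a b : Fin n) : dl a b = dl b a := by
  unfold dl
  by_cases h : a = b
  · simp [h]
  · simp [h, Ne.symm h]

/-- the image of the design under an orthogonal matrix -/
def rotate (O : Fin n → Fin n → ℝ) (h1 : ∀ a b, ip (O a) (O b) = dl a b)
    (h2 : ∀ y : Fin n → ℝ, ∑ a, y a ^ 2 = 1 → ∑ a, ip (O a) y ^ 2 = 1) : Design n ι where
  w := D.w
  X := fun i a => ip (O a) (D.X i)
  w_nonneg := D.w_nonneg
  unit := fun i => h2 _ (D.unit i)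
  six := by
    intro a b c d e f
    have h := D.pol6 (O f) (O e) (O d) (O c) (O b) (O a)
    simp only [h1] at h
    rw [show ∑ i, D.w i * (ip (O a) (D.X i) * ip (O b) (D.X i) * (ip (O c) (D.X i) *
      ip (O d) (D.X i)) * (ip (O e) (D.X i) * ip (O f) (D.X i))) =
      ∑ i, D.w i * (ip (O a) (D.X i) * (ip (O b) (D.X i) * (ip (O c) (D.X i) *
      (ip (O d) (D.X i) * (ip (O e) (D.X i) * ip (O f) (D.X i)))))) from
      Finset.sum_congr rfl fun i _ => by ring, h]
    ring

end Design

/-- the reflection exchanging two unit vectors -/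
theorem exists_refl (x y : Fin n → ℝ) (hx : ∑ a, x a ^ 2 = 1) (hy : ∑ a, y a ^ 2 = 1) :
    ∃ O : Fin n → Fin n → ℝ, (∀ a b, ip (O a) (O b) = dl a b) ∧
      (∀ z : Fin n → ℝ, ∑ a, z a ^ 2 = 1 → ∑ a, ip (O a) z ^ 2 = 1) ∧ ∀ a, ip (O a) y = x a := by
  by_cases h : x = y
  · refine ⟨fun a b => dl b a, ?_, ?_, ?_⟩
    · intro a b
      have : ip (fun c => dl c a) (fun c => dl c b) = dl a b := by
        rw [ip_dl, Design.dl_comm]
      exact this
    · intro z hz
      have : ∀ a, ip (fun b => dl b a) z = z a := fun a => by rw [Design.ip_comm, ip_dl]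
      simp only [this]
      exact hz
    · intro a
      rw [Design.ip_comm, ip_dl, h]
  · -- Householder
    let ρ : ℝ := ∑ a, (x a - y a) ^ 2
    have hρ : 0 < ρ := by
      obtain ⟨a, ha⟩ := Function.ne_iff.1 h
      exact Finset.sum_pos' (fun b _ => sq_nonneg _)
        ⟨a, Finset.mem_univ a, by
          have : x a - y a ≠ 0 := sub_ne_zero.2 ha
          positivity⟩
    let O : Fin n → Fin n → ℝ := fun a b => dl b a - 2 / ρ * ((x a - y a) * (x b - y b))
    have hip : ∀ (a : Fin n) (z : Fin n → ℝ), ip (O a) z =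
        z a - 2 / ρ * (x a - y a) * ∑ b, (x b - y b) * z b := by
      intro a z
      unfold ip
      have e : ∀ b, O a b * z b = dl b a * z b - 2 / ρ * (x a - y a) * ((x b - y b) * z b) := by
        intro b
        simp only [O]
        ring
      simp only [e, Finset.sum_sub_distrib, ← Finset.mul_sum]
      congr 1
      simp [dl]
    have hρe : ∑ b, (x b - y b) * (x b - y b) = ρ :=
      Finset.sum_congr rfl fun b _ => by ring
    refine ⟨O, ?_, ?_, ?_⟩
    · intro a b
      rw [hip a (O b)]
      have e : ∑ c, (x c - y c) * O b c = -(x b - y b) := by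
        have e1 : ∀ c, (x c - y c) * O b c = (x c - y c) * dl c b
            - 2 / ρ * (x b - y b) * ((x c - y c) * (x c - y c)) := by
          intro c
          simp only [O]
          ring
        simp only [e1, Finset.sum_sub_distrib, ← Finset.mul_sum]
        rw [hρe]
        have e2 : ∑ c, (x c - y c) * dl c b = x b - y b := by simp [dl]
        rw [e2]
        field_simp
        ring
      rw [e]
      simp only [O]
      field_simp
      ring
    · intro z hz
      let q : ℝ := ∑ b, (x b - y b) * z b
      have e : ∀ a, ip (O a) z ^ 2 = z a ^ 2 - 4 / ρ * q * ((x a - y a) * z a)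
          + 4 / ρ ^ 2 * q ^ 2 * ((x a - y a) * (x a - y a)) := by
        intro a
        rw [hip a z]
        change (z a - 2 / ρ * (x a - y a) * q) ^ 2 = _
        field_simp
        ring
      simp only [e, Finset.sum_add_distrib, Finset.sum_sub_distrib, ← Finset.mul_sum]
      rw [hρe, hz]
      change 1 - 4 / ρ * q * q + 4 / ρ ^ 2 * q ^ 2 * ρ = 1
      field_simp
      ring
    · intro a
      rw [hip a y]
      have e1 : ρ = 2 - 2 * ∑ b, x b * y b := by
        have e2 : ∀ b, (x b - y b) ^ 2 = x b ^ 2 + y b ^ 2 - 2 * (x b * y b) := fun b => by ring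
        simp only [ρ, e2, Finset.sum_add_distrib, Finset.sum_sub_distrib, ← Finset.mul_sum]
        rw [hx, hy]
        ring
      have e3 : ∑ b, (x b - y b) * y b = - (ρ / 2) := by
        have e4 : ∀ b, (x b - y b) * y b = x b * y b - y b ^ 2 := fun b => by ring
        simp only [e4, Finset.sum_sub_distrib]
        rw [hy, e1]
        ring
      rw [e3]
      field_simp
      ring

/-- a quadrature formula with a given node -/
theorem exists_design_node [NeZero n] (x : Fin n → ℝ) (hx : ∑ a, x a ^ 2 = 1) :
    ∃ (ι : Type) (_ : Fintype ι) (D : Design n ι) (j : ι), D.X j = x ∧ 0 < D.w j := by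
  obtain ⟨ι, _, ⟨D⟩⟩ := exists_design n
  obtain ⟨j, -, hj⟩ : ∃ j ∈ Finset.univ, 0 < D.w j := by
    by_contra hcon
    push Not at hcon
    have h1 : ∑ j, D.w j ≤ 0 := Finset.sum_nonpos fun j hj => hcon j hj
    rw [D.zero'] at h1
    linarith
  obtain ⟨O, h1, h2, h3⟩ := exists_refl x (D.X j) hx (D.unit j)
  exact ⟨ι, inferInstance, D.rotate O h1 h2, j, funext h3, hj⟩

end Pool.Agent.K1H63.EB
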