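import Pool.Agent.K1H63.EB.Calculus

/-!
# Curvature tensors whose Jacobi operators have two given eigenvalues
-/

set_option autoImplicit false

open scoped BigOperators

namespace Pool.Agent.K1H63.EB

/-- For every unit vector `x` the Jacobi operator `J` of `x` has no other eigenvalues on the
orthogonal complement of `x` than `b` and `b / 4`: `(J - b) (J - b / 4) = 0` there. -/
def TwoEig {n : ℕ} (R : Ten n) (b : ℝ) : Prop :=
  ∀ x : Fin n → ℝ, ∑ a, x a ^ 2 = 1 → ∀ a c, ∑ e, Jm R x a e * Jm R x e c =
    5 / 4 * b * Jm R x a c - b ^ 2 / 4 * ((if a = c then 1 else 0) - x a * x c)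

end Pool.Agent.K1H63.EB
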