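import Pool.Agent.K1H63.EB.Main
import Pool.Agent.K1H63.EB.Pinch
import Pool.Agent.K1H63.EB.Rot
import Pool.Agent.K1H63.EB.TwoEig

/-!
# The equality case of the upper bound `8 m / (5 m - 3)`
-/

set_option autoImplicit false

open scoped BigOperators
open MeasureTheory

namespace Pool.Agent.K1H63.EB

section
variable {m : ℕ} {R : Ten (m + 1)}

theorem fx_zero {b : ℝ} (hg : ∀ L K, FData m b L K → 0 ≤ gfun L K) (hR : IsCurv R)
    (hE : IsEinstein R (m : ℝ)) (hb : SecLE R b) (h0 : boch (m : ℝ) R = 0)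
    {x : Fin (m + 1) → ℝ} (hx : ∑ a, x a ^ 2 = 1) : fx R (m : ℝ) x = 0 := by
  obtain ⟨ι, _, D, j, hj, hw⟩ := exists_design_node x hx
  have h1 : D.av (fx R (m : ℝ)) = 0 := by rw [av_fx D hR hE, h0, mul_zero]
  have h2 : ∀ i ∈ Finset.univ, 0 ≤ D.w i * fx R (m : ℝ) (D.X i) := fun i _ => by
    obtain ⟨L, K, hd, he, -⟩ := fx_data hR hE hb (D.unit i)
    rw [he]
    exact mul_nonneg (D.w_nonneg i) (hg L K hd)
  have h3 := (Finset.sum_eq_zero_iff_of_nonneg h2).1 h1 j (Finset.mem_univ j)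
  rw [hj] at h3
  rcases mul_eq_zero.1 h3 with h4 | h4
  · exact absurd h4 hw.ne'
  · exact h4

/-- the identity for the Jacobi operator from its eigenvalues -/
theorem eig_identity {x : Fin (m + 1) → ℝ} {w : Fin m → Fin (m + 1) → ℝ} {l : Fin m → ℝ} {b : ℝ}
    (h1 : ∀ i j, ∑ a, w i a * w j a = if i = j then 1 else 0)
    (hc : ∀ a b, (∑ i, w i a * w i b) + x a * x b = if a = b then 1 else 0)
    (hJ : ∀ a b, Jm R x a b = ∑ i, l i * (w i a * w i b))
    (hl : ∀ i, l i = b ∨ l i = b / 4) (a c : Fin (m + 1)) :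
    ∑ e, Jm R x a e * Jm R x e c =
      5 / 4 * b * Jm R x a c - b ^ 2 / 4 * ((if a = c then 1 else 0) - x a * x c) := by
  have e1 : ∑ e, Jm R x a e * Jm R x e c = ∑ i, l i ^ 2 * (w i a * w i c) := by
    have e2 : ∀ e, Jm R x a e * Jm R x e c =
        ∑ i, ∑ j, (l i * l j * (w i a * w j c)) * (w i e * w j e) := by
      intro e
      rw [hJ, hJ, Finset.sum_mul_sum]
      exact Finset.sum_congr rfl fun i _ => Finset.sum_congr rfl fun j _ => by ring
    simp only [e2]
    rw [Finset.sum_comm]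
    refine Finset.sum_congr rfl fun i _ => ?_
    rw [Finset.sum_comm]
    have e3 : ∀ j, ∑ e, (l i * l j * (w i a * w j c)) * (w i e * w j e) =
        (l i * l j * (w i a * w j c)) * (if i = j then 1 else 0) := by
      intro j
      rw [← Finset.mul_sum, h1]
    simp only [e3, mul_ite, mul_one, mul_zero, Finset.sum_ite_eq, Finset.mem_univ, if_true]
    ring
  rw [e1, hJ a c, ← hc a c]
  have e4 : ∀ i, l i ^ 2 = 5 / 4 * b * l i - b ^ 2 / 4 := by
    intro i
    rcases hl i with h | h <;> rw [h] <;> ring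
  simp only [e4, sub_mul, Finset.sum_sub_distrib, ← Finset.mul_sum]
  have e5 : ∑ i, 5 / 4 * b * l i * (w i a * w i c) =
      5 / 4 * b * ∑ i, l i * (w i a * w i c) := by
    rw [Finset.mul_sum]
    exact Finset.sum_congr rfl fun i _ => by ring
  rw [e5]
  ring

/-- the alternative for a unit vector -/
theorem alt_unit (hm : 1 ≤ m) (hc : Cert m) (hR : IsCurv R) (hE : IsEinstein R (m : ℝ))
    (hb : SecLE R (bd m)) (h0 : boch (m : ℝ) R = 0) {x : Fin (m + 1) → ℝ}
    (hx : ∑ a, x a ^ 2 = 1) :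
    mJJ R x = (m : ℝ) ∨ (Odd m ∧ mJJ R x = (m : ℝ) * (bd m * (5 - bd m) / 4) ∧
      ∀ a c, ∑ e, Jm R x a e * Jm R x e c = 5 / 4 * bd m * Jm R x a c
        - bd m ^ 2 / 4 * ((if a = c then 1 else 0) - x a * x c)) := by
  have hz := fx_zero (fun L K h => (gfun_of_cert hm hc h).1) hR hE hb h0 hx
  obtain ⟨w, l, o1, o2, hl, hs, hrow, t2, t3, t4, hcc, hJ⟩ := frame_data' hR hE hx
  obtain ⟨s1, s2⟩ := frame_sec (R := R) hx o1 o2 (Q := fun t => t ≤ bd m) hb
  have hd : FData m (bd m) l (fun i j => quad R (w i) (w j)) :=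
    ⟨fun i j => quad_symm hR _ _, fun i => quad_self hR _, s2, hrow,
      fun i => by rw [← hl i]; exact s1 i, hs⟩
  have he : fx R (m : ℝ) x = gfun l (fun i j => quad R (w i) (w j)) := by
    unfold fx gfun
    rw [t2, t3, t4]
    push_cast
    ring
  rw [he] at hz
  rcases (gfun_of_cert hm hc hd).2 hz with h1 | h1
  · left
    rw [t2]
    simp [h1]
  · right
    refine ⟨?_, ?_, fun a c => eig_identity o1 hcc hJ h1 a c⟩
    · -- parity
      classical
      have hm1 : (1 : ℝ) ≤ m := by exact_mod_cast hm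
      let N : ℕ := (Finset.univ.filter fun i => l i = bd m).card
      have hb1 := bd_gt hm
      have e1 : ∀ i, l i = bd m / 4 + (if l i = bd m then 3 / 4 * bd m else 0) := by
        intro i
        rcases h1 i with h2 | h2
        · rw [if_pos h2, h2]
          ring
        · have : l i ≠ bd m := by
            rw [h2]
            intro h3
            linarith
          rw [if_neg this, h2, add_zero]
      have e2 : ∑ i, l i = (m : ℝ) * (bd m / 4) + (N : ℝ) * (3 / 4 * bd m) := by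
        rw [Finset.sum_congr rfl fun i _ => e1 i, Finset.sum_add_distrib]
        congr 1
        · simp
        · rw [Finset.sum_ite, Finset.sum_const_zero, add_zero, Finset.sum_const, nsmul_eq_mul]
      rw [hs] at e2
      have e3 := bd_eq hm
      have e4 : (m : ℝ) = 2 * (N : ℝ) + 1 := by
        have h5 : (0 : ℝ) < 5 * m - 3 := by linarith
        have h6 : (m : ℝ) * (5 * m - 3) * 4 =
            (m : ℝ) * (8 * m) + 3 * (N : ℝ) * (8 * m) := by
          have : (m : ℝ) * (5 * m - 3) * 4 = ((m : ℝ) * (bd m / 4) + (N : ℝ) * (3 / 4 * bd m)) *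
              (5 * m - 3) * 4 := by rw [← e2]
          rw [this]
          linear_combination ((m : ℝ) + 3 * (N : ℝ)) * e3
        have h7 : (m : ℝ) * (12 * m - 12 - 24 * (N : ℝ)) = 0 := by linarith
        rcases mul_eq_zero.1 h7 with h8 | h8
        · linarith
        · linarith
      refine ⟨N, ?_⟩
      exact_mod_cast e4
    · rw [t2]
      have e4 : ∀ i, l i ^ 2 = 5 / 4 * bd m * l i - bd m ^ 2 / 4 := by
        intro i
        rcases h1 i with h | h <;> rw [h] <;> ring
      simp only [e4, Finset.sum_sub_distrib, ← Finset.mul_sum, hs]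
      simp
      ring

theorem continuous_mJJ {n : ℕ} (R : Ten n) : Continuous (mJJ R) := by
  unfold mJJ Jm
  fun_prop

/-- a continuous function on the unit sphere with two values is constant -/
theorem sphere_const {f : (Fin (m + 1) → ℝ) → ℝ} (hm : 1 ≤ m) (hf : Continuous f) {α β : ℝ}
    (h : ∀ x : Fin (m + 1) → ℝ, ∑ a, x a ^ 2 = 1 → f x = α ∨ f x = β)
    {x y : Fin (m + 1) → ℝ} (hx : ∑ a, x a ^ 2 = 1) (hy : ∑ a, y a ^ 2 = 1) : f x = f y := by
  have hr : 1 < Module.rank ℝ (EuclideanSpace ℝ (Fin (m + 1))) := by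
    rw [← Module.finrank_eq_rank, finrank_euclideanSpace_fin]
    have : 1 < m + 1 := by omega
    exact_mod_cast this
  have hS := isPreconnected_sphere hr (0 : EuclideanSpace ℝ (Fin (m + 1))) 1
  have hmem : ∀ z : Fin (m + 1) → ℝ, ∑ a, z a ^ 2 = 1 →
      (WithLp.toLp 2 z : EuclideanSpace ℝ (Fin (m + 1))) ∈ Metric.sphere 0 1 := by
    intro z hz
    rw [mem_sphere_zero_iff_norm, EuclideanSpace.norm_eq]
    simp only [Real.norm_eq_abs, sq_abs]
    rw [hz, Real.sqrt_one]
  have hmem' : ∀ v : EuclideanSpace ℝ (Fin (m + 1)), v ∈ Metric.sphere (0 : EuclideanSpace ℝ (Fin (m + 1))) 1 →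
      ∑ a, v.ofLp a ^ 2 = 1 := by
    intro v hv
    rw [mem_sphere_zero_iff_norm, EuclideanSpace.norm_eq] at hv
    simp only [Real.norm_eq_abs, sq_abs] at hv
    rwa [Real.sqrt_eq_one] at hv
  let g : EuclideanSpace ℝ (Fin (m + 1)) → ℝ := fun v => f v.ofLp
  have hg : Continuous g := hf.comp (PiLp.continuous_ofLp 2 _)
  have hT : Set.MapsTo g (Metric.sphere 0 1) ({α, β} : Set ℝ) := by
    intro v hv
    exact h _ (hmem' v hv)
  have := hS.constant_of_mapsTo (T := ({α, β} : Set ℝ)) (Set.toFinite ({α, β} : Set ℝ)).isDiscrete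
    hg.continuousOn hT (hmem x hx) (hmem y hy)
  exact this

/-- the structure of the curvature tensor when the curvature term vanishes -/
theorem struct_of_boch (hm : 2 ≤ m) (hc : Cert m) (hR : IsCurv R) (hE : IsEinstein R (m : ℝ))
    (hb : SecLE R (bd m)) (h0 : boch (m : ℝ) R = 0) :
    (∀ a b c d, R a b c d = R1 a b c d) ∨ (Odd m ∧ TwoEig R (bd m)) := by
  have hm1 : 1 ≤ m := by omega
  have hm2 : (2 : ℝ) ≤ m := by exact_mod_cast hm
  have hb1 := bd_gt hm1
  have hb4 : bd m < 4 := by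
    unfold bd
    rw [div_lt_iff₀ (by linarith)]
    linarith
  have hne : (m : ℝ) ≠ (m : ℝ) * (bd m * (5 - bd m) / 4) := by
    intro h
    have h1 : (m : ℝ) * ((bd m - 1) * (4 - bd m)) = 0 := by linarith
    have h2 : 0 < (m : ℝ) * ((bd m - 1) * (4 - bd m)) :=
      mul_pos (by linarith) (mul_pos (by linarith) (by linarith))
    linarith
  have halt : ∀ x : Fin (m + 1) → ℝ, ∑ a, x a ^ 2 = 1 → _ :=
    fun x hx => alt_unit hm1 hc hR hE hb h0 hx
  have hval : ∀ x : Fin (m + 1) → ℝ, ∑ a, x a ^ 2 = 1 →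
      mJJ R x = (m : ℝ) ∨ mJJ R x = (m : ℝ) * (bd m * (5 - bd m) / 4) := by
    intro x hx
    rcases halt x hx with h | h
    · exact Or.inl h
    · exact Or.inr h.2.1
  let e : Fin (m + 1) → ℝ := fun a => if a = 0 then 1 else 0
  have he : ∑ a, e a ^ 2 = 1 := by simp [e]
  have hconst : ∀ x : Fin (m + 1) → ℝ, ∑ a, x a ^ 2 = 1 → mJJ R x = mJJ R e :=
    fun x hx => sphere_const hm1 (continuous_mJJ R) hval hx he
  rcases hval e he with h1 | h1
  · left
    obtain ⟨ι, _, ⟨D⟩⟩ := exists_design (m + 1)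
    have h4 : D.av (mJJ R) = (m : ℝ) := by
      have h5 : ∀ i, D.w i * mJJ R (D.X i) = D.w i * (m : ℝ) := by
        intro i
        rw [hconst _ (D.unit i), h1]
      unfold Design.av
      rw [Finset.sum_congr rfl fun i _ => h5 i, ← Finset.sum_mul, D.zero', one_mul]
    rw [D.av_JJ hR, nR_ein hE] at h4
    refine const_of_nS hR hE ?_
    unfold k4 at h4
    push_cast at h4
    have hne : ((m : ℝ) + 1) * ((m : ℝ) + 1 + 2) ≠ 0 := by positivity
    rw [div_mul_eq_mul_div, one_mul, div_eq_iff hne] at h4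
    linarith
  · right
    have h2 : ∀ x : Fin (m + 1) → ℝ, ∑ a, x a ^ 2 = 1 → mJJ R x ≠ (m : ℝ) := by
      intro x hx
      rw [hconst x hx, h1]
      exact hne.symm
    refine ⟨?_, ?_⟩
    · rcases halt e he with h | h
      · exact absurd h (h2 e he)
      · exact h.1
    · intro x hx
      rcases halt x hx with h | h
      · exact absurd h (h2 x hx)
      · exact h.2.2

/-! ### scaling -/

theorem Jm_scl {n : ℕ} (k : ℝ) (R : Ten n) (x : Fin n → ℝ) (a b : Fin n) :
    Jm (scl k R) x a b = k * Jm R x a b := by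
  unfold Jm scl
  simp only [Finset.mul_sum]
  exact Finset.sum_congr rfl fun _ _ => Finset.sum_congr rfl fun _ _ => by ring

theorem twoEig_scl {n : ℕ} {R : Ten n} {b κ : ℝ} (hκ : 0 < κ) (h : TwoEig (scl κ⁻¹ R) b) :
    TwoEig R (b * κ) := by
  intro x hx a c
  have h1 := h x hx a c
  simp only [Jm_scl] at h1
  have h2 : ∑ e, Jm R x a e * Jm R x e c =
      κ ^ 2 * ∑ e, κ⁻¹ * Jm R x a e * (κ⁻¹ * Jm R x e c) := by
    rw [Finset.mul_sum]
    refine Finset.sum_congr rfl fun e _ => ?_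
    field_simp
  rw [h2, h1]
  field_simp

/-- the same for `Ric = m κ` -/
theorem struct_scaled {κ : ℝ} (hm : 2 ≤ m) (hc : Cert m) (hR : IsCurv R) (hκ : 0 < κ)
    (hE : IsEinstein R ((m : ℝ) * κ)) (hb : SecLE R (bd m * κ))
    (h0 : boch ((m : ℝ) * κ) R = 0) : IsConst R κ ∨ (Odd m ∧ TwoEig R (bd m * κ)) := by
  rw [boch_scaled hκ] at h0
  have h1 : boch (m : ℝ) (scl κ⁻¹ R) = 0 := by
    rcases mul_eq_zero.1 h0 with h | h
    · exact absurd h (by positivity)
    · exact h
  rcases struct_of_boch hm hc (scl_curv hR _) (scl_ein hκ hE) (scl_sec hκ hb) h1 with h2 | h2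
  · left
    intro a b c d
    have h3 := h2 a b c d
    unfold scl R1 dl at h3
    have h4 : R a b c d = κ * (κ⁻¹ * R a b c d) := by field_simp
    rw [h4, h3, ite_mul_ite, ite_mul_ite]
  · exact Or.inr ⟨h2.1, twoEig_scl hκ h2.2⟩

end

section
variable {m : ℕ} {P : Type} [TopologicalSpace P] [MeasurableSpace P] {μ : Measure P}

/-- Closed Einstein manifolds with `Ric = m κ`, `K ≤ bd m κ`. -/
theorem FrameCalc.sharp [μ.IsOpenPosMeasure] (hm : 2 ≤ m) (hc : Cert m)
    (F : FrameCalc (m + 1) P μ) {κ : ℝ} (hκ : 0 < κ)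
    (hE : ∀ p, IsEinstein (F.T p) ((m : ℝ) * κ)) (hb : ∀ p, SecLE (F.T p) (bd m * κ)) :
    (∀ i a b c d p, F.H i (F.R a b c d) p = 0) ∧
      ∀ p, IsConst (F.T p) κ ∨ (Odd m ∧ TwoEig (F.T p) (bd m * κ)) := by
  have hm1 : 1 ≤ m := by omega
  have h1 := F.parallel hE fun q => boch_nonpos_scaled
    (fun L K h => (gfun_of_cert hm1 hc h).1) (F.curv q) hκ (hE q) (hb q)
  exact ⟨h1.2, fun p => struct_scaled hm hc (F.curv p) hκ (hE p) (hb p) (h1.1 p)⟩

/-- a smaller bound -/
theorem strict_of_cert (hm : 2 ≤ m) (hc : Cert m) {b' : ℝ} (hb' : b' < bd m) (L : Fin m → ℝ)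
    (K : Fin m → Fin m → ℝ) (h : FData m b' L K) :
    0 ≤ gfun L K ∧ (gfun L K = 0 → ∀ i, L i = 1) := by
  have hm2 : (2 : ℝ) ≤ m := by exact_mod_cast hm
  have h1 : FData m (bd m) L K := ⟨h.symm, h.diag, fun i j hij => (h.le i j hij).trans hb'.le,
    h.row, fun i => (h.leL i).trans hb'.le, h.sum⟩
  obtain ⟨g1, g2⟩ := gfun_of_cert (by omega) hc h1
  refine ⟨g1, fun hz => ?_⟩
  rcases g2 hz with h2 | h2
  · exact h2
  · exfalso
    have h3 : ∀ i, L i = bd m / 4 := by
      intro i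
      rcases h2 i with h4 | h4
      · exact absurd (h.leL i) (by rw [h4]; exact not_le.2 hb')
      · exact h4
    have h5 := h.sum
    simp only [h3, Finset.sum_const, Finset.card_univ, Fintype.card_fin, nsmul_eq_mul] at h5
    have h6 := bd_eq (m := m) (by omega)
    have h7 : bd m = 4 := by
      have : (m : ℝ) * (bd m / 4 - 1) = 0 := by linarith
      rcases mul_eq_zero.1 this with h8 | h8
      · linarith
      · linarith
    rw [h7] at h6
    linarith

theorem mJJ_const {R : Ten (m + 1)} {κ : ℝ} (h : IsConst R κ) {x : Fin (m + 1) → ℝ}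
    (hx : ∑ a, x a ^ 2 = 1) : mJJ R x = (m : ℝ) * κ ^ 2 := by
  have h1 : ∀ a b, Jm R x a b = κ * (dl a b - x a * x b) := by
    intro a b
    unfold Jm
    have e : ∀ p q, R p a q b * (x p * x q) =
        κ * (dl a b * (dl p q * (x p * x q)) - (dl p b * x p) * (dl a q * x q)) := by
      intro p q
      rw [h p a q b, ← ite_mul_ite, ← ite_mul_ite]
      unfold dl
      ring
    simp only [e, ← Finset.mul_sum, Finset.sum_sub_distrib]
    have e1 : ∑ p, ∑ q, dl p q * (x p * x q) = 1 := by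
      rw [← hx]
      refine Finset.sum_congr rfl fun p _ => ?_
      simp [dl]
      ring
    have e2 : ∑ p, dl p b * x p * ∑ q, dl a q * x q = x a * x b := by
      simp [dl]
      ring
    rw [e1, e2, mul_one]
  unfold mJJ
  simp only [h1]
  have e : ∀ a b, κ * (dl a b - x a * x b) * (κ * (dl a b - x a * x b)) =
      κ ^ 2 * (dl a b * dl a b - 2 * (dl a b * (x a * x b)) + x a ^ 2 * x b ^ 2) := by
    intro a b
    ring
  simp only [e, ← Finset.mul_sum, Finset.sum_add_distrib, Finset.sum_sub_distrib]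
  have e1 : ∑ a : Fin (m + 1), ∑ b, dl a b * dl a b = (m : ℝ) + 1 := by simp [dl]
  have e2 : ∑ a, ∑ b, dl a b * (x a * x b) = 1 := by
    rw [← hx]
    refine Finset.sum_congr rfl fun p _ => ?_
    simp [dl]
    ring
  rw [e1, e2, hx]
  simp only [mul_one, hx]
  ring

theorem mJJ_two {R : Ten (m + 1)} {κ b : ℝ} (hR : IsCurv R) (hE : IsEinstein R ((m : ℝ) * κ))
    (h : TwoEig R b) {x : Fin (m + 1) → ℝ} (hx : ∑ a, x a ^ 2 = 1) :
    mJJ R x = 5 / 4 * b * ((m : ℝ) * κ) - b ^ 2 / 4 * m := by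
  have h1 : mJJ R x = ∑ a, ∑ e, Jm R x a e * Jm R x e a := by
    unfold mJJ
    refine Finset.sum_congr rfl fun a _ => Finset.sum_congr rfl fun e _ => ?_
    rw [Jm_symm x hR a e]
  have h2 : ∑ a, Jm R x a a = (m : ℝ) * κ := by
    have e1 : ∑ a, Jm R x a a = jx R x := tr_MJ (R := R) (x := x)
    rw [e1]
    unfold jx
    have e2 : ∀ p, ∑ q, Rc R p q * (x p * x q) = (m : ℝ) * κ * x p ^ 2 := by
      intro p
      rw [Finset.sum_eq_single p]
      · rw [hE, if_pos rfl]
        ring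
      · intro q _ hq
        rw [hE, if_neg (Ne.symm hq), zero_mul]
      · simp
    simp only [e2]
    rw [← Finset.mul_sum, hx, mul_one]
  rw [h1]
  simp only [h x hx, if_true, Finset.sum_sub_distrib, ← Finset.mul_sum]
  rw [h2]
  have e3 : ∑ a, x a * x a = 1 := by
    rw [← hx]
    exact Finset.sum_congr rfl fun a _ => by ring
  rw [e3]
  simp

/-- on a connected frame bundle one alternative holds everywhere -/
theorem FrameCalc.sharp_connected [μ.IsOpenPosMeasure] [PreconnectedSpace P] (hm : 2 ≤ m)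
    (hc : Cert m) (F : FrameCalc (m + 1) P μ) {κ : ℝ} (hκ : 0 < κ)
    (hE : ∀ p, IsEinstein (F.T p) ((m : ℝ) * κ)) (hb : ∀ p, SecLE (F.T p) (bd m * κ)) :
    (∀ p, IsConst (F.T p) κ) ∨ (Odd m ∧ ∀ p, TwoEig (F.T p) (bd m * κ)) := by
  have hm1 : 1 ≤ m := by omega
  have hm2 : (2 : ℝ) ≤ m := by exact_mod_cast hm
  have hb1 := bd_gt hm1
  have hb4 : bd m < 4 := by
    unfold bd
    rw [div_lt_iff₀ (by linarith)]
    linarith
  have halt := (F.sharp hm hc hκ hE hb).2
  let e : Fin (m + 1) → ℝ := fun a => if a = 0 then 1 else 0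
  have he : ∑ a, e a ^ 2 = 1 := by simp [e]
  have hcont : Continuous fun p => mJJ (F.T p) e := by
    have hR : ∀ a b c d, Continuous (F.R a b c d) := fun a b c d => F.continuous _ (F.R_mem a b c d)
    unfold mJJ Jm FrameCalc.T
    fun_prop
  have hval : ∀ p, mJJ (F.T p) e = (m : ℝ) * κ ^ 2 ∨
      mJJ (F.T p) e = 5 / 4 * (bd m * κ) * ((m : ℝ) * κ) - (bd m * κ) ^ 2 / 4 * m := by
    intro p
    rcases halt p with h | h
    · exact Or.inl (mJJ_const h he)
    · exact Or.inr (mJJ_two (F.curv p) (hE p) h.2 he)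
  have hne : (m : ℝ) * κ ^ 2 ≠ 5 / 4 * (bd m * κ) * ((m : ℝ) * κ) - (bd m * κ) ^ 2 / 4 * m := by
    intro h
    have h1 : (m : ℝ) * κ ^ 2 * ((bd m - 1) * (4 - bd m)) = 0 := by linarith
    have h2 : 0 < (m : ℝ) * κ ^ 2 * ((bd m - 1) * (4 - bd m)) :=
      mul_pos (by positivity) (mul_pos (by linarith) (by linarith))
    linarith
  have hconst : ∀ p q, mJJ (F.T p) e = mJJ (F.T q) e := by
    intro p q
    have hT : Set.MapsTo (fun p => mJJ (F.T p) e) Set.univ
        ({(m : ℝ) * κ ^ 2, 5 / 4 * (bd m * κ) * ((m : ℝ) * κ) - (bd m * κ) ^ 2 / 4 * m} : Set ℝ) :=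
      fun p _ => hval p
    exact isPreconnected_univ.constant_of_mapsTo (Set.toFinite _).isDiscrete
      hcont.continuousOn hT (Set.mem_univ p) (Set.mem_univ q)
  by_cases hall : ∀ p, IsConst (F.T p) κ
  · exact Or.inl hall
  · right
    push Not at hall
    obtain ⟨p0, hp0⟩ := hall
    have h0 := (halt p0).resolve_left hp0
    refine ⟨h0.1, fun p => ?_⟩
    rcases halt p with h | h
    · exfalso
      have h1 := mJJ_const h he
      have h2 : mJJ (F.T p0) e = _ := mJJ_two (F.curv p0) (hE p0) h0.2 he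
      rw [hconst p p0, h2] at h1
      exact hne h1.symm
    · exact h.2

end

end Pool.Agent.K1H63.EB
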